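import Pool.Agent.LHC.Defs

/-!
# Graphs with ports: basic facts

`adj_iff` (→): `SimpleGraph.fromRel_adj`: `u ≠ v` and (there is a port `y` of `u` with `nb u y = some v`, or a port `y` of `v` with
`nb v y = some u`). In the second case `ax` gives `nb u (rp v y) = some v` and `φ` with `φ (p v) = rp v y`, `φ y = p u`, so `H.Adj (p u) (rp v y)`
because `H.Adj (p v) y`. (←) `u ≠ v` by `irr`.
`locinj_iff`: with `adj_iff`; if `f v = f v'` for neighbours `v, v'` at the ports `y, y'` of `u` then `v = v'`, so `y = y'` by `inj`; conversely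
`y = y'` gives `v = v'`.
-/

namespace Pool.Agent.LHC

open Pool.Agent.LIH Pool.Agent.LHA Pool.Agent.LHB

variable {V W : Type} {H : SimpleGraph V} {P : Rg V W}

theorem Rg.adj_iff (hP : P.Ok H) (u v : W) :
    (P.G H).Adj u v ↔ ∃ y, H.Adj (P.p u) y ∧ P.nb u y = some v := by
  unfold Rg.G
  rw [SimpleGraph.fromRel_adj]
  constructor
  · rintro ⟨_, h | ⟨y, hy, hn⟩⟩
    · exact h
    · obtain ⟨h1, φ, h2, h3⟩ := hP.ax v y u hy hn
      refine ⟨P.rp v y, ?_, h1⟩
      have h4 := (φ.map_adj_iff (v := P.p v) (w := y)).2 hy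
      rw [h2, h3] at h4
      exact h4.symm
  · rintro ⟨y, hy, hn⟩
    refine ⟨?_, Or.inl ⟨y, hy, hn⟩⟩
    rintro rfl
    exact hP.irr u y hy hn

theorem Rg.fv_some {f : W → V} {u v : W} {y : V} (h : P.nb u y = some v) : P.fv f u y = f v :=
  by
  unfold Rg.fv
  rw [h]
  rfl

theorem Rg.locinj_iff (hP : P.Ok H) (f : W → V) : LocInj (P.G H) H f ↔
    (∀ u y v, H.Adj (P.p u) y → P.nb u y = some v → H.Adj (f u) (f v)) ∧
    ∀ u y y' v v', H.Adj (P.p u) y → H.Adj (P.p u) y' → P.nb u y = some v →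
      P.nb u y' = some v' → f v = f v' → y = y' := by
  constructor
  · rintro ⟨h1, h2⟩
    refine ⟨?_, ?_⟩
    · intro u y v hy hn
      exact h1 u v ((Rg.adj_iff hP u v).2 ⟨y, hy, hn⟩)
    · intro u y y' v v' hy hy' hn hn' he
      have h3 : v = v' := h2 u ((Rg.adj_iff hP u v).2 ⟨y, hy, hn⟩) ((Rg.adj_iff hP u v').2 ⟨y', hy', hn'⟩) he
      subst h3
      exact hP.inj u y y' v hy hy' hn hn'
  · rintro ⟨h1, h2⟩
    refine ⟨?_, ?_⟩
    · intro u v huv
      obtain ⟨y, hy, hn⟩ := (Rg.adj_iff hP u v).1 huv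
      exact h1 u y v hy hn
    · intro u v hv v' hv' he
      obtain ⟨y, hy, hn⟩ := (Rg.adj_iff hP u v).1 hv
      obtain ⟨y', hy', hn'⟩ := (Rg.adj_iff hP u v').1 hv'
      have h3 := h2 u y y' v v' hy hy' hn hn' he
      subst h3
      rw [hn] at hn'
      exact Option.some.inj hn'

theorem Rg.adj_port (hP : P.Ok H) {u v : W} {y : V} (hy : H.Adj (P.p u) y)
    (h : P.nb u y = some v) : (P.G H).Adj u v := by
  exact (Rg.adj_iff hP u v).2 ⟨y, hy, h⟩

end Pool.Agent.LHC
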