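import Pool.Agent.LHC.Defs
import Pool.Agent.LHC.RgB

/-!
# Part A: the ports are consistent

Write `y0 = D.y`. Facts: `X ≠ c i`, `c i ≠ c j` for `i ≠ j`, `y0 ≠ X`, `y0 ≠ x2`, `y0 ≠ x3`, `X ≠ x2`, `X ≠ x3`, `x2 ≠ x3`, `I.v1 e ≠ I.v2 e`. In `ax` take `φ` = identity except for the ports of `so y0` at `X`
and of `st 0` at `c 2`, `c 3`, where `D.tr` gives `φ` with `φ X = X` and `φ y0 = c i` resp. `φ (c i) = y0`.
-/

namespace Pool.Agent.LHC

open Pool.Agent.LIH Pool.Agent.LHA Pool.Agent.LHB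

variable {V : Type} {H : SimpleGraph V} (D : DA H) (I : IA)

section values

open Classical in
theorem aok_nb_t (k : I.VV × I.EE) (z : V) : (coreA D I).nb (k, .t) z =
    if z = D.x2 then some (k, .sy D.x2)
    else if z = D.x3 then some ((k.1, I.nx.symm k.2), .sy D.x3)
    else if z = D.X then some (k, .so D.X) else none := rfl

open Classical in
theorem aok_nb_st (k : I.VV × I.EE) (σ : Fin 3) (z : V) : (coreA D I).nb (k, .st σ) z =
    if z = D.c 1 then some (k, .vs σ (D.c 1))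
    else if z = D.c 0 then some ((sx I.pn (k, σ)).1, .vs (sx I.pn (k, σ)).2 (D.c 0))
    else if σ = 0 ∧ k.1 = I.v0 ∧ z = D.c 2 then some ((I.v1 k.2, k.2), .so D.y)
    else if σ = 0 ∧ k.1 = I.v0 ∧ z = D.c 3 then some ((I.v2 k.2, k.2), .so D.y)
    else none := rfl

open Classical in
theorem aok_nb_vs (k : I.VV × I.EE) (σ : Fin 3) (x z : V) : (coreA D I).nb (k, .vs σ x) z =
    if x = D.X ∧ (z = D.c 0 ∨ z = D.c 1) then none
    else if x = D.c 1 ∧ z = D.X then some (k, .st σ)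
    else if x = D.c 0 ∧ z = D.X then
      some (((sx I.pn).symm (k, σ)).1, .st ((sx I.pn).symm (k, σ)).2)
    else some (k, .vs σ z) := rfl

open Classical in
theorem aok_nb_sy (k : I.VV × I.EE) (x z : V) : (coreA D I).nb (k, .sy x) z =
    if x = D.y ∧ (z = D.x2 ∨ z = D.x3) then none
    else if x = D.x2 ∧ z = D.y then some (k, .t)
    else if x = D.x3 ∧ z = D.y then some ((k.1, I.nx k.2), .t)
    else some (k, .sy z) := rfl

open Classical in
theorem aok_nb_so (k : I.VV × I.EE) (x z : V) : (coreA D I).nb (k, .so x) z =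
    if x = D.X ∧ z = D.y then some (k, .t)
    else if x = D.y ∧ z = D.X then
      (if k.1 = I.v1 k.2 ∨ k.1 = I.v2 k.2 then some ((I.v0, k.2), .st 0) else none)
    else some (k, .so z) := rfl

open Classical in
theorem aok_rp_so (k : I.VV × I.EE) (x z : V) : (coreA D I).rp (k, .so x) z =
    if x = D.y ∧ z = D.X then (if k.1 = I.v1 k.2 then D.c 2 else D.c 3) else x := rfl

end values

theorem aok_c0 (i : Fin 4) : D.c i ≠ D.X := (D.adj_c i).ne'
theorem aok_y : D.y ≠ D.X := D.adj_y.ne'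
theorem aok_x2 : D.x2 ≠ D.y := D.adj_x2.ne'
theorem aok_x3 : D.x3 ≠ D.y := D.adj_x3.ne'
theorem aok_cc {i j : Fin 4} (h : i ≠ j) : D.c i ≠ D.c j := fun e => h (D.inj_c e)

/-- the identity as witness -/
theorem aok_id {a b c d : V} (h1 : a = b) (h2 : c = d) : ∃ φ : H ≃g H, φ a = b ∧ φ c = d :=
  ⟨SimpleGraph.Iso.refl, h1, h2⟩

theorem aok_ax_t (k : I.VV × I.EE) (z : V) (v) (h : (coreA D I).nb (k, .t) z = some v) :
    (coreA D I).nb v D.y = some (k, .t) ∧ ∃ φ : H ≃g H, φ D.y = D.y ∧ φ z = (coreA D I).p v := by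
  rw [aok_nb_t] at h
  split_ifs at h with h1 h2 h3
  · obtain rfl := Option.some.inj h
    refine ⟨?_, aok_id rfl h1⟩
    rw [aok_nb_sy, if_neg (fun e => aok_x2 D e.1), if_pos ⟨rfl, rfl⟩]
  · obtain rfl := Option.some.inj h
    refine ⟨?_, aok_id rfl h2⟩
    rw [aok_nb_sy, if_neg (fun e => aok_x3 D e.1), if_neg (fun e => D.ne_23 e.1.symm), if_pos ⟨rfl, rfl⟩]
    simp
  · obtain rfl := Option.some.inj h
    refine ⟨?_, aok_id rfl h3⟩
    rw [aok_nb_so, if_pos ⟨rfl, rfl⟩]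

theorem aok_ax_st (k : I.VV × I.EE) (σ : Fin 3) (z : V) (v) (h : (coreA D I).nb (k, .st σ) z = some v) :
    (coreA D I).nb v D.X = some (k, .st σ) ∧ ∃ φ : H ≃g H, φ D.X = D.X ∧ φ z = (coreA D I).p v := by
  rw [aok_nb_st] at h
  split_ifs at h with h1 h2 h3 h4
  · obtain rfl := Option.some.inj h
    refine ⟨?_, aok_id rfl h1⟩
    rw [aok_nb_vs, if_neg (fun e => aok_c0 D 1 e.1), if_pos ⟨rfl, rfl⟩]
  · obtain rfl := Option.some.inj h
    refine ⟨?_, aok_id rfl h2⟩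
    rw [aok_nb_vs, if_neg (fun e => aok_c0 D 0 e.1),
      if_neg (fun e => aok_cc D (i := 0) (j := 1) (by decide) e.1), if_pos ⟨rfl, rfl⟩]
    simp
  · obtain rfl := Option.some.inj h
    obtain ⟨hσ, hk, hz⟩ := h3
    obtain ⟨φ, f1, f2⟩ := D.tr (D.c 2) D.y (D.adj_c 2) D.adj_y
    refine ⟨?_, φ, f1, by rw [hz, f2]; rfl⟩
    rw [aok_nb_so, if_neg (fun e => aok_y D e.1), if_pos ⟨rfl, rfl⟩, if_pos (Or.inl rfl), hσ]
    obtain ⟨k1, k2⟩ := k
    simp only at hk
    rw [hk]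
  · obtain rfl := Option.some.inj h
    obtain ⟨hσ, hk, hz⟩ := h4
    obtain ⟨φ, f1, f2⟩ := D.tr (D.c 3) D.y (D.adj_c 3) D.adj_y
    refine ⟨?_, φ, f1, by rw [hz, f2]; rfl⟩
    rw [aok_nb_so, if_neg (fun e => aok_y D e.1), if_pos ⟨rfl, rfl⟩, if_pos (Or.inr rfl), hσ]
    obtain ⟨k1, k2⟩ := k
    simp only at hk
    rw [hk]

theorem aok_ax_vs (k : I.VV × I.EE) (σ : Fin 3) (x z : V) (v)
    (h : (coreA D I).nb (k, .vs σ x) z = some v) :
    (coreA D I).nb v x = some (k, .vs σ x) ∧ ∃ φ : H ≃g H, φ x = x ∧ φ z = (coreA D I).p v := by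
  rw [aok_nb_vs] at h
  split_ifs at h with h1 h2 h3
  · obtain rfl := Option.some.inj h
    obtain ⟨rfl, rfl⟩ := h2
    refine ⟨?_, aok_id rfl rfl⟩
    rw [aok_nb_st, if_pos rfl]
  · obtain rfl := Option.some.inj h
    obtain ⟨rfl, rfl⟩ := h3
    refine ⟨?_, aok_id rfl rfl⟩
    rw [aok_nb_st, if_neg (aok_cc D (i := 0) (j := 1) (by decide)), if_pos rfl]
    simp
  · obtain rfl := Option.some.inj h
    refine ⟨?_, aok_id rfl rfl⟩
    rw [aok_nb_vs, if_neg, if_neg, if_neg]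
    · rintro ⟨rfl, rfl⟩
      exact h1 ⟨rfl, Or.inl rfl⟩
    · rintro ⟨rfl, rfl⟩
      exact h1 ⟨rfl, Or.inr rfl⟩
    · rintro ⟨rfl, rfl | rfl⟩
      · exact h3 ⟨rfl, rfl⟩
      · exact h2 ⟨rfl, rfl⟩

theorem aok_ax_sy (k : I.VV × I.EE) (x z : V) (v)
    (h : (coreA D I).nb (k, .sy x) z = some v) :
    (coreA D I).nb v x = some (k, .sy x) ∧ ∃ φ : H ≃g H, φ x = x ∧ φ z = (coreA D I).p v := by
  rw [aok_nb_sy] at h
  split_ifs at h with h1 h2 h3
  · obtain rfl := Option.some.inj h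
    obtain ⟨rfl, rfl⟩ := h2
    refine ⟨?_, aok_id rfl rfl⟩
    rw [aok_nb_t, if_pos rfl]
  · obtain rfl := Option.some.inj h
    obtain ⟨rfl, rfl⟩ := h3
    refine ⟨?_, aok_id rfl rfl⟩
    rw [aok_nb_t, if_neg D.ne_23.symm, if_pos rfl]
    simp
  · obtain rfl := Option.some.inj h
    refine ⟨?_, aok_id rfl rfl⟩
    rw [aok_nb_sy, if_neg, if_neg, if_neg]
    · rintro ⟨rfl, rfl⟩
      exact h1 ⟨rfl, Or.inr rfl⟩
    · rintro ⟨rfl, rfl⟩
      exact h1 ⟨rfl, Or.inl rfl⟩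
    · rintro ⟨rfl, rfl | rfl⟩
      · exact h2 ⟨rfl, rfl⟩
      · exact h3 ⟨rfl, rfl⟩

theorem aok_ax_so (k : I.VV × I.EE) (x z : V) (v)
    (h : (coreA D I).nb (k, .so x) z = some v) :
    (coreA D I).nb v ((coreA D I).rp (k, .so x) z) = some (k, .so x) ∧
      ∃ φ : H ≃g H, φ x = (coreA D I).rp (k, .so x) z ∧ φ z = (coreA D I).p v := by
  rw [aok_nb_so] at h
  split_ifs at h with h1 h2 h3
  · obtain rfl := Option.some.inj h
    obtain ⟨rfl, rfl⟩ := h1
    rw [aok_rp_so, if_neg (fun e => aok_y D e.1.symm)]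
    refine ⟨?_, aok_id rfl rfl⟩
    rw [aok_nb_t, if_neg D.ne_x2.symm, if_neg D.ne_x3.symm, if_pos rfl]
  · obtain rfl := Option.some.inj h
    obtain ⟨rfl, rfl⟩ := h2
    rw [aok_rp_so, if_pos ⟨rfl, rfl⟩]
    by_cases hk : k.1 = I.v1 k.2
    · rw [if_pos hk]
      obtain ⟨φ, f1, f2⟩ := D.tr D.y (D.c 2) D.adj_y (D.adj_c 2)
      refine ⟨?_, φ, f2, f1⟩
      rw [aok_nb_st, if_neg (aok_cc D (i := 2) (j := 1) (by decide)),
        if_neg (aok_cc D (i := 2) (j := 0) (by decide)), if_pos ⟨rfl, rfl, rfl⟩]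
      obtain ⟨k1, k2⟩ := k
      simp only at hk
      rw [hk]
    · rw [if_neg hk]
      have hk' : k.1 = I.v2 k.2 := h3.resolve_left hk
      obtain ⟨φ, f1, f2⟩ := D.tr D.y (D.c 3) D.adj_y (D.adj_c 3)
      refine ⟨?_, φ, f2, f1⟩
      rw [aok_nb_st, if_neg (aok_cc D (i := 3) (j := 1) (by decide)),
        if_neg (aok_cc D (i := 3) (j := 0) (by decide)),
        if_neg (fun e => aok_cc D (i := 3) (j := 2) (by decide) e.2.2), if_pos ⟨rfl, rfl, rfl⟩]
      obtain ⟨k1, k2⟩ := k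
      simp only at hk'
      rw [hk']
  · obtain rfl := Option.some.inj h
    rw [aok_rp_so, if_neg h2]
    refine ⟨?_, aok_id rfl rfl⟩
    rw [aok_nb_so, if_neg, if_neg]
    · rintro ⟨rfl, rfl⟩
      exact h1 ⟨rfl, rfl⟩
    · rintro ⟨rfl, rfl⟩
      exact h2 ⟨rfl, rfl⟩

theorem aok_inj (u : (I.VV × I.EE) × ZA V) (y y' : V) (v) (h : (coreA D I).nb u y = some v)
    (h' : (coreA D I).nb u y' = some v) : y = y' := by
  obtain ⟨k, w⟩ := u
  cases w with
  | t =>
    rw [aok_nb_t] at h h'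
    have e23 := D.ne_23
    split_ifs at h h' with a1 a2 a3 a4 a5 a6 a7 a8 a9 <;>
      first
        | (simp_all; done)
        | (rw [← h'] at h; simp at h; done)
        | (rw [← h'] at h; simp [e23, e23.symm] at h; done)
        | (exact absurd h (by simp [← h', e23, e23.symm]))
  | st σ =>
    rw [aok_nb_st] at h h'
    have e10 := aok_cc D (i := 1) (j := 0) (by decide)
    have hv := I.ne k.2
    split_ifs at h h' with a1 a2 a3 a4 a5 a6 a7 a8 a9 a10 a11 a12 <;>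
      first
        | (simp_all; done)
        | (rw [← h'] at h; simp [e10, e10.symm, hv, hv.symm] at h; done)
        | (exact absurd h (by simp [← h', e10, e10.symm, hv, hv.symm]))
  | vs σ x =>
    rw [aok_nb_vs] at h h'
    split_ifs at h h' <;> (have e := h.trans h'.symm; clear h h'; simp_all)
  | sy x =>
    rw [aok_nb_sy] at h h'
    split_ifs at h h' <;> (have e := h.trans h'.symm; clear h h'; simp_all)
  | so x =>
    rw [aok_nb_so] at h h'
    split_ifs at h h' <;> (have e := h.trans h'.symm; clear h h'; simp_all)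

theorem aok_irr (u : (I.VV × I.EE) × ZA V) (y : V) (ha : H.Adj ((coreA D I).p u) y) :
    (coreA D I).nb u y ≠ some u := by
  obtain ⟨k, w⟩ := u
  cases w with
  | t =>
    rw [aok_nb_t]
    split_ifs <;> simp
  | st σ =>
    rw [aok_nb_st]
    split_ifs <;> simp
  | vs σ x =>
    have hne : y ≠ x := (show H.Adj x y from ha).ne'
    rw [aok_nb_vs]
    split_ifs <;> simp [hne]
  | sy x =>
    have hne : y ≠ x := (show H.Adj x y from ha).ne'
    rw [aok_nb_sy]
    split_ifs <;> simp [hne]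
  | so x =>
    have hne : y ≠ x := (show H.Adj x y from ha).ne'
    rw [aok_nb_so]
    split_ifs <;> simp [hne]

theorem coreA_ok : (coreA D I).Ok H where
  ax u y v hu h := by
    obtain ⟨k, w⟩ := u
    cases w with
    | t => exact aok_ax_t D I k y v h
    | st σ => exact aok_ax_st D I k σ y v h
    | vs σ x => exact aok_ax_vs D I k σ x y v h
    | sy x => exact aok_ax_sy D I k x y v h
    | so x => exact aok_ax_so D I k x y v h
  inj u y y' v _ _ h h' := aok_inj D I u y y' v h h'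
  irr u y hu := aok_irr D I u y hu

theorem opA_ok : OpOk H (coreA D I) (opA D I) := fun _ _ h => h

end Pool.Agent.LHC
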