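import Pool.Agent.LHC.Defs
import Pool.Agent.LHC.RgB
import Pool.Agent.LHC.AOk

/-!
# Part A: the adjacency relation of the cells in terms of numbers

The number of `k = (v, e)` is `K = (finProdFinEquiv k).1 = e + NE * v`, so `K / NE = v`, `K % NE = e` (`e < NE`). `v0 = 0`: `k.1 = v0` iff `K < NE`. `l = (k.1, finRotate k.2)` iff `RsA NE K L`. `k.1 = v1 k.2 ∨ k.1 = v2 k.2` iff `LkA v1 v2 NE K`. By `Rg.adj_iff` (`coreA_ok`) adjacent
means: there is a port with this neighbour. List of all edges (in both directions):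
`Q 0` (same cell): `t - sy x2`, `t - so X`, `st σ - vs σ (c 1)`, `st 0 - vs 1 (c 0)`, `st 1 - vs 2 (c 0)`, `vs σ x - vs σ z` if `H.Adj x z` and `(x, z)` is not a dart of `{X, c 0}`, `{X, c 1}`; `sy x - sy z` without `{y, x2}`, `{y, x3}`; `so x - so z` without `{X, y}`.
`Q 1 a b` (`a` in the cell `k`, `b` in its successor `(k.1, nx k.2)`): `sy x3 - t`, `st 2 - vs 0 (c 0)`.
`Q 2 a b` (`a` in a linked cell `k`, `b` in the cell `(v0, k.2)`, i.e. `OtA v1 v2 NE K L`): `so y - st 0`. Conversely `st 0` of the cell `(v0, e)` has at `c 2` the vertex `so y` of `(v1 e, e)`, at `c 3` that of `(v2 e, e)`: these are the linked cells `k` with `k.2 = e`.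
-/

namespace Pool.Agent.LHC

open Pool.Agent.LIH Pool.Agent.LHA Pool.Agent.LHB

/-- the relations -/
def AAc_Q {V : Type} {H : SimpleGraph V} (D : DA H) : Fin 3 → ZA V → ZA V → Prop
  | 0, .t, .sy x => x = D.x2
  | 0, .sy x, .t => x = D.x2
  | 0, .t, .so x => x = D.X
  | 0, .so x, .t => x = D.X
  | 0, .st σ, .vs σ' x => (σ' = σ ∧ x = D.c 1) ∨ (x = D.c 0 ∧ ((σ = 0 ∧ σ' = 1) ∨ (σ = 1 ∧ σ' = 2)))
  | 0, .vs σ' x, .st σ => (σ' = σ ∧ x = D.c 1) ∨ (x = D.c 0 ∧ ((σ = 0 ∧ σ' = 1) ∨ (σ = 1 ∧ σ' = 2)))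
  | 0, .vs σ x, .vs σ' x' => σ' = σ ∧ H.Adj x x' ∧ ¬ De D.X (D.c 0) x x' ∧ ¬ De D.X (D.c 1) x x'
  | 0, .sy x, .sy x' => H.Adj x x' ∧ ¬ De D.y D.x2 x x' ∧ ¬ De D.y D.x3 x x'
  | 0, .so x, .so x' => H.Adj x x' ∧ ¬ De D.X D.y x x'
  | 1, .sy x, .t => x = D.x3
  | 1, .st σ, .vs σ' x => σ = 2 ∧ σ' = 0 ∧ x = D.c 0
  | 2, .so x, .st σ => x = D.y ∧ σ = 0
  | _, _, _ => False

theorem AAc_gen {V : Type} {H : SimpleGraph V} (D : DA H) (I : IA) (k l : I.VV × I.EE)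
    (z z' : ZA V) :
    ((coreA D I).G H).Adj (k, z) (l, z') ↔
      (k = l ∧ AAc_Q D 0 z z') ∨
      (l = (k.1, I.nx k.2) ∧ AAc_Q D 1 z z') ∨
      (k = (l.1, I.nx l.2) ∧ AAc_Q D 1 z' z) ∨
      ((l = (I.v0, k.2) ∧ (k.1 = I.v1 k.2 ∨ k.1 = I.v2 k.2)) ∧ AAc_Q D 2 z z') ∨
      ((k = (I.v0, l.2) ∧ (l.1 = I.v1 l.2 ∨ l.1 = I.v2 l.2)) ∧ AAc_Q D 2 z' z) := by
  rw [Rg.adj_iff (coreA_ok D I)]
  obtain ⟨k1, k2⟩ := k
  obtain ⟨l1, l2⟩ := l
  have c01 : D.c 0 ≠ D.c 1 := fun h => by have := D.inj_c h; revert this; decide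
  have c20 : D.c 2 ≠ D.c 0 := fun h => by have := D.inj_c h; revert this; decide
  have c21 : D.c 2 ≠ D.c 1 := fun h => by have := D.inj_c h; revert this; decide
  have c30 : D.c 3 ≠ D.c 0 := fun h => by have := D.inj_c h; revert this; decide
  have c31 : D.c 3 ≠ D.c 1 := fun h => by have := D.inj_c h; revert this; decide
  have c32 : D.c 3 ≠ D.c 2 := fun h => by have := D.inj_c h; revert this; decide
  have yX : D.y ≠ D.X := D.adj_y.ne'
  have q23 := D.ne_23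
  have q2 := D.ne_x2
  have q3 := D.ne_x3
  have a2 := D.adj_x2
  have a3 := D.adj_x3
  have ay := D.adj_y
  have ac := D.adj_c
  cases z with
  | t =>
    constructor
    · rintro ⟨w, hw, h⟩
      simp only [coreA] at h hw
      split_ifs at h with h1 h2 h3
      · simp only [Option.some.injEq, Prod.mk.injEq] at h
        obtain ⟨⟨rfl, rfl⟩, rfl⟩ := h
        simp [AAc_Q]
      · simp only [Option.some.injEq, Prod.mk.injEq] at h
        obtain ⟨⟨rfl, rfl⟩, rfl⟩ := h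
        simp [AAc_Q]
      · simp only [Option.some.injEq, Prod.mk.injEq] at h
        obtain ⟨⟨rfl, rfl⟩, rfl⟩ := h
        simp [AAc_Q]
    · cases z' with
      | t => simp [AAc_Q]
      | st σ' => simp [AAc_Q]
      | vs σ' x' => simp [AAc_Q]
      | sy x' => 
        simp only [AAc_Q, and_false, false_or, or_false, Prod.mk.injEq]
        rintro (⟨⟨rfl, rfl⟩, rfl⟩ | ⟨⟨rfl, rfl⟩, rfl⟩)
        · exact ⟨D.x2, a2, by simp [coreA]⟩
        · exact ⟨D.x3, a3, by simp [coreA, q23.symm]⟩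
      | so x' =>
        simp only [AAc_Q, and_false, false_or, or_false, Prod.mk.injEq]
        rintro ⟨⟨rfl, rfl⟩, rfl⟩
        exact ⟨D.X, ay.symm, by simp [coreA, q2.symm, q3.symm]⟩
  | st σ => 
    constructor
    · rintro ⟨w, hw, h⟩
      simp only [coreA] at h hw
      split_ifs at h with h1 h2 h3 h4
      · simp only [Option.some.injEq, Prod.mk.injEq] at h
        obtain ⟨⟨rfl, rfl⟩, rfl⟩ := h
        simp [AAc_Q]
      · simp only [Option.some.injEq, Prod.mk.injEq] at h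
        obtain ⟨h5, rfl⟩ := h
        fin_cases σ
        · simp [sx] at h5 
          obtain ⟨rfl, rfl⟩ := h5
          simp [AAc_Q, sx]
        · simp [sx] at h5 
          obtain ⟨rfl, rfl⟩ := h5
          simp [AAc_Q, sx]
        · simp [sx, IA.pn] at h5 
          obtain ⟨rfl, rfl⟩ := h5
          simp [AAc_Q, sx]
      · simp only [Option.some.injEq, Prod.mk.injEq] at h
        obtain ⟨⟨rfl, rfl⟩, rfl⟩ := h
        obtain ⟨rfl, rfl, rfl⟩ := h3
        simp [AAc_Q]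
      · simp only [Option.some.injEq, Prod.mk.injEq] at h
        obtain ⟨⟨rfl, rfl⟩, rfl⟩ := h
        obtain ⟨rfl, rfl, rfl⟩ := h4
        simp [AAc_Q]
    · cases z' with
      | t => simp [AAc_Q]
      | st σ' => simp [AAc_Q]
      | vs σ' x' => 
        simp only [AAc_Q, and_false, false_or, or_false, Prod.mk.injEq]
        rintro (⟨⟨rfl, rfl⟩, (⟨rfl, rfl⟩ | ⟨rfl, (⟨rfl, rfl⟩ | ⟨rfl, rfl⟩)⟩)⟩ | ⟨⟨rfl, rfl⟩, rfl, rfl, rfl⟩)
        · exact ⟨D.c 1, ac 1, by simp [coreA]⟩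
        · exact ⟨D.c 0, ac 0, by simp [coreA, c01, sx]⟩
        · exact ⟨D.c 0, ac 0, by simp [coreA, c01, sx]⟩
        · exact ⟨D.c 0, ac 0, by simp [coreA, c01, sx, IA.pn]⟩
      | sy x' => simp [AAc_Q]
      | so x' =>
        simp only [AAc_Q, and_false, false_or, or_false, Prod.mk.injEq]
        rintro ⟨⟨⟨rfl, rfl⟩, (rfl | rfl)⟩, rfl, rfl⟩
        · exact ⟨D.c 2, ac 2, by simp [coreA, c20, c21]⟩
        · exact ⟨D.c 3, ac 3, by simp [coreA, c30, c31, c32]⟩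
  | vs σ x => 
    constructor
    · rintro ⟨w, hw, h⟩
      simp only [coreA] at h hw
      split_ifs at h with h1 h2 h3 h4
      · simp only [Option.some.injEq, Prod.mk.injEq] at h
        obtain ⟨⟨rfl, rfl⟩, rfl⟩ := h
        simp [AAc_Q, h2.1]
      · simp only [Option.some.injEq, Prod.mk.injEq] at h
        obtain ⟨h5, rfl⟩ := h
        obtain ⟨rfl, rfl⟩ := h3
        fin_cases σ
        · simp [sx, IA.pn] at h5 
          obtain ⟨rfl, rfl⟩ := h5
          simp [AAc_Q, sx, IA.pn]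
        · simp [sx, IA.pn] at h5 
          obtain ⟨rfl, rfl⟩ := h5
          simp [AAc_Q, sx]
        · simp [sx, IA.pn] at h5 
          obtain ⟨rfl, rfl⟩ := h5
          simp [AAc_Q, sx]
      · simp only [Option.some.injEq, Prod.mk.injEq] at h
        obtain ⟨⟨rfl, rfl⟩, rfl⟩ := h
        left
        refine ⟨rfl, rfl, hw, ?_, ?_⟩
        · rintro (⟨rfl, rfl⟩ | ⟨rfl, rfl⟩)
          · exact h1 ⟨rfl, Or.inl rfl⟩
          · exact h3 ⟨rfl, rfl⟩
        · rintro (⟨rfl, rfl⟩ | ⟨rfl, rfl⟩)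
          · exact h1 ⟨rfl, Or.inr rfl⟩
          · exact h2 ⟨rfl, rfl⟩
    · cases z' with
      | t => simp [AAc_Q]
      | st σ' => 
        simp only [AAc_Q, and_false, false_or, or_false, Prod.mk.injEq]
        rintro (⟨⟨rfl, rfl⟩, (⟨rfl, rfl⟩ | ⟨rfl, (⟨rfl, rfl⟩ | ⟨rfl, rfl⟩)⟩)⟩ | ⟨⟨rfl, rfl⟩, rfl, rfl, rfl⟩)
        · exact ⟨D.X, (ac 1).symm, by simp [coreA, (ac 1).ne']⟩
        · exact ⟨D.X, (ac 0).symm, by simp [coreA, (ac 0).ne', c01, sx]⟩
        · exact ⟨D.X, (ac 0).symm, by simp [coreA, (ac 0).ne', c01, sx]⟩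
        · exact ⟨D.X, (ac 0).symm, by simp [coreA, (ac 0).ne', c01, sx, IA.pn]⟩
      | vs σ' x' => 
        simp only [AAc_Q, and_false, false_or, or_false, Prod.mk.injEq]
        rintro ⟨⟨rfl, rfl⟩, rfl, hxx, hd0, hd1⟩
        refine ⟨x', hxx, ?_⟩
        simp only [coreA]
        rw [if_neg, if_neg, if_neg]
        · rintro ⟨rfl, rfl⟩
          exact hd0 (Or.inr ⟨rfl, rfl⟩)
        · rintro ⟨rfl, rfl⟩
          exact hd1 (Or.inr ⟨rfl, rfl⟩)
        · rintro ⟨rfl, (rfl | rfl)⟩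
          · exact hd0 (Or.inl ⟨rfl, rfl⟩)
          · exact hd1 (Or.inl ⟨rfl, rfl⟩)
      | sy x' => simp [AAc_Q]
      | so x' => simp [AAc_Q]
  | sy x => 
    constructor
    · rintro ⟨w, hw, h⟩
      simp only [coreA] at h hw
      split_ifs at h with h1 h2 h3
      · simp only [Option.some.injEq, Prod.mk.injEq] at h
        obtain ⟨⟨rfl, rfl⟩, rfl⟩ := h
        simp [AAc_Q, h2.1]
      · simp only [Option.some.injEq, Prod.mk.injEq] at h
        obtain ⟨⟨rfl, rfl⟩, rfl⟩ := h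
        simp [AAc_Q, h3.1]
      · simp only [Option.some.injEq, Prod.mk.injEq] at h
        obtain ⟨⟨rfl, rfl⟩, rfl⟩ := h
        left
        refine ⟨rfl, hw, ?_, ?_⟩
        · rintro (⟨rfl, rfl⟩ | ⟨rfl, rfl⟩)
          · exact h1 ⟨rfl, Or.inl rfl⟩
          · exact h2 ⟨rfl, rfl⟩
        · rintro (⟨rfl, rfl⟩ | ⟨rfl, rfl⟩)
          · exact h1 ⟨rfl, Or.inr rfl⟩
          · exact h3 ⟨rfl, rfl⟩
    · cases z' with
      | t => 
        simp only [AAc_Q, and_false, false_or, or_false, Prod.mk.injEq]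
        rintro (⟨⟨rfl, rfl⟩, rfl⟩ | ⟨⟨rfl, rfl⟩, rfl⟩)
        · exact ⟨D.y, a2.symm, by simp [coreA, a2.ne']⟩
        · exact ⟨D.y, a3.symm, by simp [coreA, q23.symm, a3.ne']⟩
      | st σ' => simp [AAc_Q]
      | vs σ' x' => simp [AAc_Q]
      | sy x' => 
        simp only [AAc_Q, and_false, false_or, or_false, Prod.mk.injEq]
        rintro ⟨⟨rfl, rfl⟩, hxx, hd0, hd1⟩
        refine ⟨x', hxx, ?_⟩
        simp only [coreA]
        rw [if_neg, if_neg, if_neg]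
        · rintro ⟨rfl, rfl⟩
          exact hd1 (Or.inr ⟨rfl, rfl⟩)
        · rintro ⟨rfl, rfl⟩
          exact hd0 (Or.inr ⟨rfl, rfl⟩)
        · rintro ⟨rfl, (rfl | rfl)⟩
          · exact hd0 (Or.inl ⟨rfl, rfl⟩)
          · exact hd1 (Or.inl ⟨rfl, rfl⟩)
      | so x' => simp [AAc_Q]
  | so x =>
    constructor
    · rintro ⟨w, hw, h⟩
      simp only [coreA] at h hw
      split_ifs at h with h1 h2 h3
      · simp only [Option.some.injEq, Prod.mk.injEq] at h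
        obtain ⟨⟨rfl, rfl⟩, rfl⟩ := h
        simp [AAc_Q, h1.1]
      · simp only [Option.some.injEq, Prod.mk.injEq] at h
        obtain ⟨⟨rfl, rfl⟩, rfl⟩ := h
        obtain ⟨rfl, rfl⟩ := h2
        right; right; right; left
        exact ⟨⟨rfl, h3⟩, rfl, rfl⟩
      · simp only [Option.some.injEq, Prod.mk.injEq] at h
        obtain ⟨⟨rfl, rfl⟩, rfl⟩ := h
        left
        refine ⟨rfl, hw, ?_⟩
        rintro (⟨rfl, rfl⟩ | ⟨rfl, rfl⟩)
        · exact h1 ⟨rfl, rfl⟩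
        · exact h2 ⟨rfl, rfl⟩
    · cases z' with
      | t => 
        simp only [AAc_Q, and_false, false_or, or_false, Prod.mk.injEq]
        rintro ⟨⟨rfl, rfl⟩, rfl⟩
        exact ⟨D.y, ay, by simp [coreA]⟩
      | st σ' => 
        simp only [AAc_Q, and_false, false_or, or_false, Prod.mk.injEq]
        rintro ⟨⟨⟨rfl, rfl⟩, hlk⟩, rfl, rfl⟩
        refine ⟨D.X, ay.symm, ?_⟩
        simp [coreA, yX, hlk]
      | vs σ' x' => simp [AAc_Q]
      | sy x' => simp [AAc_Q]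
      | so x' =>
        simp only [AAc_Q, and_false, false_or, or_false, Prod.mk.injEq]
        rintro ⟨⟨rfl, rfl⟩, hxx, hd0⟩
        refine ⟨x', hxx, ?_⟩
        simp only [coreA]
        rw [if_neg, if_neg]
        · rintro ⟨rfl, rfl⟩
          exact hd0 (Or.inr ⟨rfl, rfl⟩)
        · rintro ⟨rfl, rfl⟩
          exact hd0 (Or.inl ⟨rfl, rfl⟩)

theorem AAc_div {NV NE : ℕ} (k : Fin NV × Fin NE) :
    (finProdFinEquiv k).1 / NE = k.1.1 ∧ (finProdFinEquiv k).1 % NE = k.2.1 := by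
  obtain ⟨a, b⟩ := k
  have hpos : 0 < NE := lt_of_le_of_lt (Nat.zero_le _) b.2
  have e : (finProdFinEquiv (a, b)).1 = b.1 + NE * a.1 := rfl
  rw [e]
  constructor
  · rw [Nat.add_mul_div_left _ _ hpos, Nat.div_eq_of_lt b.2, Nat.zero_add]
  · rw [Nat.add_mul_mod_self_left, Nat.mod_eq_of_lt b.2]

theorem AAc_inj {NV NE : ℕ} (k l : Fin NV × Fin NE)
    (h : (finProdFinEquiv k).1 = (finProdFinEquiv l).1) : k = l :=
  finProdFinEquiv.injective (Fin.ext h)

theorem AAc_rs {NV NE : ℕ} (k l : Fin NV × Fin NE) :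
    RsA NE (finProdFinEquiv k).1 (finProdFinEquiv l).1 ↔ l = (k.1, finRotate NE k.2) := by
  obtain ⟨a, b⟩ := k
  have hb := b.2
  obtain ⟨n, rfl⟩ : ∃ n, NE = n + 1 := ⟨NE - 1, by omega⟩
  have e0 : ∀ (c : Fin NV) (d : Fin (n + 1)), (finProdFinEquiv (c, d)).1 = d.1 + (n + 1) * c.1 :=
    fun _ _ => rfl
  unfold RsA
  rw [(AAc_div (a, b)).2]
  constructor
  · rintro (⟨h1, h2⟩ | ⟨h1, h2⟩)
    · apply AAc_inj
      rw [h2, e0, e0]
      have : (finRotate (n + 1) b).1 = b.1 + 1 := by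
        rw [coe_finRotate_of_ne_last]
        intro h
        rw [h] at h1
        simp at h1
      rw [this]
      show b.1 + (n + 1) * a.1 + 1 = _
      ring
    · apply AAc_inj
      have : (finRotate (n + 1) b).1 = 0 := by
        have hl : b = Fin.last n := Fin.ext (by
          simp only at h1
          simp
          omega)
        rw [hl, finRotate_last]
        rfl
      have h5 : (finProdFinEquiv ((a, b).1, (finRotate (n + 1)) (a, b).2)).1 = (n + 1) * a.1 := by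
        show (finRotate (n + 1) b).1 + (n + 1) * a.1 = _
        rw [this]
        simp
      rw [h5]
      have h3 := e0 a b
      simp only at h1
      rw [h3] at h2
      omega
  · intro h
    rw [h]
    by_cases hl : b = Fin.last n
    · right
      subst hl
      refine ⟨by simp, ?_⟩
      rw [e0, e0, finRotate_last]
      simp
      ring
    · left
      have h1 : (finRotate (n + 1) b).1 = b.1 + 1 := coe_finRotate_of_ne_last hl
      have h2 : b.1 ≠ n := fun h => hl (Fin.ext (by simpa using h))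
      refine ⟨by simp only; omega, ?_⟩
      rw [e0, e0, h1]
      ring

theorem AAc_ot {NV NE : ℕ} (v1 v2 : ℕ → ℕ) (h0 : 0 < NV) (k l : Fin NV × Fin NE) :
    OtA v1 v2 NE (finProdFinEquiv k).1 (finProdFinEquiv l).1 ↔
      (l = (⟨0, h0⟩, k.2) ∧ (k.1.1 = v1 k.2.1 ∨ k.1.1 = v2 k.2.1)) := by
  have hk := AAc_div k
  have hl := AAc_div l
  have hpos : 0 < NE := lt_of_le_of_lt (Nat.zero_le _) k.2.2
  unfold OtA LkA
  rw [hk.1, hk.2]
  constructor
  · rintro ⟨h1, h2, h3⟩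
    refine ⟨?_, h3⟩
    obtain ⟨c, d⟩ := l
    have e1 : c.1 = 0 := by rw [← hl.1]; exact Nat.div_eq_of_lt h1
    have e2 : d.1 = k.2.1 := by rw [← hl.2, Nat.mod_eq_of_lt h1, h2]
    exact Prod.ext (Fin.ext e1) (Fin.ext e2)
  · rintro ⟨h1, h3⟩
    have e : (finProdFinEquiv l).1 = k.2.1 := by
      rw [h1]
      show k.2.1 + NE * 0 = _
      simp
    exact ⟨by rw [e]; exact k.2.2, e, h3⟩

theorem coreA_adj {V : Type} {H : SimpleGraph V} (D : DA H) :
    ∃ Q : Fin 3 → ZA V → ZA V → Prop, ∀ (NV NE : ℕ) (v1 v2 : ℕ → ℕ) (h0 : 0 < NV)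
      (h1 : ∀ e < NE, v1 e < NV) (h2 : ∀ e < NE, v2 e < NV) (hne : ∀ e < NE, v1 e ≠ v2 e)
      (k l : Fin NV × Fin NE) (z z' : ZA V),
      ((coreA D (mkIA NV NE v1 v2 h0 h1 h2 hne)).G H).Adj (k, z) (l, z') ↔
        (k = l ∧ Q 0 z z') ∨
        (RsA NE (finProdFinEquiv k).1 (finProdFinEquiv l).1 ∧ Q 1 z z') ∨
        (RsA NE (finProdFinEquiv l).1 (finProdFinEquiv k).1 ∧ Q 1 z' z) ∨
        (OtA v1 v2 NE (finProdFinEquiv k).1 (finProdFinEquiv l).1 ∧ Q 2 z z') ∨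
        (OtA v1 v2 NE (finProdFinEquiv l).1 (finProdFinEquiv k).1 ∧ Q 2 z' z) := by
  refine ⟨AAc_Q D, ?_⟩
  intro NV NE v1 v2 h0 h1 h2 hne k l z z'
  rw [AAc_rs, AAc_rs, AAc_ot v1 v2 h0, AAc_ot v1 v2 h0]
  have h := AAc_gen D (mkIA NV NE v1 v2 h0 h1 h2 hne) k l z z'
  have e1 : ∀ k : Fin NV × Fin NE, (k.1 = (⟨v1 k.2.1, h1 _ k.2.2⟩ : Fin NV) ↔ k.1.1 = v1 k.2.1) :=
    fun k => Fin.ext_iff
  have e2 : ∀ k : Fin NV × Fin NE, (k.1 = (⟨v2 k.2.1, h2 _ k.2.2⟩ : Fin NV) ↔ k.1.1 = v2 k.2.1) :=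
    fun k => Fin.ext_iff
  rw [← e1, ← e2, ← e1, ← e2]
  exact h

end Pool.Agent.LHC
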