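import Pool.Agent.LHC.Defs
import Pool.Agent.LHC.AOk

/-!
# Part A: the open ports in terms of numbers

`opA D I (k, z) y` iff `H.Adj (p z) y` and the port is unused. `A z y`: unused in all cells: `t`: `y ≠ x2, x3, X`; `st σ`: `y ≠ c 0, c 1` and not (`σ = 0`, `y = c 2` or `c 3`); `vs σ X` at `c 0`, `c 1`; `sy D.y` at `x2`, `x3`. `B z y`: `z = st 0` and `y = c 2` or `y = c 3`: unused iff
`k.1 ≠ v0`, i.e. `NE ≤ K` where `K = (finProdFinEquiv k).1 = e + NE * v`. `C z y`: `z = so D.y`, `y = X`: unused iff the cell is not linked (`K / NE = v`, `K % NE = e`).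
-/

namespace Pool.Agent.LHC

open Pool.Agent.LIH Pool.Agent.LHA Pool.Agent.LHB

/-- the open ports used by no cell -/
def aAo_A {V : Type} {H : SimpleGraph V} (D : DA H) : ZA V → V → Prop
  | .t, y => H.Adj D.y y ∧ y ≠ D.x2 ∧ y ≠ D.x3 ∧ y ≠ D.X
  | .st σ, y => H.Adj D.X y ∧ y ≠ D.c 1 ∧ y ≠ D.c 0 ∧ ¬ (σ = 0 ∧ (y = D.c 2 ∨ y = D.c 3))
  | .vs _ x, y => H.Adj x y ∧ x = D.X ∧ (y = D.c 0 ∨ y = D.c 1)
  | .sy x, y => H.Adj x y ∧ x = D.y ∧ (y = D.x2 ∨ y = D.x3)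
  | .so _, _ => False

/-- the open ports unused outside the row `v0` -/
def aAo_B {V : Type} {H : SimpleGraph V} (D : DA H) : ZA V → V → Prop
  | .t, _ => False
  | .st σ, y => H.Adj D.X y ∧ y ≠ D.c 1 ∧ y ≠ D.c 0 ∧ σ = 0 ∧ (y = D.c 2 ∨ y = D.c 3)
  | .vs _ _, _ => False
  | .sy _, _ => False
  | .so _, _ => False

/-- the open ports unused in the cells which are not linked -/
def aAo_C {V : Type} {H : SimpleGraph V} (D : DA H) : ZA V → V → Prop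
  | .t, _ => False
  | .st _, _ => False
  | .vs _ _, _ => False
  | .sy _, _ => False
  | .so x, y => H.Adj x y ∧ ¬ (x = D.X ∧ y = D.y) ∧ x = D.y ∧ y = D.X

theorem aAo_div {NV NE : ℕ} (k : Fin NV × Fin NE) : (finProdFinEquiv k).1 / NE = k.1.1 ∧
    (finProdFinEquiv k).1 % NE = k.2.1 := by
  have e : (finProdFinEquiv k).1 = k.2.1 + NE * k.1.1 := rfl
  have hlt := k.2.2
  have hpos : 0 < NE := lt_of_le_of_lt (Nat.zero_le _) hlt
  constructor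
  · rw [e, Nat.add_mul_div_left _ _ hpos, Nat.div_eq_of_lt hlt, Nat.zero_add]
  · rw [e, Nat.add_mul_mod_self_left, Nat.mod_eq_of_lt hlt]

theorem aAo_le {NV NE : ℕ} (h0 : 0 < NV) (k : Fin NV × Fin NE) :
    NE ≤ (finProdFinEquiv k).1 ↔ ¬ k.1 = (⟨0, h0⟩ : Fin NV) := by
  have e : (finProdFinEquiv k).1 = k.2.1 + NE * k.1.1 := rfl
  have hlt := k.2.2
  rw [e, Fin.ext_iff]
  constructor
  · intro h h'
    rw [h', Nat.mul_zero] at h
    omega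
  · intro h
    have h1 : 1 ≤ k.1.1 := Nat.one_le_iff_ne_zero.mpr h
    have h2 : NE * 1 ≤ NE * k.1.1 := Nat.mul_le_mul_left _ h1
    omega

theorem aAo_lk {NV NE : ℕ} (v1 v2 : ℕ → ℕ) (h0 : 0 < NV)
    (h1 : ∀ e < NE, v1 e < NV) (h2 : ∀ e < NE, v2 e < NV) (hne : ∀ e < NE, v1 e ≠ v2 e)
    (k : Fin NV × Fin NE) : LkA v1 v2 NE (finProdFinEquiv k).1 ↔
      (k.1 = (mkIA NV NE v1 v2 h0 h1 h2 hne).v1 k.2 ∨
        k.1 = (mkIA NV NE v1 v2 h0 h1 h2 hne).v2 k.2) := by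
  unfold LkA
  rw [(aAo_div k).1, (aAo_div k).2]
  exact or_congr (Fin.ext_iff (a := k.1) (b := (⟨v1 k.2.1, h1 _ k.2.2⟩ : Fin NV))).symm
    (Fin.ext_iff (a := k.1) (b := (⟨v2 k.2.1, h2 _ k.2.2⟩ : Fin NV))).symm

theorem opA_num {V : Type} {H : SimpleGraph V} (D : DA H) : ∃ A B C : ZA V → V → Prop,
    (∀ z y, ¬ (A z y ∧ B z y) ∧ ¬ (A z y ∧ C z y) ∧ ¬ (B z y ∧ C z y)) ∧
    ∀ (NV NE : ℕ) (v1 v2 : ℕ → ℕ) (h0 : 0 < NV)
      (h1 : ∀ e < NE, v1 e < NV) (h2 : ∀ e < NE, v2 e < NV) (hne : ∀ e < NE, v1 e ≠ v2 e)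
      (k : Fin NV × Fin NE) (z : ZA V) (y : V), opA D (mkIA NV NE v1 v2 h0 h1 h2 hne) (k, z) y ↔
        A z y ∨ (NE ≤ (finProdFinEquiv k).1 ∧ B z y) ∨
          (¬ LkA v1 v2 NE (finProdFinEquiv k).1 ∧ C z y) := by
  refine ⟨aAo_A D, aAo_B D, aAo_C D, ?_, ?_⟩
  · intro z y
    cases z <;> simp only [aAo_A, aAo_B, aAo_C] <;> tauto
  · intro NV NE v1 v2 h0 h1 h2 hne k z y
    rw [aAo_lk v1 v2 h0 h1 h2 hne k, aAo_le h0 k]
    cases z with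
    | t =>
      simp only [opA, coreA, aAo_A, aAo_B, aAo_C]
      split_ifs <;> simp_all
    | st σ =>
      simp only [opA, coreA, aAo_A, aAo_B, aAo_C]
      have hv : (mkIA NV NE v1 v2 h0 h1 h2 hne).v0 = (⟨0, h0⟩ : Fin NV) := rfl
      rw [hv]
      split_ifs <;> tauto
    | vs σ x =>
      simp only [opA, coreA, aAo_A, aAo_B, aAo_C]
      split_ifs <;> simp_all
    | sy x =>
      simp only [opA, coreA, aAo_A, aAo_B, aAo_C]
      split_ifs <;> simp_all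
    | so x =>
      simp only [opA, coreA, aAo_A, aAo_B, aAo_C]
      split_ifs <;> tauto

end Pool.Agent.LHC
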