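import Pool.Agent.LHC.Defs
import Pool.Agent.LHC.RgB

/-!
# The closed graph has consistent ports

Write `C = P.clo op r`, `u = (k, inl z)`, `q = P.p (k, z)`. Note: if `op (k, z) y` then `H.Adj q y`, so `q ≠ y` (`hO`).
It is useful to prove first the values of `C.nb` in the cases (as separate lemmas): at `(k, inl z)`: `op (k, z) y`: `some (k, inr (z, y, last, y))`; otherwise
`P.nb (k, z) y` mapped by `inl`. At `(k, inr (z, y, i, x))` at the port `y'`:
(A) `op (k, z) y`, `x = q`, `y' = y`: `none` if `i = 0`, otherwise `(k, inr (z, y, i-1, y))`;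
(B) `op (k, z) y`, `x = y`, `y' = q`: `(k, inr (z, y, i+1, q))` if `i < r`, and `(k, inl z)` if `i = r`;
(C) otherwise `(k, inr (z, y, i, y'))`.
`ax`, in all cases but the last with `φ` = identity:
`(k, inl z)` at an open port `y`: `rp = q`; `(k, inr (z, y, last, y))` at the port `q` is case (B) with `i = r`. (A), `i > 0`: `rp = x = q`;
`(k, inr (z, y, i-1, y))` at the port `q` is case (B), `i - 1 + 1 = i`. (B): `rp = x = y`; `i < r`: `(k, inr (z, y, i+1, q))` at the port `y` is case (A);
`i = r`: `(k, inl z)` at the open port `y`. (C): `rp = x`; `(k, inr (z, y, i, y'))` at the port `x` is case (C): if it were (A) (`y' = q`, `x = y`) we would be in (B), and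
conversely. `(k, inl z)` at a port `y` which is not open: `P.ax`; the port `P.rp (k, z) y` of the neighbour `w` is not open because `P.nb w (P.rp (k, z) y) = some (k, z)`
(`hO`).
`inj`: `(k, inl z)`: two open ports: `y = y'`; an open one and another one: `inr` and `inl`; two others: `P.inj`. `(k, inr (z, y, i, x))`: (A) and (B) exclude each other (`q ≠ y`);
(A) and (C): the numbers `i - 1 ≠ i`; (B) and (C): `i + 1 ≠ i` or `inl`; (C) and (C): `y' = y''`; (A), (A): both are `y`; (B), (B): both are `q`.
`irr`: `P.irr`; `i - 1 ≠ i` (as `i ≠ 0`); `i + 1 ≠ i`; (C): `y' ≠ x` because `H.Adj x y'`.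
-/

namespace Pool.Agent.LHC

open Pool.Agent.LIH Pool.Agent.LHA Pool.Agent.LHB

section aux

variable {V κ Z : Type} {P : Rg V (κ × Z)} {op : κ × Z → V → Prop} {r : ℕ}

theorem cloO_nbL {k : κ} {z : Z} {y : V} (h : op (k, z) y) :
    (P.clo op r).nb (k, .inl z) y = some (k, .inr (z, y, Fin.last r, y)) := by
  simp only [Rg.clo, if_pos h]

theorem cloO_nbN {k : κ} {z : Z} {y : V} (h : ¬ op (k, z) y) :
    (P.clo op r).nb (k, .inl z) y = (P.nb (k, z) y).map (fun w => (w.1, .inl w.2)) := by
  simp only [Rg.clo, if_neg h]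

theorem cloO_nbA0 {k : κ} {z : Z} {y y' x : V} {i : Fin (r + 1)}
    (h : op (k, z) y ∧ x = P.p (k, z) ∧ y' = y) (hi : i.1 = 0) :
    (P.clo op r).nb (k, .inr (z, y, i, x)) y' = none := by
  simp only [Rg.clo, if_pos h, if_pos hi]

theorem cloO_nbA {k : κ} {z : Z} {y y' x : V} {i : Fin (r + 1)}
    (h : op (k, z) y ∧ x = P.p (k, z) ∧ y' = y) (hi : i.1 ≠ 0) :
    (P.clo op r).nb (k, .inr (z, y, i, x)) y' =
      some (k, .inr (z, y, ⟨i.1 - 1, lt_of_le_of_lt (Nat.sub_le _ _) i.2⟩, y)) := by
  simp only [Rg.clo, if_pos h, if_neg hi]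

theorem cloO_nbB {k : κ} {z : Z} {y y' x : V} {i : Fin (r + 1)}
    (h1 : ¬ (op (k, z) y ∧ x = P.p (k, z) ∧ y' = y))
    (h : op (k, z) y ∧ x = y ∧ y' = P.p (k, z)) (hi : i.1 + 1 < r + 1) :
    (P.clo op r).nb (k, .inr (z, y, i, x)) y' =
      some (k, .inr (z, y, ⟨i.1 + 1, hi⟩, P.p (k, z))) := by
  simp only [Rg.clo, if_neg h1, if_pos h, dif_pos hi]

theorem cloO_nbB' {k : κ} {z : Z} {y y' x : V} {i : Fin (r + 1)}
    (h1 : ¬ (op (k, z) y ∧ x = P.p (k, z) ∧ y' = y))
    (h : op (k, z) y ∧ x = y ∧ y' = P.p (k, z)) (hi : ¬ i.1 + 1 < r + 1) :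
    (P.clo op r).nb (k, .inr (z, y, i, x)) y' = some (k, .inl z) := by
  simp only [Rg.clo, if_neg h1, if_pos h, dif_neg hi]

theorem cloO_nbC {k : κ} {z : Z} {y y' x : V} {i : Fin (r + 1)}
    (h1 : ¬ (op (k, z) y ∧ x = P.p (k, z) ∧ y' = y))
    (h2 : ¬ (op (k, z) y ∧ x = y ∧ y' = P.p (k, z))) :
    (P.clo op r).nb (k, .inr (z, y, i, x)) y' = some (k, .inr (z, y, i, y')) := by
  simp only [Rg.clo, if_neg h1, if_neg h2]

end aux

theorem clo_ok {V κ Z : Type} {H : SimpleGraph V} {P : Rg V (κ × Z)} {op : κ × Z → V → Prop}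
    (r : ℕ) (hP : P.Ok H) (hO : OpOk H P op) : (P.clo op r).Ok H := by
  have hne : ∀ {k : κ} {z : Z} {y : V}, op (k, z) y → P.p (k, z) ≠ y :=
    fun h => (hO _ _ h).1.ne
  refine ⟨?_, ?_, ?_⟩
  · rintro ⟨k, z | ⟨z, y0, i, x⟩⟩ y v hy hnb
    · change H.Adj (P.p (k, z)) y at hy
      by_cases hop : op (k, z) y
      · rw [cloO_nbL hop] at hnb
        have hv := Option.some.inj hnb
        subst hv
        have hrp : (P.clo op r).rp (k, .inl z) y = P.p (k, z) := by
          simp only [Rg.clo, if_pos hop]
        rw [hrp]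
        refine ⟨?_, RelIso.refl _, rfl, rfl⟩
        refine cloO_nbB' ?_ ⟨hop, rfl, rfl⟩ ?_
        · rintro ⟨_, h, _⟩
          exact hne hop h.symm
        · simp
      · rw [cloO_nbN hop] at hnb
        obtain ⟨w, hw, hv⟩ := Option.map_eq_some_iff.1 hnb
        subst hv
        obtain ⟨h1, φ, h2, h3⟩ := hP.ax _ _ _ hy hw
        have hrp : (P.clo op r).rp (k, .inl z) y = P.rp (k, z) y := by
          simp only [Rg.clo, if_neg hop]
        rw [hrp]
        refine ⟨?_, φ, h2, h3⟩
        have hno : ¬ op (w.1, w.2) (P.rp (k, z) y) := by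
          intro h
          have := (hO _ _ h).2
          change P.nb w (P.rp (k, z) y) = none at this
          rw [h1] at this
          exact Option.some_ne_none _ this
        rw [cloO_nbN hno]
        change Option.map _ (P.nb w (P.rp (k, z) y)) = _
        rw [h1]
        rfl
    · change H.Adj x y at hy
      have hrp : (P.clo op r).rp (k, .inr (z, y0, i, x)) y = x := rfl
      rw [hrp]
      by_cases hA : op (k, z) y0 ∧ x = P.p (k, z) ∧ y = y0
      · by_cases hi : i.1 = 0
        · rw [cloO_nbA0 hA hi] at hnb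
          exact absurd hnb (by simp)
        · rw [cloO_nbA hA hi] at hnb
          have hv := Option.some.inj hnb
          subst hv
          obtain ⟨hop, rfl, rfl⟩ := hA
          refine ⟨?_, RelIso.refl _, rfl, rfl⟩
          have h1 : ¬ (op (k, z) y ∧ y = P.p (k, z) ∧ P.p (k, z) = y) := by
            rintro ⟨_, h, _⟩
            exact hne hop h.symm
          have hlt : i.1 - 1 + 1 < r + 1 := by
            have := i.2
            omega
          rw [cloO_nbB (i := ⟨i.1 - 1, lt_of_le_of_lt (Nat.sub_le _ _) i.2⟩) h1 ⟨hop, rfl, rfl⟩ hlt]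
          have : (⟨i.1 - 1 + 1, hlt⟩ : Fin (r + 1)) = i := by
            apply Fin.ext
            change i.1 - 1 + 1 = i.1
            omega
          rw [this]
      · by_cases hB : op (k, z) y0 ∧ x = y0 ∧ y = P.p (k, z)
        · by_cases hi : i.1 + 1 < r + 1
          · rw [cloO_nbB hA hB hi] at hnb
            have hv := Option.some.inj hnb
            subst hv
            obtain ⟨hop, rfl, rfl⟩ := hB
            refine ⟨?_, RelIso.refl _, rfl, rfl⟩
            rw [cloO_nbA (i := ⟨i.1 + 1, hi⟩) ⟨hop, rfl, rfl⟩ (Nat.succ_ne_zero _)]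
            rfl
          · rw [cloO_nbB' hA hB hi] at hnb
            have hv := Option.some.inj hnb
            subst hv
            obtain ⟨hop, rfl, rfl⟩ := hB
            refine ⟨?_, RelIso.refl _, rfl, rfl⟩
            rw [cloO_nbL hop]
            have : Fin.last r = i := by
              apply Fin.ext
              have := i.2
              change r = i.1
              omega
            rw [this]
        · rw [cloO_nbC hA hB] at hnb
          have hv := Option.some.inj hnb
          subst hv
          refine ⟨?_, RelIso.refl _, rfl, rfl⟩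
          refine cloO_nbC ?_ ?_
          · rintro ⟨h1, h2, h3⟩
            exact hB ⟨h1, h3, h2⟩
          · rintro ⟨h1, h2, h3⟩
            exact hA ⟨h1, h3, h2⟩
  · rintro ⟨k, z | ⟨z, y0, i, x⟩⟩ y y' v hy hy' hnb hnb'
    · change H.Adj (P.p (k, z)) y at hy
      change H.Adj (P.p (k, z)) y' at hy'
      by_cases hop : op (k, z) y
      · rw [cloO_nbL hop] at hnb
        have hv := Option.some.inj hnb
        subst hv
        by_cases hop' : op (k, z) y'
        · rw [cloO_nbL hop'] at hnb'
          have := Option.some.inj hnb'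
          simp only [Prod.mk.injEq, Sum.inr.injEq, true_and] at this
          exact this.1.symm
        · rw [cloO_nbN hop'] at hnb'
          obtain ⟨w, hw, hv⟩ := Option.map_eq_some_iff.1 hnb'
          simp at hv
      · rw [cloO_nbN hop] at hnb
        obtain ⟨w, hw, hv⟩ := Option.map_eq_some_iff.1 hnb
        subst hv
        by_cases hop' : op (k, z) y'
        · rw [cloO_nbL hop'] at hnb'
          have := Option.some.inj hnb'
          simp at this
        · rw [cloO_nbN hop'] at hnb'
          obtain ⟨w', hw', hv'⟩ := Option.map_eq_some_iff.1 hnb'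
          have : w' = w := by
            simp only [Prod.mk.injEq, Sum.inl.injEq] at hv'
            exact Prod.ext hv'.1 hv'.2
          subst this
          exact hP.inj _ _ _ _ hy hy' hw hw'
    · change H.Adj x y at hy
      change H.Adj x y' at hy'
      have key : ∀ y v, (P.clo op r).nb (k, .inr (z, y0, i, x)) y = some v →
          (op (k, z) y0 ∧ x = P.p (k, z) ∧ y = y0 ∧ ∃ j : Fin (r + 1), j.1 < i.1 ∧
            v = (k, .inr (z, y0, j, y0))) ∨
          (op (k, z) y0 ∧ x = y0 ∧ y = P.p (k, z) ∧ ((∃ j : Fin (r + 1), i.1 < j.1 ∧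
            v = (k, .inr (z, y0, j, P.p (k, z)))) ∨ v = (k, .inl z))) ∨
          v = (k, .inr (z, y0, i, y)) := by
        intro y v hnb
        by_cases hA : op (k, z) y0 ∧ x = P.p (k, z) ∧ y = y0
        · by_cases hi : i.1 = 0
          · rw [cloO_nbA0 hA hi] at hnb
            exact absurd hnb (by simp)
          · rw [cloO_nbA hA hi] at hnb
            have hv := Option.some.inj hnb
            refine Or.inl ⟨hA.1, hA.2.1, hA.2.2, ⟨i.1 - 1, _⟩, ?_, hv.symm⟩
            change i.1 - 1 < i.1
            omega
        · by_cases hB : op (k, z) y0 ∧ x = y0 ∧ y = P.p (k, z)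
          · by_cases hi : i.1 + 1 < r + 1
            · rw [cloO_nbB hA hB hi] at hnb
              have hv := Option.some.inj hnb
              exact Or.inr (Or.inl ⟨hB.1, hB.2.1, hB.2.2, Or.inl ⟨⟨i.1 + 1, hi⟩,
                Nat.lt_succ_self _, hv.symm⟩⟩)
            · rw [cloO_nbB' hA hB hi] at hnb
              have hv := Option.some.inj hnb
              exact Or.inr (Or.inl ⟨hB.1, hB.2.1, hB.2.2, Or.inr hv.symm⟩)
          · rw [cloO_nbC hA hB] at hnb
            exact Or.inr (Or.inr (Option.some.inj hnb).symm)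
      rcases key _ _ hnb with ⟨hop, hx, hyy, j, hj, hv⟩ | ⟨hop, hx, hyy, hv⟩ | hv
      · rcases key _ _ hnb' with ⟨_, _, hyy', _⟩ | ⟨_, hx', _⟩ | hv'
        · rw [hyy, hyy']
        · exact absurd (hx.symm.trans hx') (hne hop)
        · rw [hv] at hv'
          simp only [Prod.mk.injEq, Sum.inr.injEq, true_and] at hv'
          have := congrArg Fin.val hv'.1
          omega
      · rcases key _ _ hnb' with ⟨_, hx', _⟩ | ⟨_, _, hyy', _⟩ | hv'
        · exact absurd (hx'.symm.trans hx) (hne hop)
        · rw [hyy, hyy']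
        · rcases hv with ⟨j, hj, hv⟩ | hv
          · rw [hv] at hv'
            simp only [Prod.mk.injEq, Sum.inr.injEq, true_and] at hv'
            have := congrArg Fin.val hv'.1
            omega
          · rw [hv] at hv'
            simp at hv'
      · rcases key _ _ hnb' with ⟨_, _, _, j, hj, hv'⟩ | ⟨_, _, _, hv'⟩ | hv'
        · rw [hv] at hv'
          simp only [Prod.mk.injEq, Sum.inr.injEq, true_and] at hv'
          have := congrArg Fin.val hv'.1
          omega
        · rcases hv' with ⟨j, hj, hv'⟩ | hv'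
          · rw [hv] at hv'
            simp only [Prod.mk.injEq, Sum.inr.injEq, true_and] at hv'
            have := congrArg Fin.val hv'.1
            omega
          · rw [hv] at hv'
            simp at hv'
        · rw [hv] at hv'
          simp only [Prod.mk.injEq, Sum.inr.injEq, true_and] at hv'
          exact hv'
  · rintro ⟨k, z | ⟨z, y0, i, x⟩⟩ y hy hnb
    · change H.Adj (P.p (k, z)) y at hy
      by_cases hop : op (k, z) y
      · rw [cloO_nbL hop] at hnb
        have := Option.some.inj hnb
        simp at this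
      · rw [cloO_nbN hop] at hnb
        obtain ⟨w, hw, hv⟩ := Option.map_eq_some_iff.1 hnb
        simp only [Prod.mk.injEq, Sum.inl.injEq] at hv
        have : w = (k, z) := Prod.ext hv.1 hv.2
        subst this
        exact hP.irr _ _ hy hw
    · change H.Adj x y at hy
      by_cases hA : op (k, z) y0 ∧ x = P.p (k, z) ∧ y = y0
      · by_cases hi : i.1 = 0
        · rw [cloO_nbA0 hA hi] at hnb
          exact absurd hnb (by simp)
        · rw [cloO_nbA hA hi] at hnb
          have := Option.some.inj hnb
          simp only [Prod.mk.injEq, Sum.inr.injEq, true_and] at this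
          have h2 := congrArg Fin.val this.1
          change i.1 - 1 = i.1 at h2
          omega
      · by_cases hB : op (k, z) y0 ∧ x = y0 ∧ y = P.p (k, z)
        · by_cases hi : i.1 + 1 < r + 1
          · rw [cloO_nbB hA hB hi] at hnb
            have := Option.some.inj hnb
            simp only [Prod.mk.injEq, Sum.inr.injEq, true_and] at this
            have h2 := congrArg Fin.val this.1
            change i.1 + 1 = i.1 at h2
            omega
          · rw [cloO_nbB' hA hB hi] at hnb
            have := Option.some.inj hnb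
            simp at this
        · rw [cloO_nbC hA hB] at hnb
          have := Option.some.inj hnb
          simp only [Prod.mk.injEq, Sum.inr.injEq, true_and] at this
          exact hy.ne this.symm

end Pool.Agent.LHC
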