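import Pool.Agent.LHC.Defs
import Pool.Agent.LHC.RgB
import Pool.Agent.LHC.CloO

/-!
# The adjacency relation of the closed graph

`C = P.clo op r`, `Rg.adj_iff` for `C` (`clo_ok`): `(k, a)` and `(l, b)` are adjacent iff `C.nb (k, a) y' = some (l, b)` for some port `y'` (`H.Adj (C.p (k, a)) y'`). `π z = P.p (k, z)`.
(→) `a = inl z`: `y'` open: `LO z y' a b` (first case); otherwise `P.nb (k, z) y' = some (l, z')`, `b = inl z'`, and `Rg.adj_iff` for `P`. `a = inr (z, y, i, x)`: if `(x, y')` is not a dart of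
`{π z, y}` or `¬ op (k, z) y`: `b = inr (z, y, i, y')`, so `LN` or (in the second case with `De (π z) y x y'`) `LC`. If `op (k, z) y` and `x = π z`, `y' = y`: `i ≠ 0`,
`b = inr (z, y, i - 1, y)`: `LO` (third case); `x = y`, `y' = π z`: `i < r`: `b = inr (z, y, i + 1, π z)`: `LO` (fourth case); `i = r`: `b = inl z`: `LO` (second case).
(←) in the same way; the edges of `LN`, `LC`, `LO` are given by the ports; by the symmetry of the graph it is enough to find a port at one end. If `op (k, z) y` then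
`H.Adj (π z) y` and `π z ≠ y`.
-/

namespace Pool.Agent.LHC

open Pool.Agent.LIH Pool.Agent.LHA Pool.Agent.LHB

section

open scoped Classical

variable {V κ Z : Type} (P : Rg V (κ × Z)) {op : κ × Z → V → Prop} {r : ℕ} {k : κ} {z : Z} {y : V}

theorem CloA_0 (ho : op (k, z) y) :
    (P.clo op r).nb (k, .inl z) y = some (k, .inr (z, y, Fin.last r, y)) := by
  show (if op (k, z) y then _ else _) = _
  rw [if_pos ho]

theorem CloA_1 (ho : ¬ op (k, z) y) :
    (P.clo op r).nb (k, .inl z) y = (P.nb (k, z) y).map (fun w => (w.1, .inl w.2)) := by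
  show (if op (k, z) y then _ else _) = _
  rw [if_neg ho]

theorem CloA_A0 (ho : op (k, z) y) (i : Fin (r + 1)) (hi : i.1 = 0) :
    (P.clo op r).nb (k, .inr (z, y, i, P.p (k, z))) y = none := by
  show (if op (k, z) y ∧ P.p (k, z) = P.p (k, z) ∧ y = y then _ else _) = _
  rw [if_pos ⟨ho, rfl, rfl⟩, if_pos hi]

theorem CloA_A (ho : op (k, z) y) (i : Fin (r + 1)) (hi : ¬ i.1 = 0) :
    (P.clo op r).nb (k, .inr (z, y, i, P.p (k, z))) y =
      some (k, .inr (z, y, ⟨i.1 - 1, lt_of_le_of_lt (Nat.sub_le _ _) i.2⟩, y)) := by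
  show (if op (k, z) y ∧ P.p (k, z) = P.p (k, z) ∧ y = y then _ else _) = _
  rw [if_pos ⟨ho, rfl, rfl⟩, if_neg hi]

theorem CloA_B (hq : P.p (k, z) ≠ y) (ho : op (k, z) y) (i : Fin (r + 1)) (hi : i.1 + 1 < r + 1) :
    (P.clo op r).nb (k, .inr (z, y, i, y)) (P.p (k, z)) =
      some (k, .inr (z, y, ⟨i.1 + 1, hi⟩, P.p (k, z))) := by
  show (if op (k, z) y ∧ y = P.p (k, z) ∧ P.p (k, z) = y then _ else
    if op (k, z) y ∧ y = y ∧ P.p (k, z) = P.p (k, z) then _ else _) = _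
  rw [if_neg (fun h => hq h.2.2), if_pos ⟨ho, rfl, rfl⟩, dif_pos hi]

theorem CloA_Br (hq : P.p (k, z) ≠ y) (ho : op (k, z) y) (i : Fin (r + 1))
    (hi : ¬ i.1 + 1 < r + 1) :
    (P.clo op r).nb (k, .inr (z, y, i, y)) (P.p (k, z)) = some (k, .inl z) := by
  show (if op (k, z) y ∧ y = P.p (k, z) ∧ P.p (k, z) = y then _ else
    if op (k, z) y ∧ y = y ∧ P.p (k, z) = P.p (k, z) then _ else _) = _
  rw [if_neg (fun h => hq h.2.2), if_pos ⟨ho, rfl, rfl⟩, dif_neg hi]

theorem CloA_C (i : Fin (r + 1)) {x y' : V} (hA : ¬ (op (k, z) y ∧ x = P.p (k, z) ∧ y' = y))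
    (hB : ¬ (op (k, z) y ∧ x = y ∧ y' = P.p (k, z))) :
    (P.clo op r).nb (k, .inr (z, y, i, x)) y' = some (k, .inr (z, y, i, y')) := by
  show (if op (k, z) y ∧ x = P.p (k, z) ∧ y' = y then _ else
    if op (k, z) y ∧ x = y ∧ y' = P.p (k, z) then _ else _) = _
  rw [if_neg hA, if_neg hB]

end

theorem clo_adj {V κ Z : Type} {H : SimpleGraph V} {P : Rg V (κ × Z)} {op : κ × Z → V → Prop}
    {r : ℕ} (hP : P.Ok H) (hO : OpOk H P op) {π : Z → V} (hπ : ∀ k z, P.p (k, z) = π z)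
    (k l : κ) (a b : CZ Z V r) : ((P.clo op r).G H).Adj (k, a) (l, b) ↔
      (∃ z z', a = .inl z ∧ b = .inl z' ∧ (P.G H).Adj (k, z) (l, z')) ∨
      (k = l ∧ ∃ z y, LN H π z y a b ∨ (op (k, z) y ∧ LO π z y a b) ∨
        (¬ op (k, z) y ∧ LC H π z y a b)) := by
  rw [Rg.adj_iff (clo_ok r hP hO)]
  constructor
  · rintro ⟨y', hy', hn⟩
    rcases a with z | ⟨z, y, i, x⟩
    · change H.Adj (P.p (k, z)) y' at hy'
      by_cases ho : op (k, z) y'
      · rw [CloA_0 P ho] at hn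
        have h1 := Option.some.inj hn
        rw [Prod.mk.injEq] at h1
        obtain ⟨rfl, rfl⟩ := h1
        exact Or.inr ⟨rfl, z, y', Or.inr (Or.inl ⟨ho, Or.inl ⟨rfl, rfl⟩⟩)⟩
      · rw [CloA_1 P ho, Option.map_eq_some_iff] at hn
        obtain ⟨w, hw, hw'⟩ := hn
        rw [Prod.mk.injEq] at hw'
        obtain ⟨rfl, rfl⟩ := hw'
        exact Or.inl ⟨z, w.2, rfl, rfl, (Rg.adj_iff hP _ _).2 ⟨y', hy', hw⟩⟩
    · change H.Adj x y' at hy'
      by_cases hA : op (k, z) y ∧ x = P.p (k, z) ∧ y' = y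
      · obtain ⟨ho, rfl, rfl⟩ := hA
        by_cases hi : i.1 = 0
        · rw [CloA_A0 P ho i hi] at hn
          exact absurd hn (by simp)
        · rw [CloA_A P ho i hi] at hn
          have h1 := Option.some.inj hn
          rw [Prod.mk.injEq] at h1
          obtain ⟨rfl, rfl⟩ := h1
          refine Or.inr ⟨rfl, z, y', Or.inr (Or.inl ⟨ho, Or.inr (Or.inr ⟨i.1 - 1, ?_, Or.inl ⟨?_, rfl⟩⟩)⟩)⟩
          · have := i.2
            omega
          · rw [← hπ k]
            congr 4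
            apply Fin.ext
            show i.1 = i.1 - 1 + 1
            omega
      · by_cases hB : op (k, z) y ∧ x = y ∧ y' = P.p (k, z)
        · obtain ⟨ho, rfl, rfl⟩ := hB
          by_cases hi : i.1 + 1 < r + 1
          · rw [CloA_B P (hO _ _ ho).1.ne ho i hi] at hn
            have h1 := Option.some.inj hn
            rw [Prod.mk.injEq] at h1
            obtain ⟨rfl, rfl⟩ := h1
            refine Or.inr ⟨rfl, z, x, Or.inr (Or.inl ⟨ho, Or.inr (Or.inr ⟨i.1, hi, Or.inr ⟨?_, rfl⟩⟩)⟩)⟩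
            rw [← hπ k]
          · rw [CloA_Br P (hO _ _ ho).1.ne ho i hi] at hn
            have h1 := Option.some.inj hn
            rw [Prod.mk.injEq] at h1
            obtain ⟨rfl, rfl⟩ := h1
            refine Or.inr ⟨rfl, z, x, Or.inr (Or.inl ⟨ho, Or.inr (Or.inl ⟨rfl, ?_⟩)⟩)⟩
            have : i = Fin.last r := by
              apply Fin.ext
              have := i.2
              show i.1 = r
              omega
            rw [this]
        · rw [CloA_C P i hA hB] at hn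
          have h1 := Option.some.inj hn
          rw [Prod.mk.injEq] at h1
          obtain ⟨rfl, rfl⟩ := h1
          by_cases hD : De (π z) y x y'
          · refine Or.inr ⟨rfl, z, y, Or.inr (Or.inr ⟨?_, i, x, y', rfl, rfl, hy', hD⟩)⟩
            intro ho
            rw [← hπ k] at hD
            rcases hD with hD | hD
            · exact hA ⟨ho, hD⟩
            · exact hB ⟨ho, hD⟩
          · exact Or.inr ⟨rfl, z, y, Or.inl ⟨i, x, y', rfl, rfl, hy', hD⟩⟩
  · rintro (⟨z, z', rfl, rfl, h⟩ | ⟨rfl, z, y, ⟨i, x, x', rfl, rfl, hxx, hD⟩ | ⟨ho, h⟩ |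
      ⟨ho, i, x, x', rfl, rfl, hxx, hD⟩⟩)
    · obtain ⟨y', hy', hn⟩ := (Rg.adj_iff hP _ _).1 h
      refine ⟨y', hy', ?_⟩
      have ho : ¬ op (k, z) y' := by
        intro ho
        rw [(hO _ _ ho).2] at hn
        exact absurd hn (by simp)
      rw [CloA_1 P ho, hn]
      rfl
    · rw [← hπ k] at hD
      exact ⟨x', hxx, CloA_C P i (fun h => hD (Or.inl h.2)) (fun h => hD (Or.inr h.2))⟩
    · have hq := (hO _ _ ho).1
      rcases h with ⟨rfl, rfl⟩ | ⟨rfl, rfl⟩ | ⟨i, hi, ⟨rfl, rfl⟩ | ⟨rfl, rfl⟩⟩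
      · exact ⟨y, hq, CloA_0 P ho⟩
      · refine ⟨P.p (k, z), hq.symm, ?_⟩
        rw [CloA_Br P hq.ne ho (Fin.last r) (by simp)]
      · refine ⟨y, ?_, ?_⟩
        · show H.Adj (π z) y
          rw [← hπ k]
          exact hq
        · rw [← hπ k, CloA_A P ho ⟨i + 1, hi⟩ (by simp)]
          rfl
      · refine ⟨P.p (k, z), hq.symm, ?_⟩
        rw [CloA_B P hq.ne ho ⟨i, Nat.lt_of_succ_lt hi⟩ hi, hπ k]
    · exact ⟨x', hxx, CloA_C P i (fun h => ho h.1) (fun h => ho h.1)⟩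

end Pool.Agent.LHC
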