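import Pool.Agent.LHC.Defs
import Pool.Agent.LHC.CloA
import Pool.Agent.LHC.AOk
import Pool.Agent.LHC.AAc
import Pool.Agent.LHC.AAo

/-!
# Part A: the adjacency relation in terms of numbers

Let `Q`, `A, B, C` be as in `coreA_adj`, `opA_num`, `π z` the value `(coreA D I).p (k, z)` (it does not depend on `k`: `t ↦ D.y`, `st _ ↦ D.X`, `vs _ x`, `sy x`, `so x ↦ x`). `clo_adj` with `π`. `P` is given by (`inl z, inl z'` means `a = inl z`, `b = inl z'`):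
`P 0 a b`: (`Q 0 z z'` for `inl z, inl z'`) or there are `z, y` with `LN z y a b`, or `A z y ∧ LO z y a b`, or `¬ A z y ∧ ¬ B z y ∧ ¬ C z y ∧ LC z y a b`;
`P 1 a b`: `∃ z y, C z y ∧ LO z y a b`; `P 2 a b`: `∃ z y, C z y ∧ LC z y a b`; `P 3 a b`: `∃ z y, B z y ∧ LO z y a b`; `P 4 a b`: `∃ z y, B z y ∧ LC z y a b`; `P 5 a b`: `Q 1 z z'` for `inl z, inl z'`; `P 6 a b`: `Q 2 z z'` for `inl z, inl z'`.
`¬ op (k, z) y` iff (none of `A, B, C`) or (`B z y` and `K < NE`) or (`C z y` and linked), by the exclusivity. `k = l` iff the numbers are equal (`finProdFinEquiv` is injective).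
-/

namespace Pool.Agent.LHC

open Pool.Agent.LIH Pool.Agent.LHA Pool.Agent.LHB

/-- the value of a vertex of the core -/
def AAd_pi {V : Type} {H : SimpleGraph V} (D : DA H) : ZA V → V
  | .t => D.y
  | .st _ => D.X
  | .vs _ x => x
  | .sy x => x
  | .so x => x

theorem gA_adj {V : Type} {H : SimpleGraph V} (D : DA H) (r : ℕ) :
    ∃ P : Fin 7 → CZ (ZA V) V r → CZ (ZA V) V r → Prop, ∀ (NV NE : ℕ) (v1 v2 : ℕ → ℕ)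
      (h0 : 0 < NV) (h1 : ∀ e < NE, v1 e < NV) (h2 : ∀ e < NE, v2 e < NV)
      (hne : ∀ e < NE, v1 e ≠ v2 e) (k l : Fin NV × Fin NE) (a b : CZ (ZA V) V r),
      (gA D (mkIA NV NE v1 v2 h0 h1 h2 hne) r).Adj (k, a) (l, b) ↔
        fmA P v1 v2 NE a b (finProdFinEquiv k).1 (finProdFinEquiv l).1 := by
  classical
  obtain ⟨Q, hQ⟩ := coreA_adj D
  obtain ⟨A, B, C, hex, hop⟩ := opA_num D
  refine ⟨![
    fun a b => (∃ z z', a = .inl z ∧ b = .inl z' ∧ Q 0 z z') ∨ ∃ z y, LN H (AAd_pi D) z y a b ∨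
      (A z y ∧ LO (AAd_pi D) z y a b) ∨ (¬ A z y ∧ ¬ B z y ∧ ¬ C z y ∧ LC H (AAd_pi D) z y a b),
    fun a b => ∃ z y, C z y ∧ LO (AAd_pi D) z y a b,
    fun a b => ∃ z y, C z y ∧ LC H (AAd_pi D) z y a b,
    fun a b => ∃ z y, B z y ∧ LO (AAd_pi D) z y a b,
    fun a b => ∃ z y, B z y ∧ LC H (AAd_pi D) z y a b,
    fun a b => ∃ z z', a = .inl z ∧ b = .inl z' ∧ Q 1 z z',
    fun a b => ∃ z z', a = .inl z ∧ b = .inl z' ∧ Q 2 z z'], ?_⟩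
  intro NV NE v1 v2 h0 h1 h2 hne k l a b
  have hc := clo_adj (r := r) (coreA_ok D (mkIA NV NE v1 v2 h0 h1 h2 hne))
    (opA_ok D (mkIA NV NE v1 v2 h0 h1 h2 hne)) (π := AAd_pi D)
    (by rintro k (_ | _ | _ | _ | _) <;> rfl) k l a b
  have hQ' := hQ NV NE v1 v2 h0 h1 h2 hne k l
  have hop' := hop NV NE v1 v2 h0 h1 h2 hne k
  have hKL : k = l ↔ (finProdFinEquiv k).1 = (finProdFinEquiv l).1 := by
    rw [← Fin.ext_iff]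
    exact finProdFinEquiv.injective.eq_iff.symm
  unfold gA rA
  rw [hc]
  generalize (finProdFinEquiv k).1 = K at *
  generalize (finProdFinEquiv l).1 = L at *
  show _ ↔ (K = L ∧ ((∃ z z', a = .inl z ∧ b = .inl z' ∧ Q 0 z z') ∨ ∃ z y,
      LN H (AAd_pi D) z y a b ∨ (A z y ∧ LO (AAd_pi D) z y a b) ∨
      (¬ A z y ∧ ¬ B z y ∧ ¬ C z y ∧ LC H (AAd_pi D) z y a b))) ∨
    (K = L ∧ ¬ LkA v1 v2 NE K ∧ ∃ z y, C z y ∧ LO (AAd_pi D) z y a b) ∨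
    (K = L ∧ LkA v1 v2 NE K ∧ ∃ z y, C z y ∧ LC H (AAd_pi D) z y a b) ∨
    (K = L ∧ NE ≤ K ∧ ∃ z y, B z y ∧ LO (AAd_pi D) z y a b) ∨
    (K = L ∧ K < NE ∧ ∃ z y, B z y ∧ LC H (AAd_pi D) z y a b) ∨
    (RsA NE K L ∧ ∃ z z', a = .inl z ∧ b = .inl z' ∧ Q 1 z z') ∨
    (RsA NE L K ∧ ∃ z z', b = .inl z ∧ a = .inl z' ∧ Q 1 z z') ∨
    (OtA v1 v2 NE K L ∧ ∃ z z', a = .inl z ∧ b = .inl z' ∧ Q 2 z z') ∨
    (OtA v1 v2 NE L K ∧ ∃ z z', b = .inl z ∧ a = .inl z' ∧ Q 2 z z')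
  constructor
  · rintro (⟨z, z', rfl, rfl, hz⟩ | ⟨hkl, z, y, hz | ⟨ho, hz⟩ | ⟨ho, hz⟩⟩)
    · rcases (hQ' z z').1 hz with ⟨h, q⟩ | ⟨h, q⟩ | ⟨h, q⟩ | ⟨h, q⟩ | ⟨h, q⟩
      · exact Or.inl ⟨hKL.1 h, Or.inl ⟨z, z', rfl, rfl, q⟩⟩
      · exact Or.inr (Or.inr (Or.inr (Or.inr (Or.inr (Or.inl ⟨h, z, z', rfl, rfl, q⟩)))))
      · exact Or.inr (Or.inr (Or.inr (Or.inr (Or.inr (Or.inr (Or.inl ⟨h, z', z, rfl, rfl, q⟩))))))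
      · exact Or.inr (Or.inr (Or.inr (Or.inr (Or.inr (Or.inr (Or.inr (Or.inl
          ⟨h, z, z', rfl, rfl, q⟩)))))))
      · exact Or.inr (Or.inr (Or.inr (Or.inr (Or.inr (Or.inr (Or.inr (Or.inr
          ⟨h, z', z, rfl, rfl, q⟩)))))))
    · exact Or.inl ⟨hKL.1 hkl, Or.inr ⟨z, y, Or.inl hz⟩⟩
    · rcases (hop' z y).1 ho with hA | ⟨hN, hB⟩ | ⟨hN, hC⟩
      · exact Or.inl ⟨hKL.1 hkl, Or.inr ⟨z, y, Or.inr (Or.inl ⟨hA, hz⟩)⟩⟩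
      · exact Or.inr (Or.inr (Or.inr (Or.inl ⟨hKL.1 hkl, hN, z, y, hB, hz⟩)))
      · exact Or.inr (Or.inl ⟨hKL.1 hkl, hN, z, y, hC, hz⟩)
    · have hn := mt (hop' z y).2 ho
      rw [not_or, not_or] at hn
      obtain ⟨nA, nB, nC⟩ := hn
      by_cases hB : B z y
      · have : K < NE := by
          by_contra hlt
          exact nB ⟨not_lt.1 hlt, hB⟩
        exact Or.inr (Or.inr (Or.inr (Or.inr (Or.inl ⟨hKL.1 hkl, this, z, y, hB, hz⟩))))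
      · by_cases hC : C z y
        · have : LkA v1 v2 NE K := by
            by_contra hlt
            exact nC ⟨hlt, hC⟩
          exact Or.inr (Or.inr (Or.inl ⟨hKL.1 hkl, this, z, y, hC, hz⟩))
        · exact Or.inl ⟨hKL.1 hkl, Or.inr ⟨z, y, Or.inr (Or.inr ⟨nA, hB, hC, hz⟩)⟩⟩
  · rintro (⟨hK, ⟨z, z', ha, hb, q⟩ | ⟨z, y, hz | ⟨hA, hz⟩ | ⟨nA, nB, nC, hz⟩⟩⟩ | ⟨hK, hN, z, y, hC, hz⟩ |
      ⟨hK, hN, z, y, hC, hz⟩ | ⟨hK, hN, z, y, hB, hz⟩ | ⟨hK, hN, z, y, hB, hz⟩ |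
      ⟨hK, z, z', ha, hb, q⟩ | ⟨hK, z, z', ha, hb, q⟩ | ⟨hK, z, z', ha, hb, q⟩ |
      ⟨hK, z, z', ha, hb, q⟩)
    · exact Or.inl ⟨z, z', ha, hb, (hQ' z z').2 (Or.inl ⟨hKL.2 hK, q⟩)⟩
    · exact Or.inr ⟨hKL.2 hK, z, y, Or.inl hz⟩
    · exact Or.inr ⟨hKL.2 hK, z, y, Or.inr (Or.inl ⟨(hop' z y).2 (Or.inl hA), hz⟩)⟩
    · refine Or.inr ⟨hKL.2 hK, z, y, Or.inr (Or.inr ⟨?_, hz⟩)⟩
      intro ho
      rcases (hop' z y).1 ho with h | ⟨_, h⟩ | ⟨_, h⟩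
      · exact nA h
      · exact nB h
      · exact nC h
    · exact Or.inr ⟨hKL.2 hK, z, y, Or.inr (Or.inl ⟨(hop' z y).2 (Or.inr (Or.inr ⟨hN, hC⟩)), hz⟩)⟩
    · refine Or.inr ⟨hKL.2 hK, z, y, Or.inr (Or.inr ⟨?_, hz⟩)⟩
      intro ho
      obtain ⟨e1, e2, e3⟩ := hex z y
      rcases (hop' z y).1 ho with h | ⟨_, h⟩ | ⟨h, _⟩
      · exact e2 ⟨h, hC⟩
      · exact e3 ⟨h, hC⟩
      · exact h hN
    · exact Or.inr ⟨hKL.2 hK, z, y, Or.inr (Or.inl ⟨(hop' z y).2 (Or.inr (Or.inl ⟨hN, hB⟩)), hz⟩)⟩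
    · refine Or.inr ⟨hKL.2 hK, z, y, Or.inr (Or.inr ⟨?_, hz⟩)⟩
      intro ho
      obtain ⟨e1, e2, e3⟩ := hex z y
      rcases (hop' z y).1 ho with h | ⟨h, _⟩ | ⟨_, h⟩
      · exact e1 ⟨h, hB⟩
      · exact absurd hN (not_lt.2 h)
      · exact e3 ⟨hB, h⟩
    · exact Or.inl ⟨z, z', ha, hb, (hQ' z z').2 (Or.inr (Or.inl ⟨hK, q⟩))⟩
    · exact Or.inl ⟨z', z, hb, ha, (hQ' z' z).2 (Or.inr (Or.inr (Or.inl ⟨hK, q⟩)))⟩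
    · exact Or.inl ⟨z, z', ha, hb, (hQ' z z').2 (Or.inr (Or.inr (Or.inr (Or.inl ⟨hK, q⟩))))⟩
    · exact Or.inl ⟨z', z, hb, ha, (hQ' z' z).2 (Or.inr (Or.inr (Or.inr (Or.inr ⟨hK, q⟩))))⟩

end Pool.Agent.LHC
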