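import Pool.Agent.LHC.Defs
import Pool.Agent.LIH.Dfn
import Pool.Agent.LIH.DfnNet

/-!
# Part A: the sides of the inequalities are definable

`c` is a constant (`DefT.const c`), `N = Nn.eval n0` a term. `DefF.divmod` with the divisor `c`: `w = e / c`, `q = e % c`. `cBad` is a boolean combination of comparisons of terms (`w < c ∧ q = w` etc.). `cV1 = B`: `(cBad ∧ 0 = B) ∨ (¬ cBad ∧ w = B)`. `cV2 = B`: `(cBad ∧ 1 = B) ∨ (¬ cBad ∧ cPrt = B)`.
`cPrt = B` by cases: `w < c`: `q = B`; `c ≤ w < c + 2 N`: `q = 0`: with `l = w - c` (write `∃ l < w + 1, w = c + l ∧ ...`, `DefF.ex`), `l % 2 = 0`: `B = c + l + 1`, `l % 2 = 1`: `B + 1 = c + l` (`c + (l / 2 * 2 + (1 - l % 2))`); `q ≠ 0`: `q = B`. `c + 2 N ≤ w`: `τ = w - (c + 2 N)`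
(`∃ τ < w + 1, w = c + 2 N + τ ∧ ...`): `q = 0`: `τ % 3 = 0, 1`: `B = c + 2 N + τ + 1`, `τ % 3 = 2`: `B + 2 = c + 2 N + τ`; `q = 1`: `∃ v < B + 1, lt τ = v ∧ B = c + v` (`hlt`); `q ≥ 2`: `q = B`. Compare `LHA/DefLit.lean`, `LHB/DefLt.lean`.
-/

namespace Pool.Agent.LHC

open Pool.Agent.LIH Pool.Agent.LHA Pool.Agent.LHB

/-- substitution of a truncated difference (when it is a true difference) -/
theorem ACd_sub {k : ℕ} {A B : CT k} {P : List Bool → ℕ → (Fin k → ℕ) → ℕ → Prop}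
    (hA : DefT k A) (hB : DefT k B)
    (hP : DefF (k + 1) (fun y n0 w => P y n0 (Fin.init w) (w (Fin.last k)))) :
    DefF k (fun y n0 w => B y n0 w ≤ A y n0 w ∧ P y n0 w (A y n0 w - B y n0 w)) := by
  have h : DefF k (fun y n0 w => ∃ l < A y n0 w + 1, A y n0 w = B y n0 w + l ∧ P y n0 w l) := by
    refine DefF.ex (P := fun y n0 w l => A y n0 w = B y n0 w + l ∧ P y n0 w l)
      (hA.add (DefT.const 1)) ?_
    exact (DefF.eq hA.init (hB.init.add DefT.last)).and hP
  refine h.congr (fun y n0 w => ?_)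
  constructor
  · rintro ⟨l, -, h1, h2⟩
    have e : A y n0 w - B y n0 w = l := by omega
    rw [e]
    exact ⟨by omega, h2⟩
  · rintro ⟨h1, h2⟩
    exact ⟨_, by omega, by omega, h2⟩

theorem ACd_bad {k : ℕ} (c : ℕ) (Nn : Polynomial ℕ) {W Q : CT k} (hW : DefT k W)
    (hQ : DefT k Q) :
    DefF k (fun y n0 w => cBad c (Nn.eval n0) (W y n0 w) (Q y n0 w)) := by
  unfold cBad
  have hc : DefT k (fun _ _ _ => c) := DefT.const c
  have hN : DefT k (fun _ n0 _ => c + 2 * Nn.eval n0) :=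
    hc.add ((DefT.const 2).mul (DefT.polyLen Nn))
  refine DefF.or ?_ (DefF.or ?_ ?_)
  · exact (DefF.lt hW hc).and (DefF.eq hQ hW)
  · exact (DefF.le hc hW).and ((DefF.lt hW hN).and (DefF.eq hQ (DefT.const 1)))
  · exact (DefF.le hN hW).and (DefF.eq hQ (DefT.const 2))

/-- the partner of a literal -/
theorem ACd_p1 {k : ℕ} (c : ℕ) {W G : CT k} (hW : DefT k W) (hG : DefT k G) :
    DefF k (fun y n0 w => c ≤ W y n0 w ∧
      c + ((W y n0 w - c) / 2 * 2 + (1 - (W y n0 w - c) % 2)) = G y n0 w) := by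
  refine ACd_sub (P := fun y n0 w l => c + (l / 2 * 2 + (1 - l % 2)) = G y n0 w) hW
    (DefT.const c) ?_
  have h : DefF (k + 1) (fun y n0 w =>
      if w (Fin.last k) % 2 = 0 then c + (w (Fin.last k) / 2 * 2 + 1) = G y n0 (Fin.init w)
      else c + w (Fin.last k) / 2 * 2 = G y n0 (Fin.init w)) := by
    refine DefF.divmod (P := fun y n0 w q r => if r = 0 then c + (q * 2 + 1) = G y n0 (Fin.init w)
      else c + q * 2 = G y n0 (Fin.init w)) DefT.last (DefT.const 2)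
      (fun _ _ _ => by norm_num) ?_
    have hq : DefT (k + 1 + 2) (fun _ _ w => (Fin.init w : Fin (k + 1 + 1) → ℕ)
      (Fin.last (k + 1))) := DefT.last.init
    have hr : DefT (k + 1 + 2) (fun _ _ w => w (Fin.last (k + 1 + 1))) := DefT.last
    have hG2 := hG.init.init.init
    exact DefF.ite (DefF.eq hr (DefT.const 0))
      (DefF.eq ((DefT.const c).add ((hq.mul (DefT.const 2)).add (DefT.const 1))) hG2)
      (DefF.eq ((DefT.const c).add (hq.mul (DefT.const 2))) hG2)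
  refine h.congr (fun y n0 w => ?_)
  have := Nat.mod_lt (w (Fin.last k)) (by norm_num : 0 < 2)
  split_ifs with h0
  · rw [h0]
  · have h1 : w (Fin.last k) % 2 = 1 := by omega
    rw [h1]
    rfl

/-- the successor in a triple -/
theorem ACd_p2 {k : ℕ} (c : ℕ) (Nn : Polynomial ℕ) {W G : CT k} (hW : DefT k W)
    (hG : DefT k G) :
    DefF k (fun y n0 w => c + 2 * Nn.eval n0 ≤ W y n0 w ∧
      c + 2 * Nn.eval n0 + ((W y n0 w - (c + 2 * Nn.eval n0)) / 3 * 3 +
        ((W y n0 w - (c + 2 * Nn.eval n0)) + 1) % 3) = G y n0 w) := by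
  have hN : ∀ k, DefT k (fun _ n0 _ => c + 2 * Nn.eval n0) := fun k =>
    (DefT.const c).add ((DefT.const 2).mul (DefT.polyLen Nn))
  refine ACd_sub (P := fun y n0 w l => c + 2 * Nn.eval n0 + (l / 3 * 3 + (l + 1) % 3) = G y n0 w)
    hW (hN k) ?_
  have h : DefF (k + 1) (fun y n0 w =>
      if w (Fin.last k) % 3 = 2 then
        c + 2 * Nn.eval n0 + w (Fin.last k) / 3 * 3 = G y n0 (Fin.init w)
      else c + 2 * Nn.eval n0 + (w (Fin.last k) / 3 * 3 + (w (Fin.last k) % 3 + 1)) =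
        G y n0 (Fin.init w)) := by
    refine DefF.divmod (P := fun y n0 w q r =>
      if r = 2 then c + 2 * Nn.eval n0 + q * 3 = G y n0 (Fin.init w)
      else c + 2 * Nn.eval n0 + (q * 3 + (r + 1)) = G y n0 (Fin.init w)) DefT.last (DefT.const 3)
      (fun _ _ _ => by norm_num) ?_
    have hq : DefT (k + 1 + 2) (fun _ _ w => (Fin.init w : Fin (k + 1 + 1) → ℕ)
      (Fin.last (k + 1))) := DefT.last.init
    have hr : DefT (k + 1 + 2) (fun _ _ w => w (Fin.last (k + 1 + 1))) := DefT.last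
    have hG2 := hG.init.init.init
    exact DefF.ite (DefF.eq hr (DefT.const 2))
      (DefF.eq ((hN _).add (hq.mul (DefT.const 3))) hG2)
      (DefF.eq ((hN _).add ((hq.mul (DefT.const 3)).add (hr.add (DefT.const 1)))) hG2)
  refine h.congr (fun y n0 w => ?_)
  have := Nat.mod_lt (w (Fin.last k)) (by norm_num : 0 < 3)
  split_ifs with h0
  · have h1 : (w (Fin.last k) + 1) % 3 = 0 := by omega
    rw [h1]
    rfl
  · have h1 : (w (Fin.last k) + 1) % 3 = w (Fin.last k) % 3 + 1 := by omega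
    rw [h1]

/-- the literal of a vertex of a triple -/
theorem ACd_p3 {k : ℕ} (c : ℕ) (Nn : Polynomial ℕ) {lt : List Bool → ℕ → ℕ → ℕ}
    (hlt : Unif lt) {W G : CT k} (hW : DefT k W) (hG : DefT k G) :
    DefF k (fun y n0 w => c + 2 * Nn.eval n0 ≤ W y n0 w ∧
      c + lt y n0 (W y n0 w - (c + 2 * Nn.eval n0)) = G y n0 w) := by
  have hN : ∀ k, DefT k (fun _ n0 _ => c + 2 * Nn.eval n0) := fun k =>
    (DefT.const c).add ((DefT.const 2).mul (DefT.polyLen Nn))
  refine ACd_sub (P := fun y n0 w l => c + lt y n0 l = G y n0 w) hW (hN k) ?_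
  have h : DefF (k + 1) (fun y n0 w => ∃ v < G y n0 (Fin.init w) + 1,
      lt y n0 (w (Fin.last k)) = v ∧ c + v = G y n0 (Fin.init w)) := by
    refine DefF.ex (P := fun y n0 w v => lt y n0 (w (Fin.last k)) = v ∧
      c + v = G y n0 (Fin.init w)) (hG.init.add (DefT.const 1)) ?_
    exact (hlt _ _ _ DefT.last.init DefT.last).and
      (DefF.eq ((DefT.const c).add DefT.last) hG.init.init)
  refine h.congr (fun y n0 w => ?_)
  constructor
  · rintro ⟨v, -, h1, h2⟩
    rw [h1, h2]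
  · intro h1
    exact ⟨_, by omega, rfl, h1⟩

theorem ACd_prt {k : ℕ} (c : ℕ) (Nn : Polynomial ℕ) {lt : List Bool → ℕ → ℕ → ℕ}
    (hlt : Unif lt) {W Q G : CT k} (hW : DefT k W) (hQ : DefT k Q) (hG : DefT k G) :
    DefF k (fun y n0 w => cPrt c (Nn.eval n0) (lt y n0) (W y n0 w) (Q y n0 w) = G y n0 w) := by
  have hc : DefT k (fun _ _ _ => c) := DefT.const c
  have hN : DefT k (fun _ n0 _ => c + 2 * Nn.eval n0) :=
    hc.add ((DefT.const 2).mul (DefT.polyLen Nn))
  have hq0 := DefF.eq hQ (DefT.const 0)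
  have hq1 := DefF.eq hQ (DefT.const 1)
  have hqG := DefF.eq hQ hG
  refine (DefF.ite (DefF.lt hW hc) hqG
    (DefF.ite (DefF.lt hW hN) (DefF.ite hq0 (ACd_p1 c hW hG) hqG)
      (DefF.ite hq0 (ACd_p2 c Nn hW hG) (DefF.ite hq1 (ACd_p3 c Nn hlt hW hG) hqG)))).congr
      (fun y n0 w => ?_)
  unfold cPrt
  split_ifs with h1 h2 h3 h4 h5
  · exact Iff.rfl
  · exact ⟨fun h => h.2, fun h => ⟨by omega, h⟩⟩
  · exact Iff.rfl
  · exact ⟨fun h => h.2, fun h => ⟨by omega, h⟩⟩
  · exact ⟨fun h => h.2, fun h => ⟨by omega, h⟩⟩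
  · exact Iff.rfl

theorem def_cV1 {c : ℕ} (hc : 0 < c) (Nn : Polynomial ℕ) :
    Unif (fun _ n0 e => cV1 c (Nn.eval n0) e) := by
  classical
  intro k F G hF hG
  refine DefF.congr (P := fun y n0 w =>
    if cBad c (Nn.eval n0) (F y n0 w / c) (F y n0 w % c) then 0 = G y n0 w
    else F y n0 w / c = G y n0 w) ?_ ?_
  · refine DefF.divmod (P := fun y n0 w q r =>
      if cBad c (Nn.eval n0) q r then 0 = G y n0 w else q = G y n0 w) hF (DefT.const c)
      (fun _ _ _ => hc) ?_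
    have hq : DefT (k + 2) (fun _ _ w => (Fin.init w : Fin (k + 1) → ℕ) (Fin.last k)) :=
      DefT.last.init
    have hr : DefT (k + 2) (fun _ _ w => w (Fin.last (k + 1))) := DefT.last
    have hG2 := hG.init.init
    exact DefF.ite (ACd_bad c Nn hq hr) (DefF.eq (DefT.const 0) hG2) (DefF.eq hq hG2)
  · intro y n0 w
    simp only [cV1]
    split_ifs <;> exact Iff.rfl

theorem def_cV2 {c : ℕ} (hc : 0 < c) (Nn : Polynomial ℕ) {lt : List Bool → ℕ → ℕ → ℕ}
    (hlt : Unif lt) : Unif (fun y n0 e => cV2 c (Nn.eval n0) (lt y n0) e) := by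
  classical
  intro k F G hF hG
  refine DefF.congr (P := fun y n0 w =>
    if cBad c (Nn.eval n0) (F y n0 w / c) (F y n0 w % c) then 1 = G y n0 w
    else cPrt c (Nn.eval n0) (lt y n0) (F y n0 w / c) (F y n0 w % c) = G y n0 w) ?_ ?_
  · refine DefF.divmod (P := fun y n0 w q r =>
      if cBad c (Nn.eval n0) q r then 1 = G y n0 w
      else cPrt c (Nn.eval n0) (lt y n0) q r = G y n0 w) hF (DefT.const c)
      (fun _ _ _ => hc) ?_
    have hq : DefT (k + 2) (fun _ _ w => (Fin.init w : Fin (k + 1) → ℕ) (Fin.last k)) :=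
      DefT.last.init
    have hr : DefT (k + 2) (fun _ _ w => w (Fin.last (k + 1))) := DefT.last
    have hG2 := hG.init.init
    exact DefF.ite (ACd_bad c Nn hq hr) (DefF.eq (DefT.const 1) hG2)
      (ACd_prt c Nn hlt hq hr hG2)
  · intro y n0 w
    simp only [cV2]
    split_ifs <;> exact Iff.rfl

end Pool.Agent.LHC
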