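import Pool.Agent.LHC.Defs
import Pool.Agent.LHC.RgB
import Pool.Agent.LHC.CloO

/-!
# Extending a colouring to the lines

For `op u y` choose `φ u y` from `h3`. Put `f (k, inl z) = f0 (k, z)`, `f (k, inr (z, y, i, x)) = φ (k, z) y x` if `op (k, z) y` and `= x` otherwise. Use `Rg.locinj_iff` for
`C = P.clo op r` (`clo_ok`), `q = P.p (k, z)`.
At `(k, inl z)`: the neighbour at the port `y` has the value `val (k, z) y`: open: it is `(k, inr (z, y, last, y))` with the value `φ (k, z) y y = val (k, z) y`; otherwise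
`(k', inl z')` with `P.nb (k, z) y = some (k', z')`, value `f0 (k', z') = val (k, z) y` (`h1`). Adjacent to `f0 (k, z)` by `h2`, and injective by `h2'`.
At `(k, inr (z, y, i, x))`: if `op (k, z) y`, with `ψ = φ (k, z) y`: the neighbour at the port `y'` has the value `ψ y'`: port `y` at `x = q`: the vertex `y` of the copy `i - 1`;
port `q` at `x = y`: the vertex `q` of the copy `i + 1` or `(k, inl z)` with the value `f0 (k, z) = ψ q`; otherwise the vertex `y'` of the same copy. `ψ` is an automorphism.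
If not `op (k, z) y`: the neighbour at the port `y'` has the value `y'`.
The last claim: `Rg.adj_iff`; the port `y` is open or `P.nb (k, z) y ≠ none`.
-/

namespace Pool.Agent.LHC

open Pool.Agent.LIH Pool.Agent.LHA Pool.Agent.LHB

section aux

variable {V κ Z : Type} {H : SimpleGraph V} {P : Rg V (κ × Z)} {op : κ × Z → V → Prop} {r : ℕ}

open Classical in
/-- the colouring -/
noncomputable def cloCf (P : Rg V (κ × Z)) (op : κ × Z → V → Prop) (r : ℕ) (f0 : κ × Z → V)
    (φ : ∀ u y, op u y → (H ≃g H)) : κ × CZ Z V r → V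
  | (k, .inl z) => f0 (k, z)
  | (k, .inr (z, y, _, x)) => if h : op (k, z) y then φ (k, z) y h x else x

theorem cloCf_op {f0 : κ × Z → V} {φ : ∀ u y, op u y → (H ≃g H)} {k : κ} {z : Z} {y x : V}
    {i : Fin (r + 1)} (h : op (k, z) y) :
    cloCf P op r f0 φ (k, .inr (z, y, i, x)) = φ (k, z) y h x := by
  simp only [cloCf, dif_pos h]

theorem cloCf_no {f0 : κ × Z → V} {φ : ∀ u y, op u y → (H ≃g H)} {k : κ} {z : Z} {y x : V}
    {i : Fin (r + 1)} (h : ¬ op (k, z) y) :
    cloCf P op r f0 φ (k, .inr (z, y, i, x)) = x := by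
  simp only [cloCf, dif_neg h]

theorem cloCf_L (hP : P.Ok H) (hO : OpOk H P op) {f0 : κ × Z → V} {val : κ × Z → V → V}
    (h1 : ∀ u y v, H.Adj (P.p u) y → P.nb u y = some v → val u y = f0 v)
    {φ : ∀ u y, op u y → (H ≃g H)}
    (hφ : ∀ u y (h : op u y), φ u y h (P.p u) = f0 u ∧ φ u y h y = val u y)
    {k : κ} {z : Z} {y : V} {v : κ × CZ Z V r} (hy : H.Adj (P.p (k, z)) y)
    (hnb : (P.clo op r).nb (k, .inl z) y = some v) :
    (P.nb (k, z) y = none → op (k, z) y) ∧ cloCf P op r f0 φ v = val (k, z) y := by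
  by_cases hop : op (k, z) y
  · have e : (P.clo op r).nb (k, .inl z) y = some (k, .inr (z, y, Fin.last r, y)) := by
      simp only [Rg.clo, if_pos hop]
    rw [e] at hnb
    have hv := Option.some.inj hnb
    subst hv
    refine ⟨fun _ => hop, ?_⟩
    rw [cloCf_op hop]
    exact (hφ _ _ hop).2
  · have e : (P.clo op r).nb (k, .inl z) y = (P.nb (k, z) y).map (fun w => (w.1, .inl w.2)) := by
      simp only [Rg.clo, if_neg hop]
    rw [e] at hnb
    obtain ⟨w, hw, hv⟩ := Option.map_eq_some_iff.1 hnb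
    subst hv
    refine ⟨fun h => ?_, ?_⟩
    · rw [hw] at h
      exact absurd h (by simp)
    · exact (h1 _ _ _ hy hw).symm

open Classical in
theorem cloCf_R {f0 : κ × Z → V} {val : κ × Z → V → V}
    {φ : ∀ u y, op u y → (H ≃g H)}
    (hφ : ∀ u y (h : op u y), φ u y h (P.p u) = f0 u ∧ φ u y h y = val u y)
    {k : κ} {z : Z} {y0 x y : V} {i : Fin (r + 1)} {v : κ × CZ Z V r}
    (hnb : (P.clo op r).nb (k, .inr (z, y0, i, x)) y = some v) :
    cloCf P op r f0 φ v = if h : op (k, z) y0 then φ (k, z) y0 h y else y := by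
  by_cases hA : op (k, z) y0 ∧ x = P.p (k, z) ∧ y = y0
  · obtain ⟨hop, hx, hyy⟩ := hA
    by_cases hi : i.1 = 0
    · have e : (P.clo op r).nb (k, .inr (z, y0, i, x)) y = none := by
        simp only [Rg.clo, if_pos (And.intro hop (And.intro hx hyy)), if_pos hi]
      rw [e] at hnb
      exact absurd hnb (by simp)
    · have e : (P.clo op r).nb (k, .inr (z, y0, i, x)) y =
          some (k, .inr (z, y0, ⟨i.1 - 1, lt_of_le_of_lt (Nat.sub_le _ _) i.2⟩, y0)) := by
        simp only [Rg.clo, if_pos (And.intro hop (And.intro hx hyy)), if_neg hi]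
      rw [e] at hnb
      have hv := Option.some.inj hnb
      subst hv
      rw [cloCf_op hop, dif_pos hop, hyy]
  · by_cases hB : op (k, z) y0 ∧ x = y0 ∧ y = P.p (k, z)
    · obtain ⟨hop, hx, hyy⟩ := hB
      by_cases hi : i.1 + 1 < r + 1
      · have e : (P.clo op r).nb (k, .inr (z, y0, i, x)) y =
            some (k, .inr (z, y0, ⟨i.1 + 1, hi⟩, P.p (k, z))) := by
          simp only [Rg.clo, if_neg hA, if_pos (And.intro hop (And.intro hx hyy)), dif_pos hi]
        rw [e] at hnb
        have hv := Option.some.inj hnb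
        subst hv
        rw [cloCf_op hop, dif_pos hop, hyy]
      · have e : (P.clo op r).nb (k, .inr (z, y0, i, x)) y = some (k, .inl z) := by
          simp only [Rg.clo, if_neg hA, if_pos (And.intro hop (And.intro hx hyy)), dif_neg hi]
        rw [e] at hnb
        have hv := Option.some.inj hnb
        subst hv
        rw [dif_pos hop, hyy]
        exact (hφ _ _ hop).1.symm
    · have e : (P.clo op r).nb (k, .inr (z, y0, i, x)) y = some (k, .inr (z, y0, i, y)) := by
        simp only [Rg.clo, if_neg hA, if_neg hB]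
      rw [e] at hnb
      have hv := Option.some.inj hnb
      subst hv
      by_cases hop : op (k, z) y0
      · rw [cloCf_op hop, dif_pos hop]
      · rw [cloCf_no hop, dif_neg hop]

end aux

theorem clo_complete {V κ Z : Type} {H : SimpleGraph V} {P : Rg V (κ × Z)}
    {op : κ × Z → V → Prop} (r : ℕ) (hP : P.Ok H) (hO : OpOk H P op) (f0 : κ × Z → V)
    (val : κ × Z → V → V) (h1 : ∀ u y v, H.Adj (P.p u) y → P.nb u y = some v → val u y = f0 v)
    (h2 : ∀ u y, H.Adj (P.p u) y → (P.nb u y = none → op u y) → H.Adj (f0 u) (val u y))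
    (h2' : ∀ u y y', H.Adj (P.p u) y → H.Adj (P.p u) y' → (P.nb u y = none → op u y) →
      (P.nb u y' = none → op u y') → val u y = val u y' → y = y')
    (h3 : ∀ u y, op u y → ∃ φ : H ≃g H, φ (P.p u) = f0 u ∧ φ y = val u y) :
    ∃ f : κ × CZ Z V r → V, LocInj ((P.clo op r).G H) H f ∧
      (∀ k z, f (k, .inl z) = f0 (k, z)) ∧
      ∀ k z v, ((P.clo op r).G H).Adj (k, .inl z) v → ∃ y, H.Adj (P.p (k, z)) y ∧
        (P.nb (k, z) y = none → op (k, z) y) ∧ f v = val (k, z) y := by
  classical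
  choose φ hφ using h3
  have hC := clo_ok r hP hO
  refine ⟨cloCf P op r f0 φ, ?_, fun k z => rfl, ?_⟩
  · rw [Rg.locinj_iff hC]
    refine ⟨?_, ?_⟩
    · rintro ⟨k, z | ⟨z, y0, i, x⟩⟩ y v hy hnb
      · change H.Adj (P.p (k, z)) y at hy
        obtain ⟨a, b⟩ := cloCf_L hP hO h1 hφ hy hnb
        rw [b]
        exact h2 _ _ hy a
      · change H.Adj x y at hy
        rw [cloCf_R hφ hnb]
        by_cases hop : op (k, z) y0
        · rw [cloCf_op hop, dif_pos hop]
          exact (φ (k, z) y0 hop).map_adj_iff.2 hy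
        · rw [cloCf_no hop, dif_neg hop]
          exact hy
    · rintro ⟨k, z | ⟨z, y0, i, x⟩⟩ y y' v v' hy hy' hnb hnb' hf
      · change H.Adj (P.p (k, z)) y at hy
        change H.Adj (P.p (k, z)) y' at hy'
        obtain ⟨a, b⟩ := cloCf_L hP hO h1 hφ hy hnb
        obtain ⟨a', b'⟩ := cloCf_L hP hO h1 hφ hy' hnb'
        rw [b, b'] at hf
        exact h2' _ _ _ hy hy' a a' hf
      · rw [cloCf_R hφ hnb, cloCf_R hφ hnb'] at hf
        by_cases hop : op (k, z) y0
        · rw [dif_pos hop, dif_pos hop] at hf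
          exact (φ (k, z) y0 hop).injective hf
        · rw [dif_neg hop, dif_neg hop] at hf
          exact hf
  · intro k z v hv
    obtain ⟨y, hy, hnb⟩ := (Rg.adj_iff hC _ _).1 hv
    obtain ⟨a, b⟩ := cloCf_L hP hO h1 hφ hy hnb
    exact ⟨y, hy, a, b⟩

end Pool.Agent.LHC
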