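import Pool.Agent.LHC.Defs
import Pool.Agent.LHB.TBas

/-!
# Extending maps between stars

`ext_inj`: the complements of `s` and of `f '' s` have the same cardinality: glue (`Equiv.extendSubtype` for the injective map on the subtype after identifying `α` and `β`, or
`Function.Embedding.exists_...`; or `Equiv.Set.sumCompl`). Induction over a finite set is also possible.
`ext_typ`: take `φ` with `φ a = a'` (`Typ.star_equiv`); compose with the transposition of `φ b` and `b'` in `N(x')`: both are different from `a'` and have the same type, so the composition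
preserves types (`Typ.TBas_swap`) and maps `a` to `a'`, `b` to `b'`.
-/

namespace Pool.Agent.LHC

open Pool.Agent.LIH Pool.Agent.LHA Pool.Agent.LHB

theorem ext_inj {α β : Type} [Finite α] [Finite β] (h : Nat.card α = Nat.card β) (s : Set α)
    (f : α → β) (hf : Set.InjOn f s) : ∃ e : α ≃ β, ∀ a ∈ s, e a = f a := by
  classical
  have := Fintype.ofFinite α
  have := Fintype.ofFinite β
  obtain ⟨e0⟩ : Nonempty (α ≃ β) := Finite.card_eq.1 h
  let e1 : {a // a ∈ s} ≃ {b // b ∈ e0.symm '' (f '' s)} :=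
    (Equiv.Set.imageOfInjOn f s hf).trans (Equiv.Set.image _ _ e0.symm.injective)
  refine ⟨(e1.extendSubtype).trans e0, ?_⟩
  intro a ha
  rw [Equiv.trans_apply, Equiv.extendSubtype_apply_of_mem e1 a ha]
  simp [e1, Equiv.Set.imageOfInjOn, Equiv.Set.image]

theorem ext_typ {V : Type} [Finite V] {H : SimpleGraph V} (T : Typ H) {x x' a b a' b' : V}
    (hv : T.vt x = T.vt x') (ha : H.Adj x a) (hb : H.Adj x b) (hab : a ≠ b) (ha' : H.Adj x' a')
    (hb' : H.Adj x' b') (hab' : a' ≠ b') (ea : T.dt x a = T.dt x' a')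
    (eb : T.dt x b = T.dt x' b') :
    ∃ φ : H.neighborSet x ≃ H.neighborSet x', T.St x x' φ ∧ (φ ⟨a, ha⟩).1 = a' ∧
      (φ ⟨b, hb⟩).1 = b' := by
  classical
  obtain ⟨φ, hφ, hy1⟩ := T.star_equiv hv ha ha' ea
  have hne : φ ⟨b, hb⟩ ≠ φ ⟨a, ha⟩ := by
    intro e
    have := φ.injective e
    exact hab (congrArg Subtype.val this).symm
  refine ⟨φ.trans (Equiv.swap (φ ⟨b, hb⟩) ⟨b', hb'⟩), T.TBas_swap hφ _ _ ?_, ?_, ?_⟩
  · rw [← hφ ⟨b, hb⟩]
    exact eb
  · have e1 : φ ⟨a, ha⟩ = ⟨a', ha'⟩ := Subtype.ext hy1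
    have hne' : (⟨a', ha'⟩ : H.neighborSet x') ≠ ⟨b', hb'⟩ := fun e =>
      hab' (congrArg Subtype.val e)
    rw [Equiv.trans_apply, e1, Equiv.swap_apply_of_ne_of_ne (e1 ▸ hne.symm) hne']
  · simp

end Pool.Agent.LHC
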