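import Pool.Agent.LHC.Defs

/-!
# The automorphisms for the spine
-/

namespace Pool.Agent.LHC

open Pool.Agent.LIH Pool.Agent.LHA Pool.Agent.LHB

variable {V : Type} {H : SimpleGraph V} {X c0 c1 : V}

theorem sp_diff (hd : ¬ ∃ φ : H ≃g H, φ X = X ∧ φ c1 = c0) (g g' : H ≃g H) (hg : g X = X)
    (hg' : g' X = X) : ∃ h : H ≃g H, h X = X ∧ h c0 ≠ g c1 ∧ h c1 ≠ g' c0 := by
  refine ⟨SimpleGraph.Iso.refl, rfl, ?_, ?_⟩
  · intro h
    exact hd ⟨g, hg, h.symm⟩
  · intro h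
    refine hd ⟨g'.symm, ?_, ?_⟩
    · rw [RelIso.symm_apply_eq]
      exact hg'.symm
    · rw [RelIso.symm_apply_eq]
      exact h

theorem SpL_orb [Finite V] (c : V)
    (h0 : 3 ≤ {z | ∃ φ : H ≃g H, φ X = X ∧ φ c = z}.ncard) (a : V) :
    3 * {h : H ≃g H | h X = X ∧ h c = a}.ncard ≤ {h : H ≃g H | h X = X}.ncard := by
  have : Finite (H ≃g H) := Finite.of_injective (fun φ : H ≃g H => (φ : V → V))
    DFunLike.coe_injective
  by_cases ha : ∃ φ : H ≃g H, φ X = X ∧ φ c = a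
  · obtain ⟨φ, hφ1, hφ2⟩ := ha
    obtain ⟨z1, z2, z3, ⟨φ1, h11, h12⟩, ⟨φ2, h21, h22⟩, ⟨φ3, h31, h32⟩, n12, n13, n23⟩ :=
      (Set.two_lt_ncard_iff (Set.toFinite _)).1 (show 2 < _ from h0)
    have key : ∀ (z : V) (ψ : H ≃g H), ψ X = X → ψ c = z →
        {h : H ≃g H | h X = X ∧ h c = a}.ncard ≤ {h : H ≃g H | h X = X ∧ h c = z}.ncard := by
      intro z ψ hψ1 hψ2
      refine Set.ncard_le_ncard_of_injOn (fun h => (h.trans φ.symm).trans ψ) ?_ ?_
        (Set.toFinite _)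
      · rintro h ⟨hh1, hh2⟩
        refine ⟨?_, ?_⟩
        · show ψ (φ.symm (h X)) = X
          rw [hh1, show φ.symm X = X from by rw [RelIso.symm_apply_eq]; exact hφ1.symm, hψ1]
        · show ψ (φ.symm (h c)) = z
          rw [hh2, show φ.symm a = c from by rw [RelIso.symm_apply_eq]; exact hφ2.symm, hψ2]
      · intro h _ h' _ e
        apply RelIso.ext
        intro x
        have := congrArg (fun F : H ≃g H => F x) e
        exact φ.symm.injective (ψ.injective this)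
    have k1 := key z1 φ1 h11 h12
    have k2 := key z2 φ2 h21 h22
    have k3 := key z3 φ3 h31 h32
    have d12 : Disjoint {h : H ≃g H | h X = X ∧ h c = z1} {h : H ≃g H | h X = X ∧ h c = z2} := by
      rw [Set.disjoint_left]
      rintro h ⟨_, e1⟩ ⟨_, e2⟩
      exact n12 (e1.symm.trans e2)
    have d3 : Disjoint ({h : H ≃g H | h X = X ∧ h c = z1} ∪ {h : H ≃g H | h X = X ∧ h c = z2})
        {h : H ≃g H | h X = X ∧ h c = z3} := by
      rw [Set.disjoint_left]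
      rintro h (⟨_, e1⟩ | ⟨_, e1⟩) ⟨_, e2⟩
      · exact n13 (e1.symm.trans e2)
      · exact n23 (e1.symm.trans e2)
    have hu := Set.ncard_union_eq d3 (Set.toFinite _) (Set.toFinite _)
    rw [Set.ncard_union_eq d12 (Set.toFinite _) (Set.toFinite _)] at hu
    have hs : ({h : H ≃g H | h X = X ∧ h c = z1} ∪ {h : H ≃g H | h X = X ∧ h c = z2} ∪
        {h : H ≃g H | h X = X ∧ h c = z3}).ncard ≤ {h : H ≃g H | h X = X}.ncard := by
      refine Set.ncard_le_ncard ?_ (Set.toFinite _)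
      rintro h ((⟨e, _⟩ | ⟨e, _⟩) | ⟨e, _⟩) <;> exact e
    omega
  · have : {h : H ≃g H | h X = X ∧ h c = a} = ∅ := by
      ext h
      simp only [Set.mem_ofPred_eq, Set.mem_empty_iff_false, iff_false]
      exact fun hh => ha ⟨h, hh⟩
    rw [this, Set.ncard_empty]
    omega

theorem sp_three [Finite V] (h0 : 3 ≤ {z | ∃ φ : H ≃g H, φ X = X ∧ φ c0 = z}.ncard)
    (h1 : 3 ≤ {z | ∃ φ : H ≃g H, φ X = X ∧ φ c1 = z}.ncard) (a b : V) :
    ∃ h : H ≃g H, h X = X ∧ h c0 ≠ a ∧ h c1 ≠ b := by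
  have : Finite (H ≃g H) := Finite.of_injective (fun φ : H ≃g H => (φ : V → V))
    DFunLike.coe_injective
  have k0 := SpL_orb c0 h0 a
  have k1 := SpL_orb c1 h1 b
  have hpos : 0 < {h : H ≃g H | h X = X}.ncard := by
    rw [Set.ncard_pos (Set.toFinite _)]
    exact ⟨SimpleGraph.Iso.refl, rfl⟩
  by_contra hcon
  push Not at hcon
  have hsub : {h : H ≃g H | h X = X} ⊆
      {h : H ≃g H | h X = X ∧ h c0 = a} ∪ {h : H ≃g H | h X = X ∧ h c1 = b} := by
    intro h hh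
    by_cases e : h c0 = a
    · exact Or.inl ⟨hh, e⟩
    · exact Or.inr ⟨hh, hcon h hh e⟩
  have h3 := Set.ncard_le_ncard hsub (Set.toFinite _)
  have h4 := Set.ncard_union_le {h : H ≃g H | h X = X ∧ h c0 = a}
    {h : H ≃g H | h X = X ∧ h c1 = b}
  omega

end Pool.Agent.LHC
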