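import Pool.Agent.LHC.Defs
import Pool.Agent.LHC.RgB
import Pool.Agent.LHC.CloO
import Pool.Agent.LHC.CloC
import Pool.Agent.LHC.AOk
import Pool.Agent.LHC.SpL
import Pool.Agent.LHC.PerX

/-!
# Part A: completeness

`S` = automorphisms which fix `X`. Choose `h v ∈ S` with `h v y = col v` (`D.tr`). For every `e` choose `a0 e ≠ a1 e` in `N(X)`, both different from `col (v1 e)`, `col (v2 e)` (`h4`). Choose `g k 0 ∈ S` with `g k 0 (c 1) = a1 k.2`, `g k 1 ∈ S` with
`g k 1 (c 0) = a0 k.2` (`D.tr`), and `g k 2 = h ∈ S` with `h (c 0) ≠ g k 1 (c 1)`, `h (c 1) ≠ g (pn k) 0 (c 0)` (`sp_three`; the orbit of `c 0` under `S` is `N(X)` by `D.tr`, at least 4 elements). Then for every `q = (k, σ)`, with `q' = sx pn q`: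
`g q (c 1) ≠ g q' (c 0)`: `σ = 0`: `a1 ≠ a0`; `σ = 1`, `σ = 2`: by the choice of `g k 2`.
`f0`: `t ↦ col k.1`, `st σ ↦ X`, `vs σ x ↦ g k σ x`, `sy x ↦ h k.1 x`, `so x ↦ h k.1 x`. `val`: at `t`, `sy x`, `so x`: `z ↦ h k.1 z`; at `vs σ x`: `z ↦ g k σ z`; at `st σ`: a bijection `b : N(X) ≃ N(X)` (`ext_inj`) with
`c 1 ↦ g (k, σ) (c 1)`, `c 0 ↦ g (sx pn (k, σ)) (c 0)` and, if `σ = 0` and `k.1 = v0`, `c 2 ↦ col (v1 k.2)`, `c 3 ↦ col (v2 k.2)`; these values are different elements of `N(X)`.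
Apply `clo_complete` with `P = coreA D I`, `op = opA D I`. `h1` (by cases): `t` at `x2` → `sy x2`: `h v x2`; at `x3` → `sy x3` in the cell `(v, nx⁻¹ e)` with the same `v`; at `X` → `so X`. `st σ`: by the choice of `b`; `so y` of the cell `(v1 e, e)` has the value
`h (v1 e) y = col (v1 e)`. `vs σ (c 1)`, `vs σ (c 0)` at `X` → `st`: `g X = X`. `sy x2`, `sy x3` at `y` → `t`: `h v y = col v`. `so X` at `y` → `t`; `so y` at `X` → `st 0`: `h v X = X`. The others are clear. `h2`, `h2'`: automorphisms, and the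
bijection `b` at `st σ`. `h3`: the automorphism `h k.1` or `g k σ` (`φ (p u) = f0 u`: for `t`: `h v y = col v`); at `st σ`: `D.tr` gives `φ` with `φ X = X`, `φ z = b z`.
-/

namespace Pool.Agent.LHC

open Pool.Agent.LIH Pool.Agent.LHA Pool.Agent.LHB

section

variable {V : Type} {H : SimpleGraph V} (D : DA H) (I : IA)

/-- a bijection of the neighbours of `X` with given values -/
theorem ACo_b [Finite V] (s : Set (Fin 4)) (w : Fin 4 → V) (hw : ∀ i, H.Adj D.X (w i))
    (hinj : Set.InjOn w s) : ∃ b : V → V, (∀ z, H.Adj D.X z → H.Adj D.X (b z)) ∧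
      (∀ z z', H.Adj D.X z → H.Adj D.X z' → b z = b z' → z = z') ∧ ∀ i ∈ s, b (D.c i) = w i := by
  classical
  have hidx : ∀ i, Function.invFun D.c (D.c i) = i := Function.leftInverse_invFun D.inj_c
  obtain ⟨e, he⟩ := ext_inj (α := H.neighborSet D.X) (β := H.neighborSet D.X) rfl
    {a | ∃ i ∈ s, a.1 = D.c i} (fun a => ⟨w (Function.invFun D.c a.1), hw _⟩) (by
      rintro ⟨a, ha⟩ ⟨i, hi, hai⟩ ⟨a', ha'⟩ ⟨j, hj, haj⟩ h
      simp only at hai haj
      subst hai
      subst haj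
      have h' := congrArg Subtype.val h
      simp only [hidx] at h'
      have := hinj hi hj h'
      subst this
      rfl)
  refine ⟨fun z => if hz : H.Adj D.X z then (e ⟨z, hz⟩).1 else z, ?_, ?_, ?_⟩
  · intro z hz
    simp only [dif_pos hz]
    exact (e ⟨z, hz⟩).2
  · intro z z' hz hz' h
    simp only [dif_pos hz, dif_pos hz'] at h
    have := e.injective (Subtype.ext h)
    exact congrArg Subtype.val this
  · intro i hi
    simp only [dif_pos (D.adj_c i)]
    rw [he ⟨D.c i, D.adj_c i⟩ ⟨i, hi, rfl⟩]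
    simp only [hidx]

/-- two neighbours of `X` different from two given vertices -/
theorem ACo_a [Finite V] (h4 : 4 ≤ (H.neighborSet D.X).ncard) (α β : V) : ∃ p : V × V,
    H.Adj D.X p.1 ∧ H.Adj D.X p.2 ∧ p.1 ≠ p.2 ∧ p.1 ≠ α ∧ p.1 ≠ β ∧ p.2 ≠ α ∧ p.2 ≠ β := by
  have h1 : 1 < (H.neighborSet D.X \ {α, β}).ncard := by
    have h2 : (H.neighborSet D.X).ncard - ({α, β} : Set V).ncard ≤
        (H.neighborSet D.X \ {α, β}).ncard := Set.le_ncard_sdiff _ _
    have h3 : ({α, β} : Set V).ncard ≤ 2 := by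
      have := Set.ncard_insert_le α {β}
      rw [Set.ncard_singleton] at this
      exact this
    omega
  obtain ⟨a, ha, b, hb, hab⟩ := (Set.one_lt_ncard).mp h1
  simp only [Set.mem_sdiff, SimpleGraph.mem_neighborSet, Set.mem_insert_iff,
    Set.mem_singleton_iff, not_or] at ha hb
  exact ⟨(a, b), ha.1, hb.1, hab, ha.2.1, ha.2.2, hb.2.1, hb.2.2⟩

theorem ACo_orb [Finite V] (h4 : 4 ≤ (H.neighborSet D.X).ncard) {c : V} (hc : H.Adj D.X c) :
    3 ≤ {z | ∃ φ : H ≃g H, φ D.X = D.X ∧ φ c = z}.ncard := by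
  have h1 : (H.neighborSet D.X).ncard ≤ {z | ∃ φ : H ≃g H, φ D.X = D.X ∧ φ c = z}.ncard := by
    apply Set.ncard_le_ncard _ (Set.toFinite _)
    intro z hz
    exact D.tr c z hc hz
  omega

/-- the automorphisms of the spine -/
theorem ACo_g [Finite V] (h4 : 4 ≤ (H.neighborSet D.X).ncard) (α0 α1 : I.EE → V)
    (h0 : ∀ e, H.Adj D.X (α0 e)) (h1 : ∀ e, H.Adj D.X (α1 e)) (h01 : ∀ e, α0 e ≠ α1 e) :
    ∃ g : (I.VV × I.EE) × Fin 3 → (H ≃g H), (∀ q, g q D.X = D.X) ∧
      (∀ k, g (k, 0) (D.c 1) = α1 k.2) ∧ (∀ k, g (k, 1) (D.c 0) = α0 k.2) ∧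
      ∀ q, g q (D.c 1) ≠ g (sx I.pn q) (D.c 0) := by
  classical
  choose G0 hG0 hG0' using fun k : I.VV × I.EE => D.tr (D.c 1) (α1 k.2) (D.adj_c 1) (h1 k.2)
  choose G1 hG1 hG1' using fun k : I.VV × I.EE => D.tr (D.c 0) (α0 k.2) (D.adj_c 0) (h0 k.2)
  choose G2 hG2 hG2a hG2b using fun k : I.VV × I.EE =>
    sp_three (ACo_orb D h4 (D.adj_c 0)) (ACo_orb D h4 (D.adj_c 1)) (G1 k (D.c 1))
      (G0 (I.pn k) (D.c 0))
  let g : (I.VV × I.EE) × Fin 3 → (H ≃g H) := fun q =>
    if q.2 = 0 then G0 q.1 else if q.2 = 1 then G1 q.1 else G2 q.1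
  have g0 : ∀ k, g (k, 0) = G0 k := fun k => rfl
  have g1 : ∀ k, g (k, 1) = G1 k := fun k => rfl
  have g2 : ∀ k, g (k, 2) = G2 k := fun k => rfl
  refine ⟨g, ?_, ?_, ?_, ?_⟩
  · rintro ⟨k, σ⟩
    have hσ : σ = 0 ∨ σ = 1 ∨ σ = 2 := by omega
    rcases hσ with rfl | rfl | rfl
    · rw [g0]; exact hG0 k
    · rw [g1]; exact hG1 k
    · rw [g2]; exact hG2 k
  · intro k
    rw [g0]
    exact hG0' k
  · intro k
    rw [g1]
    exact hG1' k
  · rintro ⟨k, σ⟩
    have hσ : σ = 0 ∨ σ = 1 ∨ σ = 2 := by omega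
    rcases hσ with rfl | rfl | rfl
    · have : sx I.pn (k, 0) = (k, 1) := rfl
      rw [this, g0, g1, hG0', hG1']
      exact (h01 k.2).symm
    · have : sx I.pn (k, 1) = (k, 2) := rfl
      rw [this, g1, g2]
      exact (hG2a k).symm
    · have : sx I.pn (k, 2) = (I.pn k, 0) := rfl
      rw [this, g2, g0]
      exact hG2b k

/-- the values of the vertices -/
def ACo_f0 (col : I.VV → V) (h : I.VV → (H ≃g H)) (g : (I.VV × I.EE) × Fin 3 → (H ≃g H)) :
    (I.VV × I.EE) × ZA V → V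
  | (k, .t) => col k.1
  | (_, .st _) => D.X
  | (k, .vs σ x) => g (k, σ) x
  | (k, .sy x) => h k.1 x
  | (k, .so x) => h k.1 x

/-- the values of the neighbours -/
def ACo_val (h : I.VV → (H ≃g H)) (g : (I.VV × I.EE) × Fin 3 → (H ≃g H))
    (b : (I.VV × I.EE) × Fin 3 → V → V) : (I.VV × I.EE) × ZA V → V → V
  | (k, .t), z => h k.1 z
  | (k, .st σ), z => b (k, σ) z
  | (k, .vs σ _), z => g (k, σ) z
  | (k, .sy _), z => h k.1 z
  | (k, .so _), z => h k.1 z

theorem ACo_main [Finite V] (r : ℕ) (col : I.VV → V) (h : I.VV → (H ≃g H))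
    (g : (I.VV × I.EE) × Fin 3 → (H ≃g H)) (b : (I.VV × I.EE) × Fin 3 → V → V)
    (hX : ∀ v, h v D.X = D.X) (hy : ∀ v, h v D.y = col v) (gX : ∀ q, g q D.X = D.X)
    (b1 : ∀ q z, H.Adj D.X z → H.Adj D.X (b q z))
    (b2 : ∀ q z z', H.Adj D.X z → H.Adj D.X z' → b q z = b q z' → z = z')
    (b3 : ∀ q, b q (D.c 1) = g q (D.c 1)) (b4 : ∀ q, b q (D.c 0) = g (sx I.pn q) (D.c 0))
    (b5 : ∀ e, b ((I.v0, e), 0) (D.c 2) = col (I.v1 e))
    (b6 : ∀ e, b ((I.v0, e), 0) (D.c 3) = col (I.v2 e)) :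
    ∃ f, LocInj (gA D I r) H f := by
  classical
  have H1 : ∀ u y v, H.Adj ((coreA D I).p u) y → (coreA D I).nb u y = some v →
      ACo_val I h g b u y = ACo_f0 D I col h g v := by
    rintro ⟨k, z0⟩ z v hz hn
    cases z0 with
    | t =>
      simp only [coreA] at hn
      split_ifs at hn with e1 e2 e3
      · cases hn
        subst e1
        rfl
      · cases hn
        subst e2
        rfl
      · cases hn
        subst e3
        rfl
    | st σ =>
      simp only [coreA] at hn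
      split_ifs at hn with e1 e2 e3 e4
      · cases hn
        subst e1
        exact b3 (k, σ)
      · cases hn
        subst e2
        exact b4 (k, σ)
      · cases hn
        obtain ⟨rfl, e5, rfl⟩ := e3
        obtain ⟨k1, k2⟩ := k
        simp only at e5
        subst e5
        show b ((I.v0, k2), 0) (D.c 2) = h (I.v1 k2) D.y
        rw [b5, hy]
      · cases hn
        obtain ⟨rfl, e5, rfl⟩ := e4
        obtain ⟨k1, k2⟩ := k
        simp only at e5
        subst e5
        show b ((I.v0, k2), 0) (D.c 3) = h (I.v2 k2) D.y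
        rw [b6, hy]
    | vs σ x =>
      simp only [coreA] at hn
      split_ifs at hn with e1 e2 e3
      · cases hn
        rw [e2.2]
        exact gX (k, σ)
      · cases hn
        rw [e3.2]
        exact gX (k, σ)
      · cases hn
        rfl
    | sy x =>
      simp only [coreA] at hn
      split_ifs at hn with e1 e2 e3
      · cases hn
        rw [e2.2]
        exact hy k.1
      · cases hn
        rw [e3.2]
        exact hy k.1
      · cases hn
        rfl
    | so x =>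
      simp only [coreA] at hn
      split_ifs at hn with e1 e2 e3
      · cases hn
        rw [e1.2]
        exact hy k.1
      · cases hn
        rw [e2.2]
        exact hX k.1
      · cases hn
        rfl
  have H2 : ∀ u y, H.Adj ((coreA D I).p u) y → ((coreA D I).nb u y = none → opA D I u y) →
      H.Adj (ACo_f0 D I col h g u) (ACo_val I h g b u y) := by
    rintro ⟨k, z0⟩ z hz _
    cases z0 with
    | t =>
      have hz' : H.Adj D.y z := hz
      show H.Adj (col k.1) (h k.1 z)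
      rw [← hy k.1]
      exact (h k.1).map_adj_iff.mpr hz'
    | st σ => exact b1 (k, σ) z hz
    | vs σ x => exact (g (k, σ)).map_adj_iff.mpr hz
    | sy x => exact (h k.1).map_adj_iff.mpr hz
    | so x => exact (h k.1).map_adj_iff.mpr hz
  have H3 : ∀ u y y', H.Adj ((coreA D I).p u) y → H.Adj ((coreA D I).p u) y' →
      ((coreA D I).nb u y = none → opA D I u y) → ((coreA D I).nb u y' = none → opA D I u y') →
      ACo_val I h g b u y = ACo_val I h g b u y' → y = y' := by
    rintro ⟨k, z0⟩ z z' hz hz' _ _ he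
    cases z0 with
    | t => exact (h k.1).injective he
    | st σ => exact b2 (k, σ) z z' hz hz' he
    | vs σ x => exact (g (k, σ)).injective he
    | sy x => exact (h k.1).injective he
    | so x => exact (h k.1).injective he
  have H4 : ∀ u y, opA D I u y → ∃ φ : H ≃g H, φ ((coreA D I).p u) = ACo_f0 D I col h g u ∧
      φ y = ACo_val I h g b u y := by
    rintro ⟨k, z0⟩ z hz
    have hz1 := hz.1
    cases z0 with
    | t => exact ⟨h k.1, hy k.1, rfl⟩
    | st σ => exact D.tr z (b (k, σ) z) hz1 (b1 (k, σ) z hz1)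
    | vs σ x => exact ⟨g (k, σ), rfl, rfl⟩
    | sy x => exact ⟨h k.1, rfl, rfl⟩
    | so x => exact ⟨h k.1, rfl, rfl⟩
  obtain ⟨f, hf, _⟩ := clo_complete r (coreA_ok D I) (opA_ok D I) (ACo_f0 D I col h g)
    (ACo_val I h g b) H1 H2 H3 H4
  exact ⟨f, hf⟩

end

theorem complete_A {V : Type} [Finite V] {H : SimpleGraph V} (D : DA H) (I : IA) (r : ℕ)
    (h4 : 4 ≤ (H.neighborSet D.X).ncard) (col : I.VV → V) (h1 : ∀ v, H.Adj D.X (col v))
    (h2 : ∀ e, col (I.v1 e) ≠ col (I.v2 e)) : ∃ f, LocInj (gA D I r) H f := by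
  classical
  choose h hX hy using fun v => D.tr D.y (col v) D.adj_y (h1 v)
  choose p p1 p2 p3 p4 p5 p6 p7 using fun e => ACo_a D h4 (col (I.v1 e)) (col (I.v2 e))
  obtain ⟨g, gX, gc1, gc0, gne⟩ := ACo_g D I h4 (fun e => (p e).1) (fun e => (p e).2) p1 p2 p3
  have gadj : ∀ q i, H.Adj D.X (g q (D.c i)) := by
    intro q i
    have := (g q).map_adj_iff.mpr (D.adj_c i)
    rwa [gX q] at this
  have hb : ∀ q : (I.VV × I.EE) × Fin 3, ∃ b : V → V, (∀ z, H.Adj D.X z → H.Adj D.X (b z)) ∧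
      (∀ z z', H.Adj D.X z → H.Adj D.X z' → b z = b z' → z = z') ∧
      b (D.c 1) = g q (D.c 1) ∧ b (D.c 0) = g (sx I.pn q) (D.c 0) ∧
      (q.2 = 0 ∧ q.1.1 = I.v0 → b (D.c 2) = col (I.v1 q.1.2) ∧ b (D.c 3) = col (I.v2 q.1.2)) := by
    rintro ⟨⟨v, e⟩, σ⟩
    have hadj : ∀ i, H.Adj D.X ((![g (sx I.pn ((v, e), σ)) (D.c 0), g ((v, e), σ) (D.c 1),
        col (I.v1 e), col (I.v2 e)] : Fin 4 → V) i) := by
      intro i
      fin_cases i
      · exact gadj _ _
      · exact gadj _ _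
      · exact h1 _
      · exact h1 _
    by_cases hc : σ = 0 ∧ v = I.v0
    · obtain ⟨rfl, rfl⟩ := hc
      obtain ⟨b, hb1, hb2, hb3⟩ := ACo_b D Set.univ _ hadj (by
        have e0 : g (sx I.pn ((I.v0, e), 0)) (D.c 0) = (p e).1 := gc0 (I.v0, e)
        have e1 : g ((I.v0, e), 0) (D.c 1) = (p e).2 := gc1 (I.v0, e)
        rw [e0, e1]
        have n01 := p3 e
        have n02 := p4 e
        have n03 := p5 e
        have n12 := p6 e
        have n13 := p7 e
        have n23 := h2 e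
        intro i _ j _ hij
        fin_cases i <;> fin_cases j <;> simp at hij ⊢ <;>
          first
            | exact absurd hij n01
            | exact absurd hij n02
            | exact absurd hij n03
            | exact absurd hij n12
            | exact absurd hij n13
            | exact absurd hij n23
            | exact absurd hij.symm n01
            | exact absurd hij.symm n02
            | exact absurd hij.symm n03
            | exact absurd hij.symm n12
            | exact absurd hij.symm n13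
            | exact absurd hij.symm n23)
      exact ⟨b, hb1, hb2, hb3 1 trivial, hb3 0 trivial, fun _ => ⟨hb3 2 trivial, hb3 3 trivial⟩⟩
    · obtain ⟨b, hb1, hb2, hb3⟩ := ACo_b D {0, 1} _ hadj (by
        have n01 := gne ((v, e), σ)
        rintro i (rfl | rfl) j (rfl | rfl) hij
        · rfl
        · exact absurd hij.symm n01
        · exact absurd hij n01
        · rfl)
      exact ⟨b, hb1, hb2, hb3 1 (by simp), hb3 0 (by simp), fun h => absurd h hc⟩
  choose b b1 b2 b3 b4 b5 using hb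
  exact ACo_main D I r col h g b hX hy gX b1 b2 b3 b4
    (fun e => (b5 ((I.v0, e), 0) ⟨rfl, rfl⟩).1) (fun e => (b5 ((I.v0, e), 0) ⟨rfl, rfl⟩).2)

end Pool.Agent.LHC
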