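import Pool.Agent.LHC.Defs

/-!
# Part A: bounds for the colouring instance

`w = e / k < cNV`, `q = e % k < k`. If `cBad`: the sides are `0, 1`, and `1 < k ≤ cNV`. Otherwise: `w < k`: `q ≠ w`, `q < k ≤ cNV`. `k ≤ w < k + 2 N`, `l = w - k < 2 N`: `q = 0`: `l / 2 * 2 + (1 - l % 2)` is `< 2 N` and `≠ l`; `q ≥ 2`: `q < k ≤ w`.
`w = k + 2 N + τ`, `τ < 3 Θ`: `q = 0`: `τ / 3 * 3 + (τ + 1) % 3 < 3 Θ`, and it is `≠ τ` (`(τ + 1) % 3 ≠ τ % 3`); `q = 1`: `k + lt τ < k + 2 N ≤ w`; `q ≥ 3`: `q < k ≤ w`.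
-/

namespace Pool.Agent.LHC

open Pool.Agent.LIH Pool.Agent.LHA Pool.Agent.LHB

variable {k N Θ : ℕ} {lt : ℕ → ℕ}

theorem aCv_w {e : ℕ} (he : e < cNV k N Θ * k) : e / k < cNV k N Θ :=
  Nat.div_lt_of_lt_mul (by rw [Nat.mul_comm]; exact he)

theorem aCv_q (hk : 3 ≤ k) (e : ℕ) : e % k < k := Nat.mod_lt _ (by omega)

theorem cV1_lt (hk : 3 ≤ k) {e : ℕ} (he : e < cNV k N Θ * k) : cV1 k N e < cNV k N Θ := by
  have h1 := aCv_w he
  unfold cV1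
  split_ifs
  · exact lt_of_le_of_lt (Nat.zero_le _) h1
  · exact h1

theorem aCv_prt (hlt : ∀ o < 3 * Θ, lt o < 2 * N) {w q : ℕ}
    (hw : w < cNV k N Θ) (hq : q < k) (hb : ¬ cBad k N w q) :
    cPrt k N lt w q < cNV k N Θ ∧ w ≠ cPrt k N lt w q := by
  unfold cBad at hb
  push Not at hb
  obtain ⟨hb1, hb2, hb3⟩ := hb
  unfold cNV at hw
  unfold cPrt cNV
  split_ifs with h1 h2 h3 h4 h5
  · have := hb1 h1
    omega
  · obtain ⟨l, rfl⟩ : ∃ l, w = k + l := ⟨w - k, by omega⟩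
    have e1 : k + l - k = l := by omega
    rw [e1]
    omega
  · have := hb2 (by omega) h2
    omega
  · obtain ⟨τ, rfl⟩ : ∃ τ, w = k + 2 * N + τ := ⟨w - (k + 2 * N), by omega⟩
    have e1 : k + 2 * N + τ - (k + 2 * N) = τ := by omega
    rw [e1]
    omega
  · obtain ⟨τ, rfl⟩ : ∃ τ, w = k + 2 * N + τ := ⟨w - (k + 2 * N), by omega⟩
    have e1 : k + 2 * N + τ - (k + 2 * N) = τ := by omega
    rw [e1]
    have := hlt τ (by omega)
    omega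
  · have := hb3 (by omega)
    omega

theorem cV2_lt (hk : 3 ≤ k) (hlt : ∀ o < 3 * Θ, lt o < 2 * N) {e : ℕ}
    (he : e < cNV k N Θ * k) : cV2 k N lt e < cNV k N Θ := by
  unfold cV2
  split_ifs with h
  · unfold cNV
    omega
  · exact (aCv_prt hlt (aCv_w he) (aCv_q hk e) h).1

theorem cV_ne (hk : 3 ≤ k) (hlt : ∀ o < 3 * Θ, lt o < 2 * N) {e : ℕ}
    (he : e < cNV k N Θ * k) : cV1 k N e ≠ cV2 k N lt e := by
  unfold cV1 cV2
  split_ifs with h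
  · omega
  · exact (aCv_prt hlt (aCv_w he) (aCv_q hk e) h).2

end Pool.Agent.LHC
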