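import Pool.Agent.LHC.Defs
import Pool.Agent.LHC.ACv

/-!
# Part A: the colouring instance

Write the inequalities as `(w, q)`, `e = w * k + q`, `w < cNV`, `q < k` (`e / k = w`, `e % k = q`).
(→) Let `col` be a solution. The colours of `0, ..., k - 1` are different (`(w, q)`, `w, q < k`, `q ≠ w`). Let `γ i = col i` (`i < k`), a bijection `Fin k → Fin k`. For a literal `l < 2 N`: `col (k + l) ≠ γ q` for `q ≥ 2`, so `col (k + l) = γ 0` or `γ 1`,
and the two literals `2 x, 2 x + 1` have different colours. Put `a x = true` iff `col (k + 2 x) = γ 1`; then `lval a l = true` iff `col (k + l) = γ 1`. A triple `θ < Θ`: the three vertices `k + 2 N + 3 θ + i` have colours different from `γ q`, `q ≥ 3`, so in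
`{γ 0, γ 1, γ 2}`, and they are different: so `γ 0` and `γ 1` occur, at `i ≠ j`. The colour of the literal `lt (3 θ + i)` is not `γ 0`, so it is `γ 1`; the colour of the literal `lt (3 θ + j)` is `γ 0`: not all three literals have the same value.
(←) Let `a` be a solution. `col w = w` for `w < k`, `col (k + l) = 1` if `lval a l` and `0` otherwise (`lval a (2x) ≠ lval a (2x+1)`). For `θ < Θ` with the values `b i = lval a (lt (3 θ + i))` not all equal choose `i` with `b i = true` and `j` with `b j = false`, give
the vertex `i` the colour `0`, `j` the colour `1`, the third one the colour `2`. All inequalities hold: `(w, q)` unused: `0 ≠ 1`.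
-/

namespace Pool.Agent.LHC

open Pool.Agent.LIH Pool.Agent.LHA Pool.Agent.LHB

/-- the inequality of a used pair -/
theorem ACs_use {k N Θ : ℕ} {lt : ℕ → ℕ} {col : ℕ → Fin k}
    (hcol : ∀ e < cNV k N Θ * k, col (cV1 k N e) ≠ col (cV2 k N lt e)) {w q : ℕ}
    (hw : w < cNV k N Θ) (hq : q < k) (hb : ¬ cBad k N w q) : col w ≠ col (cPrt k N lt w q) := by
  have hk : 0 < k := by omega
  have h1 : (w * k + q) / k = w := by
    rw [Nat.mul_comm, Nat.mul_add_div hk, Nat.div_eq_of_lt hq, Nat.add_zero]
  have h2 : (w * k + q) % k = q := by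
    rw [Nat.mul_comm, Nat.mul_add_mod, Nat.mod_eq_of_lt hq]
  have h3 : w * k + q < cNV k N Θ * k := by
    calc w * k + q < w * k + k := by omega
      _ = (w + 1) * k := by ring
      _ ≤ cNV k N Θ * k := Nat.mul_le_mul_right _ hw
  have h4 := hcol _ h3
  unfold cV1 cV2 at h4
  rw [h1, h2, if_neg hb, if_neg hb] at h4
  exact h4

/-- the colours of a triple -/
def ACs_t : Bool → Bool → Bool → ℕ → ℕ
  | true, false, _, i => i
  | false, true, _, i => if i = 0 then 1 else if i = 1 then 0 else 2
  | true, true, _, i => if i = 0 then 0 else if i = 1 then 2 else 1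
  | false, false, _, i => if i = 0 then 1 else if i = 1 then 2 else 0

theorem ACs_t_lt (b0 b1 b2 : Bool) {i : ℕ} (hi : i < 3) : ACs_t b0 b1 b2 i < 3 := by
  have : i = 0 ∨ i = 1 ∨ i = 2 := by omega
  rcases this with rfl | rfl | rfl <;> cases b0 <;> cases b1 <;> cases b2 <;> simp [ACs_t]

theorem ACs_t_ne (b0 b1 b2 : Bool) {i : ℕ} (hi : i < 3) :
    ACs_t b0 b1 b2 i ≠ ACs_t b0 b1 b2 ((i + 1) % 3) := by
  have : i = 0 ∨ i = 1 ∨ i = 2 := by omega
  rcases this with rfl | rfl | rfl <;> cases b0 <;> cases b1 <;> cases b2 <;> simp [ACs_t]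

theorem ACs_t_b (b : ℕ → Bool) (h : ¬ (b 0 = b 1 ∧ b 1 = b 2)) {i : ℕ} (hi : i < 3) :
    ACs_t (b 0) (b 1) (b 2) i ≠ if b i = true then 1 else 0 := by
  have : i = 0 ∨ i = 1 ∨ i = 2 := by omega
  rcases this with rfl | rfl | rfl <;> cases h0 : b 0 <;> cases h1 : b 1 <;> cases h2 : b 2 <;>
    simp [ACs_t, h0, h1, h2] at h ⊢

/-- the colouring of a solution -/
def ACs_c (k N : ℕ) (lt : ℕ → ℕ) (a : ℕ → Bool) (w : ℕ) : ℕ :=
  if w < k then w
  else if w < k + 2 * N then (if lval a (w - k) = true then 1 else 0)
  else ACs_t (lval a (lt (3 * ((w - (k + 2 * N)) / 3)))) (lval a (lt (3 * ((w - (k + 2 * N)) / 3) + 1)))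
    (lval a (lt (3 * ((w - (k + 2 * N)) / 3) + 2))) ((w - (k + 2 * N)) % 3)

theorem ACs_c_lt {k N : ℕ} (hk : 3 ≤ k) (lt : ℕ → ℕ) (a : ℕ → Bool) (w : ℕ) :
    ACs_c k N lt a w < k := by
  unfold ACs_c
  split_ifs with h1 h2 h3
  · exact h1
  · omega
  · omega
  · have := ACs_t_lt (lval a (lt (3 * ((w - (k + 2 * N)) / 3)))) (lval a (lt (3 * ((w - (k + 2 * N)) / 3) + 1)))
      (lval a (lt (3 * ((w - (k + 2 * N)) / 3) + 2))) (i := (w - (k + 2 * N)) % 3) (Nat.mod_lt _ (by omega))
    omega

theorem ACs_lval (a : ℕ → Bool) (l : ℕ) : lval a (l / 2 * 2 + (1 - l % 2)) = !(lval a l) := by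
  unfold lval
  have h1 : (l / 2 * 2 + (1 - l % 2)) / 2 = l / 2 := by omega
  rw [h1]
  rcases Nat.mod_two_eq_zero_or_one l with h | h
  · have h2 : (l / 2 * 2 + (1 - l % 2)) % 2 = 1 := by omega
    rw [h2, h]
    cases a (l / 2) <;> simp
  · have h2 : (l / 2 * 2 + (1 - l % 2)) % 2 = 0 := by omega
    rw [h2, h]
    cases a (l / 2) <;> simp

theorem csol_iff {k N Θ : ℕ} {lt : ℕ → ℕ} (hk : 3 ≤ k) (hlt : ∀ o < 3 * Θ, lt o < 2 * N) :
    CSol k N Θ lt ↔ TSol (modeOK 1) Θ lt := by
  constructor
  · rintro ⟨col, hcol⟩
    have hinj : Function.Injective (fun i : Fin k => col i.1) := by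
      intro i j hij
      by_contra hne
      have hne' : j.1 ≠ i.1 := fun h => hne (Fin.ext h.symm)
      have hb : ¬ cBad k N i.1 j.1 := by
        have hi := i.2
        unfold cBad
        omega
      have h := ACs_use hcol (w := i.1) (q := j.1) (by have := i.2; unfold cNV; omega) j.2 hb
      have h2 : cPrt k N lt i.1 j.1 = j.1 := by
        unfold cPrt
        rw [if_pos i.2]
      rw [h2] at h
      exact h hij
    have hsur := Finite.injective_iff_surjective.mp hinj
    have hex : ∀ w, ∃ q, q < k ∧ col q = col w := by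
      intro w
      obtain ⟨i, hi⟩ := hsur (col w)
      exact ⟨i.1, i.2, hi⟩
    choose x hx hxc using hex
    have hxq : ∀ q, q < k → x q = q := by
      intro q hq
      have h := @hinj ⟨x q, hx q⟩ ⟨q, hq⟩ (hxc q)
      exact congrArg Fin.val h
    have hne : ∀ w w', col w ≠ col w' → x w ≠ x w' := by
      intro w w' h h'
      apply h
      rw [← hxc w, ← hxc w', h']
    -- literals
    have hL : ∀ l < 2 * N, x (k + l) ≤ 1 := by
      intro l hl
      by_contra hc
      have hb : ¬ cBad k N (k + l) (x (k + l)) := by
        have := hx (k + l)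
        unfold cBad
        omega
      have h := ACs_use hcol (w := k + l) (q := x (k + l)) (by unfold cNV; omega) (hx _) hb
      have h2 : cPrt k N lt (k + l) (x (k + l)) = x (k + l) := by
        unfold cPrt
        rw [if_neg (by omega), if_pos (by omega), if_neg (by omega)]
      rw [h2] at h
      exact h (hxc _).symm
    have hL2 : ∀ l < 2 * N, x (k + l) ≠ x (k + (l / 2 * 2 + (1 - l % 2))) := by
      intro l hl
      have hb : ¬ cBad k N (k + l) 0 := by
        unfold cBad
        omega
      have h := ACs_use hcol (w := k + l) (q := 0) (by unfold cNV; omega) (by omega) hb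
      have h2 : cPrt k N lt (k + l) 0 = k + (l / 2 * 2 + (1 - l % 2)) := by
        unfold cPrt
        rw [if_neg (by omega), if_pos (by omega), if_pos rfl, Nat.add_sub_cancel_left]
      rw [h2] at h
      exact hne _ _ h
    -- triples
    have hT : ∀ τ < 3 * Θ, x (k + 2 * N + τ) ≤ 2 := by
      intro τ hτ
      by_contra hc
      have hb : ¬ cBad k N (k + 2 * N + τ) (x (k + 2 * N + τ)) := by
        have := hx (k + 2 * N + τ)
        unfold cBad
        omega
      have h := ACs_use hcol (w := k + 2 * N + τ) (q := x (k + 2 * N + τ)) (by unfold cNV; omega)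
        (hx _) hb
      have h2 : cPrt k N lt (k + 2 * N + τ) (x (k + 2 * N + τ)) = x (k + 2 * N + τ) := by
        unfold cPrt
        rw [if_neg (by omega), if_neg (by omega), if_neg (by omega), if_neg (by omega)]
      rw [h2] at h
      exact h (hxc _).symm
    have hT2 : ∀ τ < 3 * Θ, x (k + 2 * N + τ) ≠ x (k + 2 * N + (τ / 3 * 3 + (τ + 1) % 3)) := by
      intro τ hτ
      have hb : ¬ cBad k N (k + 2 * N + τ) 0 := by
        unfold cBad
        omega
      have h := ACs_use hcol (w := k + 2 * N + τ) (q := 0) (by unfold cNV; omega) (by omega) hb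
      have h2 : cPrt k N lt (k + 2 * N + τ) 0 = k + 2 * N + (τ / 3 * 3 + (τ + 1) % 3) := by
        unfold cPrt
        rw [if_neg (by omega), if_neg (by omega), if_pos rfl, Nat.add_sub_cancel_left]
      rw [h2] at h
      exact hne _ _ h
    have hT3 : ∀ τ < 3 * Θ, x (k + 2 * N + τ) ≠ x (k + lt τ) := by
      intro τ hτ
      have hb : ¬ cBad k N (k + 2 * N + τ) 1 := by
        unfold cBad
        omega
      have h := ACs_use hcol (w := k + 2 * N + τ) (q := 1) (by unfold cNV; omega) (by omega) hb
      have h2 : cPrt k N lt (k + 2 * N + τ) 1 = k + lt τ := by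
        unfold cPrt
        rw [if_neg (by omega), if_neg (by omega), if_neg (by omega), if_pos rfl,
          Nat.add_sub_cancel_left]
      rw [h2] at h
      exact hne _ _ h
    have hval : ∀ l < 2 * N, lval (fun v => decide (x (k + 2 * v) = 1)) l = true ↔ x (k + l) = 1 := by
      intro l hl
      unfold lval
      rcases Nat.mod_two_eq_zero_or_one l with h | h
      · have h1 : 2 * (l / 2) = l := by omega
        simp only [h1, h]
        simp
      · have h0 := hL2 l hl
        have h1 : l / 2 * 2 + (1 - l % 2) = 2 * (l / 2) := by omega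
        rw [h1] at h0
        have h2 := hL l hl
        have h3 := hL (2 * (l / 2)) (by omega)
        simp only [h]
        by_cases h4 : x (k + 2 * (l / 2)) = 1
        · have h5 : x (k + l) ≠ 1 := by omega
          simp [h4, h5]
        · have h5 : x (k + l) = 1 := by omega
          simp [h4, h5]
    refine ⟨fun v => decide (x (k + 2 * v) = 1), fun θ hθ => ?_⟩
    show ¬ _
    rintro ⟨h1, h2⟩
    simp only at h1 h2
    have e0 : ((0 : Fin 3) : ℕ) = 0 := rfl
    have e1 : ((1 : Fin 3) : ℕ) = 1 := rfl
    have e2 : ((2 : Fin 3) : ℕ) = 2 := rfl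
    rw [e0, e1] at h1
    rw [e1, e2] at h2
    have l0 := hlt (3 * θ) (by omega)
    have l1 := hlt (3 * θ + 1) (by omega)
    have l2 := hlt (3 * θ + 2) (by omega)
    have v0 := hval _ l0
    have v1 := hval _ l1
    have v2 := hval _ l2
    have a0 := hT (3 * θ) (by omega)
    have a1 := hT (3 * θ + 1) (by omega)
    have a2 := hT (3 * θ + 2) (by omega)
    have b0 := hT2 (3 * θ) (by omega)
    have b1 := hT2 (3 * θ + 1) (by omega)
    have b2 := hT2 (3 * θ + 2) (by omega)
    have f0 : (3 * θ) / 3 * 3 + (3 * θ + 1) % 3 = 3 * θ + 1 := by omega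
    have f1 : (3 * θ + 1) / 3 * 3 + (3 * θ + 1 + 1) % 3 = 3 * θ + 2 := by omega
    have f2 : (3 * θ + 2) / 3 * 3 + (3 * θ + 2 + 1) % 3 = 3 * θ := by omega
    rw [f0] at b0
    rw [f1] at b1
    rw [f2] at b2
    have c0 := hT3 (3 * θ) (by omega)
    have c1 := hT3 (3 * θ + 1) (by omega)
    have c2 := hT3 (3 * θ + 2) (by omega)
    have d0 := hL _ l0
    have d1 := hL _ l1
    have d2 := hL _ l2
    rw [Nat.add_zero] at h1
    rw [← h1] at v1
    rw [← h2, ← h1] at v2
    by_cases hv : x (k + lt (3 * θ)) = 1
    · have g1 := v1.mp (v0.mpr hv)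
      have g2 := v2.mp (v0.mpr hv)
      omega
    · have g1 : ¬ x (k + lt (3 * θ + 1)) = 1 := fun h => hv (v0.mp (v1.mpr h))
      have g2 : ¬ x (k + lt (3 * θ + 2)) = 1 := fun h => hv (v0.mp (v2.mpr h))
      omega
  · rintro ⟨a, ha⟩
    refine ⟨fun w => ⟨ACs_c k N lt a w, ACs_c_lt hk lt a w⟩, fun e he => ?_⟩
    intro heq
    have heq' : ACs_c k N lt a (cV1 k N e) = ACs_c k N lt a (cV2 k N lt e) := congrArg Fin.val heq
    unfold cV1 cV2 at heq'
    have hw : e / k < cNV k N Θ := Nat.div_lt_of_lt_mul (by rwa [Nat.mul_comm])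
    have hq : e % k < k := Nat.mod_lt _ (by omega)
    revert heq'
    generalize e / k = w at hw
    generalize e % k = q at hq
    intro heq'
    by_cases hb : cBad k N w q
    · rw [if_pos hb, if_pos hb] at heq'
      unfold ACs_c at heq'
      rw [if_pos (by omega), if_pos (by omega)] at heq'
      omega
    · rw [if_neg hb, if_neg hb] at heq'
      have hcq : ACs_c k N lt a q = q := by
        unfold ACs_c
        rw [if_pos hq]
      have hlit : ∀ l < 2 * N, ACs_c k N lt a (k + l) = if lval a l = true then 1 else 0 := by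
        intro l hl
        unfold ACs_c
        rw [if_neg (by omega), if_pos (by omega), Nat.add_sub_cancel_left]
      by_cases h1 : w < k
      · have h2 : cPrt k N lt w q = q := by
          unfold cPrt
          rw [if_pos h1]
        have h3 : ACs_c k N lt a w = w := by
          unfold ACs_c
          rw [if_pos h1]
        rw [h2, h3, hcq] at heq'
        apply hb
        left
        exact ⟨h1, heq'.symm⟩
      · by_cases h2 : w < k + 2 * N
        · obtain ⟨l, rfl⟩ : ∃ l, w = k + l := ⟨w - k, by omega⟩
          have hl : l < 2 * N := by omega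
          rw [hlit l hl] at heq'
          by_cases h3 : q = 0
          · subst h3
            have h4 : cPrt k N lt (k + l) 0 = k + (l / 2 * 2 + (1 - l % 2)) := by
              unfold cPrt
              rw [if_neg (by omega), if_pos (by omega), if_pos rfl, Nat.add_sub_cancel_left]
            rw [h4, hlit _ (by omega), ACs_lval] at heq'
            cases h5 : lval a l
            · rw [h5] at heq'
              simp at heq'
            · rw [h5] at heq'
              simp at heq'
          · have h4 : cPrt k N lt (k + l) q = q := by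
              unfold cPrt
              rw [if_neg (by omega), if_pos (by omega), if_neg h3]
            rw [h4, hcq] at heq'
            have h5 : q ≠ 1 := by
              intro h5
              apply hb
              right
              left
              exact ⟨by omega, by omega, h5⟩
            split_ifs at heq' <;> omega
        · obtain ⟨τ, rfl⟩ : ∃ τ, w = k + 2 * N + τ := ⟨w - (k + 2 * N), by omega⟩
          have hτ : τ < 3 * Θ := by
            unfold cNV at hw
            omega
          have htri : ∀ τ', ACs_c k N lt a (k + 2 * N + τ') =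
              ACs_t (lval a (lt (3 * (τ' / 3)))) (lval a (lt (3 * (τ' / 3) + 1)))
                (lval a (lt (3 * (τ' / 3) + 2))) (τ' % 3) := by
            intro τ'
            unfold ACs_c
            rw [if_neg (by omega), if_neg (by omega), Nat.add_sub_cancel_left]
          rw [htri] at heq'
          have hm : τ % 3 < 3 := Nat.mod_lt _ (by omega)
          by_cases h3 : q = 0
          · subst h3
            have h4 : cPrt k N lt (k + 2 * N + τ) 0 = k + 2 * N + (τ / 3 * 3 + (τ + 1) % 3) := by
              unfold cPrt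
              rw [if_neg (by omega), if_neg (by omega), if_pos rfl, Nat.add_sub_cancel_left]
            have h5 : (τ / 3 * 3 + (τ + 1) % 3) / 3 = τ / 3 := by omega
            have h6 : (τ / 3 * 3 + (τ + 1) % 3) % 3 = (τ % 3 + 1) % 3 := by omega
            rw [h4, htri, h5, h6] at heq'
            exact ACs_t_ne _ _ _ hm heq'
          · by_cases h3' : q = 1
            · subst h3'
              have h4 : cPrt k N lt (k + 2 * N + τ) 1 = k + lt τ := by
                unfold cPrt
                rw [if_neg (by omega), if_neg (by omega), if_neg (by omega), if_pos rfl,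
                  Nat.add_sub_cancel_left]
              rw [h4, hlit _ (hlt τ hτ)] at heq'
              have h5 := ha (τ / 3) (by omega)
              have h6 := ACs_t_b (fun i => lval a (lt (3 * (τ / 3) + i))) h5 hm
              have h7 : 3 * (τ / 3) + τ % 3 = τ := by omega
              simp only [h7, Nat.add_zero] at h6
              exact h6 heq'
            · have h4 : cPrt k N lt (k + 2 * N + τ) q = q := by
                unfold cPrt
                rw [if_neg (by omega), if_neg (by omega), if_neg h3, if_neg h3']
              rw [h4, hcq] at heq'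
              have h5 : q ≠ 2 := by
                intro h5
                apply hb
                right
                right
                exact ⟨by omega, h5⟩
              have h6 := ACs_t_lt (lval a (lt (3 * (τ / 3)))) (lval a (lt (3 * (τ / 3) + 1)))
                (lval a (lt (3 * (τ / 3) + 2))) hm
              omega

end Pool.Agent.LHC
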