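import Pool.Agent.LHC.Defs
import Pool.Agent.LHC.RgB

/-!
# Depth in the closed graph

`full`: `(k, inl z)` with `2 ≤ δ (k, z)`, port `y`: if `op (k, z) y` then `nb` is `some _`; otherwise `P.nb (k, z) y ≠ none` by `hf`. `(k, inr (z, y, i, x))` with
`2 ≤ min (i + 1) (δ + 1)`: so `i ≠ 0`, and `none` occurs only for `i = 0`.
`lip`: `(k, inl z)`, `y` open: the neighbour has the depth `min (r + 1) (δ + 1)`, `δ ≤ min (r + 1) (δ + 1) + 1` by `hr`. Not open: `hl`. `(k, inr (z, y, i, x))`: the neighbour is
`(i - 1, y)`: `min (i + 1) (δ + 1) ≤ min i (δ + 1) + 1`; or `(i + 1, q)`; or `(k, inl z)`: `min (i + 1) (δ + 1) ≤ δ + 1`; or in the same copy.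
-/

namespace Pool.Agent.LHC

open Pool.Agent.LIH Pool.Agent.LHA Pool.Agent.LHB

theorem clo_dep {V κ Z : Type} {H : SimpleGraph V} {P : Rg V (κ × Z)} {op : κ × Z → V → Prop}
    {r : ℕ} {δ : κ × Z → ℕ}
    (hf : ∀ u, 2 ≤ δ u → ∀ y, H.Adj (P.p u) y → P.nb u y = none → op u y)
    (hl : ∀ u y v, H.Adj (P.p u) y → P.nb u y = some v → δ u ≤ δ v + 1)
    (hr : ∀ u, δ u ≤ r + 2) : (P.clo op r).Dep H (cdep δ) where
  full := by
    rintro ⟨k, z | ⟨z, y, i, x⟩⟩ hu y' hy'
    · have hu' : 2 ≤ δ (k, z) := hu
      have hy'' : H.Adj (P.p (k, z)) y' := hy'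
      by_cases ho : op (k, z) y'
      · exact ⟨(k, .inr (z, y', Fin.last r, y')), by simp [Rg.clo, ho]⟩
      · cases hq : P.nb (k, z) y' with
        | none => exact absurd (hf _ hu' y' hy'' hq) ho
        | some w => exact ⟨(w.1, .inl w.2), by simp [Rg.clo, ho, hq]⟩
    · have hu' : 2 ≤ min (i.1 + 1) (δ (k, z) + 1) := hu
      have hi : i.1 ≠ 0 := by
        have := le_min_iff.1 hu'
        omega
      by_cases h1 : op (k, z) y ∧ x = P.p (k, z) ∧ y' = y
      · exact ⟨_, by simp only [Rg.clo]; rw [if_pos h1, if_neg hi]⟩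
      · by_cases h2 : op (k, z) y ∧ x = y ∧ y' = P.p (k, z)
        · by_cases h3 : i.1 + 1 < r + 1
          · exact ⟨_, by simp only [Rg.clo]; rw [if_neg h1, if_pos h2, dif_pos h3]⟩
          · exact ⟨_, by simp only [Rg.clo]; rw [if_neg h1, if_pos h2, dif_neg h3]⟩
        · exact ⟨_, by simp only [Rg.clo]; rw [if_neg h1, if_neg h2]⟩
  lip := by
    rintro ⟨k, z | ⟨z, y, i, x⟩⟩ y' v hy' hv
    · have hy'' : H.Adj (P.p (k, z)) y' := hy'
      by_cases ho : op (k, z) y'
      · have hv' : some (k, (.inr (z, y', Fin.last r, y') : CZ Z V r)) = some v := by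
          rw [← hv]
          simp [Rg.clo, ho]
        obtain rfl := Option.some.inj hv'
        show δ (k, z) ≤ min ((Fin.last r).1 + 1) (δ (k, z) + 1) + 1
        have := hr (k, z)
        rw [Fin.val_last]
        omega
      · cases hq : P.nb (k, z) y' with
        | none =>
          exfalso
          have hv' : (none : Option (κ × CZ Z V r)) = some v := by
            rw [← hv]
            simp [Rg.clo, ho, hq]
          exact Option.some_ne_none _ hv'.symm
        | some w =>
          have hv' : some (w.1, (.inl w.2 : CZ Z V r)) = some v := by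
            rw [← hv]
            simp [Rg.clo, ho, hq]
          obtain rfl := Option.some.inj hv'
          exact hl (k, z) y' w hy'' hq
    · show min (i.1 + 1) (δ (k, z) + 1) ≤ cdep δ v + 1
      by_cases h1 : op (k, z) y ∧ x = P.p (k, z) ∧ y' = y
      · by_cases hi : i.1 = 0
        · rw [hi]
          omega
        · have hv' : some (k, (.inr (z, y, ⟨i.1 - 1, lt_of_le_of_lt (Nat.sub_le _ _) i.2⟩, y) : CZ Z V r)) = some v := by
            rw [← hv]
            simp only [Rg.clo]
            rw [if_pos h1, if_neg hi]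
          obtain rfl := Option.some.inj hv'
          show min (i.1 + 1) (δ (k, z) + 1) ≤ min (i.1 - 1 + 1) (δ (k, z) + 1) + 1
          omega
      · by_cases h2 : op (k, z) y ∧ x = y ∧ y' = P.p (k, z)
        · by_cases h3 : i.1 + 1 < r + 1
          · have hv' : some (k, (.inr (z, y, ⟨i.1 + 1, h3⟩, P.p (k, z)) : CZ Z V r)) = some v := by
              rw [← hv]
              simp only [Rg.clo]
              rw [if_neg h1, if_pos h2, dif_pos h3]
            obtain rfl := Option.some.inj hv'
            show min (i.1 + 1) (δ (k, z) + 1) ≤ min (i.1 + 1 + 1) (δ (k, z) + 1) + 1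
            omega
          · have hv' : some (k, (.inl z : CZ Z V r)) = some v := by
              rw [← hv]
              simp only [Rg.clo]
              rw [if_neg h1, if_pos h2, dif_neg h3]
            obtain rfl := Option.some.inj hv'
            show min (i.1 + 1) (δ (k, z) + 1) ≤ δ (k, z) + 1
            omega
        · have hv' : some (k, (.inr (z, y, i, y') : CZ Z V r)) = some v := by
            rw [← hv]
            simp only [Rg.clo]
            rw [if_neg h1, if_neg h2]
          obtain rfl := Option.some.inj hv'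
          show min (i.1 + 1) (δ (k, z) + 1) ≤ min (i.1 + 1) (δ (k, z) + 1) + 1
          omega

end Pool.Agent.LHC
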