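import Pool.Agent.LHC.Defs

/-!
# Finiteness

`ZA V` is equivalent to a finite sum of finite types (or: an injective map into `Option (Fin 3) ⊕ ...`). `Nd` is contained in the lists of length at most `R` over a finite type
(`List.finite_length_le`). `D.U` is a finite sigma type of subtypes of `List × V` contained in `{l | l.length ≤ R} × V`. `ZB D`: an injective map into a finite sum type.
-/

namespace Pool.Agent.LHC

open Pool.Agent.LIH Pool.Agent.LHA Pool.Agent.LHB

def FinZ_fa {V : Type} : ZA V → Unit ⊕ Fin 3 ⊕ (Fin 3 × V) ⊕ V ⊕ V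
  | .t => .inl ()
  | .st σ => .inr (.inl σ)
  | .vs σ x => .inr (.inr (.inl (σ, x)))
  | .sy x => .inr (.inr (.inr (.inl x)))
  | .so x => .inr (.inr (.inr (.inr x)))

instance finZA {V : Type} [Finite V] : Finite (ZA V) := by
  apply Finite.of_injective (FinZ_fa (V := V))
  intro a b h
  cases a <;> cases b <;> simp_all [FinZ_fa]

instance finNd {V : Type} [Finite V] {H : SimpleGraph V} {a : V} {F : Set V} {R : ℕ} :
    Finite (Nd H a F R) := by
  have h1 : {l : List V | l.length ≤ R}.Finite := List.finite_length_le V R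
  have h2 : {l : List V | NdOk H a F R l}.Finite := h1.subset (fun l hl => hl.2.1)
  exact h2.to_subtype

instance finU {V : Type} [Finite V] {H : SimpleGraph V} {X : V} (D : DB H X) : Finite D.U := by
  have : ∀ j : Fin 5, Finite {q : List V × V // LdOk H (D.a j) (D.F j) (D.r + 1) q} := by
    intro j
    have h1 : {l : List V | l.length ≤ D.r + 1}.Finite := List.finite_length_le V _
    have h2 : ({l : List V | l.length ≤ D.r + 1} ×ˢ (Set.univ : Set V)).Finite :=
      h1.prod Set.finite_univ
    have h3 : {q : List V × V | LdOk H (D.a j) (D.F j) (D.r + 1) q}.Finite :=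
      h2.subset (fun q hq => ⟨hq.1.2.1, trivial⟩)
    exact h3.to_subtype
  unfold DB.U
  infer_instance

def FinZ_fb {V : Type} {H : SimpleGraph V} {X : V} (D : DB H X) :
    ZB D → (Σ j : Fin 5, D.N j) ⊕ (D.U × Fin 3) ⊕ (D.U × Fin 3 × V) ⊕ (D.U × V) ⊕ (D.U × V)
  | .nd j l => .inl ⟨j, l⟩
  | .st u σ => .inr (.inl (u, σ))
  | .vs u σ x => .inr (.inr (.inl (u, σ, x)))
  | .sw u x => .inr (.inr (.inr (.inl (u, x))))
  | .sz u x => .inr (.inr (.inr (.inr (u, x))))

instance finZB {V : Type} [Finite V] {H : SimpleGraph V} {X : V} (D : DB H X) :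
    Finite (ZB D) := by
  apply Finite.of_injective (FinZ_fb D)
  intro a b h
  cases a with
  | nd j l =>
    cases b with
    | nd j' l' =>
      simp only [FinZ_fb, Sum.inl.injEq, Sigma.mk.injEq] at h
      obtain ⟨rfl, h2⟩ := h
      rw [heq_iff_eq] at h2
      rw [h2]
    | _ => simp [FinZ_fb] at h
  | st u σ => cases b <;> simp [FinZ_fb] at h ⊢; exact h
  | vs u σ x => cases b <;> simp [FinZ_fb] at h ⊢; exact h
  | sw u x => cases b <;> simp [FinZ_fb] at h ⊢; exact h
  | sz u x => cases b <;> simp [FinZ_fb] at h ⊢; exact h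

end Pool.Agent.LHC
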