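import Pool.Agent.LHC.Defs
import Pool.Agent.LHC.AOk
import Pool.Agent.LHC.CloO
import Pool.Agent.LHC.CloD
import Pool.Agent.LHC.FinZ

/-!
# Part A: all vertices of the cells are good

`rA D I r = (coreA D I).clo (opA D I) r` satisfies `Ok` (`clo_ok`, `coreA_ok`, `opA_ok`) and `Dep` with `cdep (fun _ => r + 1)` (`clo_dep` with `δ = fun _ => r + 1`: `hf`: `opA` contains all unused ports). The
type of its vertices is finite (`finZA`, products, sums, `Fin`). `DeepN` gives `Bij` at all vertices of depth `≥ N`: `(k, inl z)` has the depth `r + 1`, `(k, inr (z, y, Fin.last r, x))` has the depth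
`min (r + 1) (r + 2) = r + 1`.
-/

namespace Pool.Agent.LHC

open Pool.Agent.LIH Pool.Agent.LHA Pool.Agent.LHB

theorem bij_A {V : Type} [Finite V] {H : SimpleGraph V} {N : ℕ} (hN : DeepN H N) (D : DA H)
    (I : IA) [Finite I.VV] [Finite I.EE] {r : ℕ} (hr : N ≤ r + 1)
    {f : (I.VV × I.EE) × CZ (ZA V) V r → V} (hf : LocInj (gA D I r) H f) :
    (∀ k z, (rA D I r).Bij H f (k, .inl z)) ∧
      ∀ k z y x, (rA D I r).Bij H f (k, .inr (z, y, Fin.last r, x)) := by
  have hOk : (rA D I r).Ok H := clo_ok r (coreA_ok D I) (opA_ok D I)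
  have hDep : (rA D I r).Dep H (cdep (fun _ => r + 1)) := by
    refine clo_dep ?_ ?_ ?_
    · intro u _ y h1 h2
      exact ⟨h1, h2⟩
    · intro u y v _ _
      exact Nat.le_succ _
    · intro u
      exact Nat.le_succ _
  have hF : Finite ((I.VV × I.EE) × CZ (ZA V) V r) := inferInstance
  have key := hN.2 _ hF (rA D I r) (cdep (fun _ => r + 1)) hOk hDep f hf
  refine ⟨fun k z => key _ ?_, fun k z y x => key _ ?_⟩
  · exact hr
  · show N ≤ min ((Fin.last r).1 + 1) (r + 1 + 1)
    rw [Fin.val_last]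
    omega

end Pool.Agent.LHC
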