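import Pool.Agent.LHC.Defs
import Pool.Agent.LIH.Dfn
import Pool.Agent.LIH.DfnNet

/-!
# Part A: the adjacency relation is definable

`def_LkA`: `DefF.divmod` with the divisor `NE` (variables `q = k / NE`, `r = k % NE`): `v1 r = q ∨ v2 r = q`. `def_RsA`: `DefF.divmod` for `r = k % NE`: `(r + 1 < NE ∧ l = k + 1) ∨ (r + 1 = NE ∧ l + NE = k + 1)`. `def_OtA`: `l < NE`, `l = k % NE`, `def_LkA`. `def_fmA`: a disjunction of
conjunctions with constants (`DefF.prop`). For the use of `DefF.divmod` compare `LHA/DefAdj.lean`, `LHA/DefLit.lean`.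
-/

namespace Pool.Agent.LHC

open Pool.Agent.LIH Pool.Agent.LHA Pool.Agent.LHB

variable {v1 v2 : List Bool → ℕ → ℕ → ℕ} {NE : List Bool → ℕ → ℕ}
  (hNE : ∀ k, DefT k (fun y n0 _ => NE y n0)) (hpos : ∀ y n0, 0 < NE y n0) (h1 : Unif v1)
  (h2 : Unif v2)

include hNE hpos h1 h2

theorem def_LkA {k : ℕ} {A : CT k} (hA : DefT k A) :
    DefF k (fun y n0 w => LkA (v1 y n0) (v2 y n0) (NE y n0) (A y n0 w)) := by
  refine DefF.divmod (P := fun y n0 _ q r => q = v1 y n0 r ∨ q = v2 y n0 r) (A := A)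
    (B := fun y n0 _ => NE y n0) hA (hNE k) (fun y n0 _ => hpos y n0) ?_
  have hr : DefT (k + 2) (fun _ _ w => w (Fin.last (k + 1))) := DefT.last
  have hq : DefT (k + 2) (fun _ _ w => (Fin.init w : Fin (k + 1) → ℕ) (Fin.last k)) := DefT.last.init
  exact ((h1 _ _ _ hr hq).congr (fun y n0 w => eq_comm)).or
    ((h2 _ _ _ hr hq).congr (fun y n0 w => eq_comm))

theorem ADf_RsA {k : ℕ} {A B : CT k} (hA : DefT k A) (hB : DefT k B) :
    DefF k (fun y n0 w => RsA (NE y n0) (A y n0 w) (B y n0 w)) := by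
  have e1 : DefF k (fun y n0 w => A y n0 w % NE y n0 + 1 < NE y n0) :=
    DefF.divmod (P := fun y n0 _ _ r => r + 1 < NE y n0) (B := fun y n0 _ => NE y n0) hA (hNE k)
      (fun y n0 _ => hpos y n0) (DefF.lt (DefT.last.add (DefT.const 1)) (hNE (k + 2)))
  have e2 : DefF k (fun y n0 w => A y n0 w % NE y n0 + 1 = NE y n0) :=
    DefF.divmod (P := fun y n0 _ _ r => r + 1 = NE y n0) (B := fun y n0 _ => NE y n0) hA (hNE k)
      (fun y n0 _ => hpos y n0) (DefF.eq (DefT.last.add (DefT.const 1)) (hNE (k + 2)))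
  exact (e1.and (DefF.eq hB (hA.add (DefT.const 1)))).or
    (e2.and (DefF.eq (hB.add (hNE k)) (hA.add (DefT.const 1))))

theorem ADf_OtA {k : ℕ} {A B : CT k} (hA : DefT k A) (hB : DefT k B) :
    DefF k (fun y n0 w => OtA (v1 y n0) (v2 y n0) (NE y n0) (A y n0 w) (B y n0 w)) := by
  have e1 : DefF k (fun y n0 w => B y n0 w = A y n0 w % NE y n0) :=
    DefF.divmod (P := fun y n0 w _ r => B y n0 w = r) (B := fun y n0 _ => NE y n0) hA (hNE k)
      (fun y n0 _ => hpos y n0) (DefF.eq hB.init.init DefT.last)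
  exact (DefF.lt hB (hNE k)).and (e1.and (def_LkA hNE hpos h1 h2 hA))

theorem def_fmA {Z : Type} (P : Fin 7 → Z → Z → Prop) (a b : Z) {k : ℕ} {A B : CT k}
    (hA : DefT k A) (hB : DefT k B) :
    DefF k (fun y n0 w => fmA P (v1 y n0) (v2 y n0) (NE y n0) a b (A y n0 w) (B y n0 w)) := by
  have he := DefF.eq hA hB
  have hl := def_LkA hNE hpos h1 h2 hA
  have r1 := ADf_RsA hNE hpos h1 h2 hA hB
  have r2 := ADf_RsA hNE hpos h1 h2 hB hA
  have o1 := ADf_OtA hNE hpos h1 h2 hA hB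
  have o2 := ADf_OtA hNE hpos h1 h2 hB hA
  exact (he.and (DefF.prop _)).or ((he.and (hl.neg.and (DefF.prop _))).or
    ((he.and (hl.and (DefF.prop _))).or ((he.and ((DefF.le (hNE k) hA).and (DefF.prop _))).or
    ((he.and ((DefF.lt hA (hNE k)).and (DefF.prop _))).or ((r1.and (DefF.prop _)).or
    ((r2.and (DefF.prop _)).or ((o1.and (DefF.prop _)).or (o2.and (DefF.prop _)))))))))

end Pool.Agent.LHC
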