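import Pool.Agent.LHC.Defs

/-!
# Part A: existence of the data

`c`: an injective map `Fin 4 → N(X)` (`h4`; e.g. `Finset.exists_subset_card_eq` / `Finset.equivFin`, or an embedding `Fin 4 ↪ N(X)` from the cardinalities). `y = c 0`. `N(y)` has at least 3 elements: choose `x2 ≠ x3` in `N(y)` different from `X`.
-/

namespace Pool.Agent.LHC

open Pool.Agent.LIH Pool.Agent.LHA Pool.Agent.LHB

theorem da_exists {V : Type} [Finite V] {H : SimpleGraph V} {X : V}
    (h3 : ∀ v, 3 ≤ (H.neighborSet v).ncard) (h4 : 4 ≤ (H.neighborSet X).ncard)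
    (htr : ∀ z z', H.Adj X z → H.Adj X z' → ∃ φ : H ≃g H, φ X = X ∧ φ z = z') :
    ∃ D : DA H, D.X = X := by
  classical
  have hF : Fintype (H.neighborSet X) := Fintype.ofFinite _
  have hc4 : Fintype.card (Fin 4) ≤ Fintype.card (H.neighborSet X) := by
    rw [Fintype.card_fin, ← Nat.card_eq_fintype_card, Nat.card_coe_set_eq]
    exact h4
  obtain ⟨e⟩ := Function.Embedding.nonempty_of_card_le hc4
  have hy : H.Adj X (e 0).1 := (e 0).2
  have hX : X ∈ H.neighborSet (e 0).1 := hy.symm
  have h5 : (H.neighborSet (e 0).1 \ {X}).ncard + 1 = (H.neighborSet (e 0).1).ncard :=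
    Set.ncard_diff_singleton_add_one hX (Set.toFinite _)
  have h6 := h3 (e 0).1
  have h7 : 1 < (H.neighborSet (e 0).1 \ {X}).ncard := by omega
  obtain ⟨a, b, ha, hb, hab⟩ := (Set.one_lt_ncard_iff (Set.toFinite _)).1 h7
  exact ⟨{
    X := X
    c := fun i => (e i).1
    y := (e 0).1
    x2 := a
    x3 := b
    adj_c := fun i => (e i).2
    inj_c := fun i j hij => e.injective (Subtype.ext hij)
    adj_y := hy
    adj_x2 := ha.1
    adj_x3 := hb.1
    ne_x2 := ha.2
    ne_x3 := hb.2
    ne_23 := hab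
    tr := htr }, rfl⟩

end Pool.Agent.LHC
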