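import Pool.Agent.LHC.Defs

/-!
# Permutations with one cycle

`ctr_sx`: let `g (sx nx q) = g q` for all `q`. Then `g (i, 0) = g (i, 1) = g (i, 2) = g (nx i, 0)`. So `i ↦ g (i, 0)` is constant by `Ctr nx`, and so is `g`.
`ctr_rot`: `g (i + 1) = g i` for `i + 1 < n` (`finRotate`: `finRotate_succ_apply`, or `coe_finRotate_of_ne_last` ...; for `n = 0` there is nothing to prove), so `g i = g 0` by
induction on `i`.
-/

namespace Pool.Agent.LHC

open Pool.Agent.LIH Pool.Agent.LHA Pool.Agent.LHB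

theorem ctr_sx {I : Type} {nx : Equiv.Perm I} (h : Ctr nx) : Ctr (sx nx) := by
  intro A g hg
  have h0 : ∀ i, g (i, 1) = g (i, 0) := fun i => by
    have h1 := hg (i, 0)
    have h2 : sx nx (i, 0) = (i, 1) := by
      show (if (0 : Fin 3) = 2 then (nx i, (0 : Fin 3)) else (i, 0 + 1)) = (i, 1)
      rw [if_neg (by decide)]
      rfl
    rw [h2] at h1
    exact h1
  have h1 : ∀ i, g (i, 2) = g (i, 0) := fun i => by
    have h1 := hg (i, 1)
    have h2 : sx nx (i, 1) = (i, 2) := by
      show (if (1 : Fin 3) = 2 then (nx i, (0 : Fin 3)) else (i, 1 + 1)) = (i, 2)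
      rw [if_neg (by decide)]
      rfl
    rw [h2] at h1
    exact h1.trans (h0 i)
  have h2 : ∀ i, g (nx i, 0) = g (i, 0) := fun i => by
    have h3 := hg (i, 2)
    have h4 : sx nx (i, 2) = (nx i, 0) := by
      show (if (2 : Fin 3) = 2 then (nx i, (0 : Fin 3)) else (i, 2 + 1)) = (nx i, 0)
      rw [if_pos rfl]
    rw [h4] at h3
    exact h3.trans (h1 i)
  have h3 : ∀ i j, g (i, 0) = g (j, 0) := h A (fun i => g (i, 0)) h2
  have h4 : ∀ q : I × Fin 3, g q = g (q.1, 0) := by
    rintro ⟨i, t⟩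
    fin_cases t
    · rfl
    · exact h0 i
    · exact h1 i
  intro q q'
  rw [h4 q, h4 q']
  exact h3 _ _

theorem ctr_rot (n : ℕ) : Ctr (finRotate n) := by
  intro A g hg
  cases n with
  | zero => exact fun i => i.elim0
  | succ n =>
    have h1 : ∀ (k : ℕ) (hk : k < n + 1), g ⟨k, hk⟩ = g 0 := by
      intro k
      induction k with
      | zero => intro hk; rfl
      | succ k ih =>
        intro hk
        have h2 := hg ⟨k, Nat.lt_of_succ_lt hk⟩
        have h3 : finRotate (n + 1) ⟨k, Nat.lt_of_succ_lt hk⟩ = ⟨k + 1, hk⟩ :=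
          finRotate_of_lt (Nat.lt_of_succ_lt_succ hk)
        rw [h3, ih] at h2
        exact h2
    intro i j
    exact (h1 i.1 i.2).trans (h1 j.1 j.2).symm

end Pool.Agent.LHC
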