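import Pool.Agent.LHC.Defs

/-!
# The numbers of broken darts

Let `S u v` be the set of darts `(x, y)` of `H` with `g x = u` and `β x y = v`. Because `H.Adj u v` and `β x` is a bijection `N(x) → N(g x)`,
every `x` with `g x = u` has exactly one `y` with `(x, y) ∈ S u v`: so `|S u v| = |{x | g x = u}|` (the projection `(x, y) ↦ x` is injective
on `S u v` with image `{x | g x = u}`). Let `S' u v` be the part of `S u v` of unbroken darts (`¬ D x y`), the rest is the set in `mm`. On `S' u v` we have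
`β x y = g y`, so `S' u v = {(x, y) | H.Adj x y, ¬ D x y, g x = u, g y = v}`, and `(x, y) ↦ (y, x)` is a bijection `S' u v → S' v u`
(`D` is symmetric). So `|{g = u}| - mm u v = |S' u v| = |S' v u| = |{g = v}| - mm v u`.
-/

namespace Pool.Agent.LHC

open Pool.Agent.LIH Pool.Agent.LHA Pool.Agent.LHB

theorem BalA_S {V : Type} [Finite V] {H : SimpleGraph V} {D : V → V → Prop} {g : V → V}
    {β : V → V → V} (h : Br H D g β) {u v : V} (huv : H.Adj u v) :
    {x | g x = u}.ncard = {d : V × V | H.Adj d.1 d.2 ∧ g d.1 = u ∧ β d.1 d.2 = v}.ncard := by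
  have h1 : Prod.fst '' {d : V × V | H.Adj d.1 d.2 ∧ g d.1 = u ∧ β d.1 d.2 = v} =
      {x | g x = u} := by
    ext x
    constructor
    · rintro ⟨d, ⟨-, hd, -⟩, rfl⟩
      exact hd
    · intro hx
      have hx' : g x = u := hx
      have hv : v ∈ H.neighborSet (g x) := by rw [hx']; exact huv
      obtain ⟨y, hy, hy'⟩ := (h.bij x).surjOn hv
      exact ⟨(x, y), ⟨hy, hx', hy'⟩, rfl⟩
  rw [← h1]
  apply Set.ncard_image_of_injOn
  rintro ⟨x, y⟩ ⟨h2, h3, h4⟩ ⟨x', y'⟩ ⟨h2', h3', h4'⟩ hxx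
  have hxx' : x = x' := hxx
  subst hxx'
  have : y = y' := (h.bij x).injOn h2 h2' (h4.trans h4'.symm)
  rw [this]

theorem BalA_swap {V : Type} [Finite V] {H : SimpleGraph V} {D : V → V → Prop} {g : V → V}
    (hD : ∀ x y, D x y → D y x) (u v : V) :
    {d : V × V | H.Adj d.1 d.2 ∧ ¬ D d.1 d.2 ∧ g d.1 = u ∧ g d.2 = v}.ncard =
      {d : V × V | H.Adj d.1 d.2 ∧ ¬ D d.1 d.2 ∧ g d.1 = v ∧ g d.2 = u}.ncard := by
  have h1 : Prod.swap '' {d : V × V | H.Adj d.1 d.2 ∧ ¬ D d.1 d.2 ∧ g d.1 = u ∧ g d.2 = v} =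
      {d : V × V | H.Adj d.1 d.2 ∧ ¬ D d.1 d.2 ∧ g d.1 = v ∧ g d.2 = u} := by
    ext ⟨x, y⟩
    constructor
    · rintro ⟨⟨x', y'⟩, ⟨h2, h3, h4, h5⟩, h6⟩
      simp only [Prod.swap_prod_mk, Prod.mk.injEq] at h6
      obtain ⟨rfl, rfl⟩ := h6
      exact ⟨h2.symm, fun hh => h3 (hD _ _ hh), h5, h4⟩
    · rintro ⟨h2, h3, h4, h5⟩
      exact ⟨(y, x), ⟨h2.symm, fun hh => h3 (hD _ _ hh), h5, h4⟩, rfl⟩
  rw [← h1, Set.ncard_image_of_injective _ Prod.swap_injective]

theorem BalA_split {V : Type} [Finite V] {H : SimpleGraph V} {D : V → V → Prop} {g : V → V}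
    {β : V → V → V} (h : Br H D g β) {u v : V} (huv : H.Adj u v) :
    {x | g x = u}.ncard = mm H D g β u v +
      {d : V × V | H.Adj d.1 d.2 ∧ ¬ D d.1 d.2 ∧ g d.1 = u ∧ g d.2 = v}.ncard := by
  rw [BalA_S h huv]
  unfold mm
  rw [← Set.ncard_union_eq _ (Set.toFinite _) (Set.toFinite _)]
  · congr 1
    ext ⟨x, y⟩
    constructor
    · rintro ⟨h1, h2, h3⟩
      by_cases hd : D x y
      · exact Or.inl ⟨h1, hd, h2, h3⟩
      · exact Or.inr ⟨h1, hd, h2, by
          have := h.eq x y h1 hd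
          exact this.symm.trans h3⟩
    · rintro (⟨h1, h2, h3, h4⟩ | ⟨h1, h2, h3, h4⟩)
      · exact ⟨h1, h3, h4⟩
      · exact ⟨h1, h3, (h.eq x y h1 h2).trans h4⟩
  · rw [Set.disjoint_left]
    rintro ⟨x, y⟩ ⟨h1, h2, h3, h4⟩ ⟨h1', h2', h3', h4'⟩
    exact h2' h2

theorem br_count {V : Type} [Finite V] {H : SimpleGraph V} {D : V → V → Prop} {g : V → V}
    {β : V → V → V} (hD : ∀ x y, D x y → D y x) (h : Br H D g β) {u v : V} (huv : H.Adj u v) :
    {x | g x = u}.ncard + mm H D g β v u = {x | g x = v}.ncard + mm H D g β u v := by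
  have h1 := BalA_split h huv
  have h2 := BalA_split h huv.symm
  have h3 := BalA_swap (H := H) (g := g) hD u v
  omega

end Pool.Agent.LHC
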