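import Pool.Agent.LHC.Defs
import Pool.Agent.LHC.BalA

/-!
# At most four broken darts: `g` is bijective

Let `n u = |{x | g x = u}|`, so `∑ u, n u = |V|`. Suppose that `g` is not injective (for finite `V` injective and bijective are the same):
there is `v` with `n v ≥ 2`, and `g` is not surjective, so there is `u` with `n u = 0`. Let `A k = {x | k ≤ n x}` for `k = 1, 2`: `A k` contains `v`,
its complement contains `u`. By `EC` there are at least 3 darts from `A k` to its complement, for `k = 1, 2`. Let `C` be the finite set of all darts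
`(x, y)` of `H` with `n y < n x`. For `(x, y) ∈ C` the number of `k ∈ {1, 2}` such that `(x, y)` leaves `A k` is at most
`n x - n y ≤ mm x y` (`br_count`). So `6 ≤ ∑_{(x, y) ∈ C} mm x y`. The sets of broken darts counted by `mm x y` for different `(x, y)` are disjoint
(a broken dart `(s, t)` is counted for `(x, y) = (g s, β s t)`), so the sum is at most the number of broken darts, `≤ 4`: contradiction.
`br_sym`: `n u = n v = 1`, `br_count`.
-/

namespace Pool.Agent.LHC

open Pool.Agent.LIH Pool.Agent.LHA Pool.Agent.LHB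

variable {V : Type} [Finite V] {H : SimpleGraph V} {D : V → V → Prop} {g : V → V} {β : V → V → V}

theorem BalB_sum [Fintype V] [DecidableEq V] :
    ∑ d : V × V, mm H D g β d.1 d.2 = {d : V × V | H.Adj d.1 d.2 ∧ D d.1 d.2}.ncard := by
  classical
  rw [Set.ncard_eq_toFinset_card']
  rw [Finset.card_eq_sum_card_fiberwise (f := fun e : V × V => (g e.1, β e.1 e.2))
    (t := Finset.univ) (fun _ _ => Finset.mem_coe.2 (Finset.mem_univ _))]
  refine Finset.sum_congr rfl fun d _ => ?_
  unfold mm
  rw [Set.ncard_eq_toFinset_card']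
  congr 1
  ext e
  simp only [Set.mem_toFinset, Set.mem_setOf_eq, Finset.mem_filter]
  constructor
  · rintro ⟨h1, h2, h3, h4⟩
    exact ⟨⟨h1, h2⟩, Prod.ext h3 h4⟩
  · rintro ⟨⟨h1, h2⟩, h3⟩
    exact ⟨h1, h2, congrArg Prod.fst h3, congrArg Prod.snd h3⟩

theorem BalB_ind [Fintype V] (P : V × V → Prop) [DecidablePred P] :
    {d : V × V | P d}.ncard = ∑ d : V × V, (if P d then 1 else 0) := by
  rw [Set.ncard_eq_toFinset_card', Finset.sum_boole]
  simp

theorem br_bij (he : EC H 3) (hD : ∀ x y, D x y → D y x)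
    (hn : {d : V × V | H.Adj d.1 d.2 ∧ D d.1 d.2}.ncard ≤ 4) (h : Br H D g β) :
    Function.Bijective g := by
  classical
  haveI := Fintype.ofFinite V
  rw [← Finite.injective_iff_bijective]
  by_contra hinj
  have hsurj : ¬ Function.Surjective g := by
    intro hs
    exact hinj (Finite.injective_iff_surjective.2 hs)
  obtain ⟨u, hu⟩ : ∃ u, ∀ x, g x ≠ u := by
    by_contra hh
    push Not at hh
    exact hsurj fun u => hh u
  obtain ⟨a, b, hab, hne⟩ : ∃ a b, g a = g b ∧ a ≠ b := by
    by_contra hh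
    push Not at hh
    exact hinj fun a b hab => hh a b hab
  have hu0 : {x | g x = u}.ncard = 0 := by
    have : {x | g x = u} = ∅ := by
      ext x
      simp only [Set.mem_setOf_eq, Set.mem_empty_iff_false, iff_false]
      exact hu x
    rw [this, Set.ncard_empty]
  have hv2 : 2 ≤ {x | g x = g a}.ncard := by
    have h2 : ({a, b} : Set V).ncard = 2 := Set.ncard_pair hne
    rw [← h2]
    apply Set.ncard_le_ncard _ (Set.toFinite _)
    intro x hx
    rcases hx with rfl | hx
    · rfl
    · rw [Set.mem_singleton_iff] at hx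
      subst hx
      exact hab.symm
  have hcut : ∀ k, 1 ≤ k → k ≤ 2 → 3 ≤ ∑ d : V × V, (if (k ≤ {x | g x = d.1}.ncard ∧
      ¬ k ≤ {x | g x = d.2}.ncard ∧ H.Adj d.1 d.2) then 1 else 0) := by
    intro k hk1 hk2
    rw [← BalB_ind (fun d : V × V => k ≤ {x | g x = d.1}.ncard ∧
      ¬ k ≤ {x | g x = d.2}.ncard ∧ H.Adj d.1 d.2)]
    exact he {y | k ≤ {x | g x = y}.ncard} ⟨g a, by
      show k ≤ {x | g x = g a}.ncard
      omega⟩ ⟨u, by
      show ¬ k ≤ {x | g x = u}.ncard
      omega⟩
  have h1 := hcut 1 le_rfl (by norm_num)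
  have h2 := hcut 2 (by norm_num) le_rfl
  have h3 : ∑ d : V × V, (if (1 ≤ {x | g x = d.1}.ncard ∧
      ¬ 1 ≤ {x | g x = d.2}.ncard ∧ H.Adj d.1 d.2) then 1 else 0) +
      ∑ d : V × V, (if (2 ≤ {x | g x = d.1}.ncard ∧
      ¬ 2 ≤ {x | g x = d.2}.ncard ∧ H.Adj d.1 d.2) then 1 else 0) ≤
      ∑ d : V × V, mm H D g β d.1 d.2 := by
    rw [← Finset.sum_add_distrib]
    refine Finset.sum_le_sum fun d _ => ?_
    by_cases ha : H.Adj d.1 d.2
    · have hc := br_count hD h ha
      split_ifs <;> omega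
    · rw [if_neg (fun hh => ha hh.2.2), if_neg (fun hh => ha hh.2.2)]
      exact Nat.zero_le _
  rw [BalB_sum] at h3
  omega

theorem br_sym (he : EC H 3) (hD : ∀ x y, D x y → D y x)
    (hn : {d : V × V | H.Adj d.1 d.2 ∧ D d.1 d.2}.ncard ≤ 4) (h : Br H D g β) {u v : V}
    (huv : H.Adj u v) : mm H D g β u v = mm H D g β v u := by
  have hb := br_bij he hD hn h
  have h1 : ∀ w, {x | g x = w}.ncard = 1 := by
    intro w
    rw [Set.ncard_eq_one]
    obtain ⟨x, hx⟩ := hb.2 w
    refine ⟨x, ?_⟩
    ext y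
    simp only [Set.mem_setOf_eq, Set.mem_singleton_iff]
    constructor
    · intro hy
      exact hb.1 (hy.trans hx.symm)
    · rintro rfl
      exact hx
  have h2 := br_count hD h huv
  rw [h1, h1] at h2
  omega

end Pool.Agent.LHC
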