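import Pool.Agent.LHC.Defs
import Pool.Agent.LHC.BalA
import Pool.Agent.LHC.BalB

/-!
# Symmetry of the values of the broken darts

`br_rev`: if `(x, y)` is a broken dart then its value `(g x, β x y)` is an edge, `mm (g x) (β x y) ≥ 1`, so by `br_sym`
`mm (β x y) (g x) ≥ 1` and there is a broken dart `(x', y')` with the value `(β x y, g x)`.
`card_de1`, `card_de2`: the set of darts is contained in `{(a, b), (b, a)}`, `{(a, b), (b, a), (c, d), (d, c)}`.
-/

namespace Pool.Agent.LHC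

open Pool.Agent.LIH Pool.Agent.LHA Pool.Agent.LHB

variable {V : Type} [Finite V] {H : SimpleGraph V} {D : V → V → Prop} {g : V → V} {β : V → V → V}

theorem br_rev (he : EC H 3) (hD : ∀ x y, D x y → D y x)
    (hn : {d : V × V | H.Adj d.1 d.2 ∧ D d.1 d.2}.ncard ≤ 4) (h : Br H D g β) {x y : V}
    (hxy : H.Adj x y) (hd : D x y) :
    ∃ x' y', H.Adj x' y' ∧ D x' y' ∧ g x' = β x y ∧ β x' y' = g x := by
  classical
  have hadj : H.Adj (g x) (β x y) := (h.bij x).mapsTo hxy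
  have h1 : 0 < mm H D g β (g x) (β x y) := by
    unfold mm
    rw [Set.ncard_pos (Set.toFinite _)]
    exact ⟨(x, y), hxy, hd, rfl, rfl⟩
  rw [br_sym he hD hn h hadj] at h1
  unfold mm at h1
  rw [Set.ncard_pos (Set.toFinite _)] at h1
  obtain ⟨⟨x', y'⟩, h2, h3, h4, h5⟩ := h1
  exact ⟨x', y', h2, h3, h4, h5⟩

theorem card_de1 (a b : V) : {d : V × V | H.Adj d.1 d.2 ∧ De a b d.1 d.2}.ncard ≤ 4 := by
  classical
  have hsub : {d : V × V | H.Adj d.1 d.2 ∧ De a b d.1 d.2} ⊆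
      (({(a, b), (b, a)} : Finset (V × V)) : Set (V × V)) := by
    rintro ⟨x, y⟩ ⟨_, h | h⟩
    · obtain ⟨rfl, rfl⟩ := h
      simp
    · obtain ⟨rfl, rfl⟩ := h
      simp
  have h1 := Set.ncard_le_ncard hsub (Finset.finite_toSet _)
  rw [Set.ncard_coe_finset] at h1
  have h2 : ({(a, b), (b, a)} : Finset (V × V)).card ≤ 2 := Finset.card_le_two
  omega

theorem card_de2 (a b c d : V) :
    {z : V × V | H.Adj z.1 z.2 ∧ (De a b z.1 z.2 ∨ De c d z.1 z.2)}.ncard ≤ 4 := by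
  classical
  have hsub : {z : V × V | H.Adj z.1 z.2 ∧ (De a b z.1 z.2 ∨ De c d z.1 z.2)} ⊆
      (({(a, b), (b, a), (c, d), (d, c)} : Finset (V × V)) : Set (V × V)) := by
    rintro ⟨x, y⟩ ⟨_, (h | h) | (h | h)⟩
    · obtain ⟨rfl, rfl⟩ := h
      simp
    · obtain ⟨rfl, rfl⟩ := h
      simp
    · obtain ⟨rfl, rfl⟩ := h
      simp
    · obtain ⟨rfl, rfl⟩ := h
      simp
  have h1 := Set.ncard_le_ncard hsub (Finset.finite_toSet _)
  rw [Set.ncard_coe_finset] at h1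
  exact h1.trans Finset.card_le_four

theorem de_symm {a b x y : V} (h : De a b x y) : De a b y x := by
  rcases h with ⟨h1, h2⟩ | ⟨h1, h2⟩
  · exact Or.inr ⟨h2, h1⟩
  · exact Or.inl ⟨h2, h1⟩

end Pool.Agent.LHC
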