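import Pool.Agent.LHC.Defs

/-!
# Bijective homomorphisms

`auto_of_hom`: a bijective homomorphism of a finite graph to itself is an isomorphism: the map `(x, y) ↦ (g x, g y)` is an injective map of the
finite set of darts to itself, so it is surjective; if `H.Adj (g x) (g y)` there is a dart `(x', y')` with `g x' = g x`, `g y' = g y`,
so `x' = x`, `y' = y`.
-/

namespace Pool.Agent.LHC

open Pool.Agent.LIH Pool.Agent.LHA Pool.Agent.LHB

theorem auto_of_hom {V : Type} [Finite V] {H : SimpleGraph V} {g : V → V}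
    (hb : Function.Bijective g) (hh : ∀ x y, H.Adj x y → H.Adj (g x) (g y)) :
    ∃ φ : H ≃g H, ∀ x, g x = φ x := by
  classical
  have hiff : ∀ x y, H.Adj (g x) (g y) → H.Adj x y := by
    intro x y hxy
    let F : {d : V × V // H.Adj d.1 d.2} → {d : V × V // H.Adj d.1 d.2} :=
      fun d => ⟨(g d.1.1, g d.1.2), hh _ _ d.2⟩
    have hinj : Function.Injective F := by
      rintro ⟨⟨a, b⟩, hab⟩ ⟨⟨c, d⟩, hcd⟩ h
      simp only [F, Subtype.mk.injEq, Prod.mk.injEq] at h
      have h1 := hb.1 h.1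
      have h2 := hb.1 h.2
      subst h1
      subst h2
      rfl
    have hsur := Finite.surjective_of_injective hinj
    obtain ⟨⟨⟨a, b⟩, hab⟩, h⟩ := hsur ⟨(g x, g y), hxy⟩
    simp only [F, Subtype.mk.injEq, Prod.mk.injEq] at h
    rw [← hb.1 h.1, ← hb.1 h.2]
    exact hab
  exact ⟨{ toEquiv := Equiv.ofBijective g hb, map_rel_iff' := fun {a b} => ⟨hiff a b, hh a b⟩ },
    fun x => rfl⟩

end Pool.Agent.LHC
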