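import Pool.Agent.LHC.Defs
import Pool.Agent.LHC.BalB
import Pool.Agent.LHC.BalC
import Pool.Agent.LHC.BrA

/-!
# Two inequivalent broken edges

`g` is bijective (`br_bij`, `card_de2`). Let `φ1, φ2, φ3` be the automorphisms of `k1, k2, k3`. `br_rev` for `(c, d)`: there is a broken dart `(x', y')` with
`g x' = β c d = φ3 d`, `β x' y' = g c = φ3 c`. It is one of `(a, b), (b, a), (c, d), (d, c)`. `(c, d)`: impossible (`g c = β c d`, but they are adjacent). `(a, b)`:
`φ1 a = φ3 d`, `φ1 b = φ3 c`: then `φ3.symm ∘ φ1` maps `a, b` to `d, c`, so `EqE H a b c d`: contradiction. `(b, a)`: `φ2 b = φ3 d`, `φ2 a = φ3 c`: contradiction.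
So `(d, c)`: `g d = β c d`, `β d c = g c`.
`br_rev` for `(a, b)`: `g x' = β a b = φ1 b`, `β x' y' = g a = φ1 a`. `(a, b)`: impossible. `(c, d)`: `φ3 c = g c = φ1 b`, `φ3 d = β c d = φ1 a`: contradiction to `hn`.
`(d, c)`: `g d = φ3 d`, `β d c = g c = φ3 c`, so `φ3 d = φ1 b`, `φ3 c = φ1 a`: contradiction. So `(b, a)`: `g b = β a b`, `β b a = g a`. So `β x y = g y` for all
adjacent `x, y`: `auto_of_hom`. (Two broken darts may be equal if e.g. `a = c`; this does not matter.)
-/

namespace Pool.Agent.LHC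

open Pool.Agent.LIH Pool.Agent.LHA Pool.Agent.LHB

theorem br_leaf {V : Type} [Finite V] {H : SimpleGraph V} {g : V → V} {β : V → V → V}
    {a b c d : V} (he : EC H 3) (hab : H.Adj a b) (hcd : H.Adj c d) (hn : ¬ EqE H a b c d)
    (h : Br H (fun x y => De a b x y ∨ De c d x y) g β)
    (k1 : ∃ φ : H ≃g H, φ a = g a ∧ φ b = β a b) (k2 : ∃ φ : H ≃g H, φ b = g b ∧ φ a = β b a)
    (k3 : ∃ φ : H ≃g H, φ c = g c ∧ φ d = β c d) :
    ∃ φ : H ≃g H, (∀ x, g x = φ x) ∧ ∀ x y, H.Adj x y → β x y = φ y := by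
  have hD : ∀ x y, (De a b x y ∨ De c d x y) → (De a b y x ∨ De c d y x) := by
    intro x y hxy
    rcases hxy with h1 | h1
    · exact Or.inl (de_symm h1)
    · exact Or.inr (de_symm h1)
  have hn' := card_de2 (H := H) a b c d
  obtain ⟨φ1, h1a, h1b⟩ := k1
  obtain ⟨φ2, h2b, h2a⟩ := k2
  obtain ⟨φ3, h3c, h3d⟩ := k3
  -- a helper to derive a contradiction
  have key : ∀ ψ : H ≃g H, De (φ3 c) (φ3 d) (ψ a) (ψ b) → False := by
    intro ψ hψ
    apply hn
    refine ⟨ψ.trans φ3.symm, ?_⟩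
    rcases hψ with ⟨e1, e2⟩ | ⟨e1, e2⟩
    · left
      constructor
      · show φ3.symm (ψ a) = c
        rw [e1]
        exact φ3.symm_apply_apply c
      · show φ3.symm (ψ b) = d
        rw [e2]
        exact φ3.symm_apply_apply d
    · right
      constructor
      · show φ3.symm (ψ a) = d
        rw [e1]
        exact φ3.symm_apply_apply d
      · show φ3.symm (ψ b) = c
        rw [e2]
        exact φ3.symm_apply_apply c
  have hgd : g d = β c d ∧ β d c = g c := by
    obtain ⟨x', y', -, hdd, e1, e2⟩ := br_rev he hD hn' h hcd (Or.inr (Or.inl ⟨rfl, rfl⟩))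
    rcases hdd with (⟨hx, hy⟩ | ⟨hx, hy⟩) | (⟨hx, hy⟩ | ⟨hx, hy⟩)
    · exfalso
      subst hx
      subst hy
      apply key φ1
      right
      exact ⟨by rw [h1a, e1, h3d], by rw [h1b, e2, h3c]⟩
    · exfalso
      subst hx
      subst hy
      apply key φ2
      left
      exact ⟨by rw [h2a, e2, h3c], by rw [h2b, e1, h3d]⟩
    · exfalso
      subst hx
      subst hy
      have : φ3 x' = φ3 y' := by rw [h3c, h3d, e1]
      exact hcd.ne (φ3.injective this)
    · subst hx
      subst hy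
      exact ⟨e1, e2⟩
  have hgb : g b = β a b ∧ β b a = g a := by
    obtain ⟨x', y', -, hdd, e1, e2⟩ := br_rev he hD hn' h hab (Or.inl (Or.inl ⟨rfl, rfl⟩))
    rcases hdd with (⟨hx, hy⟩ | ⟨hx, hy⟩) | (⟨hx, hy⟩ | ⟨hx, hy⟩)
    · exfalso
      subst hx
      subst hy
      have : φ1 x' = φ1 y' := by rw [h1a, h1b, e1]
      exact hab.ne (φ1.injective this)
    · subst hx
      subst hy
      exact ⟨e1, e2⟩
    · exfalso
      subst hx
      subst hy
      apply key φ1
      right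
      exact ⟨by rw [h1a, h3d, e2], by rw [h1b, h3c, e1]⟩
    · exfalso
      subst hx
      subst hy
      apply key φ1
      left
      exact ⟨by rw [h1a, h3c, ← hgd.2, e2], by rw [h1b, h3d, ← hgd.1, e1]⟩
  have hall : ∀ x y, H.Adj x y → β x y = g y := by
    intro x y hxy
    by_cases hd : De a b x y ∨ De c d x y
    · rcases hd with (⟨hx, hy⟩ | ⟨hx, hy⟩) | (⟨hx, hy⟩ | ⟨hx, hy⟩)
      · rw [hx, hy]; exact hgb.1.symm
      · rw [hx, hy]; exact hgb.2
      · rw [hx, hy]; exact hgd.1.symm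
      · rw [hx, hy]; exact hgd.2
    · exact h.eq x y hxy hd
  have hbij := br_bij he hD hn' h
  obtain ⟨φ, hφ⟩ := auto_of_hom hbij (fun x y hxy => by
    have := (h.bij x).mapsTo (show y ∈ H.neighborSet x from hxy)
    rw [hall x y hxy] at this
    exact this)
  exact ⟨φ, hφ, fun x y hxy => by rw [hall x y hxy, hφ y]⟩

end Pool.Agent.LHC
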