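import Pool.Agent.LHC.Defs
import Pool.Agent.LHC.BalB
import Pool.Agent.LHC.BalC
import Pool.Agent.LHC.BrA

/-!
# One broken edge

`g` is bijective (`br_bij`, `card_de1`). `br_rev` for the broken dart `(a, b)`: there is a broken dart `(x', y')` with `g x' = β a b`, `β x' y' = g a`; it is
`(a, b)` or `(b, a)`. `(a, b)` is impossible: `g a = β a b`, but `H.Adj (g a) (β a b)` (`Br.bij`, `MapsTo`). So `g b = β a b`, `β b a = g a`. So
`β x y = g y` for all adjacent `x, y`, and `H.Adj (g x) (g y)`: `auto_of_hom`.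
-/

namespace Pool.Agent.LHC

open Pool.Agent.LIH Pool.Agent.LHA Pool.Agent.LHB

theorem br_plain {V : Type} [Finite V] {H : SimpleGraph V} {g : V → V} {β : V → V → V} {a b : V}
    (he : EC H 3) (hab : H.Adj a b) (h : Br H (De a b) g β) :
    ∃ φ : H ≃g H, (∀ x, g x = φ x) ∧ ∀ x y, H.Adj x y → β x y = φ y := by
  have hD : ∀ x y, De a b x y → De a b y x := fun x y => de_symm
  have hn : {d : V × V | H.Adj d.1 d.2 ∧ De a b d.1 d.2}.ncard ≤ 4 := card_de1 a b
  have hbij := br_bij he hD hn h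
  obtain ⟨x', y', h1, h2, h3, h4⟩ := br_rev he hD hn h hab (Or.inl ⟨rfl, rfl⟩)
  have hba : g b = β a b ∧ β b a = g a := by
    rcases h2 with ⟨rfl, rfl⟩ | ⟨rfl, rfl⟩
    · exfalso
      have h5 : H.Adj (g x') (β x' y') := (h.bij x').mapsTo hab
      rw [← h3] at h5
      exact H.irrefl h5
    · exact ⟨h3, h4⟩
  have hall : ∀ x y, H.Adj x y → β x y = g y := by
    intro x y hxy
    by_cases hd : De a b x y
    · rcases hd with ⟨rfl, rfl⟩ | ⟨rfl, rfl⟩
      · exact hba.1.symm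
      · exact hba.2
    · exact h.eq x y hxy hd
  have hh : ∀ x y, H.Adj x y → H.Adj (g x) (g y) := by
    intro x y hxy
    have h5 : H.Adj (g x) (β x y) := (h.bij x).mapsTo hxy
    rwa [hall x y hxy] at h5
  obtain ⟨φ, hφ⟩ := auto_of_hom hbij hh
  exact ⟨φ, hφ, fun x y hxy => by rw [hall x y hxy, hφ]⟩

end Pool.Agent.LHC
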