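import Pool.Agent.LHC.Defs
import Pool.Agent.LHC.BalB
import Pool.Agent.LHC.BalC
import Pool.Agent.LHC.BrA

/-!
# Two broken edges at one vertex

`g` is bijective (`br_bij`, `card_de2`). The broken darts are `(X, c0), (X, c1), (c0, X), (c1, X)`. `br_rev` for `(X, c0)`: a broken dart `(x', y')` with
`g x' = β X c0`, `β x' y' = g X`; `x' ≠ X` (`H.Adj (g X) (β X c0)`), so `x' = c0` or `x' = c1`, `y' = X`. The same for `(X, c1)`, with `x''`; `x'' ≠ x'` since
`β X c0 ≠ β X c1` (`Br.bij`, `InjOn`). So either (`g c0 = β X c0`, `g c1 = β X c1`) or (`g c1 = β X c0`, `g c0 = β X c1`), and in both cases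
`β c0 X = g X = β c1 X`. `H.Adj (g x) (g y)` for all adjacent `x, y`: `g y = β x y` if `(x, y)` is not broken or `x ≠ X`; for `(X, c0)`, `(X, c1)` symmetric
to `(c0, X)`, `(c1, X)`. `auto_of_hom`.
-/

namespace Pool.Agent.LHC

open Pool.Agent.LIH Pool.Agent.LHA Pool.Agent.LHB

theorem br_vsh {V : Type} [Finite V] {H : SimpleGraph V} {g : V → V} {β : V → V → V}
    {X c0 c1 : V} (he : EC H 3) (h0 : H.Adj X c0) (h1 : H.Adj X c1) (hne : c0 ≠ c1)
    (h : Br H (fun x y => De X c0 x y ∨ De X c1 x y) g β) :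
    ∃ φ : H ≃g H, (∀ x, g x = φ x) ∧ ∀ x y, H.Adj x y → x ≠ X → β x y = φ y := by
  have hD : ∀ x y, (De X c0 x y ∨ De X c1 x y) → (De X c0 y x ∨ De X c1 y x) := by
    intro x y hxy
    rcases hxy with hxy | hxy
    · exact Or.inl (de_symm hxy)
    · exact Or.inr (de_symm hxy)
  have hn := card_de2 (H := H) X c0 X c1
  have hb := br_bij he hD hn h
  -- the values of the broken darts at `X`
  have key : ∀ c, (c = c0 ∨ c = c1) → H.Adj X c →
      (g c0 = β X c ∧ β c0 X = g X) ∨ (g c1 = β X c ∧ β c1 X = g X) := by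
    intro c hc hXc
    have hd : De X c0 X c ∨ De X c1 X c := by
      rcases hc with rfl | rfl
      · exact Or.inl (Or.inl ⟨rfl, rfl⟩)
      · exact Or.inr (Or.inl ⟨rfl, rfl⟩)
    obtain ⟨x', y', hadj, hd', e1, e2⟩ := br_rev he hD hn h hXc hd
    have h2 : H.Adj (g X) (β X c) := (h.bij X).mapsTo hXc
    have hne' : x' ≠ X := by
      rintro rfl
      rw [← e1] at h2
      exact H.irrefl h2
    rcases hd' with (⟨h3, h4⟩ | ⟨h3, h4⟩) | (⟨h3, h4⟩ | ⟨h3, h4⟩)
    · exact absurd h3 hne'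
    · left
      rw [h3] at e1 e2
      rw [h4] at e2
      exact ⟨e1, e2⟩
    · exact absurd h3 hne'
    · right
      rw [h3] at e1 e2
      rw [h4] at e2
      exact ⟨e1, e2⟩
  have hinj : β X c0 ≠ β X c1 := fun hh => hne ((h.bij X).injOn h0 h1 hh)
  have hXX : β c0 X = g X ∧ β c1 X = g X := by
    rcases key c0 (Or.inl rfl) h0 with ⟨a1, a2⟩ | ⟨a1, a2⟩
    · rcases key c1 (Or.inr rfl) h1 with ⟨b1, b2⟩ | ⟨b1, b2⟩
      · exact absurd (a1.symm.trans b1) hinj
      · exact ⟨a2, b2⟩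
    · rcases key c1 (Or.inr rfl) h1 with ⟨b1, b2⟩ | ⟨b1, b2⟩
      · exact ⟨b2, a2⟩
      · exact absurd (a1.symm.trans b1) hinj
  have hval : ∀ x y, H.Adj x y → x ≠ X → β x y = g y := by
    intro x y hxy hx
    by_cases hd : De X c0 x y ∨ De X c1 x y
    · rcases hd with (⟨h3, h4⟩ | ⟨h3, h4⟩) | (⟨h3, h4⟩ | ⟨h3, h4⟩)
      · exact absurd h3 hx
      · rw [h3, h4]; exact hXX.1
      · exact absurd h3 hx
      · rw [h3, h4]; exact hXX.2
    · exact h.eq x y hxy hd
  have hhom' : ∀ x y, H.Adj x y → x ≠ X → H.Adj (g x) (g y) := by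
    intro x y hxy hx
    rw [← hval x y hxy hx]
    exact (h.bij x).mapsTo hxy
  have hhom : ∀ x y, H.Adj x y → H.Adj (g x) (g y) := by
    intro x y hxy
    by_cases hx : x = X
    · have hy : y ≠ X := by
        rintro rfl
        rw [hx] at hxy
        exact H.irrefl hxy
      exact (hhom' y x hxy.symm hy).symm
    · exact hhom' x y hxy hx
  obtain ⟨φ, hφ⟩ := auto_of_hom hb hhom
  exact ⟨φ, hφ, fun x y hxy hx => by rw [hval x y hxy hx, hφ]⟩

end Pool.Agent.LHC
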