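import Pool.Agent.LHC.Defs
import Pool.Agent.LHC.RgB
import Pool.Agent.LHC.BrP
import Pool.Agent.LHC.BrV
import Pool.Agent.LHC.BrL

/-!
# Copies of `H` in a graph with ports

`br_of`: `Rg.Bij` gives `Set.BijOn (P.fv f (σ x)) (N (P.p (σ x))) (N (f (σ x)))` and `P.p (σ x) = x`. If `H.Adj x y`, `¬ D x y` then `P.fv f (σ x) y = f (σ y)` by
`hnb` and `Rg.fv_some`. The others: `br_plain`, `br_vsh`, `br_leaf` for `g x = f (σ x)`, `β x y = P.fv f (σ x) y`.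
-/

namespace Pool.Agent.LHC

open Pool.Agent.LIH Pool.Agent.LHA Pool.Agent.LHB

variable {V W : Type} {H : SimpleGraph V} {P : Rg V W} {σ : V → W} {f : W → V}

theorem br_of {D : V → V → Prop} (hp : ∀ x, P.p (σ x) = x)
    (hnb : ∀ x y, H.Adj x y → ¬ D x y → P.nb (σ x) y = some (σ y)) (hb : ∀ x, P.Bij H f (σ x)) :
    Br H D (fun x => f (σ x)) (fun x y => P.fv f (σ x) y) where
  bij x := by
    have h := (hb x).2
    rw [hp x] at h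
    exact h
  eq x y hxy hd := Rg.fv_some (hnb x y hxy hd)

theorem sh_plain [Finite V] (he : EC H 3) {a b : V} (hab : H.Adj a b) (hp : ∀ x, P.p (σ x) = x)
    (hnb : ∀ x y, H.Adj x y → ¬ De a b x y → P.nb (σ x) y = some (σ y))
    (hb : ∀ x, P.Bij H f (σ x)) :
    ∃ φ : H ≃g H, (∀ x, f (σ x) = φ x) ∧ ∀ x y, H.Adj x y → P.fv f (σ x) y = φ y :=
  br_plain he hab (br_of hp hnb hb)

theorem sh_vsh [Finite V] (he : EC H 3) {X c0 c1 : V} (h0 : H.Adj X c0) (h1 : H.Adj X c1)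
    (hne : c0 ≠ c1) (hp : ∀ x, P.p (σ x) = x)
    (hnb : ∀ x y, H.Adj x y → ¬ (De X c0 x y ∨ De X c1 x y) → P.nb (σ x) y = some (σ y))
    (hb : ∀ x, P.Bij H f (σ x)) :
    ∃ φ : H ≃g H, (∀ x, f (σ x) = φ x) ∧ ∀ x y, H.Adj x y → x ≠ X → P.fv f (σ x) y = φ y :=
  br_vsh he h0 h1 hne (br_of hp hnb hb)

theorem sh_leaf [Finite V] (he : EC H 3) {a b c d : V} (hab : H.Adj a b) (hcd : H.Adj c d)
    (hn : ¬ EqE H a b c d) (hp : ∀ x, P.p (σ x) = x)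
    (hnb : ∀ x y, H.Adj x y → ¬ (De a b x y ∨ De c d x y) → P.nb (σ x) y = some (σ y))
    (hb : ∀ x, P.Bij H f (σ x))
    (k1 : ∃ φ : H ≃g H, φ a = f (σ a) ∧ φ b = P.fv f (σ a) b)
    (k2 : ∃ φ : H ≃g H, φ b = f (σ b) ∧ φ a = P.fv f (σ b) a)
    (k3 : ∃ φ : H ≃g H, φ c = f (σ c) ∧ φ d = P.fv f (σ c) d) :
    ∃ φ : H ≃g H, (∀ x, f (σ x) = φ x) ∧ ∀ x y, H.Adj x y → P.fv f (σ x) y = φ y :=
  br_leaf he hab hcd hn (br_of hp hnb hb) k1 k2 k3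

end Pool.Agent.LHC
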