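import Pool.Agent.LHC.Defs
import Pool.Agent.LHC.RgB
import Pool.Agent.LHC.Shs
import Pool.Agent.LHC.CycB
import Pool.Agent.LHC.AOk

/-!
# Part A: soundness of the spine

Let `k = (v, e)`, `q = (k, σ)`, `σ' x = (k, inl (vs σ x))`: a copy of `H` with the broken edges `{X, c 0}`, `{X, c 1}` (`rA.nb (k, inl (vs σ x)) z = some (k, inl (vs σ z))` if `(x, z)` is not one of their darts: such ports are not open).
`sh_vsh` (`X`, `c0 = D.c 0`, `c1 = D.c 1`) gives `φ` with `f (σ' x) = φ x` and `fv f (σ' x) z = φ z` for `x ≠ X`. With `x = c 1`, `z = X`: the neighbour is `(k, inl (st σ))`, so `f (k, inl (st σ)) = φ X`. With `x = c 0`, `z = X`: the neighbour is the vertex `st`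
of the predecessor `(sx pn)⁻¹ q`. So the values of `st` at `q` and at `(sx pn)⁻¹ q` agree. Put `g (e, σ) = f ((v0, e), inl (st σ))`: then `g (sx I.nx (e, σ)) = g (e, σ)` (`sx I.pn ((v0, e), σ)` is
`((v0, e'), σ')` with `(e', σ') = sx I.nx (e, σ)`), and `ctr_sx` says that `g` is constant.
-/

namespace Pool.Agent.LHC

open Pool.Agent.LIH Pool.Agent.LHA Pool.Agent.LHB

theorem ASp_nb {V : Type} {H : SimpleGraph V} (D : DA H) (I : IA) (r : ℕ) (k : I.VV × I.EE)
    (z : ZA V) (y : V) (w : (I.VV × I.EE) × ZA V) (h : (coreA D I).nb (k, z) y = some w) :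
    (rA D I r).nb (k, .inl z) y = some (w.1, .inl w.2) := by
  classical
  have ho : ¬ opA D I (k, z) y := by
    rintro ⟨_, h2⟩
    rw [h] at h2
    exact Option.some_ne_none _ h2
  show (if opA D I (k, z) y then _ else ((coreA D I).nb (k, z) y).map
    (fun w => (w.1, Sum.inl w.2))) = _
  rw [if_neg ho, h]
  rfl

variable {V : Type} [Finite V] {H : SimpleGraph V} (he : EC H 3) (D : DA H) (I : IA) {r : ℕ}
  {f : (I.VV × I.EE) × CZ (ZA V) V r → V} (hb : ∀ k z, (rA D I r).Bij H f (k, .inl z))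

include he hb

theorem st_A (k : I.VV × I.EE) (σ : Fin 3) : ∃ φ : H ≃g H, φ D.X = f (k, .inl (.st σ)) ∧
    φ D.X = f (((sx I.pn).symm (k, σ)).1, .inl (.st ((sx I.pn).symm (k, σ)).2)) := by
  classical
  have hc01 : D.c 0 ≠ D.c 1 := fun h => by
    have := D.inj_c h
    exact absurd this (by decide)
  have hX0 : D.c 0 ≠ D.X := (D.adj_c 0).ne'
  have hX1 : D.c 1 ≠ D.X := (D.adj_c 1).ne'
  obtain ⟨φ, h1, h2⟩ := sh_vsh (P := rA D I r) (σ := fun x => (k, .inl (.vs σ x))) (f := f) he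
    (D.adj_c 0) (D.adj_c 1) hc01 (fun x => rfl) (by
      intro x y _ hn
      refine ASp_nb D I r k (.vs σ x) y (k, .vs σ y) ?_
      show (if x = D.X ∧ (y = D.c 0 ∨ y = D.c 1) then none
        else if x = D.c 1 ∧ y = D.X then some (k, ZA.st σ)
        else if x = D.c 0 ∧ y = D.X then
          some (((sx I.pn).symm (k, σ)).1, ZA.st ((sx I.pn).symm (k, σ)).2)
        else some (k, ZA.vs σ y)) = _
      rw [if_neg, if_neg, if_neg]
      · rintro ⟨e1, e2⟩
        exact hn (Or.inl (Or.inr ⟨e1, e2⟩))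
      · rintro ⟨e1, e2⟩
        exact hn (Or.inr (Or.inr ⟨e1, e2⟩))
      · rintro ⟨e1, e2 | e2⟩
        · exact hn (Or.inl (Or.inl ⟨e1, e2⟩))
        · exact hn (Or.inr (Or.inl ⟨e1, e2⟩))) (fun x => hb k _)
  refine ⟨φ, ?_, ?_⟩
  · have h3 := h2 (D.c 1) D.X (D.adj_c 1).symm hX1
    have h4 : (rA D I r).nb (k, .inl (.vs σ (D.c 1))) D.X = some (k, .inl (.st σ)) := by
      refine ASp_nb D I r k (.vs σ (D.c 1)) D.X (k, .st σ) ?_
      show (if D.c 1 = D.X ∧ (D.X = D.c 0 ∨ D.X = D.c 1) then none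
        else if D.c 1 = D.c 1 ∧ D.X = D.X then some (k, ZA.st σ)
        else if D.c 1 = D.c 0 ∧ D.X = D.X then
          some (((sx I.pn).symm (k, σ)).1, ZA.st ((sx I.pn).symm (k, σ)).2)
        else some (k, ZA.vs σ D.X)) = _
      rw [if_neg (fun h => hX1 h.1), if_pos ⟨rfl, rfl⟩]
    rw [Rg.fv_some h4] at h3
    exact h3.symm
  · have h3 := h2 (D.c 0) D.X (D.adj_c 0).symm hX0
    have h4 : (rA D I r).nb (k, .inl (.vs σ (D.c 0))) D.X =
        some (((sx I.pn).symm (k, σ)).1, .inl (.st ((sx I.pn).symm (k, σ)).2)) := by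
      refine ASp_nb D I r k (.vs σ (D.c 0)) D.X
        (((sx I.pn).symm (k, σ)).1, .st ((sx I.pn).symm (k, σ)).2) ?_
      show (if D.c 0 = D.X ∧ (D.X = D.c 0 ∨ D.X = D.c 1) then none
        else if D.c 0 = D.c 1 ∧ D.X = D.X then some (k, ZA.st σ)
        else if D.c 0 = D.c 0 ∧ D.X = D.X then
          some (((sx I.pn).symm (k, σ)).1, ZA.st ((sx I.pn).symm (k, σ)).2)
        else some (k, ZA.vs σ D.X)) = _
      rw [if_neg (fun h => hX0 h.1), if_neg (fun h => hc01 h.1), if_pos ⟨rfl, rfl⟩]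
    rw [Rg.fv_some h4] at h3
    exact h3.symm

theorem spine_A (hI : Ctr I.nx) (e e' : I.EE) (σ σ' : Fin 3) :
    f ((I.v0, e), .inl (.st σ)) = f ((I.v0, e'), .inl (.st σ')) := by
  have key : ∀ q : I.EE × Fin 3, f ((I.v0, (sx I.nx q).1), .inl (.st (sx I.nx q).2)) =
      f ((I.v0, q.1), .inl (.st q.2)) := by
    rintro ⟨e, σ⟩
    have hq : sx I.pn ((I.v0, e), σ) = ((I.v0, (sx I.nx (e, σ)).1), (sx I.nx (e, σ)).2) := by
      show (if σ = 2 then (I.pn (I.v0, e), (0 : Fin 3)) else ((I.v0, e), σ + 1)) =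
        ((I.v0, (if σ = 2 then (I.nx e, (0 : Fin 3)) else (e, σ + 1)).1),
          (if σ = 2 then (I.nx e, (0 : Fin 3)) else (e, σ + 1)).2)
      by_cases h : σ = 2
      · rw [if_pos h, if_pos h]; rfl
      · rw [if_neg h, if_neg h]
    obtain ⟨φ, h1, h2⟩ := st_A he D I hb (sx I.pn ((I.v0, e), σ)).1 (sx I.pn ((I.v0, e), σ)).2
    have h3 : (sx I.pn).symm ((sx I.pn ((I.v0, e), σ)).1, (sx I.pn ((I.v0, e), σ)).2) =
        ((I.v0, e), σ) := (sx I.pn).symm_apply_apply _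
    rw [h3] at h2
    rw [hq] at h1
    exact h1.symm.trans h2
  exact ctr_sx hI V (fun q => f ((I.v0, q.1), .inl (.st q.2))) key (e, σ) (e', σ')

end Pool.Agent.LHC
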