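import Pool.Agent.LHC.Defs
import Pool.Agent.LHC.RgB
import Pool.Agent.LHC.Shs
import Pool.Agent.LHC.CycB
import Pool.Agent.LHC.AOk
import Pool.Agent.LHC.ASp

/-!
# Part A: soundness

`so_A`: the vertices `(k, inl (so x))` form a copy of `H` with one broken edge `{X, y}`: `sh_plain` with `a = X`, `b = y` gives `φ`; the neighbour of `(k, inl (so X))` at the port `y` is `(k, inl t)`, so `f (k, inl t) = φ y`; if
`k.1 = v1 k.2` or `k.1 = v2 k.2` the neighbour of `(k, inl (so y))` at the port `X` is `((v0, k.2), inl (st 0))` (this port is not open), so its value is `φ X`.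
`sy_A`: the vertices `(k, inl (sy x))` form a copy of `H` with the broken edges `{y, x2}`, `{y, x3}`: `sh_vsh` with `X := y`, `c0 := x2`, `c1 := x3` gives `φ`; the neighbour of `sy x2` at `y` is `(k, inl t)`, the neighbour of `sy x3` at `y` is
`((k.1, nx k.2), inl t)`: both have the value `φ y`. So `e ↦ f ((v, e), inl t)` is constant (`Ctr I.nx` with `g (nx e) = g e`).
`sound_A`: if there is no `e`, take `col v = c 0`. Otherwise fix `e0`, `X' = f ((v0, e0), inl (st 0))`, `φ0` with `φ0 X = X'` (`st_A`), `T v = f ((v, e0), inl t)`, and let `col v = φ0.symm (T v)` if this is adjacent to `X` and `c 0` otherwise.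
For every `e` and `v = v1 e` or `v2 e`: `φ` from `so_A` for `k = (v, e)`: `φ X = f ((v0, e), inl (st 0)) = X'` (`spine_A`), `φ y = f ((v, e), inl t) = T v = f ((v, e), inl (so y))`. So `T v` is adjacent to `X'` and `col v = φ0.symm (T v)`.
The vertex `((v0, e), inl (st 0))` has the neighbours `((v1 e, e), inl (so y))` at the port `c 2` and `((v2 e, e), inl (so y))` at `c 3` (not open), whose values are different because `fv f` is injective on the ports (`hb`), so
`T (v1 e) ≠ T (v2 e)`.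
-/

namespace Pool.Agent.LHC

open Pool.Agent.LIH Pool.Agent.LHA Pool.Agent.LHB

theorem ASo_nb {V : Type} {H : SimpleGraph V} (D : DA H) (I : IA) (r : ℕ) {k : I.VV × I.EE}
    {z : ZA V} {y : V} {w : (I.VV × I.EE) × ZA V} (h : (coreA D I).nb (k, z) y = some w) :
    (rA D I r).nb (k, .inl z) y = some (w.1, .inl w.2) := by
  classical
  have hop : ¬ opA D I (k, z) y := by
    intro h1
    have := h1.2
    rw [h] at this
    cases this
  show (if opA D I (k, z) y then some (k, .inr (z, y, Fin.last r, y))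
        else ((coreA D I).nb (k, z) y).map (fun w => (w.1, Sum.inl w.2))) = _
  rw [if_neg hop, h]
  rfl

variable {V : Type} [Finite V] {H : SimpleGraph V} (he : EC H 3) (D : DA H) (I : IA) {r : ℕ}
  {f : (I.VV × I.EE) × CZ (ZA V) V r → V} (hb : ∀ k z, (rA D I r).Bij H f (k, .inl z))

include he hb

theorem so_A (k : I.VV × I.EE) : ∃ φ : H ≃g H, φ D.y = f (k, .inl .t) ∧
    (∀ x, f (k, .inl (.so x)) = φ x) ∧
    ((k.1 = I.v1 k.2 ∨ k.1 = I.v2 k.2) → φ D.X = f ((I.v0, k.2), .inl (.st 0))) := by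
  classical
  have hXy : D.X ≠ D.y := D.adj_y.ne
  obtain ⟨φ, h1, h2⟩ := sh_plain (P := rA D I r) (f := f)
    (σ := fun x => ((k, .inl (.so x)) : (I.VV × I.EE) × CZ (ZA V) V r)) he D.adj_y
    (fun x => rfl) (by
      intro x z hxz hD
      refine ASo_nb D I r (w := (k, .so z)) ?_
      show (if x = D.X ∧ z = D.y then some (k, ZA.t)
        else if x = D.y ∧ z = D.X then
          (if k.1 = I.v1 k.2 ∨ k.1 = I.v2 k.2 then some ((I.v0, k.2), ZA.st 0) else none)
        else some (k, ZA.so z)) = _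
      rw [if_neg (fun h => hD (Or.inl h)), if_neg (fun h => hD (Or.inr h))])
    (fun x => hb k (.so x))
  refine ⟨φ, ?_, h1, ?_⟩
  · rw [← h2 D.X D.y D.adj_y]
    refine Rg.fv_some (ASo_nb D I r (w := (k, .t)) ?_)
    show (if D.X = D.X ∧ D.y = D.y then some (k, ZA.t)
        else if D.X = D.y ∧ D.y = D.X then
          (if k.1 = I.v1 k.2 ∨ k.1 = I.v2 k.2 then some ((I.v0, k.2), ZA.st 0) else none)
        else some (k, ZA.so D.y)) = _
    rw [if_pos ⟨rfl, rfl⟩]
  · intro hk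
    rw [← h2 D.y D.X D.adj_y.symm]
    refine Rg.fv_some (ASo_nb D I r (w := ((I.v0, k.2), .st 0)) ?_)
    show (if D.y = D.X ∧ D.X = D.y then some (k, ZA.t)
        else if D.y = D.y ∧ D.X = D.X then
          (if k.1 = I.v1 k.2 ∨ k.1 = I.v2 k.2 then some ((I.v0, k.2), ZA.st 0) else none)
        else some (k, ZA.so D.X)) = _
    rw [if_neg (fun h => hXy h.2), if_pos ⟨rfl, rfl⟩, if_pos hk]

theorem sy_A (hI : Ctr I.nx) (v : I.VV) (e e' : I.EE) :
    f ((v, e), .inl .t) = f ((v, e'), .inl .t) := by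
  classical
  refine hI V (fun e => f ((v, e), .inl .t)) (fun e => ?_) e e'
  have hyX2 : D.y ≠ D.x2 := D.adj_x2.ne
  have hyX3 : D.y ≠ D.x3 := D.adj_x3.ne
  obtain ⟨k, hk⟩ : ∃ k : I.VV × I.EE, k = (v, e) := ⟨_, rfl⟩
  obtain ⟨φ, h1, h2⟩ := sh_vsh (P := rA D I r) (f := f)
    (σ := fun x => ((k, .inl (.sy x)) : (I.VV × I.EE) × CZ (ZA V) V r)) he D.adj_x2 D.adj_x3
    D.ne_23 (fun x => rfl) (by
      intro x z hxz hD
      refine ASo_nb D I r (w := (k, .sy z)) ?_
      show (if x = D.y ∧ (z = D.x2 ∨ z = D.x3) then none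
        else if x = D.x2 ∧ z = D.y then some (k, ZA.t)
        else if x = D.x3 ∧ z = D.y then some ((k.1, I.nx k.2), ZA.t)
        else some (k, ZA.sy z)) = _
      rw [if_neg, if_neg, if_neg]
      · exact fun h => hD (Or.inr (Or.inr h))
      · exact fun h => hD (Or.inl (Or.inr h))
      · rintro ⟨h, h' | h'⟩
        · exact hD (Or.inl (Or.inl ⟨h, h'⟩))
        · exact hD (Or.inr (Or.inl ⟨h, h'⟩)))
    (fun x => hb k (.sy x))
  have e1 : f (k, .inl .t) = φ D.y := by
    rw [← h2 D.x2 D.y D.adj_x2.symm (Ne.symm hyX2)]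
    refine (Rg.fv_some (ASo_nb D I r (w := (k, .t)) ?_)).symm
    show (if D.x2 = D.y ∧ (D.y = D.x2 ∨ D.y = D.x3) then none
        else if D.x2 = D.x2 ∧ D.y = D.y then some (k, ZA.t)
        else if D.x2 = D.x3 ∧ D.y = D.y then some ((k.1, I.nx k.2), ZA.t)
        else some (k, ZA.sy D.y)) = _
    rw [if_neg (fun h => hyX2 h.1.symm), if_pos ⟨rfl, rfl⟩]
  have e2 : f ((k.1, I.nx k.2), .inl .t) = φ D.y := by
    rw [← h2 D.x3 D.y D.adj_x3.symm (Ne.symm hyX3)]
    refine (Rg.fv_some (ASo_nb D I r (w := ((k.1, I.nx k.2), .t)) ?_)).symm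
    show (if D.x3 = D.y ∧ (D.y = D.x2 ∨ D.y = D.x3) then none
        else if D.x3 = D.x2 ∧ D.y = D.y then some (k, ZA.t)
        else if D.x3 = D.x3 ∧ D.y = D.y then some ((k.1, I.nx k.2), ZA.t)
        else some (k, ZA.sy D.y)) = _
    rw [if_neg (fun h => hyX3 h.1.symm), if_neg (fun h => D.ne_23 h.1.symm), if_pos ⟨rfl, rfl⟩]
  show f ((v, I.nx e), .inl .t) = f ((v, e), .inl .t)
  rw [hk] at e1 e2
  rw [e1]
  exact e2

theorem sound_A (hI : Ctr I.nx) : ∃ col : I.VV → V, (∀ v, H.Adj D.X (col v)) ∧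
    ∀ e, col (I.v1 e) ≠ col (I.v2 e) := by
  classical
  rcases isEmpty_or_nonempty I.EE with hE | ⟨⟨e0⟩⟩
  · exact ⟨fun _ => D.c 0, fun _ => D.adj_c 0, fun e => (hE.false e).elim⟩
  obtain ⟨φ0, hφ0, _⟩ := st_A he D I hb (I.v0, e0) 0
  have key : ∀ e v, (v = I.v1 e ∨ v = I.v2 e) →
      H.Adj D.X (φ0.symm (f ((v, e0), .inl .t))) ∧
        f ((v, e), .inl (.so D.y)) = f ((v, e0), .inl .t) := by
    intro e v hv
    obtain ⟨φ, h1, h2, h3⟩ := so_A he D I hb (v, e)
    have h4 := h3 hv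
    have h5 : f ((v, e0), .inl .t) = φ D.y := by
      rw [h1]
      exact sy_A he D I hb hI v e0 e
    have h6 : φ0 D.X = φ D.X := by
      rw [hφ0, h4]
      exact spine_A he D I hb hI e0 e 0 0
    refine ⟨?_, ?_⟩
    · have h7 : H.Adj (φ0 D.X) (f ((v, e0), .inl .t)) := by
        rw [h5, h6]
        exact (SimpleGraph.Iso.map_adj_iff φ).2 D.adj_y
      have h8 : H.Adj (φ0.symm (φ0 D.X)) (φ0.symm (f ((v, e0), .inl .t))) :=
        (SimpleGraph.Iso.map_adj_iff φ0.symm).2 h7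
      rwa [RelIso.symm_apply_apply] at h8
    · rw [h2 D.y, h5]
  refine ⟨fun v => if H.Adj D.X (φ0.symm (f ((v, e0), .inl .t))) then
    φ0.symm (f ((v, e0), .inl .t)) else D.c 0, ?_, ?_⟩
  · intro v
    show H.Adj D.X (if H.Adj D.X (φ0.symm (f ((v, e0), .inl .t))) then
      φ0.symm (f ((v, e0), .inl .t)) else D.c 0)
    split_ifs with h
    · exact h
    · exact D.adj_c 0
  · intro e hcon
    obtain ⟨h1, h2⟩ := key e (I.v1 e) (Or.inl rfl)
    obtain ⟨h3, h4⟩ := key e (I.v2 e) (Or.inr rfl)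
    have hcon' : (if H.Adj D.X (φ0.symm (f ((I.v1 e, e0), .inl .t))) then
        φ0.symm (f ((I.v1 e, e0), .inl .t)) else D.c 0) =
        (if H.Adj D.X (φ0.symm (f ((I.v2 e, e0), .inl .t))) then
        φ0.symm (f ((I.v2 e, e0), .inl .t)) else D.c 0) := hcon
    rw [if_pos h1, if_pos h3] at hcon'
    have h5 := φ0.symm.injective hcon'
    rw [← h2, ← h4] at h5
    have n1 : (rA D I r).nb ((I.v0, e), .inl (.st 0)) (D.c 2) =
        some ((I.v1 e, e), .inl (.so D.y)) := by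
      refine ASo_nb D I r (w := ((I.v1 e, e), .so D.y)) ?_
      show (if D.c 2 = D.c 1 then some ((I.v0, e), ZA.vs 0 (D.c 1))
        else if D.c 2 = D.c 0 then some ((sx I.pn ((I.v0, e), 0)).1,
          ZA.vs (sx I.pn ((I.v0, e), 0)).2 (D.c 0))
        else if (0 : Fin 3) = 0 ∧ I.v0 = I.v0 ∧ D.c 2 = D.c 2 then some ((I.v1 e, e), ZA.so D.y)
        else if (0 : Fin 3) = 0 ∧ I.v0 = I.v0 ∧ D.c 2 = D.c 3 then some ((I.v2 e, e), ZA.so D.y)
        else none) = _
      rw [if_neg (fun h => absurd (D.inj_c h) (by decide)),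
        if_neg (fun h => absurd (D.inj_c h) (by decide)), if_pos ⟨rfl, rfl, rfl⟩]
    have n2 : (rA D I r).nb ((I.v0, e), .inl (.st 0)) (D.c 3) =
        some ((I.v2 e, e), .inl (.so D.y)) := by
      refine ASo_nb D I r (w := ((I.v2 e, e), .so D.y)) ?_
      show (if D.c 3 = D.c 1 then some ((I.v0, e), ZA.vs 0 (D.c 1))
        else if D.c 3 = D.c 0 then some ((sx I.pn ((I.v0, e), 0)).1,
          ZA.vs (sx I.pn ((I.v0, e), 0)).2 (D.c 0))
        else if (0 : Fin 3) = 0 ∧ I.v0 = I.v0 ∧ D.c 3 = D.c 2 then some ((I.v1 e, e), ZA.so D.y)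
        else if (0 : Fin 3) = 0 ∧ I.v0 = I.v0 ∧ D.c 3 = D.c 3 then some ((I.v2 e, e), ZA.so D.y)
        else none) = _
      rw [if_neg (fun h => absurd (D.inj_c h) (by decide)),
        if_neg (fun h => absurd (D.inj_c h) (by decide)),
        if_neg (fun h => absurd (D.inj_c h.2.2) (by decide)), if_pos ⟨rfl, rfl, rfl⟩]
    have h6 := (hb (I.v0, e) (.st 0)).2.injOn (D.adj_c 2) (D.adj_c 3)
      ((Rg.fv_some n1).trans (h5.trans (Rg.fv_some n2).symm))
    exact absurd (D.inj_c h6) (by decide)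

end Pool.Agent.LHC
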