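import Pool.Agent.LHC.Defs
import Pool.Agent.LHC.CloO
import Pool.Agent.LHC.ADe
import Pool.Agent.LHC.ASo
import Pool.Agent.LHC.ACo

/-!
# Part A: the equivalence

`bij_A`, `sound_A`, `complete_A`, and an equivalence between `N(X)` and `Fin (N(X)).ncard` (`Finite.equivFin`, `Set.Nat.card_coe_set_eq`).
-/

namespace Pool.Agent.LHC

open Pool.Agent.LIH Pool.Agent.LHA Pool.Agent.LHB

theorem gA_iff {V : Type} [Finite V] {H : SimpleGraph V} (he : EC H 3) {N : ℕ}
    (hN : DeepN H N) (D : DA H) (I : IA) [Finite I.VV] [Finite I.EE] (hI : Ctr I.nx) {r : ℕ}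
    (hr : N ≤ r + 1) (h4 : 4 ≤ (H.neighborSet D.X).ncard) : (∃ f, LocInj (gA D I r) H f) ↔
      ∃ col : I.VV → Fin (H.neighborSet D.X).ncard, ∀ e, col (I.v1 e) ≠ col (I.v2 e) := by
  have E : H.neighborSet D.X ≃ Fin (H.neighborSet D.X).ncard :=
    Finite.equivFinOfCardEq (Nat.card_coe_set_eq _)
  constructor
  · rintro ⟨f, hf⟩
    obtain ⟨col, h1, h2⟩ := sound_A he D I (bij_A hN D I hr hf).1 hI
    refine ⟨fun v => E ⟨col v, h1 v⟩, fun e h => h2 e ?_⟩
    have := E.injective h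
    exact congrArg Subtype.val this
  · rintro ⟨col, h2⟩
    refine complete_A D I r h4 (fun v => (E.symm (col v)).1) (fun v => (E.symm (col v)).2)
      (fun e h => h2 e ?_)
    exact E.symm.injective (Subtype.ext h)

end Pool.Agent.LHC
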