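import Pool.Agent.LHC.Defs
import Pool.Agent.LHA.Perron

/-!
# An invariant Perron vector

Let `q, lam` be as in `LHA.perron`. The type `H ≃g H` is finite (it embeds into `V → V`; `RelIso` is determined by its
function); sum over a `Fintype` instance. Put `q' x = ∑ φ : H ≃g H, q (φ x)`: positive (the identity is a term).
`∑ y, (N x).indicator q' y = ∑ φ, ∑ y, (N x).indicator (fun y => q (φ y)) y = ∑ φ, ∑ y, (N (φ x)).indicator q y`
(reindex `y ↦ φ y`; `y ∈ N x ↔ φ y ∈ N (φ x)`) `= ∑ φ, lam * q (φ x) = lam * q' x`. Invariance: `q' (ψ x) = ∑ φ, q (φ (ψ x))`,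
reindex by the bijection `φ ↦ ψ.trans φ` (`Fintype.sum_equiv` or `Function.Bijective.sum_comp`).
-/

namespace Pool.Agent.LHC

open Pool.Agent.LIH Pool.Agent.LHA Pool.Agent.LHB

theorem perron_inv {V : Type} [Fintype V] {H : SimpleGraph V} (hc : H.Connected) :
    ∃ (q : V → ℝ) (lam : ℝ), (∀ x, 0 < q x) ∧
      (∀ x, ∑ y, (H.neighborSet x).indicator q y = lam * q x) ∧
      ∀ (φ : H ≃g H) (x : V), q (φ x) = q x := by
  classical
  obtain ⟨q, lam, hq, hs⟩ := perron hc
  have hinj : Function.Injective (fun φ : H ≃g H => (φ : V → V)) := by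
    intro φ ψ h
    ext x
    exact congrFun h x
  have : Finite (H ≃g H) := Finite.of_injective _ hinj
  let _ : Fintype (H ≃g H) := Fintype.ofFinite _
  refine ⟨fun x => ∑ φ : H ≃g H, q (φ x), lam, ?_, ?_, ?_⟩
  · intro x
    exact Finset.sum_pos (fun φ _ => hq _) ⟨RelIso.refl _, Finset.mem_univ _⟩
  · intro x
    have h1 : ∀ y, (H.neighborSet x).indicator (fun x => ∑ φ : H ≃g H, q (φ x)) y =
        ∑ φ : H ≃g H, (H.neighborSet x).indicator (fun y => q (φ y)) y := by
      intro y
      by_cases h : y ∈ H.neighborSet x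
      · rw [Set.indicator_of_mem h]
        exact Finset.sum_congr rfl (fun φ _ => (Set.indicator_of_mem h (fun y => q (φ y))).symm)
      · rw [Set.indicator_of_notMem h]
        symm
        exact Finset.sum_eq_zero (fun φ _ => Set.indicator_of_notMem h (fun y => q (φ y)))
    rw [Finset.sum_congr rfl (fun y _ => h1 y), Finset.sum_comm, Finset.mul_sum]
    refine Finset.sum_congr rfl ?_
    intro φ _
    rw [← hs (φ x)]
    have h2 : ∀ y, (H.neighborSet x).indicator (fun y => q (φ y)) y =
        (H.neighborSet (φ x)).indicator q (φ y) := by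
      intro y
      by_cases h : y ∈ H.neighborSet x
      · rw [Set.indicator_of_mem h, Set.indicator_of_mem]
        exact φ.map_rel_iff.2 h
      · rw [Set.indicator_of_notMem h, Set.indicator_of_notMem]
        exact fun h' => h (φ.map_rel_iff.1 h')
    rw [Finset.sum_congr rfl (fun y _ => h2 y)]
    exact φ.toEquiv.sum_comp (fun z => (H.neighborSet (φ x)).indicator q z)
  · intro ψ x
    have hb : Function.Bijective (fun φ : H ≃g H => ψ.trans φ) := by
      constructor
      · intro φ φ' h
        ext y
        have h1 := congrArg (fun g : H ≃g H => g (ψ.symm y)) h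
        simpa using h1
      · intro φ
        refine ⟨ψ.symm.trans φ, ?_⟩
        ext y
        simp
    exact (hb.sum_comp (fun φ : H ≃g H => q (φ x)))

end Pool.Agent.LHC
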