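import Pool.Agent.LHC.Defs
import Pool.Agent.LHC.PerI
import Pool.Agent.LHC.RgB
import Pool.Agent.LHA.Deep

/-!
# Deep vertices are good

The proof of `LHA.deep` (`LHA/Deep.lean`), with the invariant vector `q` of `perron_inv`. `ψ u = q (f u) / q (P.p u)` takes finitely many
values; `rk u` = number of values `< ψ u`; `N = number of values + 2`. Claim: for all `u` with `rk u + 2 ≤ δ u`: `P.Bij H f u`, and
`ψ v = ψ u` for all neighbours `v` of `u`. Induction on `rk u`. As `2 ≤ δ u`, all ports of `u` are used (`full`): let `v y` be the neighbour of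
`u` at the port `y ∈ N(p u)`. The `v y` are different (`inj`) and so are the `f (v y)` (`LocInj`), which are neighbours of `f u`. By `ax` there is `φ` with
`φ y = p (v y)`, so `q (p (v y)) = q y`. So `∑_{y ∈ N(p u)} q (p (v y)) = lam * q (p u)` and
`∑_y ψ (v y) * q (p (v y)) = ∑_y q (f (v y)) ≤ ∑_{z ∼ f u} q z = lam * q (f u)`. No `ψ (v y) < ψ u` (otherwise `rk (v y) < rk u`,
`δ (v y) ≥ δ u - 1 ≥ rk (v y) + 2` by `lip`, and by induction `ψ` is constant around `v y`; `u` is a neighbour of `v y` by `ax`). So equality everywhere: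
`ψ (v y) = ψ u`, and all neighbours of `f u` are values `f (v y) = P.fv f u y`: `Set.BijOn`.
-/

namespace Pool.Agent.LHC

open Pool.Agent.LIH Pool.Agent.LHA Pool.Agent.LHB

theorem DeeC_sum {V : Type} [Fintype V] [DecidableEq V] (H : SimpleGraph V) [DecidableRel H.Adj] (q : V → ℝ)
    (x : V) : ∑ y, (H.neighborSet x).indicator q y = ∑ y ∈ Finset.univ.filter (fun y => H.Adj x y), q y := by
  rw [Finset.sum_filter]
  refine Finset.sum_congr rfl fun y _ => ?_
  by_cases h : H.Adj x y
  · rw [if_pos h, Set.indicator_of_mem (show y ∈ H.neighborSet x from h)]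
  · rw [if_neg h, Set.indicator_of_notMem (show y ∉ H.neighborSet x from h)]

theorem exists_deepN {V : Type} [Finite V] {H : SimpleGraph V} (hc : H.Connected) :
    ∃ N, DeepN H N := by
  classical
  have : Fintype V := Fintype.ofFinite V
  obtain ⟨q, lam, hq, hlam, hinv⟩ := perron_inv hc
  have hlam' : ∀ x, ∑ y ∈ Finset.univ.filter (fun y => H.Adj x y), q y = lam * q x := by
    intro x
    rw [← DeeC_sum, hlam]
  set Vals : Finset ℝ := Finset.univ.image (fun xy : V × V => q xy.1 / q xy.2) with hVals
  refine ⟨Vals.card + 2, by omega, ?_⟩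
  intro W hW P δ hP hD f hf u₀ hu₀
  have : Fintype W := Fintype.ofFinite W
  rw [Rg.locinj_iff hP f] at hf
  obtain ⟨hf1, hf2⟩ := hf
  set ψ : W → ℝ := fun u => q (f u) / q (P.p u) with hψ
  have hψV : ∀ u, ψ u ∈ Vals := by
    intro u
    rw [hVals, Finset.mem_image]
    exact ⟨(f u, P.p u), Finset.mem_univ _, rfl⟩
  set rk : W → ℕ := fun u => (Vals.filter (· < ψ u)).card with hrk
  have hψq : ∀ u, ψ u * q (P.p u) = q (f u) := by
    intro u
    have := hq (P.p u)
    simp only [hψ]
    field_simp
  have key : ∀ k : ℕ, ∀ u, rk u = k → rk u + 2 ≤ δ u → P.Bij H f u ∧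
      ∀ y v, H.Adj (P.p u) y → P.nb u y = some v → ψ v = ψ u := by
    intro k
    induction k using Nat.strong_induction_on with
    | _ k ih =>
      intro u hk hδ
      -- no neighbour has a smaller value
      have hge : ∀ y v, H.Adj (P.p u) y → P.nb u y = some v → ψ u ≤ ψ v := by
        intro y v hy huv
        by_contra hlt
        rw [not_le] at hlt
        have h1 : rk v < rk u := by
          apply Finset.card_lt_card
          refine ⟨?_, ?_⟩
          · intro z hz
            rw [Finset.mem_filter] at hz ⊢
            exact ⟨hz.1, hz.2.trans hlt⟩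
          · intro hsub
            have h2 : ψ v ∈ Vals.filter (· < ψ u) := by
              rw [Finset.mem_filter]
              exact ⟨hψV v, hlt⟩
            have h3 := hsub h2
            rw [Finset.mem_filter] at h3
            exact lt_irrefl _ h3.2
        have h2 := hD.lip u y v hy huv
        obtain ⟨h4, φ, hφ1, hφ2⟩ := hP.ax u y v hy huv
        have h5 : H.Adj (P.p v) (P.rp u y) := by
          have := φ.map_rel_iff.2 hy
          rw [← hφ1, ← hφ2]
          exact this.symm
        have h3 := (ih (rk v) (by omega) v rfl (by omega)).2 (P.rp u y) u h5 h4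
        rw [h3] at hlt
        exact lt_irrefl _ hlt
      have hfull := hD.full u (by omega)
      have hne : Nonempty W := ⟨u⟩
      choose! vv hvv using hfull
      set S : Finset V := Finset.univ.filter (fun y => H.Adj (P.p u) y) with hS
      have hmem : ∀ y, y ∈ S ↔ H.Adj (P.p u) y := by
        intro y
        rw [hS, Finset.mem_filter]
        simp
      -- the sum over p
      have hpq : ∀ y ∈ S, q (P.p (vv y)) = q y := by
        intro y hy
        obtain ⟨-, φ, -, hφ2⟩ := hP.ax u y (vv y) ((hmem y).1 hy) (hvv y ((hmem y).1 hy))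
        rw [← hφ2, hinv]
      have hp : ∑ y ∈ S, q (P.p (vv y)) = lam * q (P.p u) := by
        rw [← hlam' (P.p u)]
        exact Finset.sum_congr rfl hpq
      have hinj : Set.InjOn (fun y => f (vv y)) (S : Set V) := by
        intro y hy y' hy' he
        have hy1 := (hmem y).1 (Finset.mem_coe.1 hy)
        have hy2 := (hmem y').1 (Finset.mem_coe.1 hy')
        exact hf2 u y y' (vv y) (vv y') hy1 hy2 (hvv y hy1) (hvv y' hy2) he
      -- the sum over f
      have hfS : ∑ y ∈ S, q (f (vv y)) = ∑ z ∈ S.image (fun y => f (vv y)), q z := by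
        rw [Finset.sum_image hinj]
      have hsub : S.image (fun y => f (vv y)) ⊆ Finset.univ.filter (fun y => H.Adj (f u) y) := by
        intro z hz
        rw [Finset.mem_image] at hz
        obtain ⟨y, hy, rfl⟩ := hz
        rw [Finset.mem_filter]
        exact ⟨Finset.mem_univ _, hf1 u y (vv y) ((hmem y).1 hy) (hvv y ((hmem y).1 hy))⟩
      have hle : ∑ y ∈ S, q (f (vv y)) ≤ lam * q (f u) := by
        rw [hfS, ← hlam' (f u)]
        exact Finset.sum_le_sum_of_subset_of_nonneg hsub fun y _ _ => (hq y).le
      have hlow : lam * q (f u) ≤ ∑ y ∈ S, q (f (vv y)) := by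
        have h1 : lam * q (f u) = ∑ y ∈ S, ψ u * q (P.p (vv y)) := by
          rw [← Finset.mul_sum, hp, ← hψq u]
          ring
        rw [h1]
        refine Finset.sum_le_sum fun y hy => ?_
        rw [← hψq (vv y)]
        exact mul_le_mul_of_nonneg_right
          (hge y (vv y) ((hmem y).1 hy) (hvv y ((hmem y).1 hy))) (hq _).le
      have heq : ∑ y ∈ S, q (f (vv y)) = lam * q (f u) := le_antisymm hle hlow
      refine ⟨⟨fun y hy => ⟨vv y, hvv y hy⟩, ?_, ?_, ?_⟩, ?_⟩
      · intro y hy
        rw [SimpleGraph.mem_neighborSet] at hy ⊢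
        rw [Rg.fv_some (hvv y hy)]
        exact hf1 u y (vv y) hy (hvv y hy)
      · intro y hy y' hy' he
        rw [SimpleGraph.mem_neighborSet] at hy hy'
        rw [Rg.fv_some (hvv y hy), Rg.fv_some (hvv y' hy')] at he
        exact hf2 u y y' (vv y) (vv y') hy hy' (hvv y hy) (hvv y' hy') he
      · intro z hz
        rw [SimpleGraph.mem_neighborSet] at hz
        by_contra hn
        have h1 : z ∉ S.image (fun y => f (vv y)) := by
          intro hz'
          rw [Finset.mem_image] at hz'
          obtain ⟨y, hy, hyz⟩ := hz'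
          apply hn
          refine ⟨y, (hmem y).1 hy, ?_⟩
          rw [Rg.fv_some (hvv y ((hmem y).1 hy))]
          exact hyz
        have h2 : ∑ y ∈ S.image (fun y => f (vv y)), q y <
            ∑ y ∈ Finset.univ.filter (fun y => H.Adj (f u) y), q y := by
          refine Finset.sum_lt_sum_of_subset hsub (i := z) ?_ h1 (hq z) fun y _ _ => (hq y).le
          rw [Finset.mem_filter]
          exact ⟨Finset.mem_univ _, hz⟩
        rw [← hfS, hlam' (f u), heq] at h2
        exact lt_irrefl _ h2
      · intro y v hy hv
        have hvy : v = vv y := by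
          have h := hvv y hy
          rw [hv] at h
          exact Option.some.inj h
        have h1 : ∑ y ∈ S, (ψ (vv y) - ψ u) * q (P.p (vv y)) = 0 := by
          have e : ∀ y ∈ S, (ψ (vv y) - ψ u) * q (P.p (vv y)) =
              q (f (vv y)) - ψ u * q (P.p (vv y)) := by
            intro y _
            rw [sub_mul, hψq (vv y)]
          rw [Finset.sum_congr rfl e, Finset.sum_sub_distrib, heq, ← Finset.mul_sum, hp, ← hψq u]
          ring
        rw [Finset.sum_eq_zero_iff_of_nonneg] at h1
        · have h2 := h1 y ((hmem y).2 hy)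
          rcases mul_eq_zero.1 h2 with h3 | h3
          · rw [hvy]
            linarith
          · exact absurd h3 (hq _).ne'
        · intro y hy
          exact mul_nonneg (sub_nonneg.2 (hge y (vv y) ((hmem y).1 hy) (hvv y ((hmem y).1 hy))))
            (hq _).le
  have hrk0 : rk u₀ ≤ Vals.card := Finset.card_le_card (Finset.filter_subset _ _)
  exact (key _ u₀ rfl (by omega)).1

end Pool.Agent.LHC
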