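import Pool.Agent.LHC.Defs
import Pool.Agent.LIH.Dfn
import Pool.Agent.LIH.DfnNet
import Pool.Agent.LIH.Emit
import Pool.Agent.LIH.Hard
import Pool.Agent.LIH.Grid

/-!
# The reduction given by a definable family of graphs
-/

namespace Pool.Agent.LHC

open Pool.Agent.LIH Pool.Agent.LHA Pool.Agent.LHB

/-- locally injective homomorphisms of an image under a bijection -/
theorem PrtC_comap {V A B : Type} {H : SimpleGraph V} (E : A ≃ B) (G : SimpleGraph A) :
    (∃ f, LocInj (G.comap E.symm) H f) ↔ ∃ f, LocInj G H f := by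
  constructor
  · rintro ⟨f, hf1, hf2⟩
    refine ⟨fun v => f (E v), ?_, ?_⟩
    · intro u v huv
      apply hf1
      rw [SimpleGraph.comap_adj, Equiv.symm_apply_apply, Equiv.symm_apply_apply]
      exact huv
    · intro v a ha b hb hab
      have := @hf2 (E v) (E a)
        (by
          rw [SimpleGraph.mem_neighborSet, SimpleGraph.comap_adj, Equiv.symm_apply_apply,
            Equiv.symm_apply_apply]
          exact ha) (E b)
        (by
          rw [SimpleGraph.mem_neighborSet, SimpleGraph.comap_adj, Equiv.symm_apply_apply,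
            Equiv.symm_apply_apply]
          exact hb) hab
      exact E.injective this
  · rintro ⟨f, hf1, hf2⟩
    refine ⟨fun v => f (E.symm v), ?_, ?_⟩
    · intro u v huv
      exact hf1 _ _ huv
    · intro v a ha b hb hab
      have := @hf2 (E.symm v) (E.symm a) ha (E.symm b) hb hab
      exact E.symm.injective this

open Polynomial in
open NPC in
theorem reduces_cells {V Z : Type} [Finite V] [Finite Z] {H : SimpleGraph V}
    {L : Set (List Bool)} (Kp : Polynomial ℕ) (adj : List Bool → ℕ → Z → Z → ℕ → ℕ → Prop)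
    (hdef : ∀ (s t : Z) (k : ℕ) (A B : CT k), DefT k A → DefT k B →
      DefF k (fun y n0 w => adj y n0 s t (A y n0 w) (B y n0 w)))
    (h : ∀ z : List Bool, ∃ (κ : Type) (e : κ ≃ Fin (Kp.eval (z.length + 1)))
      (G : SimpleGraph (κ × Z)),
      (∀ k l s t, G.Adj (k, s) (l, t) ↔ adj (prep z) (z.length + 1) s t (e k).1 (e l).1) ∧
      (z ∈ L ↔ ∃ f, LocInj G H f)) : Reduces L (LIHOM H) := by
  classical
  obtain ⟨M, hM⟩ : ∃ M, M = Nat.card Z := ⟨_, rfl⟩
  have num : Z ≃ Fin M := hM ▸ Finite.equivFin Z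
  have hdM : DefF 2 (fun y n0 w => ∃ s t : Z, ∃ a < Kp.eval n0, ∃ b < Kp.eval n0,
      w 0 = (num s).1 + M * a ∧ w 1 = (num t).1 + M * b ∧ adj y n0 s t a b) := by
    refine DefF.exF (fun s => DefF.exF (fun t => ?_))
    have hk : DefT 4 (fun _ _ w => (Fin.init w : Fin 3 → ℕ) (Fin.last 2)) := DefT.last.init
    have hl : DefT 4 (fun _ _ w => w (Fin.last 3)) := DefT.last
    have h0 : DefT 4 (fun _ _ w => (Fin.init (Fin.init w : Fin 3 → ℕ) : Fin 2 → ℕ) 0) :=
      (DefT.var 0).init.init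
    have h1 : DefT 4 (fun _ _ w => (Fin.init (Fin.init w : Fin 3 → ℕ) : Fin 2 → ℕ) 1) :=
      (DefT.var 1).init.init
    refine DefF.ex (P := fun y n0 w a => ∃ b < Kp.eval n0,
      w 0 = (num s).1 + M * a ∧ w 1 = (num t).1 + M * b ∧ adj y n0 s t a b)
      (DefT.polyLen Kp) ?_
    refine DefF.ex (P := fun y n0 w b =>
      (Fin.init w : Fin 2 → ℕ) 0 = (num s).1 + M * w (Fin.last 2) ∧
      (Fin.init w : Fin 2 → ℕ) 1 = (num t).1 + M * b ∧
        adj y n0 s t (w (Fin.last 2)) b)
      (DefT.polyLen Kp) ?_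
    exact (DefF.eq h0 ((DefT.const _).add ((DefT.const _).mul hk))).and
      ((DefF.eq h1 ((DefT.const _).add ((DefT.const _).mul hl))).and
        (hdef s t 4 _ _ hk hl))
  obtain ⟨e, he⟩ := exists_print (Kp * C M) hdM
  refine ⟨e.fn, polyTime_em e, fun z => ?_⟩
  have hz := h z
  have hez := he z
  generalize z.length + 1 = n0 at hz hez
  obtain ⟨κ, ee, G, hG, hL⟩ := hz
  let E : κ × Z ≃ Fin (Kp.eval n0 * M) := (Equiv.prodCongr ee num).trans finProdFinEquiv
  have hE : ∀ k s, (E (k, s)).1 = (num s).1 + M * (ee k).1 := by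
    intro k s
    simp [E, finProdFinEquiv]
  have hadj : ∀ a b : Fin (Kp.eval n0 * M), (G.comap E.symm).Adj a b ↔
      ∃ s t : Z, ∃ a' < Kp.eval n0, ∃ b' < Kp.eval n0,
        a.1 = (num s).1 + M * a' ∧ b.1 = (num t).1 + M * b' ∧ adj (prep z) n0 s t a' b' := by
    intro a b
    obtain ⟨⟨k, s⟩, rfl⟩ := E.surjective a
    obtain ⟨⟨l, t⟩, rfl⟩ := E.surjective b
    rw [SimpleGraph.comap_adj, Equiv.symm_apply_apply, Equiv.symm_apply_apply, hG]
    constructor
    · intro hh
      exact ⟨s, t, (ee k).1, (ee k).2, (ee l).1, (ee l).2, hE _ _, hE _ _, hh⟩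
    · rintro ⟨s', t', k', hk', l', hl', h1, h2, h4⟩
      have h1' : (E (k, s)).1 = (E (ee.symm ⟨k', hk'⟩, s')).1 := by
        rw [h1, hE, Equiv.apply_symm_apply]
      have h2' : (E (l, t)).1 = (E (ee.symm ⟨l', hl'⟩, t')).1 := by
        rw [h2, hE, Equiv.apply_symm_apply]
      have e1 := E.injective (Fin.ext h1')
      have e2 := E.injective (Fin.ext h2')
      rw [Prod.mk.injEq] at e1 e2
      obtain ⟨rfl, rfl⟩ := e1
      obtain ⟨rfl, rfl⟩ := e2
      rw [Equiv.apply_symm_apply, Equiv.apply_symm_apply]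
      exact h4
  have hMM : (Kp * C M).eval n0 = Kp.eval n0 * M := by
    rw [Polynomial.eval_mul, Polynomial.eval_C]
  have h1 : e.fn z = matrix (G.comap E.symm) := by
    rw [hez, matrix_eq (G.comap E.symm) (fun a b => ∃ s t : Z, ∃ a' < Kp.eval n0,
      ∃ b' < Kp.eval n0, a = (num s).1 + M * a' ∧ b = (num t).1 + M * b' ∧
        adj (prep z) n0 s t a' b') hadj, printed, hMM]
    simp only [Matrix.cons_val_zero, Matrix.cons_val_one]
    rfl
  rw [h1, mem_lihom, PrtC_comap, hL]

end Pool.Agent.LHC
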