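import Pool.Agent.LHC.Defs
import Pool.Agent.LHC.PrtC
import Pool.Agent.LHC.DeeC
import Pool.Agent.LHC.CycB
import Pool.Agent.LHC.AIf
import Pool.Agent.LHC.ACv
import Pool.Agent.LHC.ACs
import Pool.Agent.LHC.AAd
import Pool.Agent.LHC.ADf
import Pool.Agent.LHC.ACd
import Pool.Agent.LHC.FinZ
import Pool.Agent.LHA.SatL
import Pool.Agent.LHA.Sat
import Pool.Agent.LHA.DefLit
import Pool.Agent.LIH.Grid
import Pool.Agent.LIH.Emit
import Pool.Agent.LIH.Hard

/-!
# Part A: the reduction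

Compare `reduces_of_gad` in `LHA/HardG.lean`. `np_sat hL` gives `m, Nv, J, lit`; `exists_deepN hc` gives `r` with `DeepN H r` (use `N = r`, `N ≤ r + 1`). `kk = (N(X)).ncard ≥ 4`, `μ = 1`, `lt y n0 = lit3 1 (Nv.eval n0) (J.eval n0 * m) m (lit y n0)` (`Unif` by `def_lit3`). Polynomials:
`Nn = Nv + 3 * (J * C m) + 1`, `Th = 2 * (J * C m) + 1`, `VP = C kk + 2 * Nn + 3 * Th` (value `cNV kk N Θ`), `EP = VP * C kk`, `Kp = VP * EP`. `P` from `gA_adj D r`. Apply `reduces_cells` with `Z = CZ (ZA V) V r` and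
`adj y n0 s t k l = fmA P (cV1 kk (Nn.eval n0)) (cV2 kk (Nn.eval n0) (lt y n0)) (EP.eval n0) s t k l` (`def_fmA`, `def_cV1`, `def_cV2`; `EP.eval n0 > 0`). For the input `z`, `n0 = |z| + 1`: `I = mkIA (VP.eval n0) (EP.eval n0) (cV1 ..) (cV2 ..) ..` (bounds: `cV1_lt`, `cV2_lt`, `cV_ne`, with `lit3_lt 1`), `κ = Fin NV × Fin NE`, `e = finProdFinEquiv`,
`G = gA D I r`. `z ∈ L` iff `SatOK` iff `TSol (modeOK 1) ..` (`tsol_iff_sat`) iff `CSol kk N Θ lt` (`csol_iff`) iff there is a colouring of `Fin NV` (restrict; extend by an arbitrary colour) iff there is a locally injective homomorphism (`gA_iff`, `I.nx = finRotate _`, `ctr_rot`).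
-/

namespace Pool.Agent.LHC

open Pool.Agent.LIH Pool.Agent.LHA Pool.Agent.LHB

open NPC Polynomial in
/-- the evaluated polynomials -/
theorem AFi_eval (Nv J : Polynomial ℕ) (m c n0 : ℕ) :
    (C c + 2 * (Nv + 3 * (J * C m) + 1) + 3 * (2 * (J * C m) + 1)).eval n0 =
      cNV c (Nv.eval n0 + 3 * (J.eval n0 * m) + 1) (2 * (J.eval n0 * m) + 1) := by
  unfold cNV
  simp only [Polynomial.eval_mul, Polynomial.eval_add, Polynomial.eval_one, Polynomial.eval_C,
    Polynomial.eval_ofNat]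

/-- restriction and extension of colourings -/
theorem AFi_col {NV NE c : ℕ} (hc : 0 < c) {v1 v2 : ℕ → ℕ} (h0 : 0 < NV) (h1 : ∀ e < NE, v1 e < NV)
    (h2 : ∀ e < NE, v2 e < NV) (hne : ∀ e < NE, v1 e ≠ v2 e) :
    (∃ col : ℕ → Fin c, ∀ e < NE, col (v1 e) ≠ col (v2 e)) ↔
      ∃ col : (mkIA NV NE v1 v2 h0 h1 h2 hne).VV → Fin c,
        ∀ e, col ((mkIA NV NE v1 v2 h0 h1 h2 hne).v1 e) ≠ col ((mkIA NV NE v1 v2 h0 h1 h2 hne).v2 e) := by
  constructor
  · rintro ⟨col, h⟩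
    exact ⟨fun w : Fin NV => col w.1, fun e : Fin NE => h e.1 e.2⟩
  · rintro ⟨col, h⟩
    refine ⟨fun w => if hw : w < NV then col (⟨w, hw⟩ : Fin NV) else ⟨0, hc⟩, fun e he => ?_⟩
    have h3 := h (⟨e, he⟩ : Fin NE)
    simp only [dif_pos (h1 e he), dif_pos (h2 e he)]
    exact h3

open NPC in
theorem npc_A {V : Type} [Finite V] {H : SimpleGraph V} (he : EC H 3) (hc : H.Connected)
    (D : DA H) (h4 : 4 ≤ (H.neighborSet D.X).ncard) {L : Set (List Bool)} (hL : L ∈ NP) :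
    Reduces L (LIHOM H) := by
  classical
  obtain ⟨m, Nv, J, lit, hm, hNv, hlt, hsat, hdef⟩ := np_sat hL
  obtain ⟨r, hr⟩ := exists_deepN hc
  obtain ⟨P, hP⟩ := gA_adj D r
  obtain ⟨c, hcc⟩ : ∃ c, c = (H.neighborSet D.X).ncard := ⟨_, rfl⟩
  have hc4 : 4 ≤ c := by rw [hcc]; exact h4
  obtain ⟨NnP, eN⟩ : ∃ NnP : Polynomial ℕ, ∀ n0, NnP.eval n0 = Nv.eval n0 + 3 * (J.eval n0 * m) + 1 := by
    refine ⟨Nv + 3 * (J * Polynomial.C m) + 1, fun n0 => ?_⟩
    simp only [Polynomial.eval_mul, Polynomial.eval_add, Polynomial.eval_one, Polynomial.eval_C,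
      Polynomial.eval_ofNat]
  obtain ⟨VP, eV⟩ : ∃ VP : Polynomial ℕ, ∀ n0,
      VP.eval n0 = cNV c (NnP.eval n0) (2 * (J.eval n0 * m) + 1) := by
    refine ⟨Polynomial.C c + 2 * (Nv + 3 * (J * Polynomial.C m) + 1) +
      3 * (2 * (J * Polynomial.C m) + 1), fun n0 => ?_⟩
    rw [eN]
    exact AFi_eval Nv J m c n0
  obtain ⟨EP, eE⟩ : ∃ EP : Polynomial ℕ, ∀ n0,
      EP.eval n0 = cNV c (NnP.eval n0) (2 * (J.eval n0 * m) + 1) * c := by
    refine ⟨VP * Polynomial.C c, fun n0 => ?_⟩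
    rw [Polynomial.eval_mul, Polynomial.eval_C, eV]
  obtain ⟨lt, hltd⟩ : ∃ lt : List Bool → ℕ → ℕ → ℕ,
      ∀ y n0, lt y n0 = lit3 1 (Nv.eval n0) (J.eval n0 * m) m (lit y n0) := ⟨_, fun _ _ => rfl⟩
  have pV : ∀ n0, 0 < VP.eval n0 := by
    intro n0
    rw [eV]
    unfold cNV
    omega
  have pE : ∀ n0, 0 < EP.eval n0 := by
    intro n0
    rw [eE, ← eV]
    exact Nat.mul_pos (pV n0) (by omega)
  have uL : Unif lt := fun k F G hF hG => by
    refine (def_lit3 1 Nv J hm hdef hF hG).congr fun y n0 w => ?_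
    rw [hltd]
  have u1 : Unif (fun _ n0 e => cV1 c (NnP.eval n0) e) := def_cV1 (by omega) NnP
  have u2 : Unif (fun y n0 e => cV2 c (NnP.eval n0) (lt y n0) e) := def_cV2 (by omega) NnP uL
  refine reduces_cells (Z := CZ (ZA V) V r) (VP * EP)
    (fun y n0 s t k l => fmA P (cV1 c (NnP.eval n0)) (cV2 c (NnP.eval n0) (lt y n0)) (EP.eval n0) s t k l)
    ?_ ?_
  · intro s t k A B hA hB
    exact def_fmA (v1 := fun _ n0 e => cV1 c (NnP.eval n0) e)
      (v2 := fun y n0 e => cV2 c (NnP.eval n0) (lt y n0) e) (NE := fun _ n0 => EP.eval n0)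
      (fun k => DefT.polyLen EP) (fun _ n0 => pE n0) u1 u2 P s t hA hB
  · intro z
    have hltz := hlt z
    have hs := hsat z
    generalize z.length + 1 = n0 at hltz hs ⊢
    have hltN : ∀ o < 3 * (2 * (J.eval n0 * m) + 1), lt (prep z) n0 o < 2 * NnP.eval n0 := by
      rw [eN, hltd]
      exact lit3_lt 1 (Nv.eval n0) (J.eval n0) m hm (lit (prep z) n0) hltz
    have b1 : ∀ e < EP.eval n0, cV1 c (NnP.eval n0) e < VP.eval n0 := by
      intro e hee
      rw [eE] at hee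
      rw [eV]
      exact cV1_lt (by omega) hee
    have b2 : ∀ e < EP.eval n0, cV2 c (NnP.eval n0) (lt (prep z) n0) e < VP.eval n0 := by
      intro e hee
      rw [eE] at hee
      rw [eV]
      exact cV2_lt (by omega) hltN hee
    have b3 : ∀ e < EP.eval n0, cV1 c (NnP.eval n0) e ≠ cV2 c (NnP.eval n0) (lt (prep z) n0) e := by
      intro e hee
      rw [eE] at hee
      exact cV_ne (by omega) hltN hee
    have hK : VP.eval n0 * EP.eval n0 = (VP * EP).eval n0 := by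
      rw [Polynomial.eval_mul]
    refine ⟨Fin (VP.eval n0) × Fin (EP.eval n0), finProdFinEquiv.trans (finCongr hK),
      gA D (mkIA (VP.eval n0) (EP.eval n0) (cV1 c (NnP.eval n0)) (cV2 c (NnP.eval n0) (lt (prep z) n0))
        (pV n0) b1 b2 b3) r, ?_, ?_⟩
    · intro k l s t
      exact hP (VP.eval n0) (EP.eval n0) (cV1 c (NnP.eval n0)) (cV2 c (NnP.eval n0) (lt (prep z) n0))
        (pV n0) b1 b2 b3 k l s t
    · have : Finite (mkIA (VP.eval n0) (EP.eval n0) (cV1 c (NnP.eval n0))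
          (cV2 c (NnP.eval n0) (lt (prep z) n0)) (pV n0) b1 b2 b3).VV :=
        inferInstanceAs (Finite (Fin (VP.eval n0)))
      have : Finite (mkIA (VP.eval n0) (EP.eval n0) (cV1 c (NnP.eval n0))
          (cV2 c (NnP.eval n0) (lt (prep z) n0)) (pV n0) b1 b2 b3).EE :=
        inferInstanceAs (Finite (Fin (EP.eval n0)))
      have hg := gA_iff he hr D (mkIA (VP.eval n0) (EP.eval n0) (cV1 c (NnP.eval n0))
          (cV2 c (NnP.eval n0) (lt (prep z) n0)) (pV n0) b1 b2 b3) (ctr_rot _) (r := r) (Nat.le_succ r) h4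
      rw [← hcc] at hg
      have hq := AFi_col (c := c) (by omega) (pV n0) b1 b2 b3
      have hcs := csol_iff (k := c) (N := NnP.eval n0) (Θ := 2 * (J.eval n0 * m) + 1)
        (lt := lt (prep z) n0) (by omega) hltN
      have hts := tsol_iff_sat 1 (Nv.eval n0) (J.eval n0) m hm (lit (prep z) n0) hltz
      rw [← hltd] at hts
      have hq' : CSol c (NnP.eval n0) (2 * (J.eval n0 * m) + 1) (lt (prep z) n0) ↔
          ∃ col : ℕ → Fin c, ∀ e < EP.eval n0,
            col (cV1 c (NnP.eval n0) e) ≠ col (cV2 c (NnP.eval n0) (lt (prep z) n0) e) := by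
        rw [eE]
        rfl
      exact ((hs.trans hts.symm).trans hcs.symm).trans ((hq'.trans hq).trans hg.symm)

end Pool.Agent.LHC
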