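import Pool.Agent.LHC.Defs

/-!
# The nodes of the trees

`hd = TreeBall_hd (D.a j)`, `R = D.r + 1 ≥ 1`; the walk `l` is a list, its last vertex first. `nd_tail`: for `l = c :: l'`: `TreeBall_ok H a l'`, the length, `getLast?` of `l'` is the one of `l` if `l' ≠ []`. `nd_cons`: `TreeBall_ok H a (z :: l)` is by definition
`TreeBall_ok H a l ∧ H.Adj (hd l) z ∧ (l ≠ [] → z ≠ hd l.tail)`; `getLast?` of `z :: l` is that of `l` if `l ≠ []` and `z` if `l = []`. `nbN_leaf`: first `if`. `nbN_parent`: `LdOk` fails because `z = hd l.tail`; second `if`. `nbN_child`: `LdOk` fails (length `< R`), the second condition fails by `h1`, third `if`.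
`nbN_cases`: if `z = hd l.tail`, `l ≠ []`: parent. Otherwise, if the length is `R` (so `l ≠ []`): `LdOk`. If it is `< R`: child, unless `l = []` and `z ∈ F`; in this case the third condition fails (`getLast? [z] = some z`) and `nbN = none`.
-/

namespace Pool.Agent.LHC

open Pool.Agent.LIH Pool.Agent.LHA Pool.Agent.LHB

theorem nd_tail {V : Type} {H : SimpleGraph V} {a : V} {F : Set V} {R : ℕ} {l : List V}
    (h : NdOk H a F R l) : NdOk H a F R l.tail := by
  cases l with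
  | nil => exact h
  | cons c l' =>
    obtain ⟨h1, h2, h3⟩ := h
    refine ⟨h1.1, ?_, ?_⟩
    · have : (c :: l').length = l'.length + 1 := rfl
      show l'.length ≤ R
      omega
    · intro e he
      have he' : l'.getLast? = some e := he
      refine h3 e ?_
      cases l' with
      | nil => simp at he'
      | cons d l'' => rw [List.getLast?_cons_cons]; exact he'

theorem nd_cons {V : Type} {H : SimpleGraph V} {a : V} {F : Set V} {R : ℕ} {l : List V} {z : V}
    (h : NdOk H a F R l) (hl : l.length < R) (hz : H.Adj (TreeBall_hd a l) z)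
    (h1 : l ≠ [] → z ≠ TreeBall_hd a l.tail) (h2 : l = [] → z ∉ F) : NdOk H a F R (z :: l) := by
  refine ⟨⟨h.1, hz, h1⟩, ?_, ?_⟩
  · show l.length + 1 ≤ R
    omega
  · intro e he
    cases l with
    | nil =>
      have : z = e := by simpa using he
      rw [← this]
      exact h2 rfl
    | cons d l' =>
      rw [List.getLast?_cons_cons] at he
      exact h.2.2 e he

variable {V : Type} {H : SimpleGraph V} {X : V} (D : DB H X) {j : Fin 5} {l : D.N j} {z : V}

theorem nbN_leaf (h : LdOk H (D.a j) (D.F j) (D.r + 1) (l.1, z)) :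
    nbN D j l z = some (.sz ⟨j, ⟨(l.1, z), h⟩⟩ z) := by
  unfold nbN
  rw [dif_pos h]

theorem nbN_parent (hl : l.1 ≠ []) : nbN D j l (TreeBall_hd (D.a j) l.1.tail) =
    some (.nd j ⟨l.1.tail, nd_tail l.2⟩) := by
  unfold nbN
  rw [dif_neg (fun h => h.2.2.2 rfl), dif_pos ⟨hl, rfl, nd_tail l.2⟩]

theorem nbN_child (hl : l.1.length < D.r + 1) (hz : H.Adj (TreeBall_hd (D.a j) l.1) z)
    (h1 : l.1 ≠ [] → z ≠ TreeBall_hd (D.a j) l.1.tail) (h2 : l.1 = [] → z ∉ D.F j) :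
    nbN D j l z = some (.nd j ⟨z :: l.1, nd_cons l.2 hl hz h1 h2⟩) := by
  unfold nbN
  rw [dif_neg (fun h => by have h3 : l.1.length = D.r + 1 := h.2.1; omega),
    dif_neg (fun h => h1 h.1 h.2.1), dif_pos (nd_cons l.2 hl hz h1 h2)]

theorem nbN_cases (hz : H.Adj (TreeBall_hd (D.a j) l.1) z) :
    (∃ h : LdOk H (D.a j) (D.F j) (D.r + 1) (l.1, z),
      nbN D j l z = some (.sz ⟨j, ⟨(l.1, z), h⟩⟩ z)) ∨
    (l.1 ≠ [] ∧ z = TreeBall_hd (D.a j) l.1.tail ∧
      nbN D j l z = some (.nd j ⟨l.1.tail, nd_tail l.2⟩)) ∨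
    (l.1.length < D.r + 1 ∧ (l.1 ≠ [] → z ≠ TreeBall_hd (D.a j) l.1.tail) ∧
      (l.1 = [] → z ∉ D.F j) ∧ ∃ h, nbN D j l z = some (.nd j ⟨z :: l.1, h⟩)) ∨
    (l.1 = [] ∧ z ∈ D.F j ∧ nbN D j l z = none) := by
  by_cases hp : l.1 ≠ [] ∧ z = TreeBall_hd (D.a j) l.1.tail
  · obtain ⟨hp1, rfl⟩ := hp
    exact Or.inr (Or.inl ⟨hp1, rfl, nbN_parent D hp1⟩)
  have h1 : l.1 ≠ [] → z ≠ TreeBall_hd (D.a j) l.1.tail := fun h e => hp ⟨h, e⟩
  by_cases hR : l.1.length = D.r + 1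
  · have hne : l.1 ≠ [] := by
      intro h
      rw [h] at hR
      simp at hR
    have h : LdOk H (D.a j) (D.F j) (D.r + 1) (l.1, z) := ⟨l.2, hR, hz, h1 hne⟩
    exact Or.inl ⟨h, nbN_leaf D h⟩
  have hlt : l.1.length < D.r + 1 := lt_of_le_of_ne l.2.2.1 hR
  by_cases hF : l.1 = [] ∧ z ∈ D.F j
  · refine Or.inr (Or.inr (Or.inr ⟨hF.1, hF.2, ?_⟩))
    unfold nbN
    rw [dif_neg (fun h => by have h3 : l.1.length = D.r + 1 := h.2.1; omega), dif_neg (fun h => h.1 hF.1),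
      dif_neg]
    intro h
    refine h.2.2 z ?_ hF.2
    rw [hF.1]
    rfl
  · have h2 : l.1 = [] → z ∉ D.F j := fun h e => hF ⟨h, e⟩
    exact Or.inr (Or.inr (Or.inl ⟨hlt, h1, h2, _, nbN_child D hlt hz h1 h2⟩))

end Pool.Agent.LHC
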