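import Pool.Agent.LHC.Defs
import Pool.Agent.LHC.CycB

/-!
# The cyclic successor

`posG K U (k, u) = idx u + m * k`, `m = Nat.card U`, `idx u < m` the number of `u` (`Finite.equivFin U`; `finProdFinEquiv` maps `(k, i)` to `i + m * k`). `finRotate (K * m)` maps `p` to `p + 1` if `p + 1 < K * m` and to `0` if `p + 1 = K * m` (there is an element, so `K * m > 0`). If `idx u + 1 < m`: `nxG (k, u) = (k, u')` with `idx u' = idx u + 1`. If `idx u + 1 = m`:
`p + 1 = m * (k + 1)`: `(k + 1, u')` with `idx u' = 0` if `k + 1 < K`, and `(0, u')` if `k + 1 = K`. So `N0 u u'`: `idx u' = idx u + 1`; `N1 u u'`: `idx u + 1 = m ∧ idx u' = 0`. `nxG_ctr`: `ctr_rot` transported by `posG`.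
-/

namespace Pool.Agent.LHC

open Pool.Agent.LIH Pool.Agent.LHA Pool.Agent.LHB

theorem BNx_rot (n : ℕ) (p q : Fin n) :
    finRotate n p = q ↔ (q.val = p.val + 1) ∨ (p.val + 1 = n ∧ q.val = 0) := by
  cases n with
  | zero => exact p.elim0
  | succ n =>
    rw [Fin.ext_iff, coe_finRotate]
    have hp := p.2
    have hq := q.2
    split_ifs with h
    · have h1 : p.val = n := by rw [h]; rfl
      omega
    · have h1 : p.val ≠ n := fun e => h (Fin.ext e)
      omega

theorem BNx_arith (m K k l i i' : ℕ) (hk : k < K) (hi : i < m) (hi' : i' < m) :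
    ((i' + m * l = i + m * k + 1) ∨ (i + m * k + 1 = K * m ∧ i' + m * l = 0)) ↔
    (k = l ∧ i' = i + 1) ∨ ((l = k + 1 ∨ (k + 1 = K ∧ l = 0)) ∧ (i + 1 = m ∧ i' = 0)) := by
  constructor
  · rintro (h | ⟨h1, h2⟩)
    · rcases lt_trichotomy l k with hlk | hlk | hlk
      · exfalso
        have h3 := Nat.mul_le_mul_left m (Nat.succ_le_of_lt hlk)
        rw [Nat.mul_succ] at h3
        omega
      · left
        subst hlk
        exact ⟨rfl, by omega⟩
      · right
        rcases Nat.lt_or_ge (k + 1) l with h4 | h4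
        · exfalso
          have h3 := Nat.mul_le_mul_left m (Nat.succ_le_of_lt h4)
          rw [Nat.mul_succ, Nat.mul_succ] at h3
          omega
        · have h5 : l = k + 1 := by omega
          subst h5
          rw [Nat.mul_succ] at h
          exact ⟨Or.inl rfl, by omega⟩
    · right
      have hl : l = 0 := by
        have h3 : m * l = 0 := by omega
        rcases Nat.mul_eq_zero.1 h3 with h4 | h4
        · omega
        · exact h4
      subst hl
      have hi0 : i' = 0 := by omega
      rcases Nat.lt_or_ge (k + 1) K with h4 | h4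
      · exfalso
        have h3 := Nat.mul_le_mul_right m (Nat.succ_le_of_lt h4)
        rw [Nat.succ_mul, Nat.succ_mul, Nat.mul_comm k m] at h3
        omega
      · have h5 : K = k + 1 := by omega
        subst h5
        rw [Nat.succ_mul, Nat.mul_comm k m] at h1
        exact ⟨Or.inr ⟨rfl, rfl⟩, by omega, hi0⟩
  · rintro (⟨h1, h2⟩ | ⟨h1 | ⟨h1, h1'⟩, h2, h3⟩)
    · subst h1
      left
      omega
    · subst h1
      left
      rw [Nat.mul_succ]
      omega
    · subst h1 h1'
      right
      rw [Nat.succ_mul, Nat.mul_comm k m, Nat.mul_zero]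
      omega

theorem nxG_form (U : Type) [Finite U] : ∃ N0 N1 : U → U → Prop, ∀ (K : ℕ) (k l : Fin K)
    (u u' : U), nxG K U (k, u) = (l, u') ↔ (k = l ∧ N0 u u') ∨ (nxt K k.1 l.1 ∧ N1 u u') := by
  refine ⟨fun u u' => (Finite.equivFin U u').val = (Finite.equivFin U u).val + 1,
    fun u u' => (Finite.equivFin U u).val + 1 = Nat.card U ∧ (Finite.equivFin U u').val = 0, ?_⟩
  intro K k l u u'
  have h1 : nxG K U (k, u) = (l, u') ↔
      finRotate (K * Nat.card U) (posG K U (k, u)) = posG K U (l, u') := by
    unfold nxG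
    simp only [Equiv.trans_apply]
    rw [Equiv.symm_apply_eq]
  rw [h1, BNx_rot]
  have h2 : ∀ (k : Fin K) (u : U), (posG K U (k, u)).val =
      (Finite.equivFin U u).val + Nat.card U * k.val := by
    intro k u
    simp [posG]
  rw [h2, h2]
  have := BNx_arith (Nat.card U) K k.val l.val (Finite.equivFin U u).val
    (Finite.equivFin U u').val k.2 (Finite.equivFin U u).2 (Finite.equivFin U u').2
  rw [this, Fin.ext_iff]
  unfold nxt
  exact Iff.rfl

theorem nxG_ctr (K : ℕ) (U : Type) [Finite U] : Ctr (nxG K U) := by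
  intro A g hg i j
  have h1 := ctr_rot (K * Nat.card U) A (fun p => g ((posG K U).symm p)) (by
    intro p
    have h2 := hg ((posG K U).symm p)
    unfold nxG at h2
    simp only [Equiv.trans_apply, Equiv.apply_symm_apply] at h2
    exact h2) (posG K U i) (posG K U j)
  simpa using h1

end Pool.Agent.LHC
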