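import Pool.Agent.LHC.Defs

/-!
# Equivalence of edges

Symmetry, transitivity: take `φ.symm`, `φ.trans ψ`; `De` is symmetric under exchanging both pairs; by cases.
-/

namespace Pool.Agent.LHC

open Pool.Agent.LIH Pool.Agent.LHA Pool.Agent.LHB

variable {V : Type} {H : SimpleGraph V} {a b c d e f : V}

theorem eqe_refl (a b : V) : EqE H a b a b := by
  exact ⟨SimpleGraph.Iso.refl, Or.inl ⟨rfl, rfl⟩⟩

theorem eqe_symm (h : EqE H a b c d) : EqE H c d a b := by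
  obtain ⟨φ, hφ⟩ := h
  refine ⟨φ.symm, ?_⟩
  rcases hφ with ⟨h1, h2⟩ | ⟨h1, h2⟩
  · exact Or.inl ⟨by rw [← h1]; simp, by rw [← h2]; simp⟩
  · exact Or.inr ⟨by rw [← h2]; simp, by rw [← h1]; simp⟩

theorem eqe_trans (h : EqE H a b c d) (h' : EqE H c d e f) : EqE H a b e f := by
  obtain ⟨φ, hφ⟩ := h
  obtain ⟨ψ, hψ⟩ := h'
  refine ⟨φ.trans ψ, ?_⟩
  show De e f (ψ (φ a)) (ψ (φ b))
  rcases hφ with ⟨h1, h2⟩ | ⟨h1, h2⟩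
  · rw [h1, h2]
    exact hψ
  · rw [h1, h2]
    rcases hψ with ⟨h3, h4⟩ | ⟨h3, h4⟩
    · exact Or.inr ⟨h4, h3⟩
    · exact Or.inl ⟨h4, h3⟩

theorem eqe_swap (h : EqE H a b c d) : EqE H b a c d := by
  obtain ⟨φ, hφ⟩ := h
  refine ⟨φ, ?_⟩
  rcases hφ with ⟨h1, h2⟩ | ⟨h1, h2⟩
  · exact Or.inr ⟨h2, h1⟩
  · exact Or.inl ⟨h2, h1⟩

theorem eqe_swap' (h : EqE H a b c d) : EqE H a b d c := by
  obtain ⟨φ, hφ⟩ := h
  refine ⟨φ, ?_⟩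
  rcases hφ with ⟨h1, h2⟩ | ⟨h1, h2⟩
  · exact Or.inr ⟨h1, h2⟩
  · exact Or.inl ⟨h1, h2⟩

end Pool.Agent.LHC
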