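import Pool.Agent.LHC.Defs
import Pool.Agent.LHC.EqB

/-!
# The ports of the units

`ul_adj`: from `LdOk`. `ue_adj`, `ue_ne0`, `ue_ne1`: `D.ue u` is `D.e true` or `D.e false`. `ue_neq`: if `EqE H X (e true) (ul u) (uy u)` then `ue u = e false`, and `EqE H X (e false) (ul u) (uy u)` would give
`EqE H X (e true) X (e false)` (`eqe_symm`, `eqe_trans`), contradicting `D.neq`; otherwise `ue u = e true`. `ue_nde`: if both hold then the edges are the same: `EqE` with the identity.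
-/

namespace Pool.Agent.LHC

open Pool.Agent.LIH Pool.Agent.LHA Pool.Agent.LHB

variable {V : Type} {H : SimpleGraph V} {X : V} (D : DB H X)

theorem ul_adj (u : D.U) : H.Adj (D.ul u) (D.uy u) := u.2.2.2.2.1

theorem ue_adj (u : D.U) : H.Adj X (D.ue u) := by
  unfold DB.ue
  split_ifs
  · exact D.adj_e false
  · exact D.adj_e true

theorem ue_ne0 (u : D.U) : D.ue u ≠ D.c0 := by
  unfold DB.ue
  split_ifs
  · exact D.ne_e0 false
  · exact D.ne_e0 true

theorem ue_ne1 (u : D.U) : D.ue u ≠ D.c1 := by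
  unfold DB.ue
  split_ifs
  · exact D.ne_e1 false
  · exact D.ne_e1 true

theorem ue_neq (u : D.U) : ¬ EqE H X (D.ue u) (D.ul u) (D.uy u) := by
  unfold DB.ue
  split_ifs with h
  · intro h'
    exact D.neq (eqe_trans h (eqe_symm h'))
  · exact h

theorem ue_nde (u : D.U) {x y : V} (h : De X (D.ue u) x y) : ¬ De (D.ul u) (D.uy u) x y := by
  intro h'
  apply ue_neq D u
  refine ⟨RelIso.refl _, ?_⟩
  show De (D.ul u) (D.uy u) X (D.ue u)
  rcases h with ⟨h1, h2⟩ | ⟨h1, h2⟩ <;> rcases h' with ⟨h3, h4⟩ | ⟨h3, h4⟩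
  · exact Or.inl ⟨h1 ▸ h3, h2 ▸ h4⟩
  · exact Or.inr ⟨h1 ▸ h3, h2 ▸ h4⟩
  · exact Or.inr ⟨h2 ▸ h4, h1 ▸ h3⟩
  · exact Or.inl ⟨h2 ▸ h4, h1 ▸ h3⟩

end Pool.Agent.LHC
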