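import Pool.Agent.LHC.Defs
import Pool.Agent.LHC.RgB
import Pool.Agent.LHC.EqB
import Pool.Agent.LHC.BUe
import Pool.Agent.LHC.BNd

/-!
# Part B: the ports are consistent

In `ax` always `φ` = identity (`P.p v` is the port by which `v` was reached, `rp u y = p u`). So the claim is: if `nb u y = some v` (`H.Adj (p u) y`) then `p v = y` and `nb v (p u) = some u`.
`(k, nd l)` at `z` (`nbN_cases`): leaf: `→ sz u z`, `u = ⟨j, (l, z)⟩`, `uy u = z`, `ul u = hd l`; `sz u (uy u)` at the port `ul u`: the first two conditions fail by `ue_nde`, the third one gives `(k, nd u.1 (un u)) = (k, nd j l)`. Parent: `→ nd l.tail`, `p = hd l.tail = z`; for `l = c :: l'` the node `l'` at the port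
`c`: `nbN_child` (length `< R`, `c ≠ hd l'.tail` by `TreeBall_ok`, `c ∉ F` if `l' = []` by `NdOk l`) gives `c :: l' = l`. Child: `→ nd (z :: l)`, at the port `hd l`: `nbN_parent`.
`(k, st u σ)`: at `c1` → `vs u σ c1`, which has at `X` the vertex `(k, st u σ)`; at `c0` → `vs c0` of the successor `q = sx nx ((k, u), σ)`, which has at `X` the vertex `st` of `(sx nx)⁻¹ q`; `σ = 0`, at `ue u` → `sw u (ue u)`, which has at `X` the vertex `(k, st u 0)`.
`(k, vs u σ x)`: `c1` at `X`, `c0` at `X` as before; otherwise `→ vs u σ z`, and `(z, x)` is not exceptional because `(x, z)` is not.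
`(k, sw u x)`: `ue u` at `X` → `st u 0`, which has at `ue u` (`≠ c0, c1`) the vertex `sw u (ue u)`; `X` at `ue u` → `sz u (ue u)`, which has at `X` the vertex `sw u X`; otherwise `→ sw u z`.
`(k, sz u x)`: `ue u` at `X` → `sw u X`, which has at `ue u` the vertex `sz u (ue u)` (`X ≠ ue u`); `uy u` at `ul u` → the leaf `(k, nd u.1 (un u))`, which has at `uy u` the vertex `sz u (uy u)` (`nbN_leaf`); otherwise `→ sz u z` and `(z, x)` is not a dart of `{X, ue u}`, `{ul u, uy u}` because `(x, z)` is not.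
`inj`: from `p v = y`. `irr`: `p v = y ≠ p u`.
-/

namespace Pool.Agent.LHC

open Pool.Agent.LIH Pool.Agent.LHA Pool.Agent.LHB

section BOk

variable {V : Type} {H : SimpleGraph V} {X : V} (D : DB H X) {κ : Type} (nx : Equiv.Perm (κ × D.U))

theorem BOk_nd (k : κ) (j : Fin 5) (l : D.N j) (z : V) :
    (coreB D nx).nb (k, .nd j l) z = (nbN D j l z).map (fun w => (k, w)) := rfl

open Classical in
theorem BOk_st (k : κ) (u : D.U) (σ : Fin 3) (z : V) : (coreB D nx).nb (k, .st u σ) z =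
    if z = D.c1 then some (k, .vs u σ D.c1)
    else if z = D.c0 then
      some ((sx nx ((k, u), σ)).1.1, .vs (sx nx ((k, u), σ)).1.2 (sx nx ((k, u), σ)).2 D.c0)
    else if σ = 0 ∧ z = D.ue u then some (k, .sw u (D.ue u))
    else none := rfl

open Classical in
theorem BOk_vs (k : κ) (u : D.U) (σ : Fin 3) (x z : V) : (coreB D nx).nb (k, .vs u σ x) z =
    if x = X ∧ (z = D.c0 ∨ z = D.c1) then none
    else if x = D.c1 ∧ z = X then some (k, .st u σ)
    else if x = D.c0 ∧ z = X then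
      some (((sx nx).symm ((k, u), σ)).1.1,
        .st ((sx nx).symm ((k, u), σ)).1.2 ((sx nx).symm ((k, u), σ)).2)
    else some (k, .vs u σ z) := rfl

open Classical in
theorem BOk_sw (k : κ) (u : D.U) (x z : V) : (coreB D nx).nb (k, .sw u x) z =
    if x = D.ue u ∧ z = X then some (k, .st u 0)
    else if x = X ∧ z = D.ue u then some (k, .sz u (D.ue u))
    else some (k, .sw u z) := rfl

open Classical in
theorem BOk_sz (k : κ) (u : D.U) (x z : V) : (coreB D nx).nb (k, .sz u x) z =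
    if x = D.ue u ∧ z = X then some (k, .sw u X)
    else if x = X ∧ z = D.ue u then none
    else if x = D.uy u ∧ z = D.ul u then some (k, .nd u.1 (D.un u))
    else if x = D.ul u ∧ z = D.uy u then none
    else some (k, .sz u z) := rfl

theorem BOk_key_nd (k : κ) (j : Fin 5) (l : D.N j) (z : V) (v : κ × ZB D)
    (hz : H.Adj (TreeBall_hd (D.a j) l.1) z) (h : (coreB D nx).nb (k, .nd j l) z = some v) :
    (coreB D nx).p v = z ∧
      (coreB D nx).nb v (TreeBall_hd (D.a j) l.1) = some (k, .nd j l) := by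
  rw [BOk_nd] at h
  rcases nbN_cases D hz with ⟨h1, h2⟩ | ⟨h1, h2, h3⟩ | ⟨h1, h2, h3, h4, h5⟩ | ⟨_, _, h3⟩
  · rw [h2, Option.map_some] at h
    have hv := Option.some.inj h
    subst hv
    refine ⟨rfl, ?_⟩
    rw [BOk_sz]
    set u : D.U := ⟨j, ⟨(l.1, z), h1⟩⟩ with hu
    have hul : D.ul u = TreeBall_hd (D.a j) l.1 := rfl
    have huy : D.uy u = z := rfl
    have hde : De (D.ul u) (D.uy u) (TreeBall_hd (D.a j) l.1) z := Or.inl ⟨rfl, rfl⟩
    rw [if_neg, if_neg, if_pos ⟨huy.symm, hul.symm⟩]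
    · rfl
    · rintro ⟨a1, a2⟩
      exact ue_nde D u (Or.inr ⟨a2, a1⟩) hde
    · rintro ⟨a1, a2⟩
      exact ue_nde D u (Or.inl ⟨a2, a1⟩) hde
  · rw [h3, Option.map_some] at h
    have hv := Option.some.inj h
    subst hv
    refine ⟨h2.symm, ?_⟩
    rw [BOk_nd]
    obtain ⟨l, hl⟩ := l
    cases l with
    | nil => exact absurd rfl h1
    | cons c l' =>
      have hok : TreeBall_ok H (D.a j) l' ∧ H.Adj (TreeBall_hd (D.a j) l') c ∧
          (l' ≠ [] → c ≠ TreeBall_hd (D.a j) l'.tail) := hl.1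
      have hlen : (c :: l').length ≤ D.r + 1 := hl.2.1
      have hch := nbN_child D (l := ⟨l', nd_tail hl⟩) (z := c)
        (by simp only [List.length_cons] at hlen; exact hlen) hok.2.1 hok.2.2 (by
          intro hnil
          have hnil' : l' = [] := hnil
          subst hnil'
          exact hl.2.2 c rfl)
      change (nbN D j ⟨l', nd_tail hl⟩ c).map (fun w => (k, w)) = _
      rw [hch]
      rfl
  · rw [h5, Option.map_some] at h
    have hv := Option.some.inj h
    subst hv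
    refine ⟨rfl, ?_⟩
    rw [BOk_nd]
    have hp := nbN_parent D (l := ⟨z :: l.1, h4⟩) (List.cons_ne_nil _ _)
    change (nbN D j ⟨z :: l.1, h4⟩ (TreeBall_hd (D.a j) (z :: l.1).tail)).map (fun w => (k, w)) = _
    rw [hp]
    rfl
  · rw [h3] at h
    exact absurd h (by simp)

theorem BOk_key_st (k : κ) (u : D.U) (σ : Fin 3) (z : V) (v : κ × ZB D)
    (h : (coreB D nx).nb (k, .st u σ) z = some v) :
    (coreB D nx).p v = z ∧ (coreB D nx).nb v X = some (k, .st u σ) := by
  classical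
  have hc1X : D.c1 ≠ X := D.adj_c1.ne'
  have hc0X : D.c0 ≠ X := D.adj_c0.ne'
  rw [BOk_st] at h
  by_cases a1 : z = D.c1
  · rw [if_pos a1] at h
    have hv := Option.some.inj h
    subst hv
    refine ⟨a1.symm, ?_⟩
    rw [BOk_vs, if_neg (fun b => hc1X b.1), if_pos ⟨rfl, rfl⟩]
  rw [if_neg a1] at h
  by_cases a2 : z = D.c0
  · rw [if_pos a2] at h
    have hv := Option.some.inj h
    subst hv
    refine ⟨a2.symm, ?_⟩
    rw [BOk_vs, if_neg (fun b => hc0X b.1), if_neg (fun b => D.ne_c b.1), if_pos ⟨rfl, rfl⟩]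
    have h3 : (sx nx).symm (((sx nx ((k, u), σ)).1.1, (sx nx ((k, u), σ)).1.2),
        (sx nx ((k, u), σ)).2) = ((k, u), σ) := (sx nx).symm_apply_apply ((k, u), σ)
    rw [h3]
  rw [if_neg a2] at h
  by_cases a3 : σ = 0 ∧ z = D.ue u
  · rw [if_pos a3] at h
    have hv := Option.some.inj h
    subst hv
    refine ⟨a3.2.symm, ?_⟩
    rw [BOk_sw, if_pos ⟨rfl, rfl⟩, a3.1]
  · rw [if_neg a3] at h
    exact absurd h (by simp)

theorem BOk_key_vs (k : κ) (u : D.U) (σ : Fin 3) (x z : V) (v : κ × ZB D)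
    (h : (coreB D nx).nb (k, .vs u σ x) z = some v) :
    (coreB D nx).p v = z ∧ (coreB D nx).nb v x = some (k, .vs u σ x) := by
  classical
  rw [BOk_vs] at h
  by_cases a1 : x = X ∧ (z = D.c0 ∨ z = D.c1)
  · rw [if_pos a1] at h
    exact absurd h (by simp)
  rw [if_neg a1] at h
  by_cases a2 : x = D.c1 ∧ z = X
  · rw [if_pos a2] at h
    have hv := Option.some.inj h
    subst hv
    refine ⟨a2.2.symm, ?_⟩
    rw [BOk_st, if_pos a2.1, a2.1]
  rw [if_neg a2] at h
  by_cases a3 : x = D.c0 ∧ z = X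
  · rw [if_pos a3] at h
    have hv := Option.some.inj h
    subst hv
    refine ⟨a3.2.symm, ?_⟩
    rw [BOk_st, a3.1, if_neg D.ne_c, if_pos rfl]
    have h3 : sx nx ((((sx nx).symm ((k, u), σ)).1.1, ((sx nx).symm ((k, u), σ)).1.2),
        ((sx nx).symm ((k, u), σ)).2) = ((k, u), σ) := (sx nx).apply_symm_apply ((k, u), σ)
    rw [h3]
  rw [if_neg a3] at h
  have hv := Option.some.inj h
  subst hv
  refine ⟨rfl, ?_⟩
  rw [BOk_vs, if_neg, if_neg, if_neg]
  · rintro ⟨b1, b2⟩
    exact a1 ⟨b2, Or.inl b1⟩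
  · rintro ⟨b1, b2⟩
    exact a1 ⟨b2, Or.inr b1⟩
  · rintro ⟨b1, b2 | b2⟩
    · exact a3 ⟨b2, b1⟩
    · exact a2 ⟨b2, b1⟩

theorem BOk_key_sw (k : κ) (u : D.U) (x z : V) (v : κ × ZB D)
    (h : (coreB D nx).nb (k, .sw u x) z = some v) :
    (coreB D nx).p v = z ∧ (coreB D nx).nb v x = some (k, .sw u x) := by
  classical
  rw [BOk_sw] at h
  by_cases a1 : x = D.ue u ∧ z = X
  · rw [if_pos a1] at h
    have hv := Option.some.inj h
    subst hv
    refine ⟨a1.2.symm, ?_⟩
    rw [BOk_st, a1.1, if_neg (ue_ne1 D u), if_neg (ue_ne0 D u), if_pos ⟨rfl, rfl⟩]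
  rw [if_neg a1] at h
  by_cases a2 : x = X ∧ z = D.ue u
  · rw [if_pos a2] at h
    have hv := Option.some.inj h
    subst hv
    refine ⟨a2.2.symm, ?_⟩
    rw [BOk_sz, if_pos ⟨rfl, a2.1⟩, a2.1]
  rw [if_neg a2] at h
  have hv := Option.some.inj h
  subst hv
  refine ⟨rfl, ?_⟩
  rw [BOk_sw, if_neg (fun b => a2 ⟨b.2, b.1⟩), if_neg (fun b => a1 ⟨b.2, b.1⟩)]

theorem BOk_key_sz (k : κ) (u : D.U) (x z : V) (v : κ × ZB D)
    (h : (coreB D nx).nb (k, .sz u x) z = some v) :
    (coreB D nx).p v = z ∧ (coreB D nx).nb v x = some (k, .sz u x) := by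
  classical
  have hne : X ≠ D.ue u := (ue_adj D u).ne
  rw [BOk_sz] at h
  by_cases a1 : x = D.ue u ∧ z = X
  · rw [if_pos a1] at h
    have hv := Option.some.inj h
    subst hv
    refine ⟨a1.2.symm, ?_⟩
    rw [BOk_sw, if_neg (fun b => hne b.1), if_pos ⟨rfl, a1.1⟩, a1.1]
  rw [if_neg a1] at h
  by_cases a2 : x = X ∧ z = D.ue u
  · rw [if_pos a2] at h
    exact absurd h (by simp)
  rw [if_neg a2] at h
  by_cases a3 : x = D.uy u ∧ z = D.ul u
  · rw [if_pos a3] at h
    have hv := Option.some.inj h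
    subst hv
    refine ⟨a3.2.symm, ?_⟩
    rw [BOk_nd, a3.1]
    have h4 : LdOk H (D.a u.1) (D.F u.1) (D.r + 1) ((D.un u).1, D.uy u) := u.2.2
    rw [nbN_leaf D h4]
    rfl
  rw [if_neg a3] at h
  by_cases a4 : x = D.ul u ∧ z = D.uy u
  · rw [if_pos a4] at h
    exact absurd h (by simp)
  rw [if_neg a4] at h
  have hv := Option.some.inj h
  subst hv
  refine ⟨rfl, ?_⟩
  rw [BOk_sz, if_neg (fun b => a2 ⟨b.2, b.1⟩), if_neg (fun b => a1 ⟨b.2, b.1⟩),
    if_neg (fun b => a4 ⟨b.2, b.1⟩), if_neg (fun b => a3 ⟨b.2, b.1⟩)]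

theorem BOk_key (u : κ × ZB D) (z : V) (v : κ × ZB D) (hz : H.Adj ((coreB D nx).p u) z)
    (h : (coreB D nx).nb u z = some v) :
    (coreB D nx).p v = z ∧ (coreB D nx).nb v ((coreB D nx).p u) = some u := by
  obtain ⟨k, u⟩ := u
  cases u with
  | nd j l => exact BOk_key_nd D nx k j l z v hz h
  | st u σ => exact BOk_key_st D nx k u σ z v h
  | vs u σ x => exact BOk_key_vs D nx k u σ x z v h
  | sw u x => exact BOk_key_sw D nx k u x z v h
  | sz u x => exact BOk_key_sz D nx k u x z v h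

theorem BOk_rp (u : κ × ZB D) (z : V) : (coreB D nx).rp u z = (coreB D nx).p u := by
  obtain ⟨k, u⟩ := u
  cases u <;> rfl

end BOk

theorem coreB_ok {V : Type} {H : SimpleGraph V} {X : V} (D : DB H X) {κ : Type}
    (nx : Equiv.Perm (κ × D.U)) : (coreB D nx).Ok H := by
  refine ⟨?_, ?_, ?_⟩
  · intro u y v hy h
    obtain ⟨h1, h2⟩ := BOk_key D nx u y v hy h
    rw [BOk_rp]
    exact ⟨h2, RelIso.refl _, rfl, h1.symm⟩
  · intro u y y' v hy hy' h h'
    exact (BOk_key D nx u y v hy h).1.symm.trans (BOk_key D nx u y' v hy' h').1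
  · intro u y hy h
    have h1 := (BOk_key D nx u y u hy h).1
    rw [h1] at hy
    exact H.loopless.irrefl _ hy

theorem opB_ok {V : Type} {H : SimpleGraph V} {X : V} (D : DB H X) {κ : Type}
    (nx : Equiv.Perm (κ × D.U)) : OpOk H (coreB D nx) (opB D nx) := by
  rintro ⟨k, u⟩ y h
  cases u with
  | nd j l => exact False.elim h
  | st u σ => exact h
  | vs u σ x => exact h
  | sw u x => exact h
  | sz u x => exact h

end Pool.Agent.LHC
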