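import Pool.Agent.LHC.Defs
import Pool.Agent.LHC.RgB
import Pool.Agent.LHC.BNd
import Pool.Agent.LHC.BOk
import Pool.Agent.LHC.BNx
import Pool.Agent.LHC.FinZ

/-!
# Part B: the adjacency relation of the cells in terms of numbers

`Rg.adj_iff` (`coreB_ok`): adjacent means that there is a port with this neighbour. `nb (k, z) y` is `(k, w)` with `w` independent of `k`, except at `st u 2` at `c0` (`→ (nxG (k, u))`, `vs .. 0 c0`) and at `vs u 0 c0` at `X` (`→ st .. 2` of the predecessor); note `sx nx ((k, u), σ) = ((k, u), σ + 1)` for `σ ≠ 2`, `= (nx (k, u), 0)` for `σ = 2`.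
With `nxG_form`: `Q1 z z'`: `∃ u u', N1 u u' ∧ z = st u 2 ∧ z' = vs u' 0 c0`. `Q0 z z'`: (the pairs with `N0 u u'` in both orders) or the edges inside a cell: `∃ y, H.Adj (π z) y ∧ nb' z y = some z'` where `nb'` is the `k`-independent part (e.g. defined as `coreB` for `κ = Unit`, `nx = 1`, without the ports between `st u 2` and
`vs u' 0 c0`), or the explicit list. `opB_const`: `A z y`: by cases: `nd`: `False`; `st u σ`: `H.Adj X y ∧ y ≠ c1 ∧ y ≠ c0 ∧ ¬ (σ = 0 ∧ y = ue u)`; `vs u σ x`: `H.Adj x y ∧ x = X ∧ (y = c0 ∨ y = c1)`; `sw`: `False`; `sz u x`: `H.Adj x y ∧ ((x = X ∧ y = ue u) ∨ (x = ul u ∧ y = uy u))` (the last one is not one of the first conditions by `ue_nde`).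
-/

namespace Pool.Agent.LHC

open Pool.Agent.LIH Pool.Agent.LHA Pool.Agent.LHB

section

variable {V : Type} {H : SimpleGraph V} {X : V} (D : DB H X)

open Classical in
/-- the neighbours inside a cell which do not depend on the permutation -/
noncomputable def BAc_nb : ZB D → V → Option (ZB D)
  | .nd j l, z => nbN D j l z
  | .st u σ, z =>
      if z = D.c1 then some (.vs u σ D.c1)
      else if z = D.c0 then (if σ = 2 then none else some (.vs u (σ + 1) D.c0))
      else if σ = 0 ∧ z = D.ue u then some (.sw u (D.ue u)) else none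
  | .vs u σ x, z =>
      if x = X ∧ (z = D.c0 ∨ z = D.c1) then none
      else if x = D.c1 ∧ z = X then some (.st u σ)
      else if x = D.c0 ∧ z = X then (if σ = 0 then none else some (.st u (σ - 1)))
      else some (.vs u σ z)
  | .sw u x, z =>
      if x = D.ue u ∧ z = X then some (.st u 0)
      else if x = X ∧ z = D.ue u then some (.sz u (D.ue u))
      else some (.sw u z)
  | .sz u x, z =>
      if x = D.ue u ∧ z = X then some (.sw u X)
      else if x = X ∧ z = D.ue u then none
      else if x = D.uy u ∧ z = D.ul u then some (.nd u.1 (D.un u))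
      else if x = D.ul u ∧ z = D.uy u then none
      else some (.sz u z)

theorem BAc_c0X : D.c0 ≠ X := D.adj_c0.ne.symm

theorem BAc_iff {κ : Type} (nx : Equiv.Perm (κ × D.U)) (k l : κ) (z z' : ZB D) (y : V) :
    (coreB D nx).nb (k, z) y = some (l, z') ↔ (k = l ∧ BAc_nb D z y = some z') ∨
      (∃ u u', nx (k, u) = (l, u') ∧ z = .st u 2 ∧ y = D.c0 ∧ z' = .vs u' 0 D.c0) ∨
      (∃ u u', nx (l, u') = (k, u) ∧ z' = .st u' 2 ∧ z = .vs u 0 D.c0 ∧ y = X) := by
  classical
  have hc := D.ne_c
  have hX := BAc_c0X D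
  cases z with
  | nd j t =>
    simp only [coreB, BAc_nb, reduceCtorEq, false_and, and_false, exists_false, or_false,
      Option.map_eq_some_iff, Prod.mk.injEq]
    constructor
    · rintro ⟨w, h1, h2, rfl⟩
      exact ⟨h2, h1⟩
    · rintro ⟨h1, h2⟩
      exact ⟨z', h2, h1, rfl⟩
  | st u σ =>
    have hσ : σ = 0 ∨ σ = 1 ∨ σ = 2 := by omega
    simp only [coreB, BAc_nb, ZB.st.injEq, reduceCtorEq, false_and, and_false, exists_false,
      or_false]
    by_cases h1 : y = D.c1
    · have h1' : ¬ y = D.c0 := fun h => hc (h.symm.trans h1)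
      simp only [if_pos h1, h1', false_and, and_false, exists_false, or_false,
        Option.some.injEq, Prod.mk.injEq]
    · by_cases h2 : y = D.c0
      · subst h2
        simp only [if_neg hc, if_true, true_and]
        rcases hσ with rfl | rfl | rfl
        · have e : sx nx ((k, u), 0) = ((k, u), 1) := rfl
          rw [e]
          simp [eq_comm]
        · have e : sx nx ((k, u), 1) = ((k, u), 2) := rfl
          rw [e]
          simp [eq_comm]
        · have e : sx nx ((k, u), 2) = (nx (k, u), 0) := rfl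
          rw [e]
          simp only [if_true, reduceCtorEq, and_false, false_or, and_true, Option.some.injEq,
            Prod.mk.injEq]
          constructor
          · rintro ⟨h3, rfl⟩
            exact ⟨u, (nx (k, u)).2, Prod.ext h3 rfl, rfl, rfl⟩
          · rintro ⟨u1, u', h3, rfl, rfl⟩
            rw [h3]
            exact ⟨rfl, rfl⟩
      · simp only [h1, h2, if_false, false_and, and_false, exists_false, or_false]
        by_cases h3 : σ = 0 ∧ y = D.ue u
        · simp only [if_pos h3, Option.some.injEq, Prod.mk.injEq]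
        · simp only [if_neg h3, reduceCtorEq, and_false]
  | vs u σ x =>
    have hσ : σ = 0 ∨ σ = 1 ∨ σ = 2 := by omega
    simp only [coreB, BAc_nb, ZB.vs.injEq, reduceCtorEq, false_and, and_false, exists_false,
      false_or]
    by_cases h1 : x = X ∧ (y = D.c0 ∨ y = D.c1)
    · simp only [if_pos h1, reduceCtorEq, and_false, false_or, false_iff]
      rintro ⟨u1, u', _, _, ⟨_, _, h2⟩, _⟩
      exact hX (h2.symm.trans h1.1)
    · by_cases h2 : x = D.c1 ∧ y = X
      · simp only [if_neg h1, if_pos h2, Option.some.injEq, Prod.mk.injEq]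
        constructor
        · intro h
          exact Or.inl h
        · rintro (h | ⟨u1, u', _, _, ⟨_, _, h3⟩, _⟩)
          · exact h
          · exact absurd (h3.symm.trans h2.1) hc
      · by_cases h3 : x = D.c0 ∧ y = X
        · simp only [if_neg h1, if_neg h2, if_pos h3]
          obtain ⟨rfl, rfl⟩ := h3
          rcases hσ with rfl | rfl | rfl
          · have e : (sx nx).symm ((k, u), 0) = (nx.symm (k, u), 2) := rfl
            rw [e]
            simp only [if_true, reduceCtorEq, and_false, false_or, and_true, Option.some.injEq,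
              Prod.mk.injEq]
            constructor
            · rintro ⟨h4, rfl⟩
              refine ⟨u, (nx.symm (k, u)).2, ?_, rfl, rfl⟩
              rw [← h4]
              exact nx.apply_symm_apply (k, u)
            · rintro ⟨u1, u', h4, rfl, rfl⟩
              have h5 : nx.symm (k, u) = (l, u') := by
                rw [← h4, nx.symm_apply_apply]
              rw [h5]
              exact ⟨rfl, rfl⟩
          · have e : (sx nx).symm ((k, u), 1) = ((k, u), 0) := rfl
            rw [e]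
            simp [eq_comm]
          · have e : (sx nx).symm ((k, u), 2) = ((k, u), 1) := rfl
            rw [e]
            simp [eq_comm]
        · simp only [if_neg h1, if_neg h2, if_neg h3, Option.some.injEq, Prod.mk.injEq]
          constructor
          · intro h
            exact Or.inl h
          · rintro (h | ⟨u1, u', _, _, ⟨_, _, h4⟩, h5⟩)
            · exact h
            · exact absurd ⟨h4, h5⟩ h3
  | sw u x =>
    simp only [coreB, BAc_nb, reduceCtorEq, false_and, and_false, exists_false, or_false]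
    split_ifs <;> simp
  | sz u x =>
    simp only [coreB, BAc_nb, reduceCtorEq, false_and, and_false, exists_false, or_false]
    split_ifs <;> simp

/-- the vertex of `H` -/
def BAc_p : ZB D → V
  | .nd j l => TreeBall_hd (D.a j) l.1
  | .st _ _ => X
  | .vs _ _ x => x
  | .sw _ x => x
  | .sz _ x => x

theorem BAc_pe {κ : Type} (nx : Equiv.Perm (κ × D.U)) (k : κ) (z : ZB D) :
    (coreB D nx).p (k, z) = BAc_p D z := by
  cases z <;> rfl

end

theorem coreB_adj {V : Type} [Finite V] {H : SimpleGraph V} {X : V} (D : DB H X) :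
    ∃ Q0 Q1 : ZB D → ZB D → Prop, ∀ (K : ℕ) (k l : Fin K) (z z' : ZB D),
      ((coreB D (nxG K D.U)).G H).Adj (k, z) (l, z') ↔
        (k = l ∧ Q0 z z') ∨ (nxt K k.1 l.1 ∧ Q1 z z') ∨ (nxt K l.1 k.1 ∧ Q1 z' z) := by
  obtain ⟨N0, N1, hN⟩ := nxG_form D.U
  refine ⟨fun z z' => (∃ y, H.Adj (BAc_p D z) y ∧ BAc_nb D z y = some z') ∨
    (∃ u u', N0 u u' ∧ z = .st u 2 ∧ z' = .vs u' 0 D.c0) ∨
    (∃ u u', N0 u u' ∧ z' = .st u 2 ∧ z = .vs u' 0 D.c0),
    fun z z' => ∃ u u', N1 u u' ∧ z = .st u 2 ∧ z' = .vs u' 0 D.c0, ?_⟩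
  intro K k l z z'
  rw [Rg.adj_iff (coreB_ok D _)]
  constructor
  · rintro ⟨y, h1, h2⟩
    rw [BAc_iff] at h2
    rw [BAc_pe] at h1
    rcases h2 with ⟨h2, h3⟩ | ⟨u, u', h2, h3, h4, h5⟩ | ⟨u, u', h2, h3, h4, h5⟩
    · exact Or.inl ⟨h2, Or.inl ⟨y, h1, h3⟩⟩
    · rcases (hN K k l u u').mp h2 with ⟨h6, h7⟩ | ⟨h6, h7⟩
      · exact Or.inl ⟨h6, Or.inr (Or.inl ⟨u, u', h7, h3, h5⟩)⟩
      · exact Or.inr (Or.inl ⟨h6, u, u', h7, h3, h5⟩)
    · rcases (hN K l k u' u).mp h2 with ⟨h6, h7⟩ | ⟨h6, h7⟩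
      · exact Or.inl ⟨h6.symm, Or.inr (Or.inr ⟨u', u, h7, h3, h4⟩)⟩
      · exact Or.inr (Or.inr ⟨h6, u', u, h7, h3, h4⟩)
  · rintro (⟨h1, ⟨y, h2, h3⟩ | ⟨u, u', h2, h3, h4⟩ | ⟨u, u', h2, h3, h4⟩⟩ |
      ⟨h1, u, u', h2, h3, h4⟩ | ⟨h1, u, u', h2, h3, h4⟩)
    · refine ⟨y, ?_, ?_⟩
      · rw [BAc_pe]; exact h2
      · rw [BAc_iff]
        exact Or.inl ⟨h1, h3⟩
    · refine ⟨D.c0, ?_, ?_⟩
      · rw [BAc_pe, h3]; exact D.adj_c0
      · rw [BAc_iff]
        exact Or.inr (Or.inl ⟨u, u', (hN K k l u u').mpr (Or.inl ⟨h1, h2⟩), h3, rfl, h4⟩)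
    · refine ⟨X, ?_, ?_⟩
      · rw [BAc_pe, h4]; exact D.adj_c0.symm
      · rw [BAc_iff]
        exact Or.inr (Or.inr ⟨u', u, (hN K l k u u').mpr (Or.inl ⟨h1.symm, h2⟩), h3, h4, rfl⟩)
    · refine ⟨D.c0, ?_, ?_⟩
      · rw [BAc_pe, h3]; exact D.adj_c0
      · rw [BAc_iff]
        exact Or.inr (Or.inl ⟨u, u', (hN K k l u u').mpr (Or.inr ⟨h1, h2⟩), h3, rfl, h4⟩)
    · refine ⟨X, ?_, ?_⟩
      · rw [BAc_pe, h4]; exact D.adj_c0.symm
      · rw [BAc_iff]
        exact Or.inr (Or.inr ⟨u', u, (hN K l k u u').mpr (Or.inr ⟨h1, h2⟩), h3, h4, rfl⟩)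

theorem opB_const {V : Type} {H : SimpleGraph V} {X : V} (D : DB H X) :
    ∃ A : ZB D → V → Prop, ∀ (κ : Type) (nx : Equiv.Perm (κ × D.U)) (k : κ) (z : ZB D) (y : V),
      opB D nx (k, z) y ↔ A z y := by
  classical
  refine ⟨fun z y => opB D (κ := Unit) (Equiv.refl _) ((), z) y, ?_⟩
  intro κ nx k z y
  cases z with
  | nd j l => exact Iff.rfl
  | st u σ =>
    simp only [opB, coreB]
    split_ifs <;> simp
  | vs u σ x =>
    simp only [opB, coreB]
    split_ifs <;> simp
  | sw u x =>
    simp only [opB, coreB]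
    split_ifs <;> simp
  | sz u x =>
    simp only [opB, coreB]
    split_ifs <;> simp

end Pool.Agent.LHC
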