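import Pool.Agent.LHC.Defs
import Pool.Agent.LHC.CloA
import Pool.Agent.LHC.BOk
import Pool.Agent.LHC.BAc
import Pool.Agent.LHC.FinZ

/-!
# Part B: the adjacency relation of the closed graph

`clo_adj` with `π` (`nd j l ↦ TreeBall_hd (D.a j) l.1`, `st _ _ ↦ X`, `vs _ _ x, sw _ x, sz _ x ↦ x`), `Q0, Q1, A` from `coreB_adj`, `opB_const`. `P a b`: `(∃ z z', a = inl z ∧ b = inl z' ∧ Q0 z z') ∨ ∃ z y, LN H π z y a b ∨ (A z y ∧ LO π z y a b) ∨ (¬ A z y ∧ LC H π z y a b)`; `Q a b`: `∃ z z', a = inl z ∧ b = inl z' ∧ Q1 z z'`. `k = l ↔ k.1 = l.1`.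
-/

namespace Pool.Agent.LHC

open Pool.Agent.LIH Pool.Agent.LHA Pool.Agent.LHB

/-- the value over which a vertex of the cell lies -/
def bAd_pi {V : Type} {H : SimpleGraph V} {X : V} (D : DB H X) : ZB D → V
  | .nd j l => TreeBall_hd (D.a j) l.1
  | .st _ _ => X
  | .vs _ _ x => x
  | .sw _ x => x
  | .sz _ x => x

theorem gB_adj {V : Type} [Finite V] {H : SimpleGraph V} {X : V} (D : DB H X) :
    ∃ P Q : CZ (ZB D) V D.r → CZ (ZB D) V D.r → Prop, ∀ (K : ℕ) (k l : Fin K)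
      (a b : CZ (ZB D) V D.r), (gB D (nxG K D.U)).Adj (k, a) (l, b) ↔
        (k.1 = l.1 ∧ P a b) ∨ (nxt K k.1 l.1 ∧ Q a b) ∨ (nxt K l.1 k.1 ∧ Q b a) := by
  obtain ⟨Q0, Q1, hQ⟩ := coreB_adj D
  obtain ⟨A, hA⟩ := opB_const D
  refine ⟨fun a b => (∃ z z', a = .inl z ∧ b = .inl z' ∧ Q0 z z') ∨
      ∃ z y, LN H (bAd_pi D) z y a b ∨ (A z y ∧ LO (bAd_pi D) z y a b) ∨
        (¬ A z y ∧ LC H (bAd_pi D) z y a b),
    fun a b => ∃ z z', a = .inl z ∧ b = .inl z' ∧ Q1 z z', ?_⟩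
  intro K k l a b
  have hpi : ∀ (k : Fin K) (z : ZB D), (coreB D (nxG K D.U)).p (k, z) = bAd_pi D z := by
    intro k z
    cases z <;> rfl
  have h := clo_adj (r := D.r) (coreB_ok D (nxG K D.U)) (opB_ok D (nxG K D.U)) hpi k l a b
  refine h.trans ?_
  rw [← Fin.ext_iff (a := k) (b := l)]
  constructor
  · rintro (⟨z, z', ha, hb, hadj⟩ | ⟨hk, z, y, hor⟩)
    · rcases (hQ K k l z z').1 hadj with ⟨hk, hq⟩ | ⟨hn, hq⟩ | ⟨hn, hq⟩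
      · exact Or.inl ⟨hk, Or.inl ⟨z, z', ha, hb, hq⟩⟩
      · exact Or.inr (Or.inl ⟨hn, z, z', ha, hb, hq⟩)
      · exact Or.inr (Or.inr ⟨hn, z', z, hb, ha, hq⟩)
    · refine Or.inl ⟨hk, Or.inr ⟨z, y, ?_⟩⟩
      rcases hor with h1 | ⟨ho, h1⟩ | ⟨ho, h1⟩
      · exact Or.inl h1
      · exact Or.inr (Or.inl ⟨(hA _ _ k z y).1 ho, h1⟩)
      · exact Or.inr (Or.inr ⟨fun h2 => ho ((hA _ _ k z y).2 h2), h1⟩)
  · rintro (⟨hk, hP⟩ | ⟨hn, z, z', ha, hb, hq⟩ | ⟨hn, z', z, hb, ha, hq⟩)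
    · rcases hP with ⟨z, z', ha, hb, hq⟩ | ⟨z, y, hor⟩
      · exact Or.inl ⟨z, z', ha, hb, (hQ K k l z z').2 (Or.inl ⟨hk, hq⟩)⟩
      · refine Or.inr ⟨hk, z, y, ?_⟩
        rcases hor with h1 | ⟨ho, h1⟩ | ⟨ho, h1⟩
        · exact Or.inl h1
        · exact Or.inr (Or.inl ⟨(hA _ _ k z y).2 ho, h1⟩)
        · exact Or.inr (Or.inr ⟨fun h2 => ho ((hA _ _ k z y).1 h2), h1⟩)
    · exact Or.inl ⟨z, z', ha, hb, (hQ K k l z z').2 (Or.inr (Or.inl ⟨hn, hq⟩))⟩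
    · exact Or.inl ⟨z, z', ha, hb, (hQ K k l z z').2 (Or.inr (Or.inr ⟨hn, hq⟩))⟩

end Pool.Agent.LHC
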