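import Pool.Agent.LHC.Defs
import Pool.Agent.LHC.RgB
import Pool.Agent.LHC.BNd
import Pool.Agent.LHC.BOk
import Pool.Agent.LHC.CloO
import Pool.Agent.LHC.CloD
import Pool.Agent.LHC.FinZ

/-!
# Part B: depth

`dep_B`: `clo_dep` with `δ = dB D`. `hf`: at a node with `2 ≤ length` no port is unused (`nbN_cases`: `none` only for `l = []`); at the other vertices `opB` contains all unused ports. `hl`: `nd → nd`: the lengths differ by one; `nd` (leaf) `→ sz`: `length = r + 1`; `sz → nd` (leaf): `r + 1 ≤ (r + 1) + 1`; the others have
the same depth. `hr`: the lengths are `≤ r + 1`. `bij_B`: `DeepN` (`rB D nx = (coreB D nx).clo (opB D nx) D.r` satisfies `Ok` by `clo_ok`; its vertices form a finite type by `finZB`).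
-/

namespace Pool.Agent.LHC

open Pool.Agent.LIH Pool.Agent.LHA Pool.Agent.LHB

theorem dep_B {V : Type} {H : SimpleGraph V} {X : V} (D : DB H X) {κ : Type}
    (nx : Equiv.Perm (κ × D.U)) : (rB D nx).Dep H (cdep (dB D)) := by
  classical
  refine clo_dep ?_ ?_ ?_
  · rintro ⟨k, z⟩ h2 y hy hn
    cases z with
    | nd j l =>
      exfalso
      have h2' : 2 ≤ l.1.length := h2
      have hn' : (nbN D j l y).map (fun w => (k, w)) = none := hn
      rw [Option.map_eq_none_iff] at hn'
      rcases nbN_cases D (l := l) (z := y) hy with ⟨_, h⟩ | ⟨_, _, h⟩ | ⟨_, _, _, _, h⟩ | ⟨h, _, _⟩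
      · rw [h] at hn'
        exact absurd hn' (by simp)
      · rw [h] at hn'
        exact absurd hn' (by simp)
      · rw [h] at hn'
        exact absurd hn' (by simp)
      · rw [h] at h2'
        simp at h2'
    | st u σ => exact ⟨hy, hn⟩
    | vs u σ x => exact ⟨hy, hn⟩
    | sw u x => exact ⟨hy, hn⟩
    | sz u x => exact ⟨hy, hn⟩
  · rintro ⟨k, z⟩ y v hy hn
    cases z with
    | nd j l =>
      have hn' : (nbN D j l y).map (fun w => (k, w)) = some v := hn
      rcases nbN_cases D (l := l) (z := y) hy with ⟨_, h⟩ | ⟨_, _, h⟩ | ⟨_, _, _, _, h⟩ | ⟨_, _, h⟩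
      · rw [h] at hn'
        have hv : (k, ZB.sz _ y) = v := Option.some.inj hn'
        rw [← hv]
        show l.1.length ≤ D.r + 1 + 1
        have := l.2.2.1
        omega
      · rw [h] at hn'
        have hv : (k, ZB.nd j _) = v := Option.some.inj hn'
        rw [← hv]
        show l.1.length ≤ l.1.tail.length + 1
        rw [List.length_tail]
        omega
      · rw [h] at hn'
        have hv : (k, ZB.nd j _) = v := Option.some.inj hn'
        rw [← hv]
        show l.1.length ≤ (y :: l.1).length + 1
        rw [List.length_cons]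
        omega
      · rw [h] at hn'
        exact absurd hn' (by simp)
    | st u σ =>
      have hn' : (if y = D.c1 then some (k, ZB.vs u σ D.c1)
        else if y = D.c0 then
          some ((sx nx ((k, u), σ)).1.1, .vs (sx nx ((k, u), σ)).1.2 (sx nx ((k, u), σ)).2 D.c0)
        else if σ = 0 ∧ y = D.ue u then some (k, .sw u (D.ue u))
        else none) = some v := hn
      show D.r + 1 ≤ dB D v + 1
      split_ifs at hn'
      · rw [← Option.some.inj hn']
        exact Nat.le_succ _
      · rw [← Option.some.inj hn']
        exact Nat.le_succ _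
      · rw [← Option.some.inj hn']
        exact Nat.le_succ _
    | vs u σ x =>
      have hn' : (if x = X ∧ (y = D.c0 ∨ y = D.c1) then none
        else if x = D.c1 ∧ y = X then some (k, ZB.st u σ)
        else if x = D.c0 ∧ y = X then
          some (((sx nx).symm ((k, u), σ)).1.1,
            .st ((sx nx).symm ((k, u), σ)).1.2 ((sx nx).symm ((k, u), σ)).2)
        else some (k, .vs u σ y)) = some v := hn
      show D.r + 1 ≤ dB D v + 1
      split_ifs at hn'
      · rw [← Option.some.inj hn']
        exact Nat.le_succ _
      · rw [← Option.some.inj hn']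
        exact Nat.le_succ _
      · rw [← Option.some.inj hn']
        exact Nat.le_succ _
    | sw u x =>
      have hn' : (if x = D.ue u ∧ y = X then some (k, ZB.st u 0)
        else if x = X ∧ y = D.ue u then some (k, .sz u (D.ue u))
        else some (k, .sw u y)) = some v := hn
      show D.r + 1 ≤ dB D v + 1
      split_ifs at hn'
      · rw [← Option.some.inj hn']
        exact Nat.le_succ _
      · rw [← Option.some.inj hn']
        exact Nat.le_succ _
      · rw [← Option.some.inj hn']
        exact Nat.le_succ _
    | sz u x =>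
      have hn' : (if x = D.ue u ∧ y = X then some (k, ZB.sw u X)
        else if x = X ∧ y = D.ue u then none
        else if x = D.uy u ∧ y = D.ul u then some (k, .nd u.1 (D.un u))
        else if x = D.ul u ∧ y = D.uy u then none
        else some (k, .sz u y)) = some v := hn
      show D.r + 1 ≤ dB D v + 1
      split_ifs at hn'
      · rw [← Option.some.inj hn']
        exact Nat.le_succ _
      · rw [← Option.some.inj hn']
        show D.r + 1 ≤ u.2.1.1.length + 1
        have := u.2.2.2.1
        omega
      · rw [← Option.some.inj hn']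
        exact Nat.le_succ _
  · rintro ⟨k, z⟩
    cases z with
    | nd j l =>
      show l.1.length ≤ D.r + 2
      have := l.2.2.1
      omega
    | st u σ => exact Nat.le_succ _
    | vs u σ x => exact Nat.le_succ _
    | sw u x => exact Nat.le_succ _
    | sz u x => exact Nat.le_succ _

theorem bij_B {V : Type} [Finite V] {H : SimpleGraph V} {X : V} (D : DB H X) {κ : Type}
    [Finite κ] (nx : Equiv.Perm (κ × D.U)) {N : ℕ} (hN : DeepN H N) (hr : N ≤ D.r + 1)
    {f : κ × CZ (ZB D) V D.r → V} (hf : LocInj (gB D nx) H f) {v : κ × CZ (ZB D) V D.r}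
    (hv : D.r + 1 ≤ cdep (dB D) v) : (rB D nx).Bij H f v := by
  exact hN.2 (κ × CZ (ZB D) V D.r) inferInstance (rB D nx) (cdep (dB D))
    (clo_ok D.r (coreB_ok D nx) (opB_ok D nx)) (dep_B D nx) f hf v (le_trans hr hv)

end Pool.Agent.LHC
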