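import Pool.Agent.LHC.Defs
import Pool.Agent.LIH.Dfn
import Pool.Agent.LIH.DfnNet
import Pool.Agent.LHA.DefLit
import Pool.Agent.LHA.DefAdj

/-!
# Part B: the glued graph in terms of numbers; definability

`glueS_num`: adjacency in `glueS` is `sAdj` (symmetric because `Gp`, `B` are; irreflexive), by cases on `s, t`. `def_adjS`: by cases on `s, t`; `KK ..` is a term (`DefAdj_KK` in `LHA/DefAdj.lean`); `nxt K k l`: `l = k + 1 ∨ (k + 1 = K ∧ l = 0)`; `atZ`: unfold, conjunctions and disjunctions of constants (`DefF.prop`), `k = l` and `def_lk` (`LHA/DefAdj.lean`);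
`∃ i : Fin 5`: `DefF.exF`. Compare `DefAdj_at`, `DefAdj_adjZ` in `LHA/DefAdj.lean`.
-/

namespace Pool.Agent.LHC

open Pool.Agent.LIH Pool.Agent.LHA Pool.Agent.LHB

theorem glueS_num {K : ℕ} {Z Y : Type} {Gp : SimpleGraph (Fin K × Z)} {P Q : Z → Z → Prop}
    (hG : ∀ (k l : Fin K) (a b : Z), Gp.Adj (k, a) (l, b) ↔
      (k.1 = l.1 ∧ P a b) ∨ (nxt K k.1 l.1 ∧ Q a b) ∨ (nxt K l.1 k.1 ∧ Q b a))
    (ro : Fin 5 → Z) (B : SimpleGraph Y) (ath : ℕ → Y → ℕ → Fin 5 → Prop) (k l : Fin K)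
    (s t : Z ⊕ Y) :
    (glueS Gp ro B (fun (k : Fin K) y (l : Fin K) i => ath k.1 y l.1 i)).Adj (k, s) (l, t) ↔
      adjS P Q ro B ath K k.1 l.1 s t := by
  unfold glueS
  rw [SimpleGraph.fromRel_adj]
  rcases s with x | x <;> rcases t with y | y
  · show ((k, Sum.inl x) : Fin K × (Z ⊕ Y)) ≠ (l, Sum.inl y) ∧
      (Gp.Adj (k, x) (l, y) ∨ Gp.Adj (l, y) (k, x)) ↔
      (k.1 = l.1 ∧ P x y) ∨ (nxt K k.1 l.1 ∧ Q x y) ∨ (nxt K l.1 k.1 ∧ Q y x)
    rw [← hG k l x y]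
    constructor
    · rintro ⟨-, h | h⟩
      · exact h
      · exact h.symm
    · intro h
      refine ⟨fun he => ?_, Or.inl h⟩
      rw [Prod.mk.injEq, Sum.inl.injEq] at he
      rw [he.1, he.2] at h
      exact h.ne rfl
  · show ((k, Sum.inl x) : Fin K × (Z ⊕ Y)) ≠ (l, Sum.inr y) ∧
      ((∃ i, x = ro i ∧ ath l.1 y k.1 i) ∨ ∃ i, x = ro i ∧ ath l.1 y k.1 i) ↔
      ∃ i, x = ro i ∧ ath l.1 y k.1 i
    rw [or_self]
    exact and_iff_right (fun h => by simp at h)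
  · show ((k, Sum.inr x) : Fin K × (Z ⊕ Y)) ≠ (l, Sum.inl y) ∧
      ((∃ i, y = ro i ∧ ath k.1 x l.1 i) ∨ ∃ i, y = ro i ∧ ath k.1 x l.1 i) ↔
      ∃ i, y = ro i ∧ ath k.1 x l.1 i
    rw [or_self]
    exact and_iff_right (fun h => by simp at h)
  · show ((k, Sum.inr x) : Fin K × (Z ⊕ Y)) ≠ (l, Sum.inr y) ∧
      ((k = l ∧ B.Adj x y) ∨ (l = k ∧ B.Adj y x)) ↔ k.1 = l.1 ∧ B.Adj x y
    constructor
    · rintro ⟨-, h | h⟩
      · exact ⟨congrArg Fin.val h.1, h.2⟩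
      · exact ⟨congrArg Fin.val h.1.symm, h.2.symm⟩
    · rintro ⟨h1, h2⟩
      refine ⟨fun he => ?_, Or.inl ⟨Fin.ext h1, h2⟩⟩
      rw [Prod.mk.injEq, Sum.inr.injEq] at he
      rw [he.2] at h2
      exact h2.ne rfl

theorem BDf_nxt {Nv J : Polynomial ℕ} {m k : ℕ} {A B : CT k} (hA : DefT k A) (hB : DefT k B) :
    DefF k (fun y n0 w => nxt (KK (Nv.eval n0) (J.eval n0 * m)) (A y n0 w) (B y n0 w)) := by
  unfold nxt
  exact (DefF.eq hB (hA.add (DefT.const 1))).or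
    ((DefF.eq (hA.add (DefT.const 1)) (DefAdj_KK Nv J m)).and (DefF.eq hB (DefT.const 0)))

theorem BDf_at {V : Type} {H : SimpleGraph V} {T : Typ H} (D : SK T) (μ : Fin 3)
    (Nv J : Polynomial ℕ) {m : ℕ} (hm : 0 < m) {lit : List Bool → ℕ → ℕ → ℕ} (hlit : Unif lit)
    (z : Fin 4 × Fin D.len) (i : Fin 5) {k : ℕ} {A B : CT k} (hA : DefT k A) (hB : DefT k B) :
    DefF k (fun y n0 w => atZ D (lk3 (Nv.eval n0) (J.eval n0 * m)
      (lit3 μ (Nv.eval n0) (J.eval n0 * m) m (lit y n0))) (A y n0 w) z (B y n0 w) i) := by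
  unfold atZ
  exact ((DefF.prop _).and ((DefF.eq hA hB).and (DefF.prop _))).or
    (((DefF.prop _).and ((DefF.eq hA hB).and (DefF.prop _))).or
    (((DefF.prop _).and ((DefF.prop _).and (def_lk μ Nv J hm hlit 0 hA hB))).or
    (((DefF.prop _).and ((DefF.prop _).and (def_lk μ Nv J hm hlit 1 hA hB))).or
    ((DefF.prop _).and ((DefF.prop _).and (def_lk μ Nv J hm hlit 2 hA hB))))))

theorem def_adjS {V : Type} {H : SimpleGraph V} {T : Typ H} (D : SK T) {Z : Type}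
    (P Q : Z → Z → Prop) (ro : Fin 5 → Z) (μ : Fin 3) (Nv J : Polynomial ℕ) {m : ℕ}
    (hm : 0 < m) {lit : List Bool → ℕ → ℕ → ℕ} (hlit : Unif lit)
    (s t : Z ⊕ (Fin 4 × Fin D.len)) {k : ℕ} {A B : CT k} (hA : DefT k A) (hB : DefT k B) :
    DefF k (fun y n0 w => adjS P Q ro D.B (atZ D (lk3 (Nv.eval n0) (J.eval n0 * m)
      (lit3 μ (Nv.eval n0) (J.eval n0 * m) m (lit y n0)))) (KK (Nv.eval n0) (J.eval n0 * m))
      (A y n0 w) (B y n0 w) s t) := by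
  rcases s with x | x <;> rcases t with z | z
  · exact ((DefF.eq hA hB).and (DefF.prop _)).or
      (((BDf_nxt hA hB).and (DefF.prop _)).or ((BDf_nxt hB hA).and (DefF.prop _)))
  · exact DefF.exF (fun i => (DefF.prop _).and (BDf_at D μ Nv J hm hlit z i hB hA))
  · exact DefF.exF (fun i => (DefF.prop _).and (BDf_at D μ Nv J hm hlit x i hA hB))
  · exact (DefF.eq hA hB).and (DefF.prop _)

end Pool.Agent.LHC
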