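import Pool.Agent.LHC.Defs

/-!
# Types given by the stabiliser: basic facts

`styp_X`: `hT.vt` gives `φ` with `φ X = X`, `φ x = X` (or `φ X = x`), so `x = X`. `styp_map`: `hT.vt`, `hT.dt` with the automorphism `φ.symm` or `φ`.
`styp_dt`: `hT.dt`. `styp_vt`: `hT.vt`.
-/

namespace Pool.Agent.LHC

open Pool.Agent.LIH Pool.Agent.LHA Pool.Agent.LHB

variable {V : Type} {H : SimpleGraph V} {X : V} {T : Typ H}

theorem styp_X (hT : STyp H X T) {x : V} (h : T.vt x = T.vt X) : x = X := by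
  obtain ⟨φ, h1, h2⟩ := (hT.vt x X).1 h
  exact φ.injective (by rw [h2, h1])

theorem styp_map (hT : STyp H X T) {φ : H ≃g H} (hφ : φ X = X) (x y : V) :
    T.vt (φ x) = T.vt x ∧ T.dt (φ x) (φ y) = T.dt x y := by
  have h1 : φ.symm X = X := by
    conv_lhs => rw [← hφ]
    exact φ.symm_apply_apply X
  exact ⟨(hT.vt _ _).2 ⟨φ.symm, h1, φ.symm_apply_apply x⟩,
    (hT.dt _ _ _ _).2 ⟨φ.symm, h1, φ.symm_apply_apply x, φ.symm_apply_apply y⟩⟩

theorem styp_dt (hT : STyp H X T) {x y x' y' : V} (h : T.dt x y = T.dt x' y') :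
    ∃ φ : H ≃g H, φ X = X ∧ φ x = x' ∧ φ y = y' := (hT.dt _ _ _ _).1 h

theorem styp_vt (hT : STyp H X T) {x x' : V} (h : T.vt x = T.vt x') :
    ∃ φ : H ≃g H, φ X = X ∧ φ x = x' := (hT.vt _ _).1 h

end Pool.Agent.LHC
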