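import Pool.Agent.LHC.Defs
import Pool.Agent.LHC.RgB
import Pool.Agent.LHC.StB
import Pool.Agent.LHC.PerX
import Pool.Agent.LHC.BUe
import Pool.Agent.LHC.BNd
import Pool.Agent.LHC.BOk
import Pool.Agent.LHC.CloO
import Pool.Agent.LHC.CloC
import Pool.Agent.LHB.TBas
import Pool.Agent.LHB.TCnt

/-!
# Part B: the pins are flexible

Let `x, E` be given, `S` = automorphisms which fix `X`. `Typ.choose` (with `T.vt (a i) = T.vt (x k i)`) gives `σ k i : N(a i) ≃ N(x k i)`, type preserving, `σ c ∉ E k i` for `c ∉ F i`. For every `k, i` and `c ∈ N(a i)`: `styp_dt` for `T.dt (a i) c = T.dt (x k i) (σ c)` gives `γ k i c ∈ S` with `γ (a i) = x k i`, `γ c = σ k i c`.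
For a node `l ≠ []` of the tree `i` in the cell `k` let `γ k l = γ k i c`, `c` the last element of `l` (the first step of the walk, `c ∈ N(a i)`, `c ∉ F i`). It is the same for `l`, `l.tail` (if `≠ []`) and `z :: l`. For a unit `u = ⟨i, (l, z)⟩` (`l ≠ []` since its length is `r + 1 ≥ 1`) let `γ k u = γ k l`.
For all `(k, u)` let `h k u ∈ S` be given by `D.sp` with `g = γ k u`, `g' = γ (nx (k, u))`: `h c0 ≠ γ k u c1`, `h c1 ≠ γ (nx (k, u)) c0`. `g q` for `q = ((k, u), σ)`: `γ k u` for `σ = 0, 1`, `h k u` for `σ = 2`. Then `g q c1 ≠ g (sx nx q) c0` for all `q`.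
`f0`: `nd l ↦ γ k l (hd l)` for `l ≠ []`, the root `↦ x k i`; `st ↦ X`; `vs u σ x ↦ g q x`; `sw u x, sz u x ↦ γ k u x`.
`val`: at a node `l ≠ []`: `z ↦ γ k l z`; at the root: `z ↦ σ k i z` (`= γ k i z z`); at `vs`: `g q z`; at `sw, sz`: `γ k u z`; at `st u σ`: `b z` with a type preserving bijection `b : N(X) ≃ N(X)`, `c1 ↦ g q c1`, `c0 ↦ g (sx nx q) c0`: for `σ = 0` take `b = γ k u` (so also `ue u ↦ γ k u (ue u)`), for `σ = 1, 2`
`ext_typ` (with `x = x' = X`; `T.dt X c1 = T.dt X (g q c1)` by `styp_map`).
Apply `clo_complete` (`P = coreB D nx`, `op = opB D nx`). `h1`: node to node: the same `γ` (root to `[z]`: `val = σ z = γ k i z z = f0 [z]`; `[z]` to the root: `γ k i z (a i) = x k i`); leaf to `sz u z`: `γ k l z`; `sz u (uy u)` to the leaf: `γ k u (ul u)`; `sz, sw, st` (`γ k u X = X`), `vs c1, c0` to `st`: `g q X = X`; `st` to `vs`, `sw`: by the choice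
of `b`. `h2`, `h2'`: automorphisms and bijections. `h3` (open ports are only at `st, vs, sw, sz`): the automorphisms `g q`, `γ k u`; at `st`: `T.dt X z = T.dt X (b z)` and `styp_dt`.
Finally `f (k, ro i) = x k i`, and a neighbour `q` of `(k, ro i)` has the value `val (k, nd i []) y = σ k i y` for a port `y` which is used (`opB` is false at nodes), so `y ∉ F i` (`nbN_cases`) and the value is not in `E k i`.
-/

namespace Pool.Agent.LHC

open Pool.Agent.LIH Pool.Agent.LHA Pool.Agent.LHB

/-- the last element -/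
def BFl_lst {V : Type} (a : V) (l : List V) : V := l.getLast?.getD a

theorem BFl_lst_single {V : Type} (a z : V) : BFl_lst a [z] = z := rfl

theorem BFl_lst_cons {V : Type} (a z : V) {l : List V} (h : l ≠ []) :
    BFl_lst a (z :: l) = BFl_lst a l := by
  unfold BFl_lst
  cases l with
  | nil => exact absurd rfl h
  | cons c l => rw [List.getLast?_cons_cons]

theorem BFl_lst_adj {V : Type} {H : SimpleGraph V} {a : V} :
    ∀ {l : List V}, TreeBall_ok H a l → l ≠ [] → H.Adj a (BFl_lst a l)
  | [], _, h => absurd rfl h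
  | [_], h, _ => h.2.1
  | _ :: (d :: l), h, _ => by
      rw [BFl_lst_cons _ _ (List.cons_ne_nil d l)]
      exact BFl_lst_adj h.1 (List.cons_ne_nil d l)

theorem flex_B {V : Type} [Finite V] {H : SimpleGraph V} {X : V} {T : Typ H}
    (hT : STyp H X T) (D : DB H X) (hF : ∀ j, D.F j ⊆ H.neighborSet (D.a j)) {κ : Type}
    (nx : Equiv.Perm (κ × D.U)) : FlexS T (gB D nx) D.ro D.a D.F := by
  classical
  intro x E hx hE hc
  choose σ hσ1 hσ2 using fun k i => T.choose (hx k i).symm (hE k i) (hF i) (hc k i)
  have hγ : ∀ k i c, ∃ φ : H ≃g H, φ X = X ∧ ∀ h : H.Adj (D.a i) c,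
      φ (D.a i) = x k i ∧ φ c = (σ k i ⟨c, h⟩).1 := by
    intro k i c
    by_cases h : H.Adj (D.a i) c
    · obtain ⟨φ, h1, h2, h3⟩ := styp_dt hT (hσ1 k i ⟨c, h⟩)
      exact ⟨φ, h1, fun _ => ⟨h2, h3⟩⟩
    · exact ⟨SimpleGraph.Iso.refl, rfl, fun h' => absurd h' h⟩
  choose γ hγX hγ1 using hγ
  -- the automorphism of a node
  set ga : κ → Fin 5 → List V → (H ≃g H) := fun k j l => γ k j (BFl_lst (D.a j) l) with hga
  have gaX : ∀ k j l, ga k j l X = X := fun k j l => hγX k j _
  have ga_cons : ∀ k j z l, l ≠ [] → ga k j (z :: l) = ga k j l := by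
    intro k j z l h
    show γ k j _ = γ k j _
    rw [BFl_lst_cons _ _ h]
  -- the automorphism of a unit
  set gu : κ × D.U → (H ≃g H) := fun q => ga q.1 q.2.1 q.2.2.1.1 with hgu
  have guX : ∀ q, gu q X = X := fun q => gaX _ _ _
  choose hh hhX hh0 hh1 using fun q : κ × D.U => D.sp (gu q) (gu (nx q)) (guX _) (guX _)
  set gq : (κ × D.U) × Fin 3 → (H ≃g H) := fun q => if q.2 = 2 then hh q.1 else gu q.1 with hgq
  have gqX : ∀ q, gq q X = X := by
    intro q
    rw [hgq]
    dsimp only
    split_ifs
    · exact hhX _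
    · exact guX _
  have gqne : ∀ q, gq q D.c1 ≠ gq (sx nx q) D.c0 := by
    rintro ⟨u, s⟩
    fin_cases s
    · show gu u D.c1 ≠ gu u D.c0
      exact fun h => D.ne_c ((gu u).injective h).symm
    · show gu u D.c1 ≠ hh u D.c0
      exact (hh0 u).symm
    · show hh u D.c1 ≠ gu (nx u) D.c0
      exact hh1 u
  have fixadj : ∀ φ : H ≃g H, φ X = X → ∀ z, H.Adj X z → H.Adj X (φ z) := by
    intro φ hφ z hz
    have := φ.map_rel_iff.2 hz
    rwa [hφ] at this
  have fixdt : ∀ φ : H ≃g H, φ X = X → ∀ z, T.dt X z = T.dt X (φ z) := by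
    intro φ hφ z
    have := (styp_map hT hφ X z).2
    rw [hφ] at this
    exact this.symm
  have hb : ∀ q : (κ × D.U) × Fin 3, ∃ b : V → V, (∀ z, H.Adj X z → H.Adj X (b z)) ∧
      (∀ z z', H.Adj X z → H.Adj X z' → b z = b z' → z = z') ∧
      (∀ z, H.Adj X z → T.dt X z = T.dt X (b z)) ∧ b D.c1 = gq q D.c1 ∧
      b D.c0 = gq (sx nx q) D.c0 ∧ (q.2 = 0 → b (D.ue q.1.2) = gu q.1 (D.ue q.1.2)) := by
    intro q
    by_cases h0 : q.2 = 0
    · obtain ⟨u, s⟩ := q
      dsimp only at h0
      subst h0
      refine ⟨gu u, fixadj _ (guX u), fun z z' _ _ h => (gu u).injective h,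
        fun z _ => fixdt _ (guX u) z, rfl, rfl, fun _ => rfl⟩
    · obtain ⟨φ, h1, h2, h3⟩ := ext_typ T (x := X) (x' := X) (a := D.c1) (b := D.c0)
        (a' := gq q D.c1) (b' := gq (sx nx q) D.c0) rfl D.adj_c1 D.adj_c0 D.ne_c.symm
        (fixadj _ (gqX q) _ D.adj_c1) (fixadj _ (gqX _) _ D.adj_c0) (gqne q)
        (fixdt _ (gqX q) _) (fixdt _ (gqX _) _)
      refine ⟨fun z => if h : H.Adj X z then (φ ⟨z, h⟩).1 else z, ?_, ?_, ?_, ?_, ?_, ?_⟩
      · intro z hz
        dsimp only
        rw [dif_pos hz]
        exact (φ ⟨z, hz⟩).2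
      · intro z z' hz hz' he
        dsimp only at he
        rw [dif_pos hz, dif_pos hz'] at he
        have := φ.injective (Subtype.ext he)
        exact congrArg Subtype.val this
      · intro z hz
        dsimp only
        rw [dif_pos hz]
        exact h1 ⟨z, hz⟩
      · dsimp only
        rw [dif_pos D.adj_c1]
        exact h2
      · dsimp only
        rw [dif_pos D.adj_c0]
        exact h3
      · intro h
        exact absurd h h0
  choose b hb1 hb2 hb3 hb4 hb5 hb6 using hb
  -- the colouring
  set f0 : κ × ZB D → V := fun q => match q with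
    | (k, .nd j l) => if l.1 = [] then x k j else ga k j l.1 (TreeBall_hd (D.a j) l.1)
    | (_, .st _ _) => X
    | (k, .vs u s z) => gq ((k, u), s) z
    | (k, .sw u z) => gu (k, u) z
    | (k, .sz u z) => gu (k, u) z with hf0
  set val : κ × ZB D → V → V := fun q z => match q with
    | (k, .nd j l) => if l.1 = [] then γ k j z z else ga k j l.1 z
    | (k, .st u s) => b ((k, u), s) z
    | (k, .vs u s _) => gq ((k, u), s) z
    | (k, .sw u _) => gu (k, u) z
    | (k, .sz u _) => gu (k, u) z with hval
  have hnd : ∀ {j : Fin 5} {l : D.N j}, l.1 ≠ [] → H.Adj (D.a j) (BFl_lst (D.a j) l.1) :=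
    fun {j} {l} h => BFl_lst_adj l.2.1 h
  have hne : ∀ {j : Fin 5} {q : List V × V}, LdOk H (D.a j) (D.F j) (D.r + 1) q → q.1 ≠ [] := by
    intro j q h h0
    have := h.2.1
    rw [h0] at this
    simp at this
  have key1 : ∀ u y v, H.Adj ((coreB D nx).p u) y → (coreB D nx).nb u y = some v →
      val u y = f0 v := by
    rintro ⟨k, z⟩ y v hy hv
    cases z with
    | nd j l =>
      have hv' : (nbN D j l y).map (fun w => (k, w)) = some v := hv
      rcases nbN_cases D (j := j) (l := l) (z := y) hy with ⟨h, e⟩ | ⟨h, hy1, e⟩ |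
        ⟨h, h1, h2, h3, e⟩ | ⟨h, h1, e⟩
      · rw [e, Option.map_some, Option.some.injEq] at hv'
        subst hv'
        have h0 : l.1 ≠ [] := hne h
        show (if l.1 = [] then γ k j y y else ga k j l.1 y) = ga k j l.1 y
        rw [if_neg h0]
      · rw [e, Option.map_some, Option.some.injEq] at hv'
        subst hv'
        show (if l.1 = [] then γ k j y y else ga k j l.1 y) =
          if l.1.tail = [] then x k j else ga k j l.1.tail (TreeBall_hd (D.a j) l.1.tail)
        rw [if_neg h]
        have hadj := hnd h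
        by_cases h4 : l.1.tail = []
        · rw [if_pos h4, hy1, h4]
          exact (hγ1 k j _ hadj).1
        · rw [if_neg h4, hy1]
          have h5 : ga k j l.1 = ga k j l.1.tail := by
            obtain ⟨c, l', hcl⟩ := List.exists_cons_of_ne_nil h
            rw [hcl] at h4 ⊢
            exact ga_cons k j c l' h4
          rw [h5]
      · rw [e, Option.map_some, Option.some.injEq] at hv'
        subst hv'
        show (if l.1 = [] then γ k j y y else ga k j l.1 y) =
          if y :: l.1 = [] then x k j else ga k j (y :: l.1) y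
        rw [if_neg (List.cons_ne_nil y l.1)]
        by_cases h4 : l.1 = []
        · rw [if_pos h4, h4]
          rfl
        · rw [if_neg h4, ga_cons k j y l.1 h4]
      · rw [e] at hv'
        simp at hv'
    | st u s =>
      have hv' : (if y = D.c1 then some (k, ZB.vs u s D.c1)
        else if y = D.c0 then
          some ((sx nx ((k, u), s)).1.1, ZB.vs (sx nx ((k, u), s)).1.2 (sx nx ((k, u), s)).2 D.c0)
        else if s = 0 ∧ y = D.ue u then some (k, ZB.sw u (D.ue u))
        else none) = some v := hv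
      split_ifs at hv' with h1 h2 h3
      · rw [Option.some.injEq] at hv'
        subst hv'
        rw [h1]
        exact hb4 _
      · rw [Option.some.injEq] at hv'
        subst hv'
        rw [h2]
        exact hb5 _
      · rw [Option.some.injEq] at hv'
        subst hv'
        rw [h3.2]
        exact hb6 ((k, u), s) h3.1
    | vs u s z =>
      have hv' : (if z = X ∧ (y = D.c0 ∨ y = D.c1) then none
        else if z = D.c1 ∧ y = X then some (k, ZB.st u s)
        else if z = D.c0 ∧ y = X then
          some (((sx nx).symm ((k, u), s)).1.1,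
            ZB.st ((sx nx).symm ((k, u), s)).1.2 ((sx nx).symm ((k, u), s)).2)
        else some (k, ZB.vs u s y)) = some v := hv
      split_ifs at hv' with h1 h2 h3
      · rw [Option.some.injEq] at hv'
        subst hv'
        rw [h2.2]
        exact gqX _
      · rw [Option.some.injEq] at hv'
        subst hv'
        rw [h3.2]
        exact gqX _
      · rw [Option.some.injEq] at hv'
        subst hv'
        rfl
    | sw u z =>
      have hv' : (if z = D.ue u ∧ y = X then some (k, ZB.st u 0)
        else if z = X ∧ y = D.ue u then some (k, ZB.sz u (D.ue u))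
        else some (k, ZB.sw u y)) = some v := hv
      split_ifs at hv' with h1 h2
      · rw [Option.some.injEq] at hv'
        subst hv'
        rw [h1.2]
        exact guX _
      · rw [Option.some.injEq] at hv'
        subst hv'
        rw [h2.2]
      · rw [Option.some.injEq] at hv'
        subst hv'
        rfl
    | sz u z =>
      have hv' : (if z = D.ue u ∧ y = X then some (k, ZB.sw u X)
        else if z = X ∧ y = D.ue u then none
        else if z = D.uy u ∧ y = D.ul u then some (k, ZB.nd u.1 (D.un u))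
        else if z = D.ul u ∧ y = D.uy u then none
        else some (k, ZB.sz u y)) = some v := hv
      split_ifs at hv' with h1 h2 h3 h4
      · rw [Option.some.injEq] at hv'
        subst hv'
        rw [h1.2]
      · rw [Option.some.injEq] at hv'
        subst hv'
        have h0 : u.2.1.1 ≠ [] := hne u.2.2
        show ga k u.1 u.2.1.1 y =
          if u.2.1.1 = [] then x k u.1 else ga k u.1 u.2.1.1 (TreeBall_hd (D.a u.1) u.2.1.1)
        rw [if_neg h0, h3.2]
        rfl
      · rw [Option.some.injEq] at hv'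
        subst hv'
        rfl
  have key2 : ∀ u y, H.Adj ((coreB D nx).p u) y → ((coreB D nx).nb u y = none → opB D nx u y) →
      H.Adj (f0 u) (val u y) := by
    rintro ⟨k, z⟩ y hy -
    cases z with
    | nd j l =>
      have hy' : H.Adj (TreeBall_hd (D.a j) l.1) y := hy
      show H.Adj (if l.1 = [] then x k j else ga k j l.1 (TreeBall_hd (D.a j) l.1))
        (if l.1 = [] then γ k j y y else ga k j l.1 y)
      by_cases h : l.1 = []
      · rw [if_pos h, if_pos h]
        rw [h] at hy'
        have := (γ k j y).map_rel_iff.2 hy'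
        rw [show (γ k j y) (TreeBall_hd (D.a j) []) = x k j from (hγ1 k j y hy').1] at this
        exact this
      · rw [if_neg h, if_neg h]
        exact (ga k j l.1).map_rel_iff.2 hy'
    | st u s => exact hb1 _ _ hy
    | vs u s z => exact (gq ((k, u), s)).map_rel_iff.2 hy
    | sw u z => exact (gu (k, u)).map_rel_iff.2 hy
    | sz u z => exact (gu (k, u)).map_rel_iff.2 hy
  have key2' : ∀ u y y', H.Adj ((coreB D nx).p u) y → H.Adj ((coreB D nx).p u) y' →
      ((coreB D nx).nb u y = none → opB D nx u y) →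
      ((coreB D nx).nb u y' = none → opB D nx u y') → val u y = val u y' → y = y' := by
    rintro ⟨k, z⟩ y y' hy hy' - - he
    cases z with
    | nd j l =>
      have hy1 : H.Adj (TreeBall_hd (D.a j) l.1) y := hy
      have hy2 : H.Adj (TreeBall_hd (D.a j) l.1) y' := hy'
      have he' : (if l.1 = [] then γ k j y y else ga k j l.1 y) =
        (if l.1 = [] then γ k j y' y' else ga k j l.1 y') := he
      by_cases h : l.1 = []
      · rw [if_pos h, if_pos h] at he'
        rw [h] at hy1 hy2
        rw [(hγ1 k j y hy1).2, (hγ1 k j y' hy2).2] at he'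
        have := (σ k j).injective (Subtype.ext he')
        exact congrArg Subtype.val this
      · rw [if_neg h, if_neg h] at he'
        exact (ga k j l.1).injective he'
    | st u s => exact hb2 _ _ _ hy hy' he
    | vs u s z => exact (gq ((k, u), s)).injective he
    | sw u z => exact (gu (k, u)).injective he
    | sz u z => exact (gu (k, u)).injective he
  have key3 : ∀ u y, opB D nx u y → ∃ φ : H ≃g H, φ ((coreB D nx).p u) = f0 u ∧
      φ y = val u y := by
    rintro ⟨k, z⟩ y hop
    cases z with
    | nd j l => exact absurd hop id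
    | st u s =>
      obtain ⟨φ, -, h2, h3⟩ := styp_dt hT (hb3 ((k, u), s) y hop.1)
      exact ⟨φ, h2, h3⟩
    | vs u s z => exact ⟨gq ((k, u), s), rfl, rfl⟩
    | sw u z => exact ⟨gu (k, u), rfl, rfl⟩
    | sz u z => exact ⟨gu (k, u), rfl, rfl⟩
  obtain ⟨f, hf, hf1, hf2⟩ := clo_complete D.r (coreB_ok D nx) (opB_ok D nx) f0 val key1 key2
    key2' key3
  refine ⟨f, hf, ?_⟩
  intro k i
  refine ⟨?_, ?_⟩
  · have := hf1 k (.nd i ⟨[], nd_nil _ _ _ _⟩)
    exact this.trans (if_pos rfl)
  · intro q hq
    obtain ⟨y, hy, hop, he⟩ := hf2 k (.nd i ⟨[], nd_nil _ _ _ _⟩) q hq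
    have hy' : H.Adj (D.a i) y := hy
    have hyF : y ∉ D.F i := by
      rcases nbN_cases D (j := i) (l := ⟨[], nd_nil _ _ _ _⟩) (z := y) hy with ⟨h, e⟩ |
        ⟨h, hy1, e⟩ | ⟨h, h1, h2, h3, e⟩ | ⟨h, h1, e⟩
      · exact absurd rfl (hne h)
      · exact absurd rfl h
      · exact h2 rfl
      · exfalso
        have : (coreB D nx).nb (k, .nd i ⟨[], nd_nil _ _ _ _⟩) y = none := by
          show (nbN D i ⟨[], nd_nil _ _ _ _⟩ y).map (fun w => (k, w)) = none
          rw [e]
          rfl
        exact hop this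
    rw [he]
    show (if ([] : List V) = [] then γ k i y y else ga k i [] y) ∉ E k i
    rw [if_pos rfl, (hγ1 k i y hy').2]
    exact hσ2 k i y hy' hyF

end Pool.Agent.LHC
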