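import Pool.Agent.LHC.Defs
import Pool.Agent.LHC.RgB
import Pool.Agent.LHC.BNd
import Pool.Agent.LHC.BOk
import Pool.Agent.LHC.CloO
import Pool.Agent.LHB.TBas
import Pool.Agent.LHB.TCnt

/-!
# Part B: from the leaves to the roots

Write `hd l = TreeBall_hd (D.a j) l`, `F l = Φ (f (k, inl (nd j l)))`, `G l z = Φ (C.fv f (k, inl (nd j l)) z)`, `C = rB D nx`, `R = r + 1`. Ports of nodes are not open, so the neighbour of the node `l` at the port `z` is given by `nbN`. `LocInj` (with `Rg.locinj_iff`, `clo_ok`, `coreB_ok`): `H.Adj (F l) (G l z)` for the used ports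
`z`, and `z ↦ G l z` is injective on the used ports.
Claim `S l` for all nodes `l ≠ []`: `T.vt (F l) = T.vt (hd l)` and `T.dt (F l) (G l z) = T.dt (hd l) z` for all `z ∈ N(hd l)` (all ports are used). Induction on `R - length`. The parent port is `z0 = hd l.tail`. For `z ≠ z0` (there is one, as the degree is at least 3): if the length is `R` then `(l, z)` is a leaf dart and `hl` applies.
If the length is `< R`: the child `l' = z :: l` (`nbN_child`), `G l z = F l'`; `S l'` for its parent port `hd l`, where the neighbour is `l`: `T.dt (F l') (F l) = T.dt z (hd l)`, so by `Typ.hd` (`rev`) `T.vt (F l) = T.vt (hd l)` and `T.dt (F l) (F l') = T.dt (hd l) z`. The port `z0`: `Typ.star_last` for the injective map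
`N(hd l) → N(F l)`, `z ↦ G l z`.
Root `l = []`, `hd [] = a j`: for `z ∉ F j` the child `[z]` (a node `≠ []`), the same argument. There is a `z ∈ N(a j)`, `z ∉ F j` by `hF`, which gives `T.vt`.
-/

namespace Pool.Agent.LHC

open Pool.Agent.LIH Pool.Agent.LHA Pool.Agent.LHB

theorem BIn_nb {V : Type} {H : SimpleGraph V} {X : V} (D : DB H X) {κ : Type}
    (nx : Equiv.Perm (κ × D.U)) (k : κ) (j : Fin 5) (l : D.N j) (z : V) {w : ZB D}
    (h : nbN D j l z = some w) : (rB D nx).nb (k, .inl (.nd j l)) z = some (k, .inl w) := by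
  classical
  show (if opB D nx (k, .nd j l) z then some (k, Sum.inr (ZB.nd j l, z, Fin.last D.r, z))
        else ((coreB D nx).nb (k, .nd j l) z).map (fun w => (w.1, Sum.inl w.2))) = some (k, .inl w)
  rw [if_neg (show ¬ opB D nx (k, .nd j l) z from fun h => h)]
  show ((nbN D j l z).map (fun w => (k, w))).map (fun w => (w.1, Sum.inl w.2)) = some (k, .inl w)
  rw [h]
  rfl

theorem inward_B {V : Type} [Finite V] {H : SimpleGraph V} {X : V}
    (h3 : ∀ v, 3 ≤ (H.neighborSet v).ncard) {T : Typ H} (D : DB H X)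
    (hF : ∀ j, D.F j ⊂ H.neighborSet (D.a j)) {κ : Type} (nx : Equiv.Perm (κ × D.U))
    {f : κ × CZ (ZB D) V D.r → V} (hf : LocInj (gB D nx) H f) (Φ : H ≃g H)
    (hl : ∀ (k : κ) (j : Fin 5) (l : D.N j) (z : V),
      LdOk H (D.a j) (D.F j) (D.r + 1) (l.1, z) →
      T.vt (Φ (f (k, .inl (.nd j l)))) = T.vt (TreeBall_hd (D.a j) l.1) ∧
      T.dt (Φ (f (k, .inl (.nd j l)))) (Φ ((rB D nx).fv f (k, .inl (.nd j l)) z)) =
        T.dt (TreeBall_hd (D.a j) l.1) z) (k : κ) (j : Fin 5) :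
    T.vt (Φ (f (k, D.ro j))) = T.vt (D.a j) ∧ ∀ z, H.Adj (D.a j) z → z ∉ D.F j →
      (∃ v, (rB D nx).nb (k, D.ro j) z = some v) ∧
      T.dt (Φ (f (k, D.ro j))) (Φ ((rB D nx).fv f (k, D.ro j) z)) = T.dt (D.a j) z := by
  classical
  have hC : (rB D nx).Ok H := clo_ok D.r (coreB_ok D nx) (opB_ok D nx)
  obtain ⟨hA, hI⟩ := (Rg.locinj_iff hC f).1 hf
  -- adjacency of the values
  have hadj : ∀ (l : D.N j) (z : V) (w : ZB D), H.Adj (TreeBall_hd (D.a j) l.1) z →
      nbN D j l z = some w →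
      H.Adj (Φ (f (k, .inl (.nd j l)))) (Φ ((rB D nx).fv f (k, .inl (.nd j l)) z)) := by
    intro l z w hz hw
    have h1 := BIn_nb D nx k j l z hw
    rw [Rg.fv_some h1, Φ.map_adj_iff]
    exact hA _ _ _ hz h1
  -- the step from a child or a leaf
  have hstep : ∀ (l : D.N j) (z : V), H.Adj (TreeBall_hd (D.a j) l.1) z →
      (l.1 ≠ [] → z ≠ TreeBall_hd (D.a j) l.1.tail) → (l.1 = [] → z ∉ D.F j) →
      (∀ (l' : D.N j), l'.1 = z :: l.1 → T.vt (Φ (f (k, .inl (.nd j l')))) = T.vt (TreeBall_hd (D.a j) l'.1) ∧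
        ∀ w, H.Adj (TreeBall_hd (D.a j) l'.1) w →
          T.dt (Φ (f (k, .inl (.nd j l')))) (Φ ((rB D nx).fv f (k, .inl (.nd j l')) w)) =
            T.dt (TreeBall_hd (D.a j) l'.1) w) →
      (∃ w, nbN D j l z = some w) ∧
      T.vt (Φ (f (k, .inl (.nd j l)))) = T.vt (TreeBall_hd (D.a j) l.1) ∧
      T.dt (Φ (f (k, .inl (.nd j l)))) (Φ ((rB D nx).fv f (k, .inl (.nd j l)) z)) =
        T.dt (TreeBall_hd (D.a j) l.1) z := by
    intro l z hz h1 h2 hS
    rcases nbN_cases D hz with ⟨h, hn⟩ | ⟨ha, hb, -⟩ | ⟨ha, -, -, h, hn⟩ | ⟨ha, hb, -⟩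
    · obtain ⟨h3, h4⟩ := hl k j l z h
      exact ⟨⟨_, hn⟩, h3, h4⟩
    · exact absurd hb (h1 ha)
    · obtain ⟨-, h4⟩ := hS ⟨z :: l.1, h⟩ rfl
      have h5 : nbN D j ⟨z :: l.1, h⟩ (TreeBall_hd (D.a j) l.1) = some (.nd j l) :=
        nbN_parent (l := ⟨z :: l.1, h⟩) D (by simp)
      have h6 : H.Adj z (TreeBall_hd (D.a j) l.1) := hz.symm
      have h7 := h4 (TreeBall_hd (D.a j) l.1) h6
      have h8 := hadj ⟨z :: l.1, h⟩ (TreeBall_hd (D.a j) l.1) _ h6 h5
      rw [Rg.fv_some (BIn_nb D nx k j _ _ h5)] at h7 h8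
      obtain ⟨h9, -, h10⟩ := T.hd h8 h6 h7
      refine ⟨⟨_, hn⟩, h9, ?_⟩
      rw [Rg.fv_some (BIn_nb D nx k j _ _ hn)]
      exact h10
    · exact absurd hb (h2 ha)
  -- all nodes except the root
  have hmain : ∀ (m : ℕ) (l : D.N j), l.1 ≠ [] → D.r + 1 - l.1.length = m →
      T.vt (Φ (f (k, .inl (.nd j l)))) = T.vt (TreeBall_hd (D.a j) l.1) ∧
        ∀ w, H.Adj (TreeBall_hd (D.a j) l.1) w →
          T.dt (Φ (f (k, .inl (.nd j l)))) (Φ ((rB D nx).fv f (k, .inl (.nd j l)) w)) =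
            T.dt (TreeBall_hd (D.a j) l.1) w := by
    intro m
    induction m using Nat.strong_induction_on with
    | _ m ih =>
      intro l hne hm
      have hch : ∀ z, H.Adj (TreeBall_hd (D.a j) l.1) z → z ≠ TreeBall_hd (D.a j) l.1.tail →
          (∃ w, nbN D j l z = some w) ∧
          T.vt (Φ (f (k, .inl (.nd j l)))) = T.vt (TreeBall_hd (D.a j) l.1) ∧
          T.dt (Φ (f (k, .inl (.nd j l)))) (Φ ((rB D nx).fv f (k, .inl (.nd j l)) z)) =
            T.dt (TreeBall_hd (D.a j) l.1) z := by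
        intro z hz hz1
        refine hstep l z hz (fun _ => hz1) (fun h => absurd h hne) ?_
        intro l' hl'
        have h1 : l'.1.length = l.1.length + 1 := by rw [hl']; rfl
        have h2 := l'.2.2.1
        refine ih (D.r + 1 - l'.1.length) (by omega) l' (by rw [hl']; simp) rfl
      -- the parent port
      have hz0 : H.Adj (TreeBall_hd (D.a j) l.1) (TreeBall_hd (D.a j) l.1.tail) := by
        have h1 := l.2.1
        revert h1 hne
        generalize l.1 = q
        intro hne h1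
        cases q with
        | nil => exact absurd rfl hne
        | cons c q => exact h1.2.1.symm
      have hex : ∃ z, H.Adj (TreeBall_hd (D.a j) l.1) z ∧ z ≠ TreeBall_hd (D.a j) l.1.tail := by
        by_contra hcon
        push Not at hcon
        have h1 : H.neighborSet (TreeBall_hd (D.a j) l.1) ⊆ {TreeBall_hd (D.a j) l.1.tail} :=
          fun z hz => hcon z hz
        have h2 := Set.ncard_le_ncard h1 (Set.toFinite _)
        rw [Set.ncard_singleton] at h2
        have := h3 (TreeBall_hd (D.a j) l.1)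
        omega
      obtain ⟨z1, hz1, hz2⟩ := hex
      have hvt := (hch z1 hz1 hz2).2.1
      have hall : ∀ z, H.Adj (TreeBall_hd (D.a j) l.1) z → ∃ w, nbN D j l z = some w := by
        intro z hz
        by_cases h : z = TreeBall_hd (D.a j) l.1.tail
        · rw [h]
          exact ⟨_, nbN_parent D hne⟩
        · exact (hch z hz h).1
      refine ⟨hvt, ?_⟩
      intro w hw
      by_cases hw0 : w = TreeBall_hd (D.a j) l.1.tail
      · have h := T.star_last (x := TreeBall_hd (D.a j) l.1) (x' := Φ (f (k, .inl (.nd j l)))) hvt.symm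
          (fun z => ⟨Φ ((rB D nx).fv f (k, .inl (.nd j l)) z.1), by
            obtain ⟨w', hw'⟩ := hall z.1 z.2
            exact hadj l z.1 w' z.2 hw'⟩) ?_ ⟨w, hw⟩ ?_
        · exact h.symm
        · intro z z' hzz
          have h1 : Φ ((rB D nx).fv f (k, .inl (.nd j l)) z.1) =
              Φ ((rB D nx).fv f (k, .inl (.nd j l)) z'.1) := congrArg Subtype.val hzz
          have h2 := Φ.injective h1
          obtain ⟨w1, hw1⟩ := hall z.1 z.2
          obtain ⟨w2, hw2⟩ := hall z'.1 z'.2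
          rw [Rg.fv_some (BIn_nb D nx k j _ _ hw1), Rg.fv_some (BIn_nb D nx k j _ _ hw2)] at h2
          exact Subtype.ext (hI (k, .inl (.nd j l)) _ _ _ _ z.2 z'.2 (BIn_nb D nx k j _ _ hw1)
            (BIn_nb D nx k j _ _ hw2) h2)
        · intro z hz
          have h1 : z.1 ≠ TreeBall_hd (D.a j) l.1.tail := by
            intro h1
            apply hz
            apply Subtype.ext
            rw [h1, ← hw0]
          exact (hch z.1 z.2 h1).2.2.symm
      · exact (hch w hw hw0).2.2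
  -- the root
  have hroot : ∀ z, H.Adj (D.a j) z → z ∉ D.F j →
      (∃ w, nbN D j ⟨[], nd_nil _ _ _ _⟩ z = some w) ∧
      T.vt (Φ (f (k, D.ro j))) = T.vt (D.a j) ∧
      T.dt (Φ (f (k, D.ro j))) (Φ ((rB D nx).fv f (k, D.ro j) z)) = T.dt (D.a j) z := by
    intro z hz hzF
    refine hstep ⟨[], nd_nil _ _ _ _⟩ z hz (fun h => absurd rfl h) (fun _ => hzF) ?_
    intro l' hl'
    exact hmain _ l' (by rw [hl']; simp) rfl
  obtain ⟨z, hz, hzF⟩ := Set.exists_of_ssubset (hF j)
  refine ⟨(hroot z hz hzF).2.1, ?_⟩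
  intro z hz hzF
  obtain ⟨⟨w, hw⟩, -, h5⟩ := hroot z hz hzF
  refine ⟨⟨_, BIn_nb D nx k j _ _ hw⟩, h5⟩

end Pool.Agent.LHC
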