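import Pool.Agent.LHC.Defs
import Pool.Agent.LHC.RgB
import Pool.Agent.LHC.Shs
import Pool.Agent.LHC.CycB
import Pool.Agent.LHC.BOk

/-!
# Part B: soundness of the spine

As `ASp`. `σ' x = (k, inl (vs u σ x))` is a copy of `H` with the broken edges `{X, c0}`, `{X, c1}` (depth `r + 1`, so `Bij` by `hb`; the ports which are not exceptional are not open). `sh_vsh` gives `φ`; the neighbour of `vs u σ c1` at `X` is `(k, inl (st u σ))`, the neighbour of `vs u σ c0` at `X` is the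
vertex `st` of `(sx nx)⁻¹ ((k, u), σ)`: both have the value `φ X`. `spine_B`: `g ((k, u), σ) = f (k, inl (st u σ))` satisfies `g (sx nx q) = g q`; `ctr_sx`.
-/

namespace Pool.Agent.LHC

open Pool.Agent.LIH Pool.Agent.LHA Pool.Agent.LHB

variable {V : Type} [Finite V] {H : SimpleGraph V} {X : V} (he : EC H 3) (D : DB H X)
  {κ : Type} (nx : Equiv.Perm (κ × D.U)) {f : κ × CZ (ZB D) V D.r → V}
  (hb : ∀ v, D.r + 1 ≤ cdep (dB D) v → (rB D nx).Bij H f v)

include he hb

theorem st_B (k : κ) (u : D.U) (σ : Fin 3) : ∃ φ : H ≃g H, φ X = f (k, .inl (.st u σ)) ∧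
    φ X = f (((sx nx).symm ((k, u), σ)).1.1,
      .inl (.st ((sx nx).symm ((k, u), σ)).1.2 ((sx nx).symm ((k, u), σ)).2)) := by
  classical
  have hX0 : X ≠ D.c0 := D.adj_c0.ne
  have hX1 : X ≠ D.c1 := D.adj_c1.ne
  have hcore : ∀ x z, (coreB D nx).nb (k, .vs u σ x) z =
      (if x = X ∧ (z = D.c0 ∨ z = D.c1) then none
        else if x = D.c1 ∧ z = X then some (k, ZB.st u σ)
        else if x = D.c0 ∧ z = X then
          some (((sx nx).symm ((k, u), σ)).1.1,
            .st ((sx nx).symm ((k, u), σ)).1.2 ((sx nx).symm ((k, u), σ)).2)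
        else some (k, .vs u σ z)) := fun x z => rfl
  have hnb : ∀ x z w, (coreB D nx).nb (k, .vs u σ x) z = some w →
      (rB D nx).nb (k, .inl (.vs u σ x)) z = some (w.1, .inl w.2) := by
    intro x z w hw
    have hno : ¬ opB D nx (k, .vs u σ x) z := by
      intro h
      have h2 : (coreB D nx).nb (k, .vs u σ x) z = none := h.2
      rw [hw] at h2
      exact absurd h2 (by simp)
    show (if opB D nx (k, .vs u σ x) z then
          (some (k, .inr (.vs u σ x, z, Fin.last D.r, z)) : Option (κ × CZ (ZB D) V D.r))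
        else ((coreB D nx).nb (k, .vs u σ x) z).map (fun w => (w.1, .inl w.2))) = _
    rw [if_neg hno, hw]
    rfl
  obtain ⟨φ, h1, h2⟩ := sh_vsh (P := rB D nx) (σ := fun x => (k, .inl (.vs u σ x))) (f := f) he
    D.adj_c0 D.adj_c1 D.ne_c (fun x => rfl)
    (by
      intro x y hxy hd
      refine hnb x y (k, .vs u σ y) ?_
      rw [hcore]
      rw [if_neg, if_neg, if_neg]
      · rintro ⟨rfl, rfl⟩
        exact hd (Or.inl (Or.inr ⟨rfl, rfl⟩))
      · rintro ⟨rfl, rfl⟩
        exact hd (Or.inr (Or.inr ⟨rfl, rfl⟩))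
      · rintro ⟨rfl, rfl | rfl⟩
        · exact hd (Or.inl (Or.inl ⟨rfl, rfl⟩))
        · exact hd (Or.inr (Or.inl ⟨rfl, rfl⟩)))
    (fun x => hb _ (le_refl _))
  refine ⟨φ, ?_, ?_⟩
  · have h3 := h2 D.c1 X D.adj_c1.symm hX1.symm
    have h4 : (rB D nx).nb (k, .inl (.vs u σ D.c1)) X = some (k, .inl (.st u σ)) := by
      refine hnb D.c1 X (k, .st u σ) ?_
      rw [hcore, if_neg, if_pos ⟨rfl, rfl⟩]
      rintro ⟨h, -⟩
      exact hX1 h.symm
    rw [← h3]
    exact Rg.fv_some h4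
  · have h3 := h2 D.c0 X D.adj_c0.symm hX0.symm
    have h4 : (rB D nx).nb (k, .inl (.vs u σ D.c0)) X = some (((sx nx).symm ((k, u), σ)).1.1,
      .inl (.st ((sx nx).symm ((k, u), σ)).1.2 ((sx nx).symm ((k, u), σ)).2)) := by
      refine hnb D.c0 X (((sx nx).symm ((k, u), σ)).1.1,
            .st ((sx nx).symm ((k, u), σ)).1.2 ((sx nx).symm ((k, u), σ)).2) ?_
      rw [hcore, if_neg, if_neg, if_pos ⟨rfl, rfl⟩]
      · rintro ⟨h, -⟩
        exact D.ne_c h
      · rintro ⟨h, -⟩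
        exact hX0 h.symm
    rw [← h3]
    exact Rg.fv_some h4

theorem spine_B (hc : Ctr nx) (k k' : κ) (u u' : D.U) (σ σ' : Fin 3) :
    f (k, .inl (.st u σ)) = f (k', .inl (.st u' σ')) := by
  have h1 := ctr_sx hc V (fun q : (κ × D.U) × Fin 3 => f (q.1.1, .inl (.st q.1.2 q.2)))
    (by
      intro q
      obtain ⟨φ, h2, h3⟩ := st_B he D nx hb (sx nx q).1.1 (sx nx q).1.2 (sx nx q).2
      have h4 : (sx nx).symm (((sx nx q).1.1, (sx nx q).1.2), (sx nx q).2) = q :=
        (sx nx).symm_apply_apply q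
      rw [h4] at h3
      exact h2.symm.trans h3)
    ((k, u), σ) ((k', u'), σ')
  exact h1

end Pool.Agent.LHC
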