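import Pool.Agent.LHC.Defs
import Pool.Agent.LHC.RgB
import Pool.Agent.LHC.Shs

/-!
# The values at the open ports

Let `q = P.p (k, z)`, `C = P.clo op r`, `σ x = (k, inr (z, y, last, x))`. `H.Adj q y` (`hO`). `C.p (σ x) = x`. If `H.Adj x y'` and `(x, y')` is not one of the darts
of the edge `{q, y}` then `C.nb (σ x) y' = some (σ y')`. `sh_plain` (`a = q`, `b = y`) gives `φ` with `f (σ x) = φ x` and `C.fv f (σ x) y' = φ y'` for all
adjacent `x, y'`. `C.nb (σ y) q = some (k, inl z)` (`last` is not `< r`), so `f (k, inl z) = C.fv f (σ y) q = φ q`; `C.nb (k, inl z) y = some (σ y)`, so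
`C.fv f (k, inl z) y = f (σ y) = φ y`.
-/

namespace Pool.Agent.LHC

open Pool.Agent.LIH Pool.Agent.LHA Pool.Agent.LHB

open scoped Classical in
theorem clo_garb {V κ Z : Type} [Finite V] {H : SimpleGraph V} (he : EC H 3)
    {P : Rg V (κ × Z)} {op : κ × Z → V → Prop} {r : ℕ} (hO : OpOk H P op)
    {f : κ × CZ Z V r → V} {k : κ} {z : Z} {y : V} (hop : op (k, z) y)
    (hb : ∀ x, (P.clo op r).Bij H f (k, .inr (z, y, Fin.last r, x))) :
    ∃ φ : H ≃g H, φ (P.p (k, z)) = f (k, .inl z) ∧ φ y = (P.clo op r).fv f (k, .inl z) y := by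
  have hq : H.Adj (P.p (k, z)) y := (hO _ _ hop).1
  obtain ⟨φ, h1, h2⟩ := sh_plain (P := P.clo op r) (f := f)
    (σ := fun x => (k, .inr (z, y, Fin.last r, x))) he hq (fun x => rfl) (by
      intro x y' _ hD
      show (if op (k, z) y ∧ x = P.p (k, z) ∧ y' = y then _ else
        if op (k, z) y ∧ x = y ∧ y' = P.p (k, z) then _ else _) = _
      rw [if_neg (fun h => hD (Or.inl h.2)), if_neg (fun h => hD (Or.inr h.2))]) hb
  have h3 : (P.clo op r).nb (k, .inr (z, y, Fin.last r, y)) (P.p (k, z)) = some (k, .inl z) := by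
    show (if op (k, z) y ∧ y = P.p (k, z) ∧ P.p (k, z) = y then _ else
        if op (k, z) y ∧ y = y ∧ P.p (k, z) = P.p (k, z) then _ else _) = _
    rw [if_neg (fun h => hq.ne h.2.2), if_pos ⟨hop, rfl, rfl⟩, dif_neg]
    simp
  have h4 : (P.clo op r).nb (k, .inl z) y = some (k, .inr (z, y, Fin.last r, y)) := by
    show (if op (k, z) y then _ else _) = _
    rw [if_pos hop]
  refine ⟨φ, ?_, ?_⟩
  · rw [← h2 y (P.p (k, z)) hq.symm, Rg.fv_some h3]
  · rw [Rg.fv_some h4, ← h1 y]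

end Pool.Agent.LHC
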