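import Pool.Agent.LHC.Defs
import Pool.Agent.LHC.RgB
import Pool.Agent.LHC.EqB
import Pool.Agent.LHC.Shs
import Pool.Agent.LHC.CloG
import Pool.Agent.LHC.BUe
import Pool.Agent.LHC.BOk

/-!
# Part B: soundness of the units

Write `e = ue u`, `C = rB D nx`. (1) The vertices `(k, inl (sw u x))` form a copy of `H` with one broken edge `{X, e}`: `sh_plain` (`a = X`, `b = e`) gives `h` with `f (sw u x) = h x` and `C.fv f (sw u x) z = h z` for adjacent `x, z`. The neighbour of `sw u e` at `X` is `(k, inl (st u 0))`, so `f (st u 0) = h X`; the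
neighbour of `sw u X` at `e` is `sz u e`, so `f (sz u e) = h e`.
(2) The vertices `(k, inl (sz u x))` form a copy of `H` with the broken edges `{X, e}`, `{ul u, uy u}`, which are not equivalent (`ue_neq`). `sh_leaf` with `a = X`, `b = e`, `c = ul u`, `d = uy u`. `k1`: the port `e` of `sz u X` is open: `clo_garb` (the vertices `(k, inr (sz u X, e, last, x))` have the depth
`min (r + 1) (r + 2) = r + 1`). `k2`: the neighbour of `sz u e` at `X` is `sw u X` with the value `h X`, and `f (sz u e) = h e`: `φ = h`. `k3`: the port `uy u` of `sz u (ul u)` is open: `clo_garb`. We get `φ` with `f (sz u x) = φ x` and `C.fv f (sz u x) z = φ z` for all adjacent `x, z`. For `x = e`, `z = X`: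
`φ X = f (sw u X) = h X = f (st u 0)`. For `x = uy u`, `z = ul u`: the neighbour is the leaf `(k, inl (nd u.1 (un u)))`, so its value is `φ (ul u)`. The neighbour of the leaf at the port `uy u` is `sz u (uy u)` (`nbN_leaf`; ports of nodes are not open), with the value `φ (uy u)`.
-/

namespace Pool.Agent.LHC

open Pool.Agent.LIH Pool.Agent.LHA Pool.Agent.LHB

theorem unit_B {V : Type} [Finite V] {H : SimpleGraph V} {X : V} (he : EC H 3) (D : DB H X)
    {κ : Type} (nx : Equiv.Perm (κ × D.U)) {f : κ × CZ (ZB D) V D.r → V}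
    (hb : ∀ v, D.r + 1 ≤ cdep (dB D) v → (rB D nx).Bij H f v) (k : κ) (u : D.U) :
    ∃ φ : H ≃g H, φ X = f (k, .inl (.st u 0)) ∧
      φ (D.ul u) = f (k, .inl (.nd u.1 (D.un u))) ∧
      φ (D.uy u) = (rB D nx).fv f (k, .inl (.nd u.1 (D.un u))) (D.uy u) := by
  classical
  have hXe : H.Adj X (D.ue u) := ue_adj D u
  have hly : H.Adj (D.ul u) (D.uy u) := ul_adj D u
  have hXe' : X ≠ D.ue u := hXe.ne
  have hO : OpOk H (coreB D nx) (opB D nx) := opB_ok D nx
  have hcw : ∀ x z, (coreB D nx).nb (k, .sw u x) z =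
      (if x = D.ue u ∧ z = X then some (k, ZB.st u 0)
        else if x = X ∧ z = D.ue u then some (k, .sz u (D.ue u))
        else some (k, .sw u z)) := fun x z => rfl
  have hcz : ∀ x z, (coreB D nx).nb (k, .sz u x) z =
      (if x = D.ue u ∧ z = X then some (k, ZB.sw u X)
        else if x = X ∧ z = D.ue u then none
        else if x = D.uy u ∧ z = D.ul u then some (k, .nd u.1 (D.un u))
        else if x = D.ul u ∧ z = D.uy u then none
        else some (k, .sz u z)) := fun x z => rfl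
  have hclo : ∀ a z w, (coreB D nx).nb (k, a) z = some w →
      (rB D nx).nb (k, .inl a) z = some (w.1, .inl w.2) := by
    intro a z w hw
    have hno : ¬ opB D nx (k, a) z := by
      intro h
      have h2 : (coreB D nx).nb (k, a) z = none := (hO (k, a) z h).2
      rw [hw] at h2
      exact absurd h2 (by simp)
    show (if opB D nx (k, a) z then
          (some (k, .inr (a, z, Fin.last D.r, z)) : Option (κ × CZ (ZB D) V D.r))
        else ((coreB D nx).nb (k, a) z).map (fun w => (w.1, .inl w.2))) = _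
    rw [if_neg hno, hw]
    rfl
  -- the first copy
  have hw1 : ∀ x y, H.Adj x y → ¬ De X (D.ue u) x y →
      (rB D nx).nb (k, .inl (.sw u x)) y = some (k, .inl (.sw u y)) := by
    intro x y hxy hd
    refine hclo (.sw u x) y (k, .sw u y) ?_
    rw [hcw, if_neg, if_neg]
    · intro h
      exact hd (Or.inl h)
    · intro h
      exact hd (Or.inr h)
  obtain ⟨h, hh1, hh2⟩ := sh_plain (P := rB D nx) (σ := fun x => (k, .inl (.sw u x))) (f := f) he
    hXe (fun x => rfl) hw1 (fun x => hb _ (le_refl _))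
  have e1 : h X = f (k, .inl (.st u 0)) := by
    rw [← hh2 (D.ue u) X hXe.symm]
    refine Rg.fv_some (hclo (.sw u (D.ue u)) X (k, .st u 0) ?_)
    rw [hcw, if_pos ⟨rfl, rfl⟩]
  have e2 : h (D.ue u) = f (k, .inl (.sz u (D.ue u))) := by
    rw [← hh2 X (D.ue u) hXe]
    refine Rg.fv_some (hclo (.sw u X) (D.ue u) (k, .sz u (D.ue u)) ?_)
    rw [hcw, if_neg, if_pos ⟨rfl, rfl⟩]
    rintro ⟨h1, -⟩
    exact hXe' h1
  -- the second copy
  have hz1 : ∀ x y, H.Adj x y → ¬ (De X (D.ue u) x y ∨ De (D.ul u) (D.uy u) x y) →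
      (rB D nx).nb (k, .inl (.sz u x)) y = some (k, .inl (.sz u y)) := by
    intro x y hxy hd
    refine hclo (.sz u x) y (k, .sz u y) ?_
    rw [hcz, if_neg, if_neg, if_neg, if_neg]
    · intro h1
      exact hd (Or.inr (Or.inl h1))
    · intro h1
      exact hd (Or.inr (Or.inr h1))
    · intro h1
      exact hd (Or.inl (Or.inl h1))
    · intro h1
      exact hd (Or.inl (Or.inr h1))
  have ezX : (coreB D nx).nb (k, .sz u X) (D.ue u) = none := by
    rw [hcz, if_neg, if_pos ⟨rfl, rfl⟩]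
    rintro ⟨h1, -⟩
    exact hXe' h1
  have hnd : ∀ x y, De X (D.ue u) x y → ¬ De (D.ul u) (D.uy u) x y := fun x y hxy => ue_nde D u hxy
  have ezl : (coreB D nx).nb (k, .sz u (D.ul u)) (D.uy u) = none := by
    rw [hcz, if_neg, if_neg, if_neg, if_pos ⟨rfl, rfl⟩]
    · rintro ⟨h1, -⟩
      exact hly.ne h1
    · intro h1
      exact hnd _ _ (Or.inl h1) (Or.inl ⟨rfl, rfl⟩)
    · intro h1
      exact hnd _ _ (Or.inr h1) (Or.inl ⟨rfl, rfl⟩)
  have hdeep : ∀ (a : ZB D) (y x : V), dB (κ := κ) D (k, a) = D.r + 1 →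
      (rB D nx).Bij H f (k, .inr (a, y, Fin.last D.r, x)) := by
    intro a y x ha
    refine hb _ ?_
    show D.r + 1 ≤ min ((Fin.last D.r).1 + 1) (dB D (k, a) + 1)
    rw [ha, Fin.val_last]
    exact le_min (le_refl _) (Nat.le_succ _)
  have k1 : ∃ φ : H ≃g H, φ X = f (k, .inl (.sz u X)) ∧
      φ (D.ue u) = (rB D nx).fv f (k, .inl (.sz u X)) (D.ue u) :=
    clo_garb (z := ZB.sz u X) (y := D.ue u) he hO ⟨hXe, ezX⟩ (fun x => hdeep _ _ _ rfl)
  have k3 : ∃ φ : H ≃g H, φ (D.ul u) = f (k, .inl (.sz u (D.ul u))) ∧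
      φ (D.uy u) = (rB D nx).fv f (k, .inl (.sz u (D.ul u))) (D.uy u) :=
    clo_garb (z := ZB.sz u (D.ul u)) (y := D.uy u) he hO ⟨hly, ezl⟩ (fun x => hdeep _ _ _ rfl)
  have ezw : (rB D nx).nb (k, .inl (.sz u (D.ue u))) X = some (k, .inl (.sw u X)) := by
    refine hclo (.sz u (D.ue u)) X (k, .sw u X) ?_
    rw [hcz, if_pos ⟨rfl, rfl⟩]
  have k2 : ∃ φ : H ≃g H, φ (D.ue u) = f (k, .inl (.sz u (D.ue u))) ∧
      φ X = (rB D nx).fv f (k, .inl (.sz u (D.ue u))) X := by
    refine ⟨h, e2, ?_⟩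
    rw [Rg.fv_some ezw]
    exact (hh1 X).symm
  obtain ⟨φ, hφ1, hφ2⟩ := sh_leaf (P := rB D nx) (σ := fun x => (k, .inl (.sz u x))) (f := f) he
    hXe hly (ue_neq D u) (fun x => rfl) hz1 (fun x => hb _ (le_refl _)) k1 k2 k3
  refine ⟨φ, ?_, ?_, ?_⟩
  · rw [← e1, ← hφ2 (D.ue u) X hXe.symm, Rg.fv_some ezw]
    exact hh1 X
  · rw [← hφ2 (D.uy u) (D.ul u) hly.symm]
    refine Rg.fv_some (hclo (.sz u (D.uy u)) (D.ul u) (k, .nd u.1 (D.un u)) ?_)
    rw [hcz, if_neg, if_neg, if_pos ⟨rfl, rfl⟩]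
    · intro h1
      exact hnd _ _ (Or.inl h1) (Or.inr ⟨rfl, rfl⟩)
    · intro h1
      exact hnd _ _ (Or.inr h1) (Or.inr ⟨rfl, rfl⟩)
  · have hlf : nbN D u.1 (D.un u) (D.uy u) = some (.sz u (D.uy u)) :=
      nbN_leaf D (l := D.un u) (z := D.uy u) u.2.2
    have hcn : (coreB D nx).nb (k, .nd u.1 (D.un u)) (D.uy u) = some (k, .sz u (D.uy u)) := by
      show (nbN D u.1 (D.un u) (D.uy u)).map (fun w => (k, w)) = _
      rw [hlf]
      rfl
    rw [Rg.fv_some (hclo (.nd u.1 (D.un u)) (D.uy u) _ hcn)]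
    exact (hφ1 (D.uy u)).symm

end Pool.Agent.LHC
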