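import Pool.Agent.LHC.Defs
import Pool.Agent.LHC.StB
import Pool.Agent.LHC.BSp
import Pool.Agent.LHC.BUn

/-!
# Part B: the types at the leaves

If there is no pair `(k, u)`, `Φ` = identity (a leaf dart `(l, z)` gives the unit `u = ⟨j, (l, z)⟩`). Otherwise fix `(k0, u0)`, `φ0` with `φ0 X = f (k0, inl (st u0 0))` (`st_B`), `Φ = φ0.symm`. For a leaf dart `(l, z)` of the tree `j` in the cell `k`, `u = ⟨j, ⟨(l, z), h⟩⟩` (`ul u = hd l`, `uy u = z`, `un u = l`): `unit_B` gives `φ`,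
`φ X = f (k, inl (st u 0)) = φ0 X` (`spine_B`). So `ψ = φ.trans Φ` satisfies `ψ X = X`, `ψ (hd l) = Φ (f (k, inl (nd j l)))`, `ψ z = Φ (fv f .. z)`; `styp_map`.
-/

namespace Pool.Agent.LHC

open Pool.Agent.LIH Pool.Agent.LHA Pool.Agent.LHB

theorem leaf_B {V : Type} [Finite V] {H : SimpleGraph V} {X : V} (he : EC H 3) {T : Typ H}
    (hT : STyp H X T) (D : DB H X) {κ : Type} (nx : Equiv.Perm (κ × D.U)) (hc : Ctr nx)
    {f : κ × CZ (ZB D) V D.r → V}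
    (hb : ∀ v, D.r + 1 ≤ cdep (dB D) v → (rB D nx).Bij H f v) :
    ∃ Φ : H ≃g H, ∀ (k : κ) (j : Fin 5) (l : D.N j) (z : V),
      LdOk H (D.a j) (D.F j) (D.r + 1) (l.1, z) →
      T.vt (Φ (f (k, .inl (.nd j l)))) = T.vt (TreeBall_hd (D.a j) l.1) ∧
      T.dt (Φ (f (k, .inl (.nd j l)))) (Φ ((rB D nx).fv f (k, .inl (.nd j l)) z)) =
        T.dt (TreeBall_hd (D.a j) l.1) z := by
  classical
  by_cases hne : Nonempty (κ × D.U)
  · obtain ⟨k0, u0⟩ := hne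
    obtain ⟨φ0, h0, -, -⟩ := unit_B he D nx hb k0 u0
    refine ⟨φ0.symm, ?_⟩
    intro k j l z h
    obtain ⟨φ, h1, h2, h3⟩ := unit_B he D nx hb k (⟨j, ⟨(l.1, z), h⟩⟩ : D.U)
    have hX : (φ.trans φ0.symm) X = X := by
      show φ0.symm (φ X) = X
      rw [h1, spine_B he D nx hb hc k k0 _ u0 0 0, ← h0]
      exact φ0.symm_apply_apply X
    have h4 : φ (TreeBall_hd (D.a j) l.1) = f (k, .inl (.nd j l)) := h2
    have h5 : φ z = (rB D nx).fv f (k, .inl (.nd j l)) z := h3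
    have h6 := styp_map hT hX (TreeBall_hd (D.a j) l.1) z
    rw [← h5, ← h4]
    exact h6
  · refine ⟨RelIso.refl _, ?_⟩
    intro k j l z h
    exact absurd ⟨(k, (⟨j, ⟨(l.1, z), h⟩⟩ : D.U))⟩ hne

end Pool.Agent.LHC
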