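import Pool.Agent.LHC.Defs
import Pool.Agent.LHC.RgB
import Pool.Agent.LHC.CloO
import Pool.Agent.LHC.BOk
import Pool.Agent.LHC.BDe
import Pool.Agent.LHC.BLf
import Pool.Agent.LHC.BIn

/-!
# Part B: the pins force the types
-/

namespace Pool.Agent.LHC

open Pool.Agent.LIH Pool.Agent.LHA Pool.Agent.LHB

theorem force_B {V : Type} [Finite V] {H : SimpleGraph V} {X : V} (he : EC H 3)
    (h3 : ∀ v, 3 ≤ (H.neighborSet v).ncard) {T : Typ H} (hT : STyp H X T) (D : DB H X)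
    (hF : ∀ j, D.F j ⊂ H.neighborSet (D.a j)) {κ : Type} [Finite κ]
    (nx : Equiv.Perm (κ × D.U)) (hc : Ctr nx) {N : ℕ} (hN : DeepN H N) (hr : N ≤ D.r + 1) :
    ForceS T (gB D nx) D.ro D.a D.F := by
  intro f hf
  have hb : ∀ v, D.r + 1 ≤ cdep (dB D) v → (rB D nx).Bij H f v :=
    fun v hv => bij_B D nx hN hr hf hv
  obtain ⟨Φ, hΦ⟩ := leaf_B he hT D nx hc hb
  refine ⟨Φ, fun k i => ?_⟩
  obtain ⟨h1, h2⟩ := inward_B h3 D hF nx hf Φ hΦ k i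
  refine ⟨h1, ?_⟩
  intro E hE hEq θ
  have hOk : (rB D nx).Ok H := clo_ok D.r (coreB_ok D nx) (opB_ok D nx)
  have hp : (rB D nx).p (k, D.ro i) = D.a i := rfl
  have hli := (Rg.locinj_iff hOk f).1 hf
  set x : V := Φ (f (k, D.ro i)) with hx
  -- the unused types
  have hle : ((H.neighborSet (D.a i) ∩ {y | T.dt (D.a i) y = θ}) \ D.F i).ncard ≤
      ((H.neighborSet x ∩ {y | T.dt x y = θ}) \ E).ncard := by
    refine Set.ncard_le_ncard_of_injOn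
      (fun z => Φ ((rB D nx).fv f (k, D.ro i) z)) ?_ ?_ (Set.toFinite _)
    · rintro z ⟨⟨hz1, hz2⟩, hz3⟩
      obtain ⟨⟨v, hv⟩, hdt⟩ := h2 z hz1 hz3
      have hfv : (rB D nx).fv f (k, D.ro i) z = f v := Rg.fv_some hv
      rw [hfv] at hdt
      refine ⟨⟨?_, ?_⟩, ?_⟩
      · show H.Adj x (Φ ((rB D nx).fv f (k, D.ro i) z))
        rw [hfv]
        exact Φ.map_adj_iff.2 (hli.1 _ z v hz1 hv)
      · show T.dt x (Φ ((rB D nx).fv f (k, D.ro i) z)) = θ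
        rw [hfv, hdt]
        exact hz2
      · show Φ ((rB D nx).fv f (k, D.ro i) z) ∉ E
        rw [hfv]
        exact hEq v (Rg.adj_port hOk hz1 hv)
    · rintro z ⟨⟨hz1, hz2⟩, hz3⟩ z' ⟨⟨hz1', hz2'⟩, hz3'⟩ e
      obtain ⟨⟨v, hv⟩, -⟩ := h2 z hz1 hz3
      obtain ⟨⟨v', hv'⟩, -⟩ := h2 z' hz1' hz3'
      have e1 : Φ ((rB D nx).fv f (k, D.ro i) z) = Φ ((rB D nx).fv f (k, D.ro i) z') := e
      rw [Rg.fv_some hv, Rg.fv_some hv'] at e1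
      exact hli.2 (k, D.ro i) z z' v v' hz1 hz1' hv hv' (Φ.injective e1)
  have hst := T.star (D.a i) x h1.symm θ
  have e1 := Set.ncard_inter_add_ncard_sdiff_eq_ncard
    (H.neighborSet (D.a i) ∩ {y | T.dt (D.a i) y = θ}) (D.F i) (Set.toFinite _)
  have e2 := Set.ncard_inter_add_ncard_sdiff_eq_ncard
    (H.neighborSet x ∩ {y | T.dt x y = θ}) E (Set.toFinite _)
  have e3 : (H.neighborSet (D.a i) ∩ {y | T.dt (D.a i) y = θ}) ∩ D.F i =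
      D.F i ∩ {y | T.dt (D.a i) y = θ} := by
    ext z
    constructor
    · rintro ⟨⟨-, a2⟩, a3⟩
      exact ⟨a3, a2⟩
    · rintro ⟨a3, a2⟩
      exact ⟨⟨(hF i).1 a3, a2⟩, a3⟩
  have e4 : (H.neighborSet x ∩ {y | T.dt x y = θ}) ∩ E = E ∩ {y | T.dt x y = θ} := by
    ext z
    constructor
    · rintro ⟨⟨-, a2⟩, a3⟩
      exact ⟨a3, a2⟩
    · rintro ⟨a3, a2⟩
      exact ⟨⟨hE a3, a2⟩, a3⟩
  rw [e3] at e1
  rw [e4] at e2
  unfold Typ.cp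
  omega

end Pool.Agent.LHC
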