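import Pool.Agent.LHC.Defs

/-!
# Gluing

Compare `LHB/GlueW.lean`. `sAdj` is symmetric and irreflexive, so adjacency in `glueS` is `sAdj`.
(→) Let `f` be locally injective on the glued graph. `f' (k, z) = f (k, inl z)` is locally injective on `Gp`; `ForceS` gives `Φ`. `c k y = Φ (f (k, inr y))`, `x k i = Φ (f (k, inl (ro i)))`. `hom`, `inj`: local injectivity at `(k, inr y)`. `vt`: `ForceS`. `adj`: an attachment is an edge. `cap`: `E = {z | ∃ k y, att k y l i ∧ c k y = z}` is
contained in `N(x l i)`; a neighbour `q` of `(l, ro i)` in `Gp` and `(k, inr y)` are different neighbours of `(l, inl (ro i))`, so `Φ (f' q) ∉ E`; `ForceS`. `ne`: `(k, inr y')` and `(l, inl (ro i))` are different neighbours of `(k, inr y)`. `ne'`: two neighbours of `(k, inr y)` with the same value are equal, `ro` is injective. `dis`: the same at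
`(l, inl (ro i))`.
(←) `FlexS` for `x` and `E l i = {z | ∃ k y, att k y l i ∧ c k y = z}` gives `p`. `f (k, inl z) = p (k, z)`, `f (k, inr y) = c k y`. At `(l, inl z)`: two neighbours in `Gp`: `p` is locally injective; if `z = ro i` (`i` is unique): a neighbour in `Gp` and an attached vertex: `p q ∉ E`; two attached vertices: `dis`. At `(k, inr y)`: `inj`, `ne`, `ne'`.
-/

namespace Pool.Agent.LHC

open Pool.Agent.LIH Pool.Agent.LHA Pool.Agent.LHB

theorem BGl_inj {V W' : Type} {H : SimpleGraph V} {G : SimpleGraph W'} {f : W' → V}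
    (hf : LocInj G H f) {v x y : W'} (hx : G.Adj v x) (hy : G.Adj v y) (h : f x = f y) : x = y :=
  hf.2 v (by simpa using hx) (by simpa using hy) h

theorem BGl_adj {κ Z Y ι : Type} (Gp : SimpleGraph (κ × Z)) (ro : ι → Z) (B : SimpleGraph Y)
    (att : κ → Y → κ → ι → Prop) (u v : κ × (Z ⊕ Y)) :
    (glueS Gp ro B att).Adj u v ↔ sAdj Gp ro B att u v := by
  have hs : ∀ u v, sAdj Gp ro B att u v → sAdj Gp ro B att v u := by
    rintro ⟨k, x | x⟩ ⟨l, y | y⟩ h
    · exact SimpleGraph.Adj.symm h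
    · exact h
    · exact h
    · exact ⟨h.1.symm, h.2.symm⟩
  have hi : ∀ u, ¬ sAdj Gp ro B att u u := by
    rintro ⟨k, x | x⟩ h
    · exact Gp.irrefl h
    · exact B.irrefl h.2
  unfold glueS
  rw [SimpleGraph.fromRel_adj]
  constructor
  · rintro ⟨_, h | h⟩
    · exact h
    · exact hs _ _ h
  · intro h
    refine ⟨?_, Or.inl h⟩
    rintro rfl
    exact hi _ h

theorem glueS_iff {V κ Z Y ι : Type} {H : SimpleGraph V} (T : Typ H)
    (Gp : SimpleGraph (κ × Z)) (ro : ι → Z) (hro : Function.Injective ro) (B : SimpleGraph Y)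
    (att : κ → Y → κ → ι → Prop) (a : ι → V) (F : ι → Set V) (h1 : FlexS T Gp ro a F)
    (h2 : ForceS T Gp ro a F) : (∃ f, LocInj (glueS Gp ro B att) H f) ↔
      ∃ (c : κ → Y → V) (x : κ → ι → V), GoodS T a F B att c x := by
  constructor
  · rintro ⟨f, hf⟩
    have hP : LocInj Gp H (fun z : κ × Z => f (z.1, .inl z.2)) := by
      refine ⟨fun u v huv => hf.1 _ _ ?_, ?_⟩
      · rw [BGl_adj]; exact huv
      · intro v x hx y hy hxy
        have hx' : (glueS Gp ro B att).Adj (v.1, .inl v.2) (x.1, .inl x.2) := by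
          rw [BGl_adj]; exact hx
        have hy' : (glueS Gp ro B att).Adj (v.1, .inl v.2) (y.1, .inl y.2) := by
          rw [BGl_adj]; exact hy
        have := BGl_inj hf hx' hy' hxy
        rw [Prod.mk.injEq, Sum.inl.injEq] at this
        exact Prod.ext this.1 this.2
    obtain ⟨Φ, hΦ⟩ := h2 _ hP
    have hatt : ∀ {k y l i}, att k y l i →
        (glueS Gp ro B att).Adj (k, .inr y) (l, .inl (ro i)) := by
      intro k y l i h
      rw [BGl_adj]
      exact ⟨i, rfl, h⟩
    have hB : ∀ {k y y'}, B.Adj y y' → (glueS Gp ro B att).Adj (k, .inr y) (k, .inr y') := by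
      intro k y y' h
      rw [BGl_adj]
      exact ⟨rfl, h⟩
    refine ⟨fun k y => Φ (f (k, .inr y)), fun l i => Φ (f (l, .inl (ro i))), ?_, ?_, ?_, ?_, ?_, ?_,
      ?_, ?_⟩
    · intro k y y' h
      exact Φ.map_rel_iff.2 (hf.1 _ _ (hB h))
    · intro k y y1 y2 h1 h2 h
      have := BGl_inj hf (hB h1) (hB h2) (Φ.injective h)
      simpa using this
    · intro l i
      exact (hΦ l i).1
    · intro k y l i h
      exact Φ.map_rel_iff.2 (hf.1 _ _ (hatt h)).symm
    · intro l i θ
      refine (hΦ l i).2 {z | ∃ k y, att k y l i ∧ Φ (f (k, .inr y)) = z} ?_ ?_ θ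
      · rintro z ⟨k, y, h, rfl⟩
        exact Φ.map_rel_iff.2 (hf.1 _ _ (hatt h)).symm
      · rintro q hq ⟨k, y, h, he⟩
        have hq2 : (glueS Gp ro B att).Adj (l, .inl (ro i)) (q.1, .inl q.2) := by
          rw [BGl_adj]; exact hq
        have := BGl_inj hf hq2 (hatt h).symm (Φ.injective he.symm)
        simp at this
    · intro k y y' l i h h' he
      have := BGl_inj hf (hB h) (hatt h') (Φ.injective he)
      simp at this
    · intro k y l i l' i' h h' he
      have := BGl_inj hf (hatt h) (hatt h') (Φ.injective he)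
      simp only [Prod.mk.injEq, Sum.inl.injEq] at this
      exact ⟨this.1, hro this.2⟩
    · intro l i k y k' y' h h' he
      have := BGl_inj hf (hatt h).symm (hatt h').symm (Φ.injective he)
      simpa using this
  · rintro ⟨c, x, hc⟩
    obtain ⟨p, hp, hpr⟩ := h1 x (fun l i => {z | ∃ k y, att k y l i ∧ c k y = z})
      (fun l i => hc.vt l i) (by
        rintro l i z ⟨k, y, h, rfl⟩
        exact hc.adj k y l i h) (fun l i θ => hc.cap l i θ)
    refine ⟨fun z => match z with
      | (l, .inl x) => p (l, x)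
      | (k, .inr y) => c k y, ?_, ?_⟩
    · rintro ⟨k, x1 | x1⟩ ⟨l, y | y⟩ h <;> rw [BGl_adj] at h
      · exact hp.1 _ _ h
      · obtain ⟨i, rfl, h⟩ := h
        show H.Adj (p (k, ro i)) (c l y)
        rw [(hpr k i).1]
        exact hc.adj _ _ _ _ h
      · obtain ⟨i, rfl, h⟩ := h
        show H.Adj (c k x1) (p (l, ro i))
        rw [(hpr l i).1]
        exact (hc.adj _ _ _ _ h).symm
      · obtain ⟨h1, h2⟩ := h
        subst h1
        exact hc.hom _ _ _ h2
    · rintro ⟨k, v | v⟩ ⟨k1, x1 | x1⟩ hx ⟨k2, y | y⟩ hy he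
      · rw [SimpleGraph.mem_neighborSet, BGl_adj] at hx hy
        have e := BGl_inj hp hx hy he
        rw [Prod.mk.injEq] at e
        rw [e.1, e.2]
      · rw [SimpleGraph.mem_neighborSet, BGl_adj] at hx hy
        obtain ⟨i, hi, hi'⟩ := hy
        subst hi
        exact ((hpr k i).2 (k1, x1) hx ⟨k2, y, hi', he.symm⟩).elim
      · rw [SimpleGraph.mem_neighborSet, BGl_adj] at hx hy
        obtain ⟨i, hi, hi'⟩ := hx
        subst hi
        exact ((hpr k i).2 (k2, y) hy ⟨k1, x1, hi', he⟩).elim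
      · rw [SimpleGraph.mem_neighborSet, BGl_adj] at hx hy
        obtain ⟨i, hi, hi1⟩ := hx
        obtain ⟨j, hj, hj1⟩ := hy
        subst hi
        have e := hro hj
        subst e
        obtain ⟨e1, e2⟩ := hc.dis _ _ _ _ _ _ hi1 hj1 he
        subst e1 e2
        rfl
      · rw [SimpleGraph.mem_neighborSet, BGl_adj] at hx hy
        obtain ⟨i, hi, hi1⟩ := hx
        obtain ⟨j, hj, hj1⟩ := hy
        subst hi hj
        change p (k1, ro i) = p (k2, ro j) at he
        rw [(hpr k1 i).1, (hpr k2 j).1] at he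
        obtain ⟨e1, e2⟩ := hc.ne' _ _ _ _ _ _ hi1 hj1 he
        subst e1 e2
        rfl
      · rw [SimpleGraph.mem_neighborSet, BGl_adj] at hx hy
        obtain ⟨i, hi, hi1⟩ := hx
        obtain ⟨hy1, hy2⟩ := hy
        subst hi hy1
        change p (k1, ro i) = c k y at he
        rw [(hpr k1 i).1] at he
        exact (hc.ne _ _ _ _ _ hy2 hi1 he.symm).elim
      · rw [SimpleGraph.mem_neighborSet, BGl_adj] at hx hy
        obtain ⟨i, hi, hi1⟩ := hy
        obtain ⟨hx1, hx2⟩ := hx
        subst hi hx1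
        change c k x1 = p (k2, ro i) at he
        rw [(hpr k2 i).1] at he
        exact (hc.ne _ _ _ _ _ hx2 hi1 he).elim
      · rw [SimpleGraph.mem_neighborSet, BGl_adj] at hx hy
        obtain ⟨hx1, hx2⟩ := hx
        obtain ⟨hy1, hy2⟩ := hy
        subst hx1 hy1
        have e := hc.inj _ _ _ _ hx2 hy2 he
        subst e
        rfl

end Pool.Agent.LHC
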