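import Pool.Agent.LHC.Defs

/-!
# The free vertices

Compare `LHB/CLx.lean` (the same proofs). Everything by unfolding `B` (`SimpleGraph.fromRel_adj`), `fv`, `en1`, `L`, `len`; `(D.fv q p).2.1 = p % len = p` if `p < len`; `m1 + 1, m2, j ≤ len`. `F_sub`: `adj_w`, `adj0 true m1`, `adj_tf`, `adj1 true m2`, `adj_sf`, `adj_Y`, `adj_f`. `F_ssub`: the sets `F 0, F 1, F 2, F 4` have at most two elements and the degree is
at least 3; `F 3`: `free_Y`. `R_vals`: `re0`, ..., `re3` with `Y0`, `Y1`: `R false 0`: for `σ = true` the second part is `re0`, for `σ = false` the first part is `re0` (`w true = Y 0`). `R false 1`, `R false 2`: `σ = true`. `R true 0`: `σ = false`.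
-/

namespace Pool.Agent.LHC

open Pool.Agent.LIH Pool.Agent.LHA Pool.Agent.LHB

namespace SK

variable {V : Type} {H : SimpleGraph V} {T : Typ H} (D : SK T)

theorem L_le (q : Fin 4) : D.L q ≤ D.len := by
  fin_cases q
  · change D.m1 + 1 ≤ D.m1 + D.m2 + D.j + 1
    omega
  · change D.m2 ≤ D.m1 + D.m2 + D.j + 1
    omega
  · change D.j ≤ D.m1 + D.m2 + D.j + 1
    omega
  · change D.j ≤ D.m1 + D.m2 + D.j + 1
    omega

theorem nAp_eta (x : Fin 4 × Fin D.len) : D.fv x.1 x.2.1 = x := by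
  obtain ⟨i, p⟩ := x
  refine Prod.ext rfl (Fin.ext ?_)
  exact Nat.mod_eq_of_lt p.2

theorem fv_val (q : Fin 4) {p : ℕ} (hp : p < D.L q) : (D.fv q p).2.1 = p :=
  Nat.mod_eq_of_lt (lt_of_lt_of_le hp (D.L_le q))

theorem fv_zero (q : Fin 4) : (D.fv q 0).2.1 = 0 := Nat.zero_mod _

theorem fv_inj {q q' : Fin 4} {p p' : ℕ} (hp : p < D.L q) (hp' : p' < D.L q')
    (h : D.fv q p = D.fv q' p') : q = q' ∧ p = p' := by
  refine ⟨congrArg Prod.fst h, ?_⟩
  rw [← D.fv_val q hp, ← D.fv_val q' hp', h]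

theorem B_arm (q : Fin 4) {p : ℕ} (hp : p + 1 < D.L q) : D.B.Adj (D.fv q p) (D.fv q (p + 1)) := by
  unfold B
  rw [SimpleGraph.fromRel_adj]
  refine ⟨?_, Or.inl (Or.inl ⟨rfl, ?_, ?_⟩)⟩
  · intro h
    have := (D.fv_inj (by omega) hp h).2
    omega
  · rw [D.fv_val q hp, D.fv_val q (by omega)]
  · rw [D.fv_val q hp]
    exact hp

theorem B_01 (h : 0 < D.m2) : D.B.Adj (D.fv 0 0) (D.fv 1 0) := by
  unfold B
  rw [SimpleGraph.fromRel_adj]
  refine ⟨?_, Or.inl (Or.inr ⟨rfl, ?_, rfl, ?_, h⟩)⟩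
  · intro h
    have := congrArg Prod.fst h
    exact absurd this (by change (0 : Fin 4) ≠ 1; decide)
  · exact Nat.zero_mod _
  · exact Nat.zero_mod _

theorem B_cases {x y : Fin 4 × Fin D.len} (h : D.B.Adj x y) :
    (∃ q p, p + 1 < D.L q ∧ x = D.fv q p ∧ y = D.fv q (p + 1)) ∨
    (∃ q p, p + 1 < D.L q ∧ x = D.fv q (p + 1) ∧ y = D.fv q p) ∨
    (0 < D.m2 ∧ x = D.fv 0 0 ∧ y = D.fv 1 0) ∨ (0 < D.m2 ∧ x = D.fv 1 0 ∧ y = D.fv 0 0) := by
  unfold B at h
  rw [SimpleGraph.fromRel_adj] at h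
  rcases h with ⟨-, (⟨h1, h2, h3⟩ | ⟨h1, h2, h3, h4, h5⟩) | (⟨h1, h2, h3⟩ | ⟨h1, h2, h3, h4, h5⟩)⟩
  · left
    refine ⟨x.1, x.2.1, h2 ▸ h3, (D.nAp_eta x).symm, ?_⟩
    rw [← h2, h1]
    exact (D.nAp_eta y).symm
  · right; right; left
    refine ⟨h5, ?_, ?_⟩
    · rw [← D.nAp_eta x, h1, h2]
    · rw [← D.nAp_eta y, h3, h4]
  · right; left
    refine ⟨y.1, y.2.1, h2 ▸ h3, ?_, (D.nAp_eta y).symm⟩
    rw [← h2, h1]
    exact (D.nAp_eta x).symm
  · right; right; right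
    refine ⟨h5, ?_, ?_⟩
    · rw [← D.nAp_eta x, h3, h4]
    · rw [← D.nAp_eta y, h1, h2]

theorem F_sub (i : Fin 5) : D.F i ⊆ H.neighborSet (D.a i) := by
  fin_cases i
  · rintro z (rfl | rfl)
    · exact D.adj_w true
    · exact D.adj_w false
  · rintro z (rfl | rfl)
    · exact (D.adj0 true D.m1 le_rfl).symm
    · exact D.adj_tf
  · rintro z (rfl | rfl)
    · exact (D.adj1 true D.m2 le_rfl).symm
    · exact D.adj_sf
  · rintro z ⟨i, rfl⟩
    exact D.adj_Y i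
  · rintro z (rfl | rfl)
    · exact D.adj_f true
    · exact D.adj_f false

theorem nAp_two (x y : V) : ({x, y} : Set V).ncard ≤ 2 := by
  refine (Set.ncard_insert_le x {y}).trans ?_
  rw [Set.ncard_singleton]

theorem nAp_aux (h3 : ∀ v, 3 ≤ (H.neighborSet v).ncard) {v x y : V}
    (h : H.neighborSet v ⊆ {x, y}) : False := by
  have h1 := Set.ncard_le_ncard h (Set.toFinite _)
  have h2 := nAp_two x y
  have := h3 v
  omega

theorem F_ssub [Finite V] (h3 : ∀ v, 3 ≤ (H.neighborSet v).ncard) (i : Fin 5) :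
    D.F i ⊂ H.neighborSet (D.a i) := by
  refine ⟨D.F_sub i, fun h => ?_⟩
  fin_cases i
  · exact nAp_aux h3 h
  · exact nAp_aux h3 h
  · exact nAp_aux h3 h
  · obtain ⟨c, hc, h1⟩ := D.free_Y
    obtain ⟨i, hi⟩ := h hc
    exact h1 i hi.symm
  · exact nAp_aux h3 h

theorem R_vals : ¬ D.R false 0 ∧ D.R false 1 ∧ D.R false 2 ∧ D.R true 0 := by
  refine ⟨?_, ?_, ?_, ?_⟩
  · rintro ⟨σ, h1, h2⟩
    cases σ
    · change ReT T D.X D.j D.v (D.f false) (D.w true) at h1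
      rw [← D.Y0] at h1
      exact D.re0 h1
    · exact D.re0 h2
  · refine ⟨true, ?_, D.re1⟩
    change ReT T D.X D.j D.v (D.f true) (D.w true)
    rw [← D.Y0]
    exact D.re3
  · refine ⟨true, ?_, D.re2⟩
    change ReT T D.X D.j D.v (D.f true) (D.w true)
    rw [← D.Y0]
    exact D.re3
  · refine ⟨false, ?_, D.re3⟩
    change ReT T D.X D.j D.v (D.f false) (D.w false)
    rw [← D.Y1]
    exact D.re1

end SK

end Pool.Agent.LHC
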