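import Pool.Agent.LHC.Defs
import Pool.Agent.LHC.NAp

/-!
# From a layout to a colouring of the free vertices

Compare `LHB/LayB.lean`.
-/

namespace Pool.Agent.LHC

open Pool.Agent.LIH Pool.Agent.LHA Pool.Agent.LHB

variable {V : Type} {H : SimpleGraph V} {T : Typ H} {D : SK T} {N : Ntw}
  {W : Fin 4 → ℕ → ℕ → V} {Rt : ℕ → Fin 5 → V} {s : ℕ → Bool} {yy : ℕ → Fin 3}

theorem cS_fv (W : Fin 4 → ℕ → ℕ → V) {K : ℕ} (k : Fin K) (q : Fin 4) {p : ℕ}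
    (hp : p < D.L q) : cS D W k (D.fv q p) = W q k.1 (p + 1) := by
  unfold cS
  rw [D.fv_val q hp]
  rfl

section NLaaux

variable (D)

theorem NLa_L0 : 0 < D.L 0 := by
  show 0 < D.m1 + 1
  omega

theorem NLa_Lp (q : Fin 4) (hq : q ≠ 1) : 0 < D.L q := by
  have hj := D.j_pos
  fin_cases q
  · exact NLa_L0 D
  · exact absurd rfl hq
  · exact hj
  · exact hj

/-- the last vertex of an arm -/
def NLa_en (q : Fin 4) : Fin 4 × Fin D.len := if q = 1 then D.en1 else D.fv q (D.L q - 1)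

theorem NLa_enc (q : Fin 4) :
    (q ≠ 1 ∧ NLa_en D q = D.fv q (D.L q - 1) ∧ D.L q = D.L q - 1 + 1 ∧ D.L q - 1 < D.L q) ∨
    (q = 1 ∧ 0 < D.m2 ∧ NLa_en D q = D.fv 1 (D.m2 - 1) ∧ D.L q = D.m2 ∧ D.m2 - 1 < D.L 1) ∨
    (q = 1 ∧ D.m2 = 0 ∧ NLa_en D q = D.fv 0 0 ∧ D.L q = 0) := by
  by_cases hq : q = 1
  · subst hq
    have e1 : NLa_en D 1 = if D.m2 = 0 then D.fv 0 0 else D.fv 1 (D.m2 - 1) := rfl
    have e2 : D.L 1 = D.m2 := rfl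
    rcases Nat.eq_zero_or_pos D.m2 with h | h
    · exact Or.inr (Or.inr ⟨rfl, h, by rw [e1, if_pos h], by rw [e2, h]⟩)
    · exact Or.inr (Or.inl ⟨rfl, h, by rw [e1, if_neg (by omega)], e2, by rw [e2]; omega⟩)
  · have h1 := NLa_Lp D q hq
    exact Or.inl ⟨hq, by unfold NLa_en; rw [if_neg hq], by omega, by omega⟩

theorem NLa_encn (q : Fin 4) (hq : q ≠ 1) :
    NLa_en D q = D.fv q (D.L q - 1) ∧ D.L q = D.L q - 1 + 1 := by
  rcases NLa_enc D q with ⟨-, h1, h2, -⟩ | ⟨h, -⟩ | ⟨h, -⟩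
  · exact ⟨h1, h2⟩
  · exact absurd h hq
  · exact absurd h hq

/-- the link of the end of an arm -/
def NLa_lk (lk : Fin 3 → ℕ → ℕ → Prop) (q : Fin 4) (k l : ℕ) : Prop :=
  (q = 0 ∧ lk 0 k l) ∨ (q = 1 ∧ lk 1 k l) ∨ (q = 2 ∧ k = l) ∨ (q = 3 ∧ lk 2 k l)

theorem NLa_lk_fn {lk : Fin 3 → ℕ → ℕ → Prop}
    (hf : ∀ i k l l', lk i k l → lk i k l' → l = l') (q : Fin 4) (k l l' : ℕ)
    (h : NLa_lk lk q k l) (h' : NLa_lk lk q k l') : l = l' := by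
  unfold NLa_lk at h h'
  fin_cases q
  · simp at h h'
    exact hf _ _ _ _ h h'
  · simp at h h'
    exact hf _ _ _ _ h h'
  · simp at h h'
    omega
  · simp at h h'
    exact hf _ _ _ _ h h'

end NLaaux

theorem cS_en1 (hL : LayS D N.K N.lk W Rt s yy) (k : Fin N.K) :
    cS D W k D.en1 = W 1 k.1 D.m2 := by
  unfold SK.en1
  rcases Nat.eq_zero_or_pos D.m2 with h | h
  · rw [if_pos h, h, (hL.st1 k.1 k.2).1, cS_fv W k 0 (NLa_L0 D)]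
  · rw [if_neg (by omega), cS_fv W k 1 (show D.m2 - 1 < D.m2 by omega)]
    congr 1
    omega

theorem NLa_cen (hL : LayS D N.K N.lk W Rt s yy) (k : Fin N.K) (q : Fin 4) :
    cS D W k (NLa_en D q) = W q k.1 (D.L q) := by
  rcases NLa_enc D q with ⟨-, h1, h2, h3⟩ | ⟨rfl, h0, h1, h2, h3⟩ | ⟨rfl, h0, h1, h2⟩
  · rw [h1, cS_fv W k q h3, ← h2]
  · rw [h1, cS_fv W k 1 h3, h2]
    congr 1
    omega
  · rw [h1, cS_fv W k 0 (NLa_L0 D), h2, (hL.st1 k.1 k.2).1]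

theorem lay_hom (hL : LayS D N.K N.lk W Rt s yy) (k : Fin N.K) (y y' : Fin 4 × Fin D.len)
    (h : D.B.Adj y y') : H.Adj (cS D W k y) (cS D W k y') := by
  rcases D.B_cases h with ⟨i, p, hp, rfl, rfl⟩ | ⟨i, p, hp, rfl, rfl⟩ | ⟨hm, rfl, rfl⟩ |
    ⟨hm, rfl, rfl⟩
  · rw [cS_fv W k i hp, cS_fv W k i (show p < D.L i by omega)]
    exact hL.adj i k.1 (p + 1) k.2
  · rw [cS_fv W k i hp, cS_fv W k i (show p < D.L i by omega)]
    exact (hL.adj i k.1 (p + 1) k.2).symm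
  · rw [cS_fv W k 0 (NLa_L0 D), cS_fv W k 1 (show 0 < D.L 1 from hm),
      ← (hL.st1 k.1 k.2).1]
    exact hL.adj 1 k.1 0 k.2
  · rw [cS_fv W k 0 (NLa_L0 D), cS_fv W k 1 (show 0 < D.L 1 from hm),
      ← (hL.st1 k.1 k.2).1]
    exact (hL.adj 1 k.1 0 k.2).symm

/-- the neighbours of `y`: predecessor or successor -/
theorem NLa_inj1 (hL : LayS D N.K N.lk W Rt s yy) (k : Fin N.K) (y y1 y2 : Fin 4 × Fin D.len)
    (h1 : D.B.Adj y y1) (h2 : D.B.Adj y y2) (h : cS D W k y1 = cS D W k y2)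
    (hs : (∃ i p, p + 1 < D.L i ∧ y = D.fv i p ∧ y1 = D.fv i (p + 1))) : y1 = y2 := by
  obtain ⟨i, p, hp, rfl, rfl⟩ := hs
  have hp0 : p < D.L i := by omega
  rcases D.B_cases h2 with ⟨i', p', hp', e, rfl⟩ | ⟨i', p', hp', e, rfl⟩ | ⟨hm, e, rfl⟩ |
    ⟨hm, e, rfl⟩
  · obtain ⟨rfl, rfl⟩ := D.fv_inj hp0 (show p' < D.L i' by omega) e
    rfl
  · obtain ⟨rfl, rfl⟩ := D.fv_inj hp0 hp' e
    rw [cS_fv W k i hp, cS_fv W k i (show p' < D.L i by omega)] at h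
    exact absurd h.symm (hL.nb i k.1 (p' + 1) k.2)
  · obtain ⟨rfl, rfl⟩ := D.fv_inj hp0 (NLa_L0 D) e
    rw [cS_fv W k 0 hp, cS_fv W k 1 (show 0 < D.L 1 from hm)] at h
    exact absurd h.symm (hL.st1 k.1 k.2).2.2
  · obtain ⟨rfl, rfl⟩ := D.fv_inj hp0 (show 0 < D.L 1 from hm) e
    rw [cS_fv W k 1 hp, cS_fv W k 0 (NLa_L0 D), ← (hL.st1 k.1 k.2).1] at h
    exact absurd h.symm (hL.nb 1 k.1 0 k.2)

theorem lay_inj (hL : LayS D N.K N.lk W Rt s yy) (k : Fin N.K) (y y1 y2 : Fin 4 × Fin D.len)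
    (h1 : D.B.Adj y y1) (h2 : D.B.Adj y y2) (h : cS D W k y1 = cS D W k y2) : y1 = y2 := by
  rcases D.B_cases h1 with hs | ⟨i, p, hp, e1, rfl⟩ | ⟨hm, e1, rfl⟩ | ⟨hm, e1, rfl⟩
  · exact NLa_inj1 hL k y y1 y2 h1 h2 h hs
  · rcases D.B_cases h2 with hs | ⟨i', p', hp', e2, rfl⟩ | ⟨hm, e2, rfl⟩ | ⟨hm, e2, rfl⟩
    · exact (NLa_inj1 hL k y _ _ h2 h1 h.symm hs).symm
    · obtain ⟨rfl, e3⟩ := D.fv_inj hp hp' (e1.symm.trans e2)
      obtain rfl : p = p' := by omega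
      rfl
    · obtain ⟨rfl, e3⟩ := D.fv_inj hp (NLa_L0 D) (e1.symm.trans e2)
      omega
    · obtain ⟨rfl, e3⟩ := D.fv_inj hp (show 0 < D.L 1 from hm) (e1.symm.trans e2)
      omega
  · rcases D.B_cases h2 with hs | ⟨i', p', hp', e2, rfl⟩ | ⟨hm, e2, rfl⟩ | ⟨hm, e2, rfl⟩
    · exact (NLa_inj1 hL k y _ _ h2 h1 h.symm hs).symm
    · obtain ⟨rfl, e3⟩ := D.fv_inj (NLa_L0 D) hp' (e1.symm.trans e2)
      omega
    · rfl
    · obtain ⟨e3, -⟩ := D.fv_inj (NLa_L0 D) (show 0 < D.L 1 from hm) (e1.symm.trans e2)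
      exact absurd e3 (by decide)
  · rcases D.B_cases h2 with hs | ⟨i', p', hp', e2, rfl⟩ | ⟨hm', e2, rfl⟩ | ⟨hm', e2, rfl⟩
    · exact (NLa_inj1 hL k y _ _ h2 h1 h.symm hs).symm
    · obtain ⟨rfl, e3⟩ := D.fv_inj (show 0 < D.L 1 from hm) hp' (e1.symm.trans e2)
      omega
    · obtain ⟨e3, -⟩ := D.fv_inj (show 0 < D.L 1 from hm) (NLa_L0 D) (e1.symm.trans e2)
      exact absurd e3 (by decide)
    · rfl

theorem lay_vt (hL : LayS D N.K N.lk W Rt s yy) (l : Fin N.K) (i : Fin 5) :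
    T.vt (xS Rt l i) = T.vt (D.a i) := by
  unfold xS
  obtain ⟨h0, h3, -⟩ := hL.st l.1 l.2
  fin_cases i
  · show T.vt (Rt l.1 0) = T.vt D.X
    rw [h0]
  · exact hL.vt1 l.1 l.2
  · exact hL.vt2 l.1 l.2
  · show T.vt (Rt l.1 3) = T.vt D.X
    rw [h3]
  · exact (hL.ty4 l.1 l.2).1

/-- the attachments: starts and ends -/
theorem NLa_att (hL : LayS D N.K N.lk W Rt s yy) (k : Fin N.K) (y : Fin 4 × Fin D.len)
    (l : Fin N.K) (i : Fin 5) (h : atN D N k y l i) :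
    (∃ q : Fin 4, q ≠ 1 ∧ k = l ∧ y = D.fv q 0 ∧ xS Rt l i = W q k.1 0 ∧
      i = (![0, 0, 0, 4] : Fin 4 → Fin 5) q) ∨
    ∃ q : Fin 4, i = (![1, 2, 4, 3] : Fin 4 → Fin 5) q ∧ y = NLa_en D q ∧
      NLa_lk N.lk q k.1 l.1 ∧ xS Rt l i = W q k.1 (D.L q + 1) := by
  rcases h with ⟨rfl, h1, h2⟩ | ⟨rfl, h1, h2⟩ | ⟨rfl, rfl, h1⟩ | ⟨rfl, rfl, h1⟩ | ⟨rfl, rfl, h1⟩
  · obtain rfl : k = l := Fin.ext h1
    obtain ⟨a1, a2, a3, a4, a5, a6⟩ := hL.st k.1 k.2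
    rcases h2 with rfl | rfl
    · exact Or.inl ⟨0, by decide, rfl, rfl, a1.trans a3.symm, rfl⟩
    · exact Or.inl ⟨2, by decide, rfl, rfl, a1.trans a4.symm, rfl⟩
  · obtain rfl : k = l := Fin.ext h1
    obtain ⟨a1, a2, a3, a4, a5, a6⟩ := hL.st k.1 k.2
    rcases h2 with rfl | rfl
    · exact Or.inr ⟨2, rfl, rfl, Or.inr (Or.inr (Or.inl ⟨rfl, rfl⟩)), a5.symm⟩
    · exact Or.inl ⟨3, by decide, rfl, rfl, a6.symm, rfl⟩
  · exact Or.inr ⟨0, rfl, rfl, Or.inl ⟨rfl, h1⟩, (hL.en0 k.1 l.1 h1).1.symm⟩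
  · exact Or.inr ⟨1, rfl, rfl, Or.inr (Or.inl ⟨rfl, h1⟩), (hL.en1 k.1 l.1 h1).1.symm⟩
  · obtain ⟨a1, a2, -⟩ := hL.st l.1 l.2
    exact Or.inr ⟨3, rfl, rfl, Or.inr (Or.inr (Or.inr ⟨rfl, h1⟩)),
      a2.trans (hL.en3 k.1 l.1 h1).1.symm⟩

theorem lay_adj (hL : LayS D N.K N.lk W Rt s yy) (k : Fin N.K) (y : Fin 4 × Fin D.len)
    (l : Fin N.K) (i : Fin 5) (h : atN D N k y l i) : H.Adj (xS Rt l i) (cS D W k y) := by
  rcases NLa_att hL k y l i h with ⟨q, hq, rfl, rfl, e, -⟩ | ⟨q, -, rfl, -, e⟩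
  · rw [e, cS_fv W k q (NLa_Lp D q hq)]
    exact hL.adj q k.1 0 k.2
  · rw [e, NLa_cen hL k q]
    exact (hL.adj q k.1 _ k.2).symm

theorem lay_ne (hL : LayS D N.K N.lk W Rt s yy) (k : Fin N.K) (y y' : Fin 4 × Fin D.len)
    (l : Fin N.K) (i : Fin 5) (h : D.B.Adj y y') (h' : atN D N k y l i) :
    cS D W k y' ≠ xS Rt l i := by
  rcases NLa_att hL k y l i h' with ⟨q, hq, rfl, e0, e, -⟩ | ⟨q, -, e0, -, e⟩
  · rw [e]
    rcases D.B_cases h with ⟨i', p', hp', e2, rfl⟩ | ⟨i', p', hp', e2, rfl⟩ | ⟨hm, e2, rfl⟩ |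
      ⟨hm, e2, rfl⟩
    · obtain ⟨rfl, rfl⟩ := D.fv_inj (NLa_Lp D q hq) (show p' < D.L i' by omega)
        (e0.symm.trans e2)
      rw [cS_fv W k q hp']
      exact (hL.nb q k.1 0 k.2).symm
    · obtain ⟨rfl, e3⟩ := D.fv_inj (NLa_Lp D q hq) hp' (e0.symm.trans e2)
      omega
    · obtain ⟨rfl, -⟩ := D.fv_inj (NLa_Lp D q hq) (NLa_L0 D) (e0.symm.trans e2)
      rw [cS_fv W k 1 (show 0 < D.L 1 from hm)]
      exact (hL.st1 k.1 k.2).2.1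
    · exact absurd (D.fv_inj (NLa_Lp D q hq) (show 0 < D.L 1 from hm) (e0.symm.trans e2)).1 hq
  · rw [e]
    rcases NLa_enc D q with ⟨hq, h1, h2, h3⟩ | ⟨rfl, h0, h1, h2, h3⟩ | ⟨rfl, h0, h1, h2⟩
    · rw [h1] at e0
      rcases D.B_cases h with ⟨i', p', hp', e2, rfl⟩ | ⟨i', p', hp', e2, rfl⟩ | ⟨hm, e2, rfl⟩ |
        ⟨hm, e2, rfl⟩
      · obtain ⟨rfl, e3⟩ := D.fv_inj h3 (show p' < D.L i' by omega) (e0.symm.trans e2)
        omega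
      · obtain ⟨rfl, e3⟩ := D.fv_inj h3 hp' (e0.symm.trans e2)
        rw [cS_fv W k q (show p' < D.L q by omega),
          show D.L q + 1 = p' + 1 + 2 by omega]
        exact hL.nb q k.1 (p' + 1) k.2
      · obtain ⟨rfl, e3⟩ := D.fv_inj h3 (NLa_L0 D) (e0.symm.trans e2)
        rw [cS_fv W k 1 (show 0 < D.L 1 from hm), show D.L 0 + 1 = 2 by omega]
        exact (hL.st1 k.1 k.2).2.2
      · exact absurd (D.fv_inj h3 (show 0 < D.L 1 from hm) (e0.symm.trans e2)).1 hq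
    · rw [h1] at e0
      rw [h2]
      rcases D.B_cases h with ⟨i', p', hp', e2, rfl⟩ | ⟨i', p', hp', e2, rfl⟩ | ⟨hm, e2, rfl⟩ |
        ⟨hm, e2, rfl⟩
      · obtain ⟨rfl, e3⟩ := D.fv_inj h3 (show p' < D.L i' by omega) (e0.symm.trans e2)
        omega
      · obtain ⟨rfl, e3⟩ := D.fv_inj h3 hp' (e0.symm.trans e2)
        rw [cS_fv W k 1 (show p' < D.L 1 by omega), show D.m2 + 1 = p' + 1 + 2 by omega]
        exact hL.nb 1 k.1 (p' + 1) k.2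
      · exact absurd (D.fv_inj h3 (NLa_L0 D) (e0.symm.trans e2)).1 (by decide)
      · obtain ⟨-, e3⟩ := D.fv_inj h3 (show 0 < D.L 1 from hm) (e0.symm.trans e2)
        rw [cS_fv W k 0 (NLa_L0 D), show D.m2 + 1 = 0 + 2 by omega,
          ← (hL.st1 k.1 k.2).1]
        exact hL.nb 1 k.1 0 k.2
    · rw [h1] at e0
      rw [h2]
      rcases D.B_cases h with ⟨i', p', hp', e2, rfl⟩ | ⟨i', p', hp', e2, rfl⟩ | ⟨hm, e2, rfl⟩ |
        ⟨hm, e2, rfl⟩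
      · obtain ⟨rfl, rfl⟩ := D.fv_inj (NLa_L0 D) (show p' < D.L i' by omega)
          (e0.symm.trans e2)
        rw [cS_fv W k 0 hp']
        exact fun e5 => (hL.st1 k.1 k.2).2.2 e5.symm
      · obtain ⟨rfl, e3⟩ := D.fv_inj (NLa_L0 D) hp' (e0.symm.trans e2)
        omega
      · omega
      · omega

/-- a start and an end -/
theorem NLa_se (hL : LayS D N.K N.lk W Rt s yy) (k : Fin N.K) (q q' : Fin 4) (hq : q ≠ 1)
    (e : D.fv q 0 = NLa_en D q') (h : W q k.1 0 = W q' k.1 (D.L q' + 1)) : False := by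
  rcases NLa_enc D q' with ⟨hq', h1, h2, h3⟩ | ⟨rfl, h0, h1, h2, h3⟩ | ⟨rfl, h0, h1, h2⟩
  · rw [h1] at e
    obtain ⟨rfl, e3⟩ := D.fv_inj (NLa_Lp D q hq) h3 e
    rw [show D.L q + 1 = 0 + 2 by omega] at h
    exact hL.nb q k.1 0 k.2 h
  · rw [h1] at e
    exact hq (D.fv_inj (NLa_Lp D q hq) h3 e).1
  · rw [h1] at e
    obtain ⟨rfl, -⟩ := D.fv_inj (NLa_Lp D q hq) (NLa_L0 D) e
    rw [h2] at h
    exact (hL.st1 k.1 k.2).2.1 h.symm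

/-- two ends -/
theorem NLa_ee (hL : LayS D N.K N.lk W Rt s yy) (k : Fin N.K) (q q' : Fin 4) (hq : q ≠ 1)
    (hq' : q' = 1) (e : NLa_en D q = NLa_en D q')
    (h : W q k.1 (D.L q + 1) = W q' k.1 (D.L q' + 1)) : False := by
  obtain ⟨h1, h2⟩ := NLa_encn D q hq
  have h4 : D.L q - 1 < D.L q := by omega
  rw [h1] at e
  rcases NLa_enc D q' with ⟨hq2, -⟩ | ⟨-, h0', h1', h2', h3'⟩ | ⟨-, h0', h1', h2'⟩
  · exact hq2 hq'
  · rw [h1'] at e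
    exact hq (D.fv_inj h4 h3' e).1
  · rw [h1'] at e
    obtain ⟨rfl, e3⟩ := D.fv_inj h4 (NLa_L0 D) e
    rw [show D.L 0 + 1 = 2 by omega, h2', hq'] at h
    exact (hL.st1 k.1 k.2).2.2 h.symm

theorem lay_ne' (hL : LayS D N.K N.lk W Rt s yy) (k : Fin N.K) (y : Fin 4 × Fin D.len)
    (l : Fin N.K) (i : Fin 5) (l' : Fin N.K) (i' : Fin 5) (h : atN D N k y l i)
    (h' : atN D N k y l' i') (e : xS Rt l i = xS Rt l' i') : l = l' ∧ i = i' := by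
  rcases NLa_att hL k y l i h with ⟨q, hq, e1, e2, e3, e4⟩ | ⟨q, e1, e2, e3, e4⟩
  · rcases NLa_att hL k y l' i' h' with ⟨q', hq', e1', e2', e3', e4'⟩ | ⟨q', e1', e2', e3', e4'⟩
    · obtain ⟨rfl, -⟩ := D.fv_inj (NLa_Lp D q hq) (NLa_Lp D q' hq') (e2.symm.trans e2')
      exact ⟨e1.symm.trans e1', e4.trans e4'.symm⟩
    · exact (NLa_se hL k q q' hq (e2.symm.trans e2') (e3.symm.trans (e.trans e4'))).elim
  · rcases NLa_att hL k y l' i' h' with ⟨q', hq', e1', e2', e3', e4'⟩ | ⟨q', e1', e2', e3', e4'⟩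
    · exact (NLa_se hL k q' q hq' (e2'.symm.trans e2)
        (e3'.symm.trans (e.symm.trans e4))).elim
    · by_cases hqq : q = q'
      · subst hqq
        exact ⟨Fin.ext (NLa_lk_fn hL.fn q k.1 l.1 l'.1 e3 e3'), e1.trans e1'.symm⟩
      · by_cases hq : q = 1
        · by_cases hq' : q' = 1
          · exact absurd (hq.trans hq'.symm) hqq
          · exact (NLa_ee hL k q' q hq' hq (e2'.symm.trans e2)
              (e4'.symm.trans (e.symm.trans e4))).elim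
        · by_cases hq' : q' = 1
          · exact (NLa_ee hL k q q' hq hq' (e2.symm.trans e2')
              (e4.symm.trans (e.trans e4'))).elim
          · obtain ⟨h1, h2⟩ := NLa_encn D q hq
            obtain ⟨h1', h2'⟩ := NLa_encn D q' hq'
            have h5 := e2.symm.trans e2'
            rw [h1, h1'] at h5
            exact absurd (D.fv_inj (by omega) (by omega) h5).1 hqq

end Pool.Agent.LHC
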