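import Pool.Agent.LHC.Defs
import Pool.Agent.LHA.Nb1
import Pool.Agent.LHB.TBas

/-!
# Types of the free slots

Compare `LHB/CTy.lean` (the same proofs). `dt_w`: `Typ.hd` and `vt_w`. `dt_g0`: otherwise `sound0` with `b = true`, `c = false`, `x = X`, `y = w true`, `z = g0 true 1` and the walk `Rch H m1 (w true) (g0 true 1) (g0 true m1) (g0 true (m1+1))` (`rch_seq`) gives a contradiction. `dt_g1`: `sound1`. `cp0`, `cp1`, `cp2`, `cp4`: `F i = {s, t}` with `s, t` of different types seen from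
`a i` (`dt_w`; `dt_tf`, `dt_g0`; `dt_sf`, `dt_g1`; `dt_f`). `cp3`: `Y` is injective: `i ↦ Y i` is a bijection from `{i | T.dt X (Y i) = θ}` to `range Y ∩ {z | T.dt X z = θ}`.
-/

namespace Pool.Agent.LHC

open Pool.Agent.LIH Pool.Agent.LHA Pool.Agent.LHB

namespace SK

variable {V : Type} {H : SimpleGraph V} {T : Typ H} (D : SK T)

theorem dt_w {b b' : Bool} (h : T.dt D.X (D.w b) = T.dt D.X (D.w b')) : b = b' := by
  have h1 := (T.hd (D.adj_w b) (D.adj_w b') h).1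
  rcases b <;> rcases b'
  · rfl
  · exact absurd h1.symm D.vt_w
  · exact absurd h1 D.vt_w
  · rfl

theorem NTy_r0 (b : Bool) : Rch H D.m1 (D.w b) (D.g0 b 1) (D.g0 b D.m1) (D.g0 b (D.m1 + 1)) := by
  have h : H.Adj (D.w b) (D.g0 b 1) := by
    have := D.adj0 b 0 (Nat.zero_le _)
    rwa [D.g0_0] at this
  exact (rch_seq h).2 ⟨D.g0 b, D.g0_0 b, rfl, rfl, rfl, D.adj0 b, D.nb0 b⟩

theorem NTy_r1 (b : Bool) : Rch H D.m2 (D.w b) (D.g1 b 1) (D.g1 b D.m2) (D.g1 b (D.m2 + 1)) := by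
  have h : H.Adj (D.w b) (D.g1 b 1) := by
    have := D.adj1 b 0 (Nat.zero_le _)
    rwa [D.g1_0] at this
  exact (rch_seq h).2 ⟨D.g1 b, D.g1_0 b, rfl, rfl, rfl, D.adj1 b, D.nb1 b⟩

theorem NTy_a0 (b : Bool) : H.Adj (D.w b) (D.g0 b 1) := by
  have := D.adj0 b 0 (Nat.zero_le _)
  rwa [D.g0_0] at this

theorem NTy_a1 (b : Bool) : H.Adj (D.w b) (D.g1 b 1) := by
  have := D.adj1 b 0 (Nat.zero_le _)
  rwa [D.g1_0] at this

theorem dt_g0 {b b' : Bool} (h : T.dt (D.g0 b (D.m1 + 1)) (D.g0 b D.m1) =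
    T.dt (D.g0 b' (D.m1 + 1)) (D.g0 b' D.m1)) : b = b' := (D.sound0 b b' D.X (D.w b) (D.g0 b 1) _ _ (D.adj_w b) rfl (D.NTy_a0 b) (D.ne_X0 b)
    (D.NTy_r0 b) h).symm

theorem dt_g1 {b b' : Bool} (h : T.dt (D.g1 b (D.m2 + 1)) (D.g1 b D.m2) =
    T.dt (D.g1 b' (D.m2 + 1)) (D.g1 b' D.m2)) : b = b' := (D.sound1 b b b' D.X (D.w b) (D.g0 b 1) (D.g1 b 1) _ _ _ _ (D.adj_w b) rfl (D.NTy_a0 b)
    (D.NTy_a1 b) (D.ne_X0 b) (D.ne_X1 b) (D.ne_01 b) (D.NTy_r0 b) rfl (D.NTy_r1 b) h).symm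

theorem dt_ff {b b' : Bool} (h : T.dt D.v (D.f b) = T.dt D.v (D.f b')) : b = b' := by
  rcases b <;> rcases b'
  · rfl
  · exact absurd h.symm D.dt_f
  · exact absurd h D.dt_f
  · rfl

theorem NTy_pair {x s t : V} (hst : T.dt x s ≠ T.dt x t) (θ : ℕ) :
    T.cp x {s, t} θ ≤ 1 ∧ (0 < T.cp x {s, t} θ ↔ θ = T.dt x s ∨ θ = T.dt x t) := by
  unfold Typ.cp
  by_cases h1 : θ = T.dt x s
  · have e : ({s, t} : Set V) ∩ {y | T.dt x y = θ} = {s} := by
      ext y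
      simp only [Set.mem_inter_iff, Set.mem_insert_iff, Set.mem_singleton_iff, Set.mem_ofPred_eq]
      constructor
      · rintro ⟨rfl | rfl, h2⟩
        · rfl
        · exact absurd (h1.symm.trans h2.symm) hst
      · rintro rfl
        exact ⟨Or.inl rfl, h1.symm⟩
    rw [e, Set.ncard_singleton]
    exact ⟨le_rfl, fun _ => Or.inl h1, fun _ => Nat.one_pos⟩
  · by_cases h2 : θ = T.dt x t
    · have e : ({s, t} : Set V) ∩ {y | T.dt x y = θ} = {t} := by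
        ext y
        simp only [Set.mem_inter_iff, Set.mem_insert_iff, Set.mem_singleton_iff, Set.mem_ofPred_eq]
        constructor
        · rintro ⟨rfl | rfl, h3⟩
          · exact absurd h3.symm h1
          · rfl
        · rintro rfl
          exact ⟨Or.inr rfl, h2.symm⟩
      rw [e, Set.ncard_singleton]
      exact ⟨le_rfl, fun _ => Or.inr h2, fun _ => Nat.one_pos⟩
    · have e : ({s, t} : Set V) ∩ {y | T.dt x y = θ} = ∅ := by
        ext y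
        simp only [Set.mem_inter_iff, Set.mem_insert_iff, Set.mem_singleton_iff, Set.mem_ofPred_eq,
          Set.mem_empty_iff_false, iff_false]
        rintro ⟨rfl | rfl, h3⟩
        · exact h1 h3.symm
        · exact h2 h3.symm
      rw [e, Set.ncard_empty]
      refine ⟨Nat.zero_le _, fun h => absurd h (lt_irrefl _), ?_⟩
      rintro (h | h)
      · exact absurd h h1
      · exact absurd h h2

theorem cp0 (θ : ℕ) : T.cp (D.a 0) (D.F 0) θ ≤ 1 ∧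
    (0 < T.cp (D.a 0) (D.F 0) θ ↔ ∃ b, θ = T.dt D.X (D.w b)) := by
  have h := NTy_pair (T := T) (x := D.X) (s := D.w true) (t := D.w false)
    (fun e => absurd (D.dt_w e) (by decide)) θ
  refine ⟨h.1, h.2.trans ?_⟩
  constructor
  · rintro (e | e)
    · exact ⟨true, e⟩
    · exact ⟨false, e⟩
  · rintro ⟨b, e⟩
    rcases b
    · exact Or.inr e
    · exact Or.inl e

theorem cp1 (θ : ℕ) : T.cp (D.a 1) (D.F 1) θ ≤ 1 ∧
    (0 < T.cp (D.a 1) (D.F 1) θ ↔ ∃ b, θ = T.dt (D.g0 b (D.m1 + 1)) (D.g0 b D.m1)) := by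
  have h := NTy_pair (T := T) (x := D.g0 true (D.m1 + 1)) (s := D.g0 true D.m1) (t := D.tf)
    (fun e => absurd (D.dt_g0 (b := true) (b' := false) (e.trans D.dt_tf)) (by decide)) θ
  refine ⟨h.1, h.2.trans ?_⟩
  rw [D.dt_tf]
  constructor
  · rintro (e | e)
    · exact ⟨true, e⟩
    · exact ⟨false, e⟩
  · rintro ⟨b, e⟩
    rcases b
    · exact Or.inr e
    · exact Or.inl e

theorem cp2 (θ : ℕ) : T.cp (D.a 2) (D.F 2) θ ≤ 1 ∧
    (0 < T.cp (D.a 2) (D.F 2) θ ↔ ∃ b, θ = T.dt (D.g1 b (D.m2 + 1)) (D.g1 b D.m2)) := by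
  have h := NTy_pair (T := T) (x := D.g1 true (D.m2 + 1)) (s := D.g1 true D.m2) (t := D.sf)
    (fun e => absurd (D.dt_g1 (b := true) (b' := false) (e.trans D.dt_sf)) (by decide)) θ
  refine ⟨h.1, h.2.trans ?_⟩
  rw [D.dt_sf]
  constructor
  · rintro (e | e)
    · exact ⟨true, e⟩
    · exact ⟨false, e⟩
  · rintro ⟨b, e⟩
    rcases b
    · exact Or.inr e
    · exact Or.inl e

theorem cp3 (θ : ℕ) : T.cp (D.a 3) (D.F 3) θ = {i : Fin 3 | T.dt D.X (D.Y i) = θ}.ncard := by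
  have ha : D.a 3 = D.X := rfl
  have hF : D.F 3 = Set.range D.Y := rfl
  rw [ha, hF]
  unfold Typ.cp
  have e : Set.range D.Y ∩ {y | T.dt D.X y = θ} = D.Y '' {i : Fin 3 | T.dt D.X (D.Y i) = θ} := by
    ext y
    constructor
    · rintro ⟨⟨i, rfl⟩, h⟩
      exact ⟨i, h, rfl⟩
    · rintro ⟨i, h, rfl⟩
      exact ⟨⟨i, rfl⟩, h⟩
  rw [e, Set.ncard_image_of_injective _ D.inj_Y]

theorem cp4 (θ : ℕ) : T.cp (D.a 4) (D.F 4) θ ≤ 1 ∧
    (0 < T.cp (D.a 4) (D.F 4) θ ↔ ∃ b, θ = T.dt D.v (D.f b)) := by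
  have h := NTy_pair (T := T) (x := D.v) (s := D.f true) (t := D.f false)
    D.dt_f θ
  refine ⟨h.1, h.2.trans ?_⟩
  constructor
  · rintro (e | e)
    · exact ⟨true, e⟩
    · exact ⟨false, e⟩
  · rintro ⟨b, e⟩
    rcases b
    · exact Or.inr e
    · exact Or.inl e

end SK

end Pool.Agent.LHC
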