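import Pool.Agent.LHC.Defs
import Pool.Agent.LHC.NAp
import Pool.Agent.LHC.NTy
import Pool.Agent.LHC.NLa

/-!
# From a layout to a colouring: the slots

Compare `LHB/LayD.lean`. `cS_fv`, `cS_en1`. The attached vertices of the root `i` of `l` and their types seen from the value of the root: `i = 0` (`k = l`): `fv 0 0`: type `w (s k)`, `fv 2 0`: type `w (!s k)` (`ty0`, `st`). `i = 4` (`k = l`): `fv 2 (j-1)`: type `f σ`, `fv 3 0`: type `f (!σ)` (`ty4`). `i = 1`: `fv 0 m1` of the cells `k` with `lk 0 k l`: type `T.dt (g0 (s k) (m1+1)) (g0 (s k) m1)` (`en0`).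
`i = 2`: `en1` of the cells `k` with `lk 1 k l` (`en1` of `LayS`). `i = 3`: `fv 3 (j-1)` of the cells with `lk 2 k l`: value `Y (yy k)` (`en3`).
`lay_dis`: `i ≠ 3`: equal values have equal types; different attached vertices have different types: `dt_w`, `dt_ff`, `dif` with `dt_g0`, `dt_g1`. `i = 3`: `inj_Y`, `dif3`. `lay_cap`: `i = 3`: `E ⊆ range Y = F 3` and the root has the value `X = a 3`. `i ≠ 3`: for every `θ` at most one attached vertex has the type `θ`, so `cp ≤ 1`, and if there is one, `θ` is one of the types in `cp0, cp1, cp2, cp4`, so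
`0 < T.cp (a i) (F i) θ`.
-/

namespace Pool.Agent.LHC

open Pool.Agent.LIH Pool.Agent.LHA Pool.Agent.LHB

variable {V : Type} {H : SimpleGraph V} {T : Typ H} {D : SK T} {N : Ntw}
  {W : Fin 4 → ℕ → ℕ → V} {Rt : ℕ → Fin 5 → V} {s : ℕ → Bool} {yy : ℕ → Fin 3}

theorem NLb_fv00 (W : Fin 4 → ℕ → ℕ → V) (k : Fin N.K) : cS D W k (D.fv 0 0) = W 0 k.1 1 := by
  rw [cS_fv W k 0 (by show 0 < D.m1 + 1; omega)]

theorem NLb_fv20 (W : Fin 4 → ℕ → ℕ → V) (k : Fin N.K) : cS D W k (D.fv 2 0) = W 2 k.1 1 := by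
  rw [cS_fv W k 2 (by show 0 < D.j; exact D.j_pos)]

theorem NLb_fv30 (W : Fin 4 → ℕ → ℕ → V) (k : Fin N.K) : cS D W k (D.fv 3 0) = W 3 k.1 1 := by
  rw [cS_fv W k 3 (by show 0 < D.j; exact D.j_pos)]

theorem NLb_fv2j (W : Fin 4 → ℕ → ℕ → V) (k : Fin N.K) :
    cS D W k (D.fv 2 (D.j - 1)) = W 2 k.1 D.j := by
  have hj := D.j_pos
  rw [cS_fv W k 2 (by show D.j - 1 < D.j; omega)]
  congr 1
  omega

theorem NLb_fv3j (W : Fin 4 → ℕ → ℕ → V) (k : Fin N.K) :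
    cS D W k (D.fv 3 (D.j - 1)) = W 3 k.1 D.j := by
  have hj := D.j_pos
  rw [cS_fv W k 3 (by show D.j - 1 < D.j; omega)]
  congr 1
  omega

theorem NLb_fv0m (W : Fin 4 → ℕ → ℕ → V) (k : Fin N.K) :
    cS D W k (D.fv 0 D.m1) = W 0 k.1 (D.m1 + 1) := by
  rw [cS_fv W k 0 (by show D.m1 < D.m1 + 1; omega)]

theorem NLb_at0 {k : Fin N.K} {y : Fin 4 × Fin D.len} {l : Fin N.K} (h : atN D N k y l 0) :
    k = l ∧ (y = D.fv 0 0 ∨ y = D.fv 2 0) := by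
  rcases h with ⟨-, h1, h2⟩ | ⟨h1, -⟩ | ⟨h1, -⟩ | ⟨h1, -⟩ | ⟨h1, -⟩
  · exact ⟨Fin.ext h1, h2⟩
  all_goals exact absurd h1 (by decide)

theorem NLb_at4 {k : Fin N.K} {y : Fin 4 × Fin D.len} {l : Fin N.K} (h : atN D N k y l 4) :
    k = l ∧ (y = D.fv 2 (D.j - 1) ∨ y = D.fv 3 0) := by
  rcases h with ⟨h1, -⟩ | ⟨-, h1, h2⟩ | ⟨h1, -⟩ | ⟨h1, -⟩ | ⟨h1, -⟩
  · exact absurd h1 (by decide)
  · exact ⟨Fin.ext h1, h2⟩
  all_goals exact absurd h1 (by decide)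

theorem NLb_at1 {k : Fin N.K} {y : Fin 4 × Fin D.len} {l : Fin N.K} (h : atN D N k y l 1) :
    y = D.fv 0 D.m1 ∧ N.lk 0 k.1 l.1 := by
  rcases h with ⟨h1, -⟩ | ⟨h1, -⟩ | ⟨-, h1, h2⟩ | ⟨h1, -⟩ | ⟨h1, -⟩
  · exact absurd h1 (by decide)
  · exact absurd h1 (by decide)
  · exact ⟨h1, h2⟩
  all_goals exact absurd h1 (by decide)

theorem NLb_at2 {k : Fin N.K} {y : Fin 4 × Fin D.len} {l : Fin N.K} (h : atN D N k y l 2) :
    y = D.en1 ∧ N.lk 1 k.1 l.1 := by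
  rcases h with ⟨h1, -⟩ | ⟨h1, -⟩ | ⟨h1, -⟩ | ⟨-, h1, h2⟩ | ⟨h1, -⟩
  · exact absurd h1 (by decide)
  · exact absurd h1 (by decide)
  · exact absurd h1 (by decide)
  · exact ⟨h1, h2⟩
  · exact absurd h1 (by decide)

theorem NLb_at3 {k : Fin N.K} {y : Fin 4 × Fin D.len} {l : Fin N.K} (h : atN D N k y l 3) :
    y = D.fv 3 (D.j - 1) ∧ N.lk 2 k.1 l.1 := by
  rcases h with ⟨h1, -⟩ | ⟨h1, -⟩ | ⟨h1, -⟩ | ⟨h1, -⟩ | ⟨-, h1, h2⟩
  · exact absurd h1 (by decide)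
  · exact absurd h1 (by decide)
  · exact absurd h1 (by decide)
  · exact absurd h1 (by decide)
  · exact ⟨h1, h2⟩

theorem NLb_ty1 (hL : LayS D N.K N.lk W Rt s yy) {k l : Fin N.K} (hl : N.lk 0 k.1 l.1) :
    T.dt (xS Rt l 1) (cS D W k (D.fv 0 D.m1)) =
      T.dt (D.g0 (s k.1) (D.m1 + 1)) (D.g0 (s k.1) D.m1) := by
  rw [NLb_fv0m]
  exact (hL.en0 _ _ hl).2

theorem NLb_ty2 (hL : LayS D N.K N.lk W Rt s yy) {k l : Fin N.K} (hl : N.lk 1 k.1 l.1) :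
    T.dt (xS Rt l 2) (cS D W k D.en1) =
      T.dt (D.g1 (s k.1) (D.m2 + 1)) (D.g1 (s k.1) D.m2) := by
  rw [cS_en1 hL]
  exact (hL.en1 _ _ hl).2

theorem NLb_eq (hL : LayS D N.K N.lk W Rt s yy) (l : Fin N.K) (i : Fin 5) (hi : i ≠ 3)
    (k : Fin N.K) (y : Fin 4 × Fin D.len) (k' : Fin N.K) (y' : Fin 4 × Fin D.len)
    (h : atN D N k y l i) (h' : atN D N k' y' l i)
    (e : T.dt (xS Rt l i) (cS D W k y) = T.dt (xS Rt l i) (cS D W k' y')) : k = k' ∧ y = y' := by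
  have hi' : i = 0 ∨ i = 1 ∨ i = 2 ∨ i = 4 := by
    revert hi
    fin_cases i <;> decide
  rcases hi' with rfl | rfl | rfl | rfl
  · obtain ⟨rfl, hy⟩ := NLb_at0 h
    obtain ⟨rfl, hy'⟩ := NLb_at0 h'
    refine ⟨rfl, ?_⟩
    obtain ⟨hs1, hs2⟩ := hL.ty0 _ k'.2
    have hR : xS Rt k' 0 = D.X := (hL.st _ k'.2).1
    rcases hy with rfl | rfl <;> rcases hy' with rfl | rfl
    · rfl
    · exfalso
      rw [NLb_fv00, NLb_fv20, hR, hs1, hs2] at e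
      have := SK.dt_w D e
      revert this
      cases s k'.1 <;> decide
    · exfalso
      rw [NLb_fv00, NLb_fv20, hR, hs1, hs2] at e
      have := SK.dt_w D e
      revert this
      cases s k'.1 <;> decide
    · rfl
  · obtain ⟨rfl, hl⟩ := NLb_at1 h
    obtain ⟨rfl, hl'⟩ := NLb_at1 h'
    rw [NLb_ty1 hL hl, NLb_ty1 hL hl'] at e
    have hb := SK.dt_g0 D e
    refine ⟨?_, rfl⟩
    by_contra hne
    exact hL.dif 0 k.1 k'.1 l.1 (by decide) hl hl' (fun hk => hne (Fin.ext hk)) hb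
  · obtain ⟨rfl, hl⟩ := NLb_at2 h
    obtain ⟨rfl, hl'⟩ := NLb_at2 h'
    rw [NLb_ty2 hL hl, NLb_ty2 hL hl'] at e
    have hb := SK.dt_g1 D e
    refine ⟨?_, rfl⟩
    by_contra hne
    exact hL.dif 1 k.1 k'.1 l.1 (by decide) hl hl' (fun hk => hne (Fin.ext hk)) hb
  · obtain ⟨rfl, hy⟩ := NLb_at4 h
    obtain ⟨rfl, hy'⟩ := NLb_at4 h'
    refine ⟨rfl, ?_⟩
    obtain ⟨-, σ, hs1, hs2⟩ := hL.ty4 _ k'.2
    have hR : xS Rt k' 4 = Rt k'.1 4 := rfl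
    rcases hy with rfl | rfl <;> rcases hy' with rfl | rfl
    · rfl
    · exfalso
      rw [NLb_fv2j, NLb_fv30, hR, hs1, hs2] at e
      have := SK.dt_ff D e
      revert this
      cases σ <;> decide
    · exfalso
      rw [NLb_fv2j, NLb_fv30, hR, hs1, hs2] at e
      have := SK.dt_ff D e
      revert this
      cases σ <;> decide
    · rfl

theorem NLb_pos (hL : LayS D N.K N.lk W Rt s yy) (l : Fin N.K) (i : Fin 5) (hi : i ≠ 3)
    (k : Fin N.K) (y : Fin 4 × Fin D.len) (h : atN D N k y l i) :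
    0 < T.cp (D.a i) (D.F i) (T.dt (xS Rt l i) (cS D W k y)) := by
  have hi' : i = 0 ∨ i = 1 ∨ i = 2 ∨ i = 4 := by
    revert hi
    fin_cases i <;> decide
  rcases hi' with rfl | rfl | rfl | rfl
  · obtain ⟨rfl, hy⟩ := NLb_at0 h
    rw [(SK.cp0 D _).2]
    obtain ⟨hs1, hs2⟩ := hL.ty0 _ k.2
    have hR : xS Rt k 0 = D.X := (hL.st _ k.2).1
    rw [hR]
    rcases hy with rfl | rfl
    · rw [NLb_fv00]
      exact ⟨_, hs1⟩
    · rw [NLb_fv20]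
      exact ⟨_, hs2⟩
  · obtain ⟨rfl, hl⟩ := NLb_at1 h
    rw [(SK.cp1 D _).2]
    exact ⟨_, NLb_ty1 hL hl⟩
  · obtain ⟨rfl, hl⟩ := NLb_at2 h
    rw [(SK.cp2 D _).2]
    exact ⟨_, NLb_ty2 hL hl⟩
  · obtain ⟨rfl, hy⟩ := NLb_at4 h
    rw [(SK.cp4 D _).2]
    obtain ⟨-, σ, hs1, hs2⟩ := hL.ty4 _ k.2
    have hR : xS Rt k 4 = Rt k.1 4 := rfl
    rw [hR]
    rcases hy with rfl | rfl
    · rw [NLb_fv2j]
      exact ⟨_, hs1⟩
    · rw [NLb_fv30]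
      exact ⟨_, hs2⟩

theorem lay_dis (hL : LayS D N.K N.lk W Rt s yy) (l : Fin N.K) (i : Fin 5) (k : Fin N.K)
    (y : Fin 4 × Fin D.len) (k' : Fin N.K) (y' : Fin 4 × Fin D.len) (h : atN D N k y l i)
    (h' : atN D N k' y' l i) (e : cS D W k y = cS D W k' y') : k = k' ∧ y = y' := by
  by_cases hi : i = 3
  · subst hi
    obtain ⟨rfl, hl⟩ := NLb_at3 h
    obtain ⟨rfl, hl'⟩ := NLb_at3 h'
    refine ⟨?_, rfl⟩
    by_contra hne
    rw [NLb_fv3j, NLb_fv3j, (hL.en3 _ _ hl).2, (hL.en3 _ _ hl').2] at e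
    exact hL.dif3 k.1 k'.1 l.1 hl hl' (fun hk => hne (Fin.ext hk)) (D.inj_Y e)
  · exact NLb_eq hL l i hi k y k' y' h h' (by rw [e])

theorem lay_cap [Finite V] (hL : LayS D N.K N.lk W Rt s yy) (l : Fin N.K) (i : Fin 5) (θ : ℕ) :
    T.cp (xS Rt l i) {z | ∃ k y, atN D N k y l i ∧ cS D W k y = z} θ ≤
      T.cp (D.a i) (D.F i) θ := by
  by_cases hi : i = 3
  · subst hi
    unfold Typ.cp
    apply Set.ncard_le_ncard _ (Set.toFinite _)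
    rintro z ⟨⟨k, y, h, rfl⟩, hz⟩
    obtain ⟨rfl, hl⟩ := NLb_at3 h
    have hR : xS Rt l 3 = D.a 3 := (hL.st _ l.2).2.1
    rw [hR] at hz
    refine ⟨?_, hz⟩
    rw [NLb_fv3j, (hL.en3 _ _ hl).2]
    exact Set.mem_range_self _
  · rcases Set.eq_empty_or_nonempty ({z | ∃ k y, atN D N k y l i ∧ cS D W k y = z} ∩
      {y | T.dt (xS Rt l i) y = θ}) with h0 | ⟨z, ⟨k, y, h, rfl⟩, hz⟩
    · have : T.cp (xS Rt l i) {z | ∃ k y, atN D N k y l i ∧ cS D W k y = z} θ = 0 := by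
        unfold Typ.cp
        rw [h0, Set.ncard_empty]
      rw [this]
      exact Nat.zero_le _
    · have h1 : T.cp (xS Rt l i) {z | ∃ k y, atN D N k y l i ∧ cS D W k y = z} θ ≤ 1 := by
        unfold Typ.cp
        rw [Set.ncard_le_one (Set.toFinite _)]
        rintro z1 ⟨⟨k1, y1, a1, rfl⟩, b1⟩ z2 ⟨⟨k2, y2, a2, rfl⟩, b2⟩
        have b1' : T.dt (xS Rt l i) (cS D W k1 y1) = θ := b1
        have b2' : T.dt (xS Rt l i) (cS D W k2 y2) = θ := b2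
        obtain ⟨rfl, rfl⟩ := NLb_eq hL l i hi k1 y1 k2 y2 a1 a2 (by rw [b1', b2'])
        rfl
      have h2 := NLb_pos hL l i hi k y h
      have hz' : T.dt (xS Rt l i) (cS D W k y) = θ := hz
      rw [hz'] at h2
      exact h1.trans h2

end Pool.Agent.LHC
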