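import Pool.Agent.LHC.Defs
import Pool.Agent.LHA.Nb1
import Pool.Agent.LHB.Xt

/-!
# Reversing, mapping and extending walks

`rch_rev`: `rch_seq` with the reversed sequence `g' p = g (m + 1 - p)` (for `p ≤ m + 1`; elsewhere anything). `rch_map`: induction on `m`, or `rch_seq` with `φ ∘ g`.
`xt_ext`: let `h` be the sequence of `LHB.xt` for `(g m, g (m + 1))`; `G j = g j` for `j ≤ m`, `G j = h (j - m)` for `j ≥ m` (they agree at `m`). Adjacent: clear. `G j ≠ G (j + 2)`: for `j + 2 ≤ m + 1` by `hn`, for `j ≥ m` by `xt`, and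
`j + 1 = m`: `G (j + 2) = h 1 = g (m + 1)`, this is `hn` with `j = m - 1 < m`.
`xt_rch`: `rch_seq` and `xt_ext`.
-/

namespace Pool.Agent.LHC

open Pool.Agent.LIH Pool.Agent.LHA Pool.Agent.LHB

variable {V : Type} {H : SimpleGraph V}

theorem rch_rev {m : ℕ} {x y a b : V} (h : H.Adj x y) (hr : Rch H m x y a b) :
    Rch H m b a y x := by
  obtain ⟨g, g0, g1, gm, gm1, hadj, hne⟩ := (rch_seq h).1 hr
  refine (rch_seq (rch_adj h hr).symm).2 ⟨fun p => g (m + 1 - p), by simp [gm1], ?_, ?_, ?_, ?_, ?_⟩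
  · show g (m + 1 - 1) = a
    rw [Nat.add_sub_cancel, gm]
  · show g (m + 1 - m) = y
    rw [Nat.add_sub_cancel_left, g1]
  · show g (m + 1 - (m + 1)) = x
    rw [Nat.sub_self, g0]
  · intro p hp
    show H.Adj (g (m + 1 - p)) (g (m + 1 - (p + 1)))
    have h1 := hadj (m - p) (by omega)
    rw [show m + 1 - p = m - p + 1 by omega, show m + 1 - (p + 1) = m - p by omega]
    exact h1.symm
  · intro p hp
    show g (m + 1 - p) ≠ g (m + 1 - (p + 2))
    have h1 := hne (m - 1 - p) (by omega)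
    rw [show m + 1 - p = m - 1 - p + 2 by omega, show m + 1 - (p + 2) = m - 1 - p by omega]
    exact h1.symm

theorem rch_map (φ : H ≃g H) {m : ℕ} {x y a b : V} (hr : Rch H m x y a b) :
    Rch H m (φ x) (φ y) (φ a) (φ b) := by
  induction m generalizing a b with
  | zero =>
    obtain ⟨rfl, rfl⟩ := hr
    exact ⟨rfl, rfl⟩
  | succ m ih =>
    obtain ⟨z, h1, h2, h3⟩ := hr
    exact ⟨φ z, ih h1, φ.map_adj_iff.2 h2, fun e => h3 (φ.injective e)⟩

theorem xt_ext (h3 : ∀ v, 3 ≤ (H.neighborSet v).ncard) {m : ℕ} {g : ℕ → V}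
    (ha : ∀ j, j ≤ m → H.Adj (g j) (g (j + 1))) (hn : ∀ j, j < m → g j ≠ g (j + 2)) :
    ∃ G : ℕ → V, (∀ j, j ≤ m + 1 → G j = g j) ∧ (∀ j, H.Adj (G j) (G (j + 1))) ∧
      ∀ j, G j ≠ G (j + 2) := by
  obtain ⟨k, k0, k1, ka, kn⟩ := xt h3 (ha m le_rfl)
  obtain ⟨G, hG⟩ : ∃ G : ℕ → V, G = fun j => if j ≤ m then g j else k (j - m) := ⟨_, rfl⟩
  have e1 : ∀ j, j ≤ m → G j = g j := fun j hj => by rw [hG]; simp only [hj, if_true]
  have e2 : ∀ j, m ≤ j → G j = k (j - m) := by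
    intro j hj
    rcases Nat.lt_or_ge m j with h | h
    · rw [hG]
      simp only [show ¬ j ≤ m by omega, if_false]
    · obtain rfl : j = m := by omega
      rw [e1 _ le_rfl, Nat.sub_self, k0]
  have e3 : G (m + 1) = g (m + 1) := by
    rw [e2 (m + 1) (by omega), Nat.add_sub_cancel_left, k1]
  refine ⟨G, ?_, ?_, ?_⟩
  · intro j hj
    rcases Nat.lt_or_ge m j with h | h
    · obtain rfl : j = m + 1 := by omega
      exact e3
    · exact e1 j h
  · intro j
    rcases Nat.lt_or_ge j m with h | h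
    · rw [e1 j h.le, e1 (j + 1) h]
      exact ha j h.le
    · rw [e2 j h, e2 (j + 1) (by omega), show j + 1 - m = j - m + 1 by omega]
      exact ka _
  · intro j
    rcases Nat.lt_or_ge j m with h | h
    · rw [e1 j h.le]
      have : G (j + 2) = g (j + 2) := by
        rcases Nat.lt_or_ge m (j + 2) with h' | h'
        · have : j + 2 = m + 1 := by omega
          rw [this]
          exact e3
        · exact e1 _ h'
      rw [this]
      exact hn j h
    · rw [e2 j h, e2 (j + 2) (by omega), show j + 2 - m = j - m + 2 by omega]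
      exact kn _

theorem xt_rch (h3 : ∀ v, 3 ≤ (H.neighborSet v).ncard) {m : ℕ} {x y a b : V} (h : H.Adj x y)
    (hr : Rch H m x y a b) : ∃ G : ℕ → V, G 0 = x ∧ G 1 = y ∧ G m = a ∧ G (m + 1) = b ∧
      (∀ j, H.Adj (G j) (G (j + 1))) ∧ ∀ j, G j ≠ G (j + 2) := by
  obtain ⟨g, g0, g1, gm, gm1, hadj, hne⟩ := (rch_seq h).1 hr
  obtain ⟨G, hG, h4, h5⟩ := xt_ext h3 hadj hne
  exact ⟨G, by rw [hG 0 (by omega), g0], by rw [hG 1 (by omega), g1], by rw [hG m (by omega), gm],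
    by rw [hG (m + 1) le_rfl, gm1], h4, h5⟩

end Pool.Agent.LHC
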