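import Pool.Agent.LHC.Defs
import Pool.Agent.LHC.StB
import Pool.Agent.LHC.RvR
import Pool.Agent.LHA.Nb1
import Pool.Agent.LHC.NTy

/-!
# The arms 2 and 3

`R b i`: `σ` and `f', y'` with `f' ∼ v`, `T.dt v f' = T.dt v (f σ)`, `T.dt X y' = T.dt X (w (!b))`, `Rch j v f' y' X`; `f'', y''` with `f'' ∼ v`, `T.dt v f'' = T.dt v (f (!σ))`, `T.dt X y'' = T.dt X (Y i)`, `Rch j v f'' y'' X`. `styp_dt`: `τ` with `τ X = X`, `τ y'' = Y i`. Apply `τ` to everything (`rch_map`, `styp_map`). `p`: `rch_rev` of the first walk: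
`Rch j X (τ y') (τ f') (τ v)`, so `xt_rch` gives `p 0 = X`, `p 1 = τ y'`, `p j = τ f'`, `p (j+1) = τ v`. `q`: `xt_rch` for `Rch j (τ v) (τ f'') (Y i) X`: `q 0 = τ v`, `q 1 = τ f''`, `q j = Y i`, `q (j+1) = X`.
-/

namespace Pool.Agent.LHC

open Pool.Agent.LIH Pool.Agent.LHA Pool.Agent.LHB

theorem arms23 {V : Type} {H : SimpleGraph V} {T : Typ H} (D : SK T) (hT : STyp H D.X T)
    (h3 : ∀ v, 3 ≤ (H.neighborSet v).ncard) {b : Bool} {i : Fin 3} (h : D.R b i) :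
    ∃ (p q : ℕ → V) (σ : Bool),
      (∀ j, H.Adj (p j) (p (j + 1)) ∧ H.Adj (q j) (q (j + 1))) ∧
      (∀ j, p j ≠ p (j + 2) ∧ q j ≠ q (j + 2)) ∧ p 0 = D.X ∧
      T.dt D.X (p 1) = T.dt D.X (D.w (!b)) ∧ p (D.j + 1) = q 0 ∧ T.vt (q 0) = T.vt D.v ∧
      T.dt (q 0) (p D.j) = T.dt D.v (D.f σ) ∧ T.dt (q 0) (q 1) = T.dt D.v (D.f (!σ)) ∧
      q D.j = D.Y i ∧ q (D.j + 1) = D.X := by
  obtain ⟨σ, ⟨f', y', ha', hd', hy', hr'⟩, ⟨f'', y'', ha'', hd'', hy'', hr''⟩⟩ := h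
  obtain ⟨τ, hτX, -, hτY⟩ := styp_dt hT hy''
  have h1 : Rch H D.j (τ D.X) (τ y') (τ f') (τ D.v) := rch_map τ (rch_rev ha' hr')
  have h2 : Rch H D.j (τ D.v) (τ f'') (τ y'') (τ D.X) := rch_map τ hr''
  have a1 : H.Adj (τ D.X) (τ y') := τ.map_rel_iff.2 (rch_adj ha' hr').symm
  have a2 : H.Adj (τ D.v) (τ f'') := τ.map_rel_iff.2 ha''
  obtain ⟨p, p0, p1, pj, pj1, pa, pn⟩ := xt_rch h3 a1 h1
  obtain ⟨q, q0, q1, qj, qj1, qa, qn⟩ := xt_rch h3 a2 h2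
  refine ⟨p, q, σ, fun j => ⟨pa j, qa j⟩, fun j => ⟨pn j, qn j⟩, by rw [p0, hτX], ?_, ?_, ?_, ?_,
    ?_, ?_, ?_⟩
  · rw [p1]
    have := (styp_map hT hτX D.X y').2
    rw [hτX] at this
    rw [this, hy']
  · rw [pj1, q0]
  · rw [q0]
    exact (styp_map hT hτX D.v y').1
  · rw [q0, pj, (styp_map hT hτX D.v f').2, hd']
  · rw [q0, q1, (styp_map hT hτX D.v f'').2, hd'']
  · rw [qj, hτY]
  · rw [qj1, hτX]

end Pool.Agent.LHC
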