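import Pool.Agent.LHC.Defs
import Pool.Agent.LHC.StB

/-!
# The automorphisms along the chain

`T.vt (g0 b (m1+1)) = T.vt (g0 b' (m1+1))` for all `b, b'` (`vt_u`), so by `styp_vt` there is `τ0 b b'` with `τ0 X = X`, `τ0 (g0 b' (m1+1)) = g0 b (m1+1)`; likewise `τ1 b b'` for `g1`, `m2`. `γ 0` = identity, `γ (k+1) = τ.trans (γ k)` (i.e. `x ↦ γ k (τ x)`) with `τ = τ0 (s k) (s (k+1))` for `k` even and `τ1 (s k) (s (k+1))` for `k` odd.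
-/

namespace Pool.Agent.LHC

open Pool.Agent.LIH Pool.Agent.LHA Pool.Agent.LHB

theorem chain_aut {V : Type} {H : SimpleGraph V} {T : Typ H} (D : SK T) (hT : STyp H D.X T)
    (s : ℕ → Bool) : ∃ γ : ℕ → (H ≃g H), (∀ k, γ k D.X = D.X) ∧
      (∀ k, k % 2 = 0 → γ k (D.g0 (s k) (D.m1 + 1)) = γ (k + 1) (D.g0 (s (k + 1)) (D.m1 + 1))) ∧
      ∀ k, k % 2 = 1 → γ k (D.g1 (s k) (D.m2 + 1)) = γ (k + 1) (D.g1 (s (k + 1)) (D.m2 + 1)) := by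
  have hv0 : ∀ b b', T.vt (D.g0 b (D.m1 + 1)) = T.vt (D.g0 b' (D.m1 + 1)) := by
    intro b b'
    cases b <;> cases b' <;> first | rfl | exact D.vt_u | exact D.vt_u.symm
  have hv1 : ∀ b b', T.vt (D.g1 b (D.m2 + 1)) = T.vt (D.g1 b' (D.m2 + 1)) := by
    intro b b'
    cases b <;> cases b' <;> first | rfl | exact D.vt_U | exact D.vt_U.symm
  have ht : ∀ k, ∃ τ : H ≃g H, τ D.X = D.X ∧
      (k % 2 = 0 → τ (D.g0 (s (k + 1)) (D.m1 + 1)) = D.g0 (s k) (D.m1 + 1)) ∧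
      (k % 2 = 1 → τ (D.g1 (s (k + 1)) (D.m2 + 1)) = D.g1 (s k) (D.m2 + 1)) := by
    intro k
    rcases Nat.mod_two_eq_zero_or_one k with hk | hk
    · obtain ⟨τ, h1, h2⟩ := styp_vt hT (hv0 (s (k + 1)) (s k))
      exact ⟨τ, h1, fun _ => h2, fun h => by omega⟩
    · obtain ⟨τ, h1, h2⟩ := styp_vt hT (hv1 (s (k + 1)) (s k))
      exact ⟨τ, h1, fun h => by omega, fun _ => h2⟩
  choose τ h1 h2 h3 using ht
  obtain ⟨γ, hγ0, hγ⟩ : ∃ γ : ℕ → (H ≃g H), (∀ x, γ 0 x = x) ∧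
      ∀ k x, γ (k + 1) x = γ k (τ k x) := by
    refine ⟨fun k => Nat.rec (motive := fun _ => H ≃g H) (SimpleGraph.Iso.refl)
      (fun k g => (τ k).trans g) k, fun x => rfl, fun k x => rfl⟩
  refine ⟨γ, ?_, ?_, ?_⟩
  · intro k
    induction k with
    | zero => exact hγ0 _
    | succ k ih => rw [hγ, h1, ih]
  · intro k hk
    rw [hγ, h2 k hk]
  · intro k hk
    rw [hγ, h3 k hk]

end Pool.Agent.LHC
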