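import Pool.Agent.LHC.Defs
import Pool.Agent.LHC.StB
import Pool.Agent.LHC.RvR
import Pool.Agent.LHC.NAp
import Pool.Agent.LHC.NTy
import Pool.Agent.LHC.NCh
import Pool.Agent.LHC.NCa
import Pool.Agent.LHA.Net3

/-!
# The layout given by a solution

Let `s, y0` be a solution of `N = ntw3 Nv L lt` (`N.K = KK Nv L`, `N.lk = lk3 Nv L lt`). Let `y k = y0 k` if `k` is linked (`∃ l, lk 2 k l`), otherwise `y k = 1` if `s k = false`, `y k = 0` if `s k = true`; then `R (s k) (y k)` for all `k` (`R_vals`). `γ` from `chain_aut` for `s`. Extend the reference walks (`xt_ext` with `adj0`, `nb0`, `adj1`, `nb1`): `G0 b, G1 b : ℕ → V` with `G0 b j = g0 b j` for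
`j ≤ m1 + 1`, `G1 b j = g1 b j` for `j ≤ m2 + 1`. `p k, q k, σ k` from `arms23`. `W 0 k 0 = X`, `W 0 k (j+1) = γ k (G0 (s k) j)`; `W 1 k j = γ k (G1 (s k) j)`; `W 2 k = p k`; `W 3 k = q k`. `Rt k 0 = Rt k 3 = X`, `Rt k 1 = γ k (g0 (s k) (m1+1))`, `Rt k 2 = γ k (g1 (s k) (m2+1))`, `Rt k 4 = q k 0`.
`adj`, `nb` for `q = 0`: `G0 b 0 = w b`, `adj_w`, `G0 b 1 = g0 b 1 ≠ X` (`ne_X0`), `γ k X = X`. `st1`: `G1 b 0 = w b = G0 b 0`, `ne_X1`, `ne_01`. `ty0`: `styp_map`. `vt1`, `vt2`: `styp_map`, `vt_u`, `vt_U`. `en0`: `lk 0 k l`: `l = k - k % 2`: for `k` even `l = k`; for `k` odd `l + 1 = k` and `l` is even, `chain_aut`. The type: `styp_map`. `en1`: `lk 1 k l`: `l = k`, or `l + 1 = k`, `k` even, so `l` is odd: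
`chain_aut`. `en3`: `y k = y0 k`. `dif`, `dif3`: from the solution. `dom`, `fn`: `N.dom`, `N.fn`.
-/

namespace Pool.Agent.LHC

open Pool.Agent.LIH Pool.Agent.LHA Pool.Agent.LHB

/-- the walks of the layout -/
def NLx_W {V : Type} (X : V) (A B P Q : ℕ → ℕ → V) : Fin 4 → ℕ → ℕ → V
  | 0, _, 0 => X
  | 0, k, j + 1 => A k j
  | 1, k, j => B k j
  | 2, k, j => P k j
  | 3, k, j => Q k j

/-- the values of the roots of the layout -/
def NLx_R {V : Type} (X : V) (a b c : ℕ → V) (l : ℕ) : Fin 5 → V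
  | 0 => X
  | 1 => a l
  | 2 => b l
  | 3 => X
  | 4 => c l

theorem lay_exists {V : Type} {H : SimpleGraph V} {T : Typ H} (D : SK T)
    (hT : STyp H D.X T) (h3 : ∀ v, 3 ≤ (H.neighborSet v).ncard) (Nv L : ℕ) (lt : ℕ → ℕ)
    (h : Sol D.R (ntw3 Nv L lt)) : ∃ (W : Fin 4 → ℕ → ℕ → V) (Rt : ℕ → Fin 5 → V)
      (s : ℕ → Bool) (y : ℕ → Fin 3),
      LayS D (ntw3 Nv L lt).K (ntw3 Nv L lt).lk W Rt s y := by
  classical
  obtain ⟨s, y0, hs1, hs2, hs3⟩ := h
  obtain ⟨hR0, hR1, hR2, hR3⟩ := D.R_vals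
  obtain ⟨y, hy⟩ : ∃ y : ℕ → Fin 3, ∀ k, y k = if (∃ l, (ntw3 Nv L lt).lk 2 k l) then y0 k
    else (if s k = true then 0 else 1) := ⟨_, fun _ => rfl⟩
  have hyl : ∀ k l, (ntw3 Nv L lt).lk 2 k l → y k = y0 k := by
    intro k l hl
    rw [hy, if_pos ⟨l, hl⟩]
  have hRy : ∀ k, D.R (s k) (y k) := by
    intro k
    by_cases hk : ∃ l, (ntw3 Nv L lt).lk 2 k l
    · obtain ⟨l, hl⟩ := hk
      rw [hyl k l hl]
      exact hs2 k l hl
    · rw [hy, if_neg hk]
      cases hsk : s k with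
      | true => rw [if_pos rfl]; exact hR3
      | false =>
        rw [if_neg (by decide)]
        exact hR1
  obtain ⟨γ, hγX, hγ0, hγ1⟩ := chain_aut D hT s
  have hG0 := fun b => xt_ext h3 (m := D.m1) (g := D.g0 b) (D.adj0 b) (D.nb0 b)
  have hG1 := fun b => xt_ext h3 (m := D.m2) (g := D.g1 b) (D.adj1 b) (D.nb1 b)
  choose G0 e0 a0 n0 using hG0
  choose G1 e1 a1 n1 using hG1
  have harm := fun k => arms23 D hT h3 (hRy k)
  choose P Q σ hadj hnb hP0 hP1 hPQ hQv hQp hQq hQY hQX using harm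
  have hmap : ∀ k x x', H.Adj x x' → H.Adj (γ k x) (γ k x') := fun k x x' hx =>
    (SimpleGraph.Iso.map_adj_iff (γ k)).2 hx
  have hinj : ∀ k x x', x ≠ x' → γ k x ≠ γ k x' := fun k x x' hx hx' =>
    hx ((γ k).injective hx')
  have hG00 : ∀ b, G0 b 0 = D.w b := fun b => (e0 b 0 (Nat.zero_le _)).trans (D.g0_0 b)
  have hG10 : ∀ b, G1 b 0 = D.w b := fun b => (e1 b 0 (Nat.zero_le _)).trans (D.g1_0 b)
  have hG01 : ∀ b, G0 b 1 = D.g0 b 1 := fun b => e0 b 1 (by omega)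
  have hG11 : ∀ b, G1 b 1 = D.g1 b 1 := fun b => e1 b 1 (by omega)
  have hv0 : ∀ b, T.vt (D.g0 b (D.m1 + 1)) = T.vt (D.g0 true (D.m1 + 1)) := by
    intro b
    cases b
    · exact D.vt_u.symm
    · rfl
  have hv1 : ∀ b, T.vt (D.g1 b (D.m2 + 1)) = T.vt (D.g1 true (D.m2 + 1)) := by
    intro b
    cases b
    · exact D.vt_U.symm
    · rfl
  refine ⟨NLx_W D.X (fun k j => γ k (G0 (s k) j)) (fun k j => γ k (G1 (s k) j)) P Q,
    NLx_R D.X (fun l => γ l (D.g0 (s l) (D.m1 + 1))) (fun l => γ l (D.g1 (s l) (D.m2 + 1)))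
      (fun l => Q l 0), s, y, ?_⟩
  refine
    { dom := (ntw3 Nv L lt).dom
      fn := (ntw3 Nv L lt).fn
      adj := ?_
      nb := ?_
      st := ?_
      st1 := ?_
      ty0 := ?_
      ty4 := ?_
      vt1 := ?_
      vt2 := ?_
      en0 := ?_
      en1 := ?_
      en3 := ?_
      dif := ?_
      dif3 := ?_ }
  · intro q k j _
    fin_cases q
    · cases j with
      | zero =>
        show H.Adj D.X (γ k (G0 (s k) 0))
        have := hmap k _ _ (D.adj_w (s k))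
        rwa [hγX, ← hG00] at this
      | succ j => exact hmap k _ _ (a0 (s k) j)
    · exact hmap k _ _ (a1 (s k) j)
    · exact (hadj k j).1
    · exact (hadj k j).2
  · intro q k j _
    fin_cases q
    · cases j with
      | zero =>
        show D.X ≠ γ k (G0 (s k) 1)
        have := hinj k _ _ (D.ne_X0 (s k))
        rw [hγX, ← hG01] at this
        exact this.symm
      | succ j => exact hinj k _ _ (n0 (s k) j)
    · exact hinj k _ _ (n1 (s k) j)
    · exact (hnb k j).1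
    · exact (hnb k j).2
  · intro k _
    exact ⟨rfl, rfl, rfl, hP0 k, hPQ k, rfl⟩
  · intro k _
    refine ⟨?_, ?_, ?_⟩
    · show γ k (G1 (s k) 0) = γ k (G0 (s k) 0)
      rw [hG00, hG10]
    · show γ k (G1 (s k) 1) ≠ D.X
      have := hinj k _ _ (D.ne_X1 (s k))
      rwa [hγX, ← hG11] at this
    · show γ k (G1 (s k) 1) ≠ γ k (G0 (s k) 1)
      rw [hG11, hG01]
      exact (hinj k _ _ (D.ne_01 (s k))).symm
  · intro k _
    refine ⟨?_, hP1 k⟩
    show T.dt D.X (γ k (G0 (s k) 0)) = _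
    rw [hG00]
    have := (styp_map hT (hγX k) D.X (D.w (s k))).2
    rwa [hγX] at this
  · intro k _
    exact ⟨hQv k, σ k, hQp k, hQq k⟩
  · intro l _
    show T.vt (γ l (D.g0 (s l) (D.m1 + 1))) = _
    rw [(styp_map hT (hγX l) (D.g0 (s l) (D.m1 + 1)) D.X).1]
    exact hv0 _
  · intro l _
    show T.vt (γ l (D.g1 (s l) (D.m2 + 1))) = _
    rw [(styp_map hT (hγX l) (D.g1 (s l) (D.m2 + 1)) D.X).1]
    exact hv1 _
  · intro k l hkl
    have hl : l = k - k % 2 := hkl.2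
    have hroot : γ l (D.g0 (s l) (D.m1 + 1)) = γ k (D.g0 (s k) (D.m1 + 1)) := by
      rcases Nat.mod_two_eq_zero_or_one k with hk | hk
      · have : l = k := by omega
        rw [this]
      · have h5 : k = l + 1 := by omega
        have h6 : l % 2 = 0 := by omega
        rw [h5]
        exact hγ0 l h6
    refine ⟨?_, ?_⟩
    · show γ k (G0 (s k) (D.m1 + 1)) = γ l (D.g0 (s l) (D.m1 + 1))
      rw [hroot, e0 _ _ le_rfl]
    · show T.dt (γ l (D.g0 (s l) (D.m1 + 1))) (γ k (G0 (s k) D.m1)) = _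
      rw [hroot, e0 _ _ (Nat.le_succ _)]
      exact (styp_map hT (hγX k) _ _).2
  · intro k l hkl
    have hl := hkl.2
    have hroot : γ l (D.g1 (s l) (D.m2 + 1)) = γ k (D.g1 (s k) (D.m2 + 1)) := by
      rcases hl with ⟨hl, _⟩ | ⟨hl, _, hk⟩
      · rw [hl]
      · have h6 : l % 2 = 1 := by omega
        rw [← hl]
        exact hγ1 l h6
    refine ⟨?_, ?_⟩
    · show γ k (G1 (s k) (D.m2 + 1)) = γ l (D.g1 (s l) (D.m2 + 1))
      rw [hroot, e1 _ _ le_rfl]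
    · show T.dt (γ l (D.g1 (s l) (D.m2 + 1))) (γ k (G1 (s k) D.m2)) = _
      rw [hroot, e1 _ _ (Nat.le_succ _)]
      exact (styp_map hT (hγX k) _ _).2
  · intro k l _
    exact ⟨hQX k, hQY k⟩
  · intro i k k' l hi h1 h2 hk
    exact hs1 i k k' l hi hk h1 h2
  · intro k k' l h1 h2 hk
    rw [hyl k l h1, hyl k' l h2]
    exact hs3 k k' l hk h1 h2

end Pool.Agent.LHC
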