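import Pool.Agent.LHC.Defs
import Pool.Agent.LHA.Nb1
import Pool.Agent.LHC.NAp

/-!
# The walks along the arms

Compare `LHB/SArm.lean`. The attachments (`atN D N k y l i` is `atZ D N.lk k.1 y l.1 i`): `fv 0 0`, `fv 2 0` to the root 0 of the same cell; `fv 2 (j-1)`, `fv 3 0` to the root 4 of the same cell; `fv 0 m1` to the root 1, `en1` to the root 2, `fv 3 (j-1)` to the root 3 of the linked cells.
`arm0`: the sequence `g p = c k (fv 0 p)` (`p ≤ m1`), `g p = x l 1` (`p ≥ m1 + 1`) satisfies `rch_seq`: adjacent by `hom`, `B_arm` and `adj`; `g p ≠ g (p+2)` by `inj` at `fv 0 (p+1)`, and for `p + 2 = m1 + 1` by `ne` at `fv 0 m1`. `z = g 1`; `z ≠ x k 0`: `0 < m1`: `ne` at `fv 0 0`; `m1 = 0`: `ne'` at `fv 0 0` (attached to the root 0 and to the root 1). `arm1`: `m2 = 0`: `en1 = fv 0 0`,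
`z = x l 2`, `ne'`. `0 < m2`: `g 0 = c k (fv 0 0)`, `g (p+1) = c k (fv 1 p)` (`p < m2`), `g p = x l 2` for `p ≥ m2 + 1`; `B_01`, `B_arm`. `arm_ne`: `inj` at `fv 0 0`; `ne`; `ne'` (`1 ≠ 2`).
`arm2`: `g 0 = x k 4`, `g p = c k (fv 2 (j - p))` (`1 ≤ p ≤ j`), `g p = x k 0` for `p ≥ j + 1`; `ne` at `fv 2 (j-1)` and at `fv 2 0`; for `j = 1` `ne'` at `fv 2 0` (roots 0 and 4). `arm3`: `g 0 = x k 4`, `g p = c k (fv 3 (p - 1))` (`1 ≤ p ≤ j`), `g p = x l 3` for `p ≥ j + 1`.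
-/

namespace Pool.Agent.LHC

open Pool.Agent.LIH Pool.Agent.LHA Pool.Agent.LHB

theorem NS1_walk {V : Type} {H : SimpleGraph V} (n : ℕ) (u : ℕ → V) (w : V)
    (h1 : ∀ p < n, H.Adj (u p) (u (p + 1))) (h2 : ∀ p, p + 1 < n → u p ≠ u (p + 2))
    (h3 : H.Adj (u n) w) (h4 : 0 < n → u (n - 1) ≠ w) :
    ∃ z, H.Adj (u 0) z ∧ Rch H n (u 0) z (u n) w ∧ (0 < n → z = u 1) ∧ (n = 0 → z = w) := by
  have h5 : ∀ p ≤ n, H.Adj (if p ≤ n then u p else w) (if p + 1 ≤ n then u (p + 1) else w) := by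
    intro p hp
    rw [if_pos hp]
    split_ifs with h
    · exact h1 p h
    · obtain rfl : p = n := by omega
      exact h3
  have h6 : H.Adj (u 0) (if 1 ≤ n then u 1 else w) := by
    have := h5 0 (Nat.zero_le _)
    rwa [if_pos (Nat.zero_le _)] at this
  refine ⟨if 1 ≤ n then u 1 else w, h6, (rch_seq h6).2 ⟨fun p => if p ≤ n then u p else w, ?_, rfl,
    ?_, ?_, h5, ?_⟩, ?_, ?_⟩
  · exact if_pos (Nat.zero_le _)
  · exact if_pos le_rfl
  · exact if_neg (by omega)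
  · intro p hp
    show (if p ≤ n then u p else w) ≠ (if p + 2 ≤ n then u (p + 2) else w)
    rw [if_pos hp.le]
    split_ifs with h
    · exact h2 p (by omega)
    · have hp' : p = n - 1 := by omega
      rw [hp']
      exact h4 (by omega)
  · intro h
    exact if_pos h
  · intro h
    exact if_neg (by omega)

variable {V : Type} {H : SimpleGraph V} {T : Typ H} {D : SK T} {N : Ntw}
  {c : Fin N.K → (Fin 4 × Fin D.len) → V} {x : Fin N.K → Fin 5 → V}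

theorem NS1_at1 {k l : Fin N.K} (hl : N.lk 0 k.1 l.1) : atN D N k (D.fv 0 D.m1) l 1 :=
  Or.inr (Or.inr (Or.inl ⟨rfl, rfl, hl⟩))

theorem NS1_at2 {k l : Fin N.K} (hl : N.lk 1 k.1 l.1) : atN D N k D.en1 l 2 :=
  Or.inr (Or.inr (Or.inr (Or.inl ⟨rfl, rfl, hl⟩)))

theorem NS1_at3 {k l : Fin N.K} (hl : N.lk 2 k.1 l.1) : atN D N k (D.fv 3 (D.j - 1)) l 3 :=
  Or.inr (Or.inr (Or.inr (Or.inr ⟨rfl, rfl, hl⟩)))

theorem NS1_at0 {k : Fin N.K} : atN D N k (D.fv 0 0) k 0 := Or.inl ⟨rfl, rfl, Or.inl rfl⟩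

theorem NS1_at02 {k : Fin N.K} : atN D N k (D.fv 2 0) k 0 := Or.inl ⟨rfl, rfl, Or.inr rfl⟩

theorem NS1_at42 {k : Fin N.K} : atN D N k (D.fv 2 (D.j - 1)) k 4 :=
  Or.inr (Or.inl ⟨rfl, rfl, Or.inl rfl⟩)

theorem NS1_at43 {k : Fin N.K} : atN D N k (D.fv 3 0) k 4 := Or.inr (Or.inl ⟨rfl, rfl, Or.inr rfl⟩)

theorem NS1_en1 : D.en1 = if D.m2 = 0 then D.fv 0 0 else D.fv 1 (D.m2 - 1) := rfl

theorem NS1_L0 : D.L 0 = D.m1 + 1 := rfl

theorem NS1_L1 : D.L 1 = D.m2 := rfl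

theorem NS1_L2 : D.L 2 = D.j := rfl

theorem NS1_L3 : D.L 3 = D.j := rfl

theorem arm0 (hc : GoodS T D.a D.F D.B (atN D N) c x) {k l : Fin N.K}
    (hl : N.lk 0 k.1 l.1) : H.Adj (x k 0) (c k (D.fv 0 0)) ∧
      ∃ z, H.Adj (c k (D.fv 0 0)) z ∧ z ≠ x k 0 ∧
        Rch H D.m1 (c k (D.fv 0 0)) z (c k (D.fv 0 D.m1)) (x l 1) ∧
        (0 < D.m1 → z = c k (D.fv 0 1)) ∧ (D.m1 = 0 → z = x l 1) := by
  have hi : atN D N k (D.fv 0 0) k 0 := NS1_at0
  refine ⟨hc.adj _ _ _ _ hi, ?_⟩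
  have hL : D.L 0 = D.m1 + 1 := NS1_L0
  have hat : atN D N k (D.fv 0 D.m1) l 1 := NS1_at1 hl
  have hB : ∀ p < D.m1, D.B.Adj (D.fv 0 p) (D.fv 0 (p + 1)) := fun p hp =>
    D.B_arm 0 (by omega)
  obtain ⟨z, hz1, hz2, hz3, hz4⟩ := NS1_walk (H := H) D.m1 (fun p => c k (D.fv 0 p)) (x l 1)
    (fun p hp => hc.hom _ _ _ (hB p hp)) (by
      intro p hp he
      have h1 := hc.inj k (D.fv 0 (p + 1)) (D.fv 0 p) (D.fv 0 (p + 2)) (hB p (by omega)).symm
        (hB (p + 1) (by omega)) he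
      have h2 := (D.fv_inj (by omega) (by omega) h1).2
      omega) (hc.adj _ _ _ _ hat).symm (by
      intro h0
      have h1 := hB (D.m1 - 1) (by omega)
      rw [Nat.sub_add_cancel h0] at h1
      exact hc.ne _ _ _ _ _ h1.symm hat)
  refine ⟨z, hz1, ?_, hz2, hz3, hz4⟩
  rcases Nat.eq_zero_or_pos D.m1 with h0 | h0
  · rw [hz4 h0]
    intro he
    rw [h0] at hat
    exact absurd (hc.ne' _ _ _ _ _ _ hat hi he).2 (by decide)
  · rw [hz3 h0]
    exact hc.ne _ _ _ _ _ (hB 0 h0) hi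

theorem arm1 (hc : GoodS T D.a D.F D.B (atN D N) c x) {k l : Fin N.K}
    (hl : N.lk 1 k.1 l.1) :
    ∃ z, H.Adj (c k (D.fv 0 0)) z ∧ z ≠ x k 0 ∧
      Rch H D.m2 (c k (D.fv 0 0)) z (c k D.en1) (x l 2) ∧
      (0 < D.m2 → z = c k (D.fv 1 0)) ∧ (D.m2 = 0 → z = x l 2) := by
  have hat : atN D N k D.en1 l 2 := NS1_at2 hl
  have hi : atN D N k (D.fv 0 0) k 0 := NS1_at0
  rcases Nat.eq_zero_or_pos D.m2 with h0 | h0
  · have hen : D.en1 = D.fv 0 0 := by rw [NS1_en1, if_pos h0]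
    rw [hen] at hat
    refine ⟨x l 2, (hc.adj _ _ _ _ hat).symm, ?_, ?_, fun h => absurd h (by omega), fun _ => rfl⟩
    · intro he
      have := (hc.ne' _ _ _ _ _ _ hat hi he).2
      exact absurd this (by decide)
    · rw [hen, h0]
      exact ⟨rfl, rfl⟩
  · have hen : D.en1 = D.fv 1 (D.m2 - 1) := by rw [NS1_en1, if_neg (by omega)]
    have hL : D.L 1 = D.m2 := NS1_L1
    have hL0 : D.L 0 = D.m1 + 1 := NS1_L0
    have hB : ∀ p, p + 1 < D.m2 → D.B.Adj (D.fv 1 p) (D.fv 1 (p + 1)) := fun p hp =>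
      D.B_arm 1 (by omega)
    have hB0 : D.B.Adj (D.fv 0 0) (D.fv 1 0) := D.B_01 h0
    obtain ⟨u, hu0, hu1⟩ : ∃ u : ℕ → (Fin 4 × Fin D.len), u 0 = D.fv 0 0 ∧
        ∀ p, u (p + 1) = D.fv 1 p :=
      ⟨fun p => if p = 0 then D.fv 0 0 else D.fv 1 (p - 1), if_pos rfl, fun p => by simp⟩
    have hBu : ∀ p < D.m2, D.B.Adj (u p) (u (p + 1)) := by
      intro p hp
      rcases p with _ | p
      · rw [hu0, hu1]; exact hB0
      · rw [hu1, hu1]; exact hB p hp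
    have hune : ∀ p, p + 1 < D.m2 → u p ≠ u (p + 2) := by
      intro p hp he
      rcases p with _ | p
      · rw [hu0, hu1] at he
        have := (D.fv_inj (by omega) (by omega) he).1
        exact absurd this (by decide)
      · rw [hu1, hu1] at he
        have := (D.fv_inj (by omega) (by omega) he).2
        omega
    have hum : u D.m2 = D.en1 := by
      rw [hen, ← hu1, Nat.sub_add_cancel h0]
    obtain ⟨z, hz1, hz2, hz3, hz4⟩ := NS1_walk (H := H) D.m2 (fun p => c k (u p)) (x l 2)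
      (fun p hp => hc.hom _ _ _ (hBu p hp)) (by
        intro p hp he
        exact hune p hp (hc.inj k (u (p + 1)) (u p) (u (p + 2)) (hBu p (by omega)).symm
          (hBu (p + 1) (by omega)) he)) (by
        have := hc.adj _ _ _ _ hat
        show H.Adj (c k (u D.m2)) _
        rw [hum]
        exact this.symm) (by
        intro _
        have h1 := hBu (D.m2 - 1) (by omega)
        rw [Nat.sub_add_cancel h0, hum] at h1
        exact hc.ne _ _ _ _ _ h1.symm hat)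
    have e0 : z = c k (D.fv 1 0) := by
      rw [hz3 h0, ← hu1]
    refine ⟨z, ?_, ?_, ?_, fun _ => e0, hz4⟩
    · rw [← hu0]; exact hz1
    · rw [e0]
      exact hc.ne _ _ _ _ _ hB0 hi
    · rw [← hu0, ← hum]
      exact hz2

theorem arm_ne (hc : GoodS T D.a D.F D.B (atN D N) c x) {k l l' : Fin N.K}
    (hl : N.lk 0 k.1 l.1) (hl' : N.lk 1 k.1 l'.1) {z z' : V}
    (h1 : 0 < D.m1 → z = c k (D.fv 0 1)) (h2 : D.m1 = 0 → z = x l 1)
    (h3 : 0 < D.m2 → z' = c k (D.fv 1 0)) (h4 : D.m2 = 0 → z' = x l' 2) : z ≠ z' := by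
  have hL : D.L 1 = D.m2 := NS1_L1
  have hL0 : D.L 0 = D.m1 + 1 := NS1_L0
  have hen0 : D.m1 = 0 → atN D N k (D.fv 0 0) l 1 := by
    intro h
    have := NS1_at1 (D := D) hl
    rwa [h] at this
  have hen1 : D.m2 = 0 → atN D N k (D.fv 0 0) l' 2 := by
    intro h
    have := NS1_at2 (D := D) hl'
    rwa [NS1_en1, if_pos h] at this
  rcases Nat.eq_zero_or_pos D.m1 with ha | ha <;> rcases Nat.eq_zero_or_pos D.m2 with hb | hb
  · rw [h2 ha, h4 hb]
    intro he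
    exact absurd (hc.ne' _ _ _ _ _ _ (hen0 ha) (hen1 hb) he).2 (by decide)
  · rw [h2 ha, h3 hb]
    exact (hc.ne _ _ _ _ _ (D.B_01 hb) (hen0 ha)).symm
  · rw [h1 ha, h4 hb]
    exact hc.ne _ _ _ _ _ (D.B_arm 0 (p := 0) (by omega)) (hen1 hb)
  · rw [h1 ha, h3 hb]
    intro he
    have := hc.inj _ _ _ _ (D.B_arm 0 (p := 0) (by omega)) (D.B_01 hb) he
    exact absurd (D.fv_inj (by omega) (by omega) this).1 (by decide)

theorem arm2 (hc : GoodS T D.a D.F D.B (atN D N) c x) (k : Fin N.K) :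
    H.Adj (x k 4) (c k (D.fv 2 (D.j - 1))) ∧
      Rch H D.j (x k 4) (c k (D.fv 2 (D.j - 1))) (c k (D.fv 2 0)) (x k 0) := by
  have hj := D.j_pos
  have hL : D.L 2 = D.j := NS1_L2
  have ha0 : atN D N k (D.fv 2 0) k 0 := NS1_at02
  have ha4 : atN D N k (D.fv 2 (D.j - 1)) k 4 := NS1_at42
  have hB : ∀ p, p + 1 < D.j → D.B.Adj (D.fv 2 p) (D.fv 2 (p + 1)) := fun p hp =>
    D.B_arm 2 (by omega)
  refine ⟨hc.adj _ _ _ _ ha4, ?_⟩
  obtain ⟨u, hu0, hu1⟩ : ∃ u : ℕ → V, u 0 = x k 4 ∧ ∀ p, u (p + 1) = c k (D.fv 2 (D.j - (p + 1))) :=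
    ⟨fun p => if p = 0 then x k 4 else c k (D.fv 2 (D.j - p)), if_pos rfl, fun p => by simp⟩
  have huj : u D.j = c k (D.fv 2 0) := by
    obtain ⟨i, hi⟩ : ∃ i, D.j = i + 1 := ⟨D.j - 1, by omega⟩
    have := hu1 i
    rw [← hi, Nat.sub_self] at this
    exact this
  obtain ⟨z, hz1, hz2, hz3, hz4⟩ := NS1_walk (H := H) D.j u (x k 0) (by
    intro p hp
    rcases p with _ | p
    · rw [hu0, hu1]
      exact hc.adj _ _ _ _ ha4
    · rw [hu1, hu1]
      have h1 := hB (D.j - (p + 1 + 1)) (by omega)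
      rw [show D.j - (p + 1 + 1) + 1 = D.j - (p + 1) by omega] at h1
      exact (hc.hom _ _ _ h1).symm) (by
    intro p hp
    rcases p with _ | p
    · rw [hu0, hu1]
      have h1 := hB (D.j - (0 + 1 + 1)) (by omega)
      rw [show D.j - (0 + 1 + 1) + 1 = D.j - 1 by omega] at h1
      exact (hc.ne _ _ _ _ _ h1.symm ha4).symm
    · rw [hu1, hu1]
      intro he
      have h1 := hB (D.j - (p + 1 + 1)) (by omega)
      rw [show D.j - (p + 1 + 1) + 1 = D.j - (p + 1) by omega] at h1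
      have h2 := hB (D.j - (p + 2 + 1)) (by omega)
      rw [show D.j - (p + 2 + 1) + 1 = D.j - (p + 1 + 1) by omega] at h2
      have h3 := (D.fv_inj (by omega) (by omega) (hc.inj _ _ _ _ h1 h2.symm he)).2
      omega) (by
    rw [huj]
    exact (hc.adj _ _ _ _ ha0).symm) (by
    intro _
    rcases Nat.lt_or_ge 1 D.j with h1 | h1
    · have h2 := hu1 (D.j - 2)
      rw [show D.j - 2 + 1 = D.j - 1 by omega, show D.j - (D.j - 1) = 1 by omega] at h2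
      rw [h2]
      exact hc.ne _ _ _ _ _ (hB 0 (by omega)) ha0
    · have h2 : D.j = 1 := by omega
      rw [h2] at ha4 ⊢
      rw [show (1 - 1 : ℕ) = 0 from rfl, hu0]
      intro he
      exact absurd (hc.ne' _ _ _ _ _ _ ha4 ha0 he).2 (by decide))
  have e1 : z = c k (D.fv 2 (D.j - 1)) := by
    rw [hz3 hj, show (1 : ℕ) = 0 + 1 from rfl, hu1]
  rw [e1, hu0, huj] at hz2
  exact hz2

theorem arm3 (hc : GoodS T D.a D.F D.B (atN D N) c x) {k l : Fin N.K}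
    (hl : N.lk 2 k.1 l.1) : H.Adj (x k 4) (c k (D.fv 3 0)) ∧
      Rch H D.j (x k 4) (c k (D.fv 3 0)) (c k (D.fv 3 (D.j - 1))) (x l 3) := by
  have hj := D.j_pos
  have hL : D.L 3 = D.j := NS1_L3
  have ha4 : atN D N k (D.fv 3 0) k 4 := NS1_at43
  have ha3 : atN D N k (D.fv 3 (D.j - 1)) l 3 := NS1_at3 hl
  have hB : ∀ p, p + 1 < D.j → D.B.Adj (D.fv 3 p) (D.fv 3 (p + 1)) := fun p hp =>
    D.B_arm 3 (by omega)
  refine ⟨hc.adj _ _ _ _ ha4, ?_⟩
  obtain ⟨u, hu0, hu1⟩ : ∃ u : ℕ → V, u 0 = x k 4 ∧ ∀ p, u (p + 1) = c k (D.fv 3 p) :=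
    ⟨fun p => if p = 0 then x k 4 else c k (D.fv 3 (p - 1)), if_pos rfl, fun p => by simp⟩
  have huj : u D.j = c k (D.fv 3 (D.j - 1)) := by
    have := hu1 (D.j - 1)
    rw [Nat.sub_add_cancel hj] at this
    exact this
  obtain ⟨z, hz1, hz2, hz3, hz4⟩ := NS1_walk (H := H) D.j u (x l 3) (by
    intro p hp
    rcases p with _ | p
    · rw [hu0, hu1]
      exact hc.adj _ _ _ _ ha4
    · rw [hu1, hu1]
      exact hc.hom _ _ _ (hB p (by omega))) (by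
    intro p hp
    rcases p with _ | p
    · rw [hu0, hu1]
      exact (hc.ne _ _ _ _ _ (hB 0 (by omega)) ha4).symm
    · rw [hu1, hu1]
      intro he
      have h3 := (D.fv_inj (by omega) (by omega) (hc.inj _ (D.fv 3 (p + 1)) _ _ (hB p (by omega)).symm
        (hB (p + 1) (by omega)) he)).2
      omega) (by
    rw [huj]
    exact (hc.adj _ _ _ _ ha3).symm) (by
    intro _
    rcases Nat.lt_or_ge 1 D.j with h1 | h1
    · have h2 := hu1 (D.j - 2)
      rw [show D.j - 2 + 1 = D.j - 1 by omega] at h2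
      rw [h2]
      have h3 := hB (D.j - 2) (by omega)
      rw [show D.j - 2 + 1 = D.j - 1 by omega] at h3
      exact hc.ne _ _ _ _ _ h3.symm ha3
    · have h2 : D.j = 1 := by omega
      rw [h2] at ha3 ⊢
      rw [show (1 - 1 : ℕ) = 0 from rfl, hu0]
      intro he
      exact absurd (hc.ne' _ _ _ _ _ _ ha3 ha4 he.symm).2 (by decide))
  have e1 : z = c k (D.fv 3 0) := by
    rw [hz3 hj, show (1 : ℕ) = 0 + 1 from rfl, hu1]
  rw [e1, hu0, huj] at hz2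
  exact hz2

end Pool.Agent.LHC
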