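import Pool.Agent.LHC.Defs
import Pool.Agent.LHC.StB
import Pool.Agent.LHC.NAp
import Pool.Agent.LHC.NTy

/-!
# The states

`x k 0 = X`, `x k 3 = X`: `hc.vt` (`a 0 = a 3 = X`) and `styp_X`. Fix `k`. General remark: if `E = {z | ∃ k y, att k y l i ∧ c k y = z}` then `cap` says `T.cp (x l i) E θ ≤ T.cp (a i) (F i) θ`; so for an attached `(k, y)` the number `T.cp (a i) (F i) (T.dt (x l i) (c k y))` is positive, and if it is 1 for all `θ` (`cp0`, `cp4`) two different attached vertices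
(different values by `dis`) have different types. Root 0: `fv 0 0`, `fv 2 0` are attached; by `cp0` `T.dt X (c k (fv 0 0)) = T.dt X (w b)` and `T.dt X (c k (fv 2 0)) = T.dt X (w b')` with `b' ≠ b`, so `b' = !b`; `s k = b`. Root 4: `fv 2 (j-1)`, `fv 3 0` (different vertices by `fv_inj`, `j_pos`); `cp4`.
-/

namespace Pool.Agent.LHC

open Pool.Agent.LIH Pool.Agent.LHA Pool.Agent.LHB

theorem NS2_pos {V : Type} [Finite V] {H : SimpleGraph V} {T : Typ H} {D : SK T} {N : Ntw}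
    {c : Fin N.K → (Fin 4 × Fin D.len) → V} {x : Fin N.K → Fin 5 → V}
    (hc : GoodS T D.a D.F D.B (atN D N) c x) {k l : Fin N.K} {y : Fin 4 × Fin D.len} {i : Fin 5}
    (h : atN D N k y l i) : 0 < T.cp (D.a i) (D.F i) (T.dt (x l i) (c k y)) := by
  refine lt_of_lt_of_le ?_ (hc.cap l i _)
  unfold Typ.cp
  rw [Set.ncard_pos (Set.toFinite _)]
  exact ⟨c k y, ⟨k, y, h, rfl⟩, rfl⟩

theorem NS2_two {V : Type} [Finite V] {H : SimpleGraph V} {T : Typ H} {D : SK T} {N : Ntw}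
    {c : Fin N.K → (Fin 4 × Fin D.len) → V} {x : Fin N.K → Fin 5 → V}
    (hc : GoodS T D.a D.F D.B (atN D N) c x) {k k' l : Fin N.K} {y y' : Fin 4 × Fin D.len}
    {i : Fin 5} (h : atN D N k y l i) (h' : atN D N k' y' l i) (hne : ¬ (k = k' ∧ y = y'))
    (he : T.dt (x l i) (c k y) = T.dt (x l i) (c k' y')) :
    1 < T.cp (D.a i) (D.F i) (T.dt (x l i) (c k y)) := by
  refine lt_of_lt_of_le ?_ (hc.cap l i _)
  unfold Typ.cp
  rw [Set.one_lt_ncard (Set.toFinite _)]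
  exact ⟨c k y, ⟨⟨k, y, h, rfl⟩, rfl⟩, c k' y', ⟨⟨k', y', h', rfl⟩, he.symm⟩,
    fun e => hne (hc.dis l i k y k' y' h h' e)⟩

theorem states {V : Type} [Finite V] {H : SimpleGraph V} {T : Typ H} {D : SK T}
    (hT : STyp H D.X T) {N : Ntw} {c : Fin N.K → (Fin 4 × Fin D.len) → V}
    {x : Fin N.K → Fin 5 → V} (hc : GoodS T D.a D.F D.B (atN D N) c x) :
    (∀ k, x k 0 = D.X ∧ x k 3 = D.X) ∧ ∃ s σ : ℕ → Bool, ∀ k : Fin N.K,
      T.dt D.X (c k (D.fv 0 0)) = T.dt D.X (D.w (s k.1)) ∧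
      T.dt D.X (c k (D.fv 2 0)) = T.dt D.X (D.w (!s k.1)) ∧
      T.dt (x k 4) (c k (D.fv 2 (D.j - 1))) = T.dt D.v (D.f (σ k.1)) ∧
      T.dt (x k 4) (c k (D.fv 3 0)) = T.dt D.v (D.f (!σ k.1)) := by
  have hX : ∀ k, x k 0 = D.X ∧ x k 3 = D.X := fun k =>
    ⟨styp_X hT (hc.vt k 0), styp_X hT (hc.vt k 3)⟩
  refine ⟨hX, ?_⟩
  have hs : ∀ k : Fin N.K, ∃ b : Bool,
      T.dt D.X (c k (D.fv 0 0)) = T.dt D.X (D.w b) ∧
      T.dt D.X (c k (D.fv 2 0)) = T.dt D.X (D.w (!b)) := by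
    intro k
    have a1 : atN D N k (D.fv 0 0) k 0 := Or.inl ⟨rfl, rfl, Or.inl rfl⟩
    have a2 : atN D N k (D.fv 2 0) k 0 := Or.inl ⟨rfl, rfl, Or.inr rfl⟩
    obtain ⟨b, hb⟩ := (D.cp0 _).2.1 (NS2_pos hc a1)
    obtain ⟨b', hb'⟩ := (D.cp0 _).2.1 (NS2_pos hc a2)
    have hne : b' ≠ b := by
      intro e
      have h1 := NS2_two hc a1 a2 (fun h => by
        have h3 := congrArg Prod.fst h.2
        exact absurd h3 (by simp [SK.fv])) (by rw [hb, hb', e])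
      exact absurd h1 (not_lt.2 (D.cp0 _).1)
    have hb2 : b' = !b := by
      revert hne
      cases b <;> cases b' <;> simp
    rw [(hX k).1] at hb hb'
    exact ⟨b, hb, hb2 ▸ hb'⟩
  have hσ : ∀ k : Fin N.K, ∃ b : Bool,
      T.dt (x k 4) (c k (D.fv 2 (D.j - 1))) = T.dt D.v (D.f b) ∧
      T.dt (x k 4) (c k (D.fv 3 0)) = T.dt D.v (D.f (!b)) := by
    intro k
    have a1 : atN D N k (D.fv 2 (D.j - 1)) k 4 := Or.inr (Or.inl ⟨rfl, rfl, Or.inl rfl⟩)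
    have a2 : atN D N k (D.fv 3 0) k 4 := Or.inr (Or.inl ⟨rfl, rfl, Or.inr rfl⟩)
    obtain ⟨b, hb⟩ := (D.cp4 _).2.1 (NS2_pos hc a1)
    obtain ⟨b', hb'⟩ := (D.cp4 _).2.1 (NS2_pos hc a2)
    have hne : b' ≠ b := by
      intro e
      have h1 := NS2_two hc a1 a2 (fun h => by
        have h3 := congrArg Prod.fst h.2
        exact absurd h3 (by simp [SK.fv])) (by rw [hb, hb', e])
      exact absurd h1 (not_lt.2 (D.cp4 _).1)
    have hb2 : b' = !b := by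
      revert hne
      cases b <;> cases b' <;> simp
    exact ⟨b, hb, hb2 ▸ hb'⟩
  choose s hs1 hs2 using hs
  choose σ hσ1 hσ2 using hσ
  refine ⟨fun k => if h : k < N.K then s ⟨k, h⟩ else false,
    fun k => if h : k < N.K then σ ⟨k, h⟩ else false, ?_⟩
  intro k
  simp only [k.2, dif_pos]
  exact ⟨hs1 k, hs2 k, hσ1 k, hσ2 k⟩

end Pool.Agent.LHC
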