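import Pool.Agent.LHC.Defs
import Pool.Agent.LHC.NAp
import Pool.Agent.LHC.NTy
import Pool.Agent.LHC.NS1

/-!
# Different states of linked cells

`k, k', l < K` by `N.dom`. `i = 0`: `(k, fv 0 m1)` and `(k', fv 0 m1)` are attached to the root 1 of `l`. By `cap` and `cp1` (see the general remark in `NS2`) `T.dt (x l 1) (c k (fv 0 m1)) = T.dt (g0 e (m1+1)) (g0 e m1)` for some `e`, the same for `k'` with `e'`, and `e ≠ e'` (the values are different by `dis`, because `k ≠ k'`). `sound0` with `x = X = x k 0`, `y = c k (fv 0 0)`,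
the walk of `arm0` (`T.dt q p` with `q = x l 1`, `p = c k (fv 0 m1)`) gives `e = s k`, and `e' = s k'`.
`i = 1`: the root 2, `cp2`, `T.dt (x l 2) (c k en1) = T.dt (g1 e (m2+1)) (g1 e m2)`; `N.tot` gives `l0` with `lk 0 k l0`; by the case `i = 0` `T.dt (x l0 1) (c k (fv 0 m1)) = T.dt (g0 (s k) (m1+1)) (g0 (s k) m1)` (some `e0`, `sound0`), and `sound1` with the walks of `arm0`, `arm1` (`arm_ne`) gives `e = s k`.
-/

namespace Pool.Agent.LHC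

open Pool.Agent.LIH Pool.Agent.LHA Pool.Agent.LHB

theorem NS3_pos {V : Type} [Finite V] {H : SimpleGraph V} {T : Typ H} {D : SK T} {N : Ntw}
    {c : Fin N.K → (Fin 4 × Fin D.len) → V} {x : Fin N.K → Fin 5 → V}
    (hc : GoodS T D.a D.F D.B (atN D N) c x) {k l : Fin N.K} {y : Fin 4 × Fin D.len} {i : Fin 5}
    (h : atN D N k y l i) : 0 < T.cp (D.a i) (D.F i) (T.dt (x l i) (c k y)) := by
  refine lt_of_lt_of_le ?_ (hc.cap l i _)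
  unfold Typ.cp
  rw [Set.ncard_pos (Set.toFinite _)]
  exact ⟨c k y, ⟨k, y, h, rfl⟩, rfl⟩

theorem NS3_two {V : Type} [Finite V] {H : SimpleGraph V} {T : Typ H} {D : SK T} {N : Ntw}
    {c : Fin N.K → (Fin 4 × Fin D.len) → V} {x : Fin N.K → Fin 5 → V}
    (hc : GoodS T D.a D.F D.B (atN D N) c x) {k k' l : Fin N.K} {y y' : Fin 4 × Fin D.len}
    {i : Fin 5} (h : atN D N k y l i) (h' : atN D N k' y' l i) (hne : ¬ (k = k' ∧ y = y'))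
    (he : T.dt (x l i) (c k y) = T.dt (x l i) (c k' y')) :
    1 < T.cp (D.a i) (D.F i) (T.dt (x l i) (c k y)) := by
  refine lt_of_lt_of_le ?_ (hc.cap l i _)
  unfold Typ.cp
  rw [Set.one_lt_ncard (Set.toFinite _)]
  exact ⟨c k y, ⟨⟨k, y, h, rfl⟩, rfl⟩, c k' y', ⟨⟨k', y', h', rfl⟩, he.symm⟩,
    fun e => hne (hc.dis l i k y k' y' h h' e)⟩

theorem NS3_end0 {V : Type} [Finite V] {H : SimpleGraph V} {T : Typ H} {D : SK T}
    {N : Ntw} {c : Fin N.K → (Fin 4 × Fin D.len) → V} {x : Fin N.K → Fin 5 → V}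
    (hc : GoodS T D.a D.F D.B (atN D N) c x) (hx : ∀ k, x k 0 = D.X) {s : ℕ → Bool}
    (hs : ∀ k : Fin N.K, T.dt D.X (c k (D.fv 0 0)) = T.dt D.X (D.w (s k.1)))
    (k l : Fin N.K) (hl : N.lk 0 k.1 l.1) : atN D N k (D.fv 0 D.m1) l 1 ∧
    T.dt (x l 1) (c k (D.fv 0 D.m1)) =
      T.dt (D.g0 (s k.1) (D.m1 + 1)) (D.g0 (s k.1) D.m1) := by
  have hat : atN D N k (D.fv 0 D.m1) l 1 := Or.inr (Or.inr (Or.inl ⟨rfl, rfl, hl⟩))
  refine ⟨hat, ?_⟩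
  obtain ⟨e, he⟩ := (D.cp1 _).2.1 (NS3_pos hc hat)
  obtain ⟨h1, z, h2, h3, h4, -, -⟩ := arm0 hc hl
  rw [hx] at h1 h3
  have := D.sound0 (s k.1) e _ _ _ _ _ h1 (hs k) h2 h3 h4 he
  rw [he, this]

theorem NS3_end1 {V : Type} [Finite V] {H : SimpleGraph V} {T : Typ H} {D : SK T}
    {N : Ntw} {c : Fin N.K → (Fin 4 × Fin D.len) → V} {x : Fin N.K → Fin 5 → V}
    (hc : GoodS T D.a D.F D.B (atN D N) c x) (hx : ∀ k, x k 0 = D.X) {s : ℕ → Bool}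
    (hs : ∀ k : Fin N.K, T.dt D.X (c k (D.fv 0 0)) = T.dt D.X (D.w (s k.1)))
    (k l : Fin N.K) (hl : N.lk 1 k.1 l.1) : atN D N k D.en1 l 2 ∧
    T.dt (x l 2) (c k D.en1) =
      T.dt (D.g1 (s k.1) (D.m2 + 1)) (D.g1 (s k.1) D.m2) := by
  have hat : atN D N k D.en1 l 2 := Or.inr (Or.inr (Or.inr (Or.inl ⟨rfl, rfl, hl⟩)))
  refine ⟨hat, ?_⟩
  obtain ⟨e, he⟩ := (D.cp2 _).2.1 (NS3_pos hc hat)
  obtain ⟨l0', hl0⟩ := N.tot 0 k.1 (by decide) k.2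
  obtain ⟨l0, rfl⟩ : ∃ l0 : Fin N.K, l0.1 = l0' := ⟨⟨l0', (N.dom _ _ _ hl0).2⟩, rfl⟩
  obtain ⟨h1, z, h2, h3, h4, h5, h6⟩ := arm0 hc hl0
  obtain ⟨z', h7, h8, h9, h10, h11⟩ := arm1 hc hl
  have hzz := arm_ne hc hl0 hl h5 h6 h10 h11
  have he0 := (NS3_end0 hc hx hs k l0 hl0).2
  rw [hx] at h1 h3 h8
  have := D.sound1 (s k.1) (s k.1) e _ _ _ _ _ _ _ _ h1 (hs k) h2 h7 h3 h8 hzz h4 he0 h9 he
  rw [he, this]

theorem dif_states {V : Type} [Finite V] {H : SimpleGraph V} {T : Typ H} {D : SK T}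
    {N : Ntw} {c : Fin N.K → (Fin 4 × Fin D.len) → V} {x : Fin N.K → Fin 5 → V}
    (hc : GoodS T D.a D.F D.B (atN D N) c x) (hx : ∀ k, x k 0 = D.X) {s : ℕ → Bool}
    (hs : ∀ k : Fin N.K, T.dt D.X (c k (D.fv 0 0)) = T.dt D.X (D.w (s k.1))) (i : Fin 3)
    (k k' l : ℕ) (hi : i ≠ 2) (hk : k ≠ k') (h : N.lk i k l) (h' : N.lk i k' l) :
    s k ≠ s k' := by
  obtain ⟨kF, rfl⟩ : ∃ kF : Fin N.K, kF.1 = k := ⟨⟨k, (N.dom _ _ _ h).1⟩, rfl⟩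
  obtain ⟨kF', rfl⟩ : ∃ kF' : Fin N.K, kF'.1 = k' := ⟨⟨k', (N.dom _ _ _ h').1⟩, rfl⟩
  obtain ⟨lF, rfl⟩ : ∃ lF : Fin N.K, lF.1 = l := ⟨⟨l, (N.dom _ _ _ h).2⟩, rfl⟩
  intro e
  have hcase : i = 0 ∨ i = 1 := by
    revert hi
    fin_cases i <;> simp
  rcases hcase with rfl | rfl
  · obtain ⟨a1, e1⟩ := NS3_end0 hc hx hs kF lF h
    obtain ⟨a2, e2⟩ := NS3_end0 hc hx hs kF' lF h'
    have h1 := NS3_two hc a1 a2 (fun u => hk (congrArg Fin.val u.1)) (by rw [e1, e2, e])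
    exact absurd h1 (not_lt.2 (D.cp1 _).1)
  · obtain ⟨a1, e1⟩ := NS3_end1 hc hx hs kF lF h
    obtain ⟨a2, e2⟩ := NS3_end1 hc hx hs kF' lF h'
    have h1 := NS3_two hc a1 a2 (fun u => hk (congrArg Fin.val u.1)) (by rw [e1, e2, e])
    exact absurd h1 (not_lt.2 (D.cp2 _).1)

end Pool.Agent.LHC
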