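import Pool.Agent.LHC.Defs
import Pool.Agent.LHC.NAp
import Pool.Agent.LHC.NTy

/-!
# The slots at the roots 3

For `l : Fin K` let `A l = {k | N.lk 2 k l}`; the vertices `(k, fv 3 (j-1))`, `k ∈ A l`, are attached to the root 3 of `l`, whose value is `X`. For a type `θ` the map `k ↦ c k (fv 3 (j-1))` is injective on `{k ∈ A l | T.dt X (c k (fv 3 (j-1))) = θ}` (`dis`), with values in `E ∩ {dt X = θ}`, so this set has at most `T.cp X E θ ≤ T.cp (a 3) (F 3) θ = |{i : Fin 3 | T.dt X (Y i) = θ}|`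
elements (`cap`, `cp3`), and there is an injective map `ι l θ` from it to `{i | T.dt X (Y i) = θ}`. For `k` with `N.lk 2 k l` (`l` is unique by `N.fn`, `k, l < K` by `N.dom`) let `y k = ι l θ k` with `θ = T.dt X (c k (fv 3 (j-1)))`; `y k = 0` for the other `k`. If `k ≠ k'` are linked to the same `l`: if the types agree, `ι l θ` is injective; if they differ then `Y (y k)`, `Y (y k')` have
different types.
-/

namespace Pool.Agent.LHC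

open Pool.Agent.LIH Pool.Agent.LHA Pool.Agent.LHB

theorem slots {V : Type} [Finite V] {H : SimpleGraph V} {T : Typ H} {D : SK T} {N : Ntw}
    {c : Fin N.K → (Fin 4 × Fin D.len) → V} {x : Fin N.K → Fin 5 → V}
    (hc : GoodS T D.a D.F D.B (atN D N) c x) (hx : ∀ k, x k 3 = D.X) :
    ∃ y : ℕ → Fin 3, (∀ k l : Fin N.K, N.lk 2 k.1 l.1 →
      T.dt D.X (c k (D.fv 3 (D.j - 1))) = T.dt D.X (D.Y (y k.1))) ∧
      ∀ k k' l : ℕ, k ≠ k' → N.lk 2 k l → N.lk 2 k' l → y k ≠ y k' := by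
  classical
  have hat : ∀ {k l : Fin N.K}, N.lk 2 k.1 l.1 → atN D N k (D.fv 3 (D.j - 1)) l 3 :=
    fun h => Or.inr (Or.inr (Or.inr (Or.inr ⟨rfl, rfl, h⟩)))
  have hex : ∀ (l : Fin N.K) (θ : ℕ), ∃ g : Fin N.K → Fin 3,
      {k : Fin N.K | N.lk 2 k.1 l.1 ∧ T.dt D.X (c k (D.fv 3 (D.j - 1))) = θ} ⊆
        g ⁻¹' {i : Fin 3 | T.dt D.X (D.Y i) = θ} ∧
      Set.InjOn g {k : Fin N.K | N.lk 2 k.1 l.1 ∧ T.dt D.X (c k (D.fv 3 (D.j - 1))) = θ} := by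
    intro l θ
    refine (Set.toFinite _).exists_injOn_of_encard_le ?_
    rw [← (Set.toFinite _).cast_ncard_eq, ← (Set.toFinite {i : Fin 3 | T.dt D.X (D.Y i) = θ}).cast_ncard_eq]
    have h1 := hc.cap l 3 θ
    rw [hx l, SK.cp3] at h1
    refine Nat.cast_le.2 (le_trans ?_ h1)
    unfold Typ.cp
    refine Set.ncard_le_ncard_of_injOn (fun k => c k (D.fv 3 (D.j - 1))) ?_ ?_ (Set.toFinite _)
    · rintro k ⟨hk, hk'⟩
      exact ⟨⟨k, _, hat hk, rfl⟩, hk'⟩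
    · rintro k ⟨hk, -⟩ k' ⟨hk', -⟩ h
      exact (hc.dis l 3 k _ k' _ (hat hk) (hat hk') h).1
  choose g hg hgi using hex
  obtain ⟨y, hy⟩ : ∃ y : ℕ → Fin 3, ∀ k l : Fin N.K, N.lk 2 k.1 l.1 →
      y k.1 = g l (T.dt D.X (c k (D.fv 3 (D.j - 1)))) k := by
    refine ⟨fun k => if h : k < N.K ∧ ∃ l, N.lk 2 k l then
      g ⟨h.2.choose, (N.dom 2 k _ h.2.choose_spec).2⟩ (T.dt D.X (c ⟨k, h.1⟩ (D.fv 3 (D.j - 1)))) ⟨k, h.1⟩
      else 0, ?_⟩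
    intro k l h
    have h1 : k.1 < N.K ∧ ∃ l, N.lk 2 k.1 l := ⟨k.2, l.1, h⟩
    simp only [dif_pos h1]
    have h2 : (⟨h1.2.choose, (N.dom 2 k.1 _ h1.2.choose_spec).2⟩ : Fin N.K) = l :=
      Fin.ext (N.fn 2 k.1 _ _ h1.2.choose_spec h)
    rw [h2]
  refine ⟨y, ?_, ?_⟩
  · intro k l h
    rw [hy k l h]
    exact (hg l _ ⟨h, rfl⟩).symm
  · intro k k' l hne h h'
    have hk := N.dom 2 k l h
    have hk' := N.dom 2 k' l h'
    have e1 := hy ⟨k, hk.1⟩ ⟨l, hk.2⟩ h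
    have e2 := hy ⟨k', hk'.1⟩ ⟨l, hk.2⟩ h'
    change y k = _ at e1
    change y k' = _ at e2
    intro he
    rw [e1, e2] at he
    have m1 := hg ⟨l, hk.2⟩ (T.dt D.X (c ⟨k, hk.1⟩ (D.fv 3 (D.j - 1))))
      (show (⟨k, hk.1⟩ : Fin N.K) ∈ _ from ⟨h, rfl⟩)
    have m2 := hg ⟨l, hk.2⟩ (T.dt D.X (c ⟨k', hk'.1⟩ (D.fv 3 (D.j - 1))))
      (show (⟨k', hk'.1⟩ : Fin N.K) ∈ _ from ⟨h', rfl⟩)
    change T.dt D.X (D.Y _) = _ at m1
    change T.dt D.X (D.Y _) = _ at m2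
    rw [he, m2] at m1
    rw [← m1] at he
    have := hgi ⟨l, hk.2⟩ (T.dt D.X (c ⟨k', hk'.1⟩ (D.fv 3 (D.j - 1)))) ⟨h, m1.symm⟩ ⟨h', rfl⟩ he
    exact hne (congrArg Fin.val this)

end Pool.Agent.LHC
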