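import Pool.Agent.LHC.Defs
import Pool.Agent.LHC.StB
import Pool.Agent.LHC.RvR
import Pool.Agent.LHC.NAp
import Pool.Agent.LHC.NTy
import Pool.Agent.LHC.NS1
import Pool.Agent.LHC.NS2
import Pool.Agent.LHC.NS3
import Pool.Agent.LHC.NS4

/-!
# Soundness of the network

`ret_of`: `styp_dt` gives `φ` with `φ X = X`, `φ v' = v`, `φ f' = f b`. `rch_map`: `Rch H j v (f b) (φ y') X`; in `ReT` take `f b` and `φ y'`, `T.dt X (φ y') = T.dt X y'` (`styp_map`). `ret_congr`: by definition.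
`sol_of_good`: `s`, `σ` from `states`, `y` from `slots`, `dif_states`. For `lk 2 k l` (so `k, l < K`): `arm2`: `Rch H j (x k 4) (c k (fv 2 (j-1))) (c k (fv 2 0)) X`, so `ret_of` gives `ReT T X j v (f (σ k)) (c k (fv 2 0))` and `ret_congr` `ReT T X j v (f (σ k)) (w (!s k))`; `arm3`: `ReT T X j v (f (!σ k)) (c k (fv 3 (j-1)))`, so `ReT T X j v (f (!σ k)) (Y (y k))`: `R (s k) (y k)`.
-/

namespace Pool.Agent.LHC

open Pool.Agent.LIH Pool.Agent.LHA Pool.Agent.LHB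

theorem ret_of {V : Type} {H : SimpleGraph V} {T : Typ H} {D : SK T} (hT : STyp H D.X T)
    {b : Bool} {v' f' y' : V} (h : T.dt v' f' = T.dt D.v (D.f b))
    (hr : Rch H D.j v' f' y' D.X) : ReT T D.X D.j D.v (D.f b) y' := by
  obtain ⟨φ, h1, h2, h3⟩ := styp_dt hT h
  refine ⟨D.f b, φ y', D.adj_f b, rfl, ?_, ?_⟩
  · have h4 := (styp_map hT h1 D.X y').2
    rw [h1] at h4
    exact h4
  · have h4 := rch_map φ hr
    rw [h1, h2, h3] at h4
    exact h4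

theorem ret_congr {V : Type} {H : SimpleGraph V} {T : Typ H} {X v f Y Y' : V} {j : ℕ}
    (h : T.dt X Y = T.dt X Y') (hr : ReT T X j v f Y) : ReT T X j v f Y' := by
  obtain ⟨f', y', h1, h2, h3, h4⟩ := hr
  exact ⟨f', y', h1, h2, h3.trans h, h4⟩

theorem sol_of_good {V : Type} [Finite V] {H : SimpleGraph V} {T : Typ H} (D : SK T)
    (hT : STyp H D.X T) (N : Ntw) {c : Fin N.K → (Fin 4 × Fin D.len) → V}
    {x : Fin N.K → Fin 5 → V} (hc : GoodS T D.a D.F D.B (atN D N) c x) : Sol D.R N := by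
  obtain ⟨hx, s, σ, hs⟩ := states hT hc
  obtain ⟨y, hy1, hy2⟩ := slots hc (fun k => (hx k).2)
  refine ⟨s, y, ?_, ?_, hy2⟩
  · intro i k k' l hi hk h h'
    exact dif_states hc (fun k => (hx k).1) (fun k => (hs k).1) i k k' l hi hk h h'
  · intro k l hkl
    obtain ⟨hk, hl⟩ := N.dom 2 k l hkl
    obtain ⟨-, e2, e3, e4⟩ := hs ⟨k, hk⟩
    refine ⟨σ k, ?_, ?_⟩
    · have h2 := (arm2 hc ⟨k, hk⟩).2
      rw [(hx ⟨k, hk⟩).1] at h2
      exact ret_congr e2 (ret_of hT e3 h2)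
    · have h3 := (arm3 hc (k := ⟨k, hk⟩) (l := ⟨l, hl⟩) hkl).2
      rw [(hx ⟨l, hl⟩).2] at h3
      exact ret_congr (hy1 ⟨k, hk⟩ ⟨l, hl⟩ hkl) (ret_of hT e4 h3)

end Pool.Agent.LHC
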