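import Pool.Agent.LHC.Defs
import Pool.Agent.LHC.PrtC
import Pool.Agent.LHC.DeeC
import Pool.Agent.LHC.CycB
import Pool.Agent.LHC.StB
import Pool.Agent.LHC.NAp
import Pool.Agent.LHC.NSo
import Pool.Agent.LHC.NLx
import Pool.Agent.LHC.NLa
import Pool.Agent.LHC.NLb
import Pool.Agent.LHC.BGl
import Pool.Agent.LHC.BNx
import Pool.Agent.LHC.BAd
import Pool.Agent.LHC.BDf
import Pool.Agent.LHC.BFo
import Pool.Agent.LHC.BFl
import Pool.Agent.LHC.FinZ
import Pool.Agent.LHA.SatL
import Pool.Agent.LHA.Sat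
import Pool.Agent.LHA.Mode
import Pool.Agent.LHA.Net3
import Pool.Agent.LIH.Grid
import Pool.Agent.LIH.Emit
import Pool.Agent.LIH.Hard

/-!
# Part B: the reduction

`ro_inj`: `j` is determined. `good_of_sol`: `lay_exists` and the lemmas of `NLa`, `NLb` are the fields of `GoodS`.
`npc_B`: compare `reduces_of_gad` in `LHA/HardG.lean`. `exists_deepN hc` gives `r` with `DeepN H r`; `E : DB H D.X` consists of `P` (the ports), `D.a`, `D.F`, `r`. `trip_mode D.R` (`R_vals`) gives `μ`. `np_sat hL` gives `m, Nv, J, lit`. `gB_adj E` gives `P, Q`. Apply `reduces_cells` with `Z = CZ (ZB E) V E.r ⊕ (Fin 4 × Fin D.len)`, `Kp` the polynomial with the value `KK (Nv.eval n0) (J.eval n0 * m)`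
(`(Nv + 3 * (J * C m) + 1) * (6 * (2 * (J * C m) + 1))`), `adj y n0 s t k l = adjS P Q E.ro D.B (atZ D (lk3 .. (lit3 μ ..))) (KK ..) k l s t` (`def_adjS`). For the input `z`, `n0 = |z| + 1`: `N = ntw3 (Nv.eval n0) (J.eval n0 * m) (lit3 μ .. (lit (prep z) n0))`, `κ = Fin N.K`, `e = finCongr`, `G = glueS (gB E (nxG N.K E.U)) E.ro D.B (atN D N)`; adjacency: `glueS_num`. `z ∈ L` iff `SatOK` iff
`TSol (modeOK μ) ..` (`tsol_iff_sat`) iff `TSol (Trip D.R) ..` iff `Sol D.R N` (`net_sound` with `lit3_lt`, `net_complete`) iff `∃ c x, GoodS ..` (`sol_of_good`, `good_of_sol`) iff there is a locally injective homomorphism (`glueS_iff`, `flex_B`, `force_B`, `nxG_ctr`, `F_ssub`).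
-/

namespace Pool.Agent.LHC

open Pool.Agent.LIH Pool.Agent.LHA Pool.Agent.LHB

theorem ro_inj {V : Type} {H : SimpleGraph V} {X : V} (E : DB H X) :
    Function.Injective E.ro := by
  intro i j h
  unfold DB.ro at h
  have h1 := Sum.inl.inj h
  injection h1

theorem good_of_sol {V : Type} [Finite V] {H : SimpleGraph V} {T : Typ H} (D : SK T)
    (hT : STyp H D.X T) (h3 : ∀ v, 3 ≤ (H.neighborSet v).ncard) (Nv L : ℕ) (lt : ℕ → ℕ)
    (h : Sol D.R (ntw3 Nv L lt)) :
    ∃ c x, GoodS T D.a D.F D.B (atN D (ntw3 Nv L lt)) c x := by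
  obtain ⟨W, Rt, s, y, hL⟩ := lay_exists D hT h3 Nv L lt h
  exact ⟨fun k y => cS D W k y, fun l i => xS Rt l i,
    { hom := fun k y y' h => lay_hom hL k y y' h
      inj := fun k y y1 y2 h1 h2 e => lay_inj hL k y y1 y2 h1 h2 e
      vt := fun l i => lay_vt hL l i
      adj := fun k y l i h => lay_adj hL k y l i h
      cap := fun l i θ => lay_cap hL l i θ
      ne := fun k y y' l i h h' => lay_ne hL k y y' l i h h'
      ne' := fun k y l i l' i' h h' e => lay_ne' hL k y l i l' i' h h' e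
      dis := fun l i k y k' y' h h' e => lay_dis hL l i k y k' y' h h' e }⟩

open NPC in
theorem npc_B {V : Type} [Finite V] {H : SimpleGraph V} (he : EC H 3) (hc : H.Connected)
    (h3 : ∀ v, 3 ≤ (H.neighborSet v).ncard) {T : Typ H} (D : SK T) (hT : STyp H D.X T)
    (P : DP H D.X) {L : Set (List Bool)} (hL : L ∈ NP) : Reduces L (LIHOM H) := by
  classical
  obtain ⟨r, hr⟩ := exists_deepN hc
  let E : DB H D.X := { toDP := P, a := D.a, F := D.F, r := r }
  obtain ⟨m, Nv, J, lit, hm, hNv, hlt, hsat, hdef⟩ := np_sat hL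
  obtain ⟨r0, r1, r2, r3⟩ := D.R_vals
  obtain ⟨μ, hμ⟩ := trip_mode D.R r0 r1 r2 r3
  obtain ⟨PP, QQ, hPQ⟩ := gB_adj E
  refine reduces_cells (Z := CZ (ZB E) V E.r ⊕ (Fin 4 × Fin D.len))
    ((Nv + 3 * (J * Polynomial.C m) + 1) * (6 * (2 * (J * Polynomial.C m) + 1)))
    (fun y n0 s t k l => adjS PP QQ E.ro D.B (atZ D (lk3 (Nv.eval n0) (J.eval n0 * m)
      (lit3 μ (Nv.eval n0) (J.eval n0 * m) m (lit y n0)))) (KK (Nv.eval n0) (J.eval n0 * m))
      k l s t) ?_ ?_
  · intro s t k A B hA hB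
    exact def_adjS D PP QQ E.ro μ Nv J hm hdef s t hA hB
  · intro z
    set n0 := z.length + 1 with hn0
    set N := ntw3 (Nv.eval n0) (J.eval n0 * m)
      (lit3 μ (Nv.eval n0) (J.eval n0 * m) m (lit (prep z) n0)) with hN
    have hK : N.K = ((Nv + 3 * (J * Polynomial.C m) + 1) *
        (6 * (2 * (J * Polynomial.C m) + 1))).eval n0 := by
      simp only [hN, ntw3, KK, TT, Polynomial.eval_mul, Polynomial.eval_add,
        Polynomial.eval_one, Polynomial.eval_C, Polynomial.eval_ofNat]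
    refine ⟨Fin N.K, finCongr hK, glueS (gB E (nxG N.K E.U)) E.ro D.B (atN D N), ?_, ?_⟩
    · intro k l s t
      exact glueS_num (hPQ N.K) E.ro D.B (atZ D N.lk) k l s t
    · have hlt3 := lit3_lt μ (Nv.eval n0) (J.eval n0) m hm (lit (prep z) n0) (hlt z)
      have hTs : TSol (Trip D.R) (2 * (J.eval n0 * m) + 1)
          (lit3 μ (Nv.eval n0) (J.eval n0 * m) m (lit (prep z) n0)) ↔
          SatOK (J.eval n0) m (lit (prep z) n0) := by
        rw [← tsol_iff_sat μ (Nv.eval n0) (J.eval n0) m hm (lit (prep z) n0) (hlt z)]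
        unfold TSol
        simp only [hμ]
      have hfl : FlexS T (gB E (nxG N.K E.U)) E.ro D.a D.F :=
        flex_B hT E (fun j => D.F_sub j) (nxG N.K E.U)
      have hfo : ForceS T (gB E (nxG N.K E.U)) E.ro D.a D.F :=
        force_B he h3 hT E (fun j => D.F_ssub h3 j) (nxG N.K E.U) (nxG_ctr N.K E.U) hr
          (Nat.le_succ r)
      have hgl : (∃ f, LocInj (glueS (gB E (nxG N.K E.U)) E.ro D.B (atN D N)) H f) ↔
          ∃ (c : Fin N.K → (Fin 4 × Fin D.len) → V) (x : Fin N.K → Fin 5 → V),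
            GoodS T D.a D.F D.B (atN D N) c x :=
        glueS_iff T (gB E (nxG N.K E.U)) E.ro (ro_inj E) D.B (atN D N) D.a D.F hfl hfo
      rw [hsat z, hgl, ← hTs]
      constructor
      · intro hs
        exact good_of_sol D hT h3 _ _ _ (net_complete D.R _ _ _ hs)
      · rintro ⟨c, x, hcx⟩
        exact net_sound D.R _ _ _ hlt3 (sol_of_good D hT N hcx)

end Pool.Agent.LHC
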