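import Pool.Agent.LHC.Defs

/-!
# 3-edge-connected graphs

`ec3_of_def`: let `U`, `Uᶜ` be nonempty and suppose that the set `D` of darts from `U` to `Uᶜ` has at most two elements
(`V = Fin n` is finite). Let `s` be the set of the edges `s(d.1, d.2)`, `d ∈ D` (`Set.ncard_image_le`, so `s.ncard ≤ 2`).
`H.deleteEdges s` is connected: a walk from a vertex of `U` to a vertex of `Uᶜ` has a dart from `U` to `Uᶜ`
(`SimpleGraph.Walk.exists_boundary_dart`); it is in `D` but its edge is not in `s`: contradiction.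
`ec_conn`: if `H` is not preconnected let `x`, `y` be such that `y` is not reachable from `x`, `U = {z | H.Reachable x z}`: no dart
leaves `U`, so the number is 0, not `≥ 3`.
`ec_deg`: `U = {x}`: the darts leaving `U` are the `(x, z)` with `H.Adj x z`: the image of `N(x)` under the injective map
`z ↦ (x, z)` (`Set.ncard_image_of_injective`).
-/

namespace Pool.Agent.LHC

open Pool.Agent.LIH Pool.Agent.LHA Pool.Agent.LHB

theorem ec3_of_def {n : ℕ} {H : SimpleGraph (Fin n)}
    (h : ∀ s : Set (Sym2 (Fin n)), s.ncard ≤ 2 → (H.deleteEdges s).Connected) : EC H 3 := by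
  classical
  intro U hU hUc
  by_contra hlt
  push Not at hlt
  set D : Set (Fin n × Fin n) := {d | d.1 ∈ U ∧ d.2 ∉ U ∧ H.Adj d.1 d.2} with hD
  set s : Set (Sym2 (Fin n)) := (fun d : Fin n × Fin n => s(d.1, d.2)) '' D with hs
  have h1 : s.ncard ≤ 2 := by
    have h2 : s.ncard ≤ D.ncard := Set.ncard_image_le (Set.toFinite D)
    omega
  have h2 := h s h1
  obtain ⟨x, hx⟩ := hU
  obtain ⟨y, hy⟩ := hUc
  obtain ⟨p⟩ := h2.preconnected x y
  obtain ⟨d, hd, hd1, hd2⟩ := p.exists_boundary_dart U hx hy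
  have h3 := d.adj
  rw [SimpleGraph.deleteEdges_adj] at h3
  apply h3.2
  exact ⟨(d.fst, d.snd), ⟨hd1, hd2, h3.1⟩, rfl⟩

theorem ec_conn {V : Type} [Nonempty V] {H : SimpleGraph V} (h : EC H 3) : H.Connected := by
  classical
  rw [SimpleGraph.connected_iff]
  refine ⟨?_, inferInstance⟩
  intro x y
  by_contra hxy
  have h1 := h {z | H.Reachable x z} ⟨x, SimpleGraph.Reachable.refl x⟩ ⟨y, hxy⟩
  have h2 : {d : V × V | d.1 ∈ {z | H.Reachable x z} ∧ d.2 ∉ {z | H.Reachable x z} ∧
      H.Adj d.1 d.2} = ∅ := by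
    rw [Set.eq_empty_iff_forall_notMem]
    rintro ⟨a, b⟩ ⟨ha, hb, hab⟩
    exact hb (SimpleGraph.Reachable.trans ha hab.reachable)
  rw [h2, Set.ncard_empty] at h1
  omega

theorem ec_deg {V : Type} {H : SimpleGraph V} (h : EC H 3) {x y : V} (hxy : y ≠ x) :
    3 ≤ (H.neighborSet x).ncard := by
  have h1 := h {x} ⟨x, rfl⟩ ⟨y, hxy⟩
  have h2 : {d : V × V | d.1 ∈ ({x} : Set V) ∧ d.2 ∉ ({x} : Set V) ∧ H.Adj d.1 d.2} =
      (fun z => (x, z)) '' H.neighborSet x := by
    ext ⟨a, b⟩
    constructor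
    · rintro ⟨ha, -, hab⟩
      have ha' : a = x := ha
      subst ha'
      exact ⟨b, hab, rfl⟩
    · rintro ⟨z, hz, he⟩
      have e1 : x = a := congrArg Prod.fst he
      have e2 : z = b := congrArg Prod.snd he
      subst e1 e2
      have hz' : H.Adj x z := hz
      exact ⟨rfl, fun hh => hz'.ne hh.symm, hz'⟩
  rw [h2, Set.ncard_image_of_injective _ (fun z z' hz => congrArg Prod.snd hz)] at h1
  exact h1

end Pool.Agent.LHC
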