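import Mathlib
import Pool.Agent.LHA.Defs
import Pool.Agent.LHA.TreeBall
import Pool.Agent.LHB.Defs
import Pool.Agent.LIH.Dfn

/-!
# `H`-LIHOM for 3-edge-connected graphs: definitions
-/

namespace Pool.Agent.LHC

open Pool.Agent.LIH Pool.Agent.LHA Pool.Agent.LHB

/-! ## Cuts, edges, broken copies of `H` -/

/-- every cut of `H` has at least `c` edges -/
def EC {V : Type} (H : SimpleGraph V) (c : ℕ) : Prop :=
  ∀ U : Set V, U.Nonempty → Uᶜ.Nonempty →
    c ≤ {d : V × V | d.1 ∈ U ∧ d.2 ∉ U ∧ H.Adj d.1 d.2}.ncard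

/-- `(x, y)` is one of the two darts of the edge `{a, b}` -/
def De {V : Type} (a b x y : V) : Prop := (x = a ∧ y = b) ∨ (x = b ∧ y = a)

/-- the edges `{a, b}` and `{c, d}` are equivalent under the automorphisms of `H` -/
def EqE {V : Type} (H : SimpleGraph V) (a b c d : V) : Prop := ∃ φ : H ≃g H, De c d (φ a) (φ b)

/-- A broken copy of `H` inside a graph with a locally bijective map: `g x` is the value of the vertex `x`,
`β x y` the value of the neighbour of `x` over `y`. The darts in `D` are broken; the others are edges of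
the copy. -/
structure Br {V : Type} (H : SimpleGraph V) (D : V → V → Prop) (g : V → V) (β : V → V → V) :
    Prop where
  bij : ∀ x, Set.BijOn (β x) (H.neighborSet x) (H.neighborSet (g x))
  eq : ∀ x y, H.Adj x y → ¬ D x y → β x y = g y

/-- number of broken darts with the value `(u, v)` -/
noncomputable def mm {V : Type} (H : SimpleGraph V) (D : V → V → Prop) (g : V → V) (β : V → V → V)
    (u v : V) : ℕ :=
  {d : V × V | H.Adj d.1 d.2 ∧ D d.1 d.2 ∧ g d.1 = u ∧ β d.1 d.2 = v}.ncard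

/-! ## Graphs with ports -/

/-- A graph with ports. The vertex `u` has the ports `y` with `H.Adj (p u) y`; `nb u y` is the neighbour of `u`
at the port `y` (if it exists), and `rp u y` is the port of this neighbour which leads back to `u`. -/
structure Rg (V W : Type) where
  p : W → V
  nb : W → V → Option W
  rp : W → V → V

/-- The ports are consistent; the dart at the port `y` of `u` is equivalent to the reverse of the dart at the
other end. -/
structure Rg.Ok {V W : Type} (H : SimpleGraph V) (P : Rg V W) : Prop where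
  ax : ∀ u y v, H.Adj (P.p u) y → P.nb u y = some v → P.nb v (P.rp u y) = some u ∧
    ∃ φ : H ≃g H, φ (P.p u) = P.rp u y ∧ φ y = P.p v
  inj : ∀ u y y' v, H.Adj (P.p u) y → H.Adj (P.p u) y' → P.nb u y = some v → P.nb u y' = some v →
    y = y'
  irr : ∀ u y, H.Adj (P.p u) y → P.nb u y ≠ some u

/-- the graph -/
def Rg.G {V W : Type} (H : SimpleGraph V) (P : Rg V W) : SimpleGraph W :=
  SimpleGraph.fromRel (fun u v => ∃ y, H.Adj (P.p u) y ∧ P.nb u y = some v)

/-- the value of the neighbour of `u` at the port `y` -/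
def Rg.fv {V W : Type} (P : Rg V W) (f : W → V) (u : W) (y : V) : V := ((P.nb u y).map f).getD (f u)

/-- all ports of `u` are used -/
def Rg.Full {V W : Type} (H : SimpleGraph V) (P : Rg V W) (u : W) : Prop :=
  ∀ y, H.Adj (P.p u) y → ∃ v, P.nb u y = some v

/-- `f` is locally bijective at `u`, and `u` has all neighbours -/
def Rg.Bij {V W : Type} (H : SimpleGraph V) (P : Rg V W) (f : W → V) (u : W) : Prop :=
  P.Full H u ∧ Set.BijOn (P.fv f u) (H.neighborSet (P.p u)) (H.neighborSet (f u))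

/-- depth -/
structure Rg.Dep {V W : Type} (H : SimpleGraph V) (P : Rg V W) (δ : W → ℕ) : Prop where
  full : ∀ u, 2 ≤ δ u → P.Full H u
  lip : ∀ u y v, H.Adj (P.p u) y → P.nb u y = some v → δ u ≤ δ v + 1

/-- `N` is such that locally injective homomorphisms are locally bijective at all vertices of depth at least
`N` -/
def DeepN {V : Type} (H : SimpleGraph V) (N : ℕ) : Prop :=
  2 ≤ N ∧ ∀ (W : Type) (_ : Finite W) (P : Rg V W) (δ : W → ℕ), P.Ok H → P.Dep H δ →
    ∀ f : W → V, LocInj (P.G H) H f → ∀ u, N ≤ δ u → P.Bij H f u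

/-! ## Closing open ports by long lines -/

/-- vertices of a cell: the old ones and the vertices of the lines; `(z, y, i, x)` is the vertex `x` of the copy
number `i` of the line at the port `y` of `z` -/
abbrev CZ (Z V : Type) (r : ℕ) : Type := Z ⊕ (Z × V × Fin (r + 1) × V)

open Classical in
/-- At the ports in `op` we attach a line of `r + 1` copies of `H`; the last copy `r` is attached to the port. -/
noncomputable def Rg.clo {V κ Z : Type} (P : Rg V (κ × Z)) (op : κ × Z → V → Prop) (r : ℕ) :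
    Rg V (κ × CZ Z V r) where
  p
    | (k, .inl z) => P.p (k, z)
    | (_, .inr (_, _, _, x)) => x
  nb
    | (k, .inl z), y => if op (k, z) y then some (k, .inr (z, y, Fin.last r, y))
        else (P.nb (k, z) y).map (fun w => (w.1, .inl w.2))
    | (k, .inr (z, y, i, x)), y' =>
        if op (k, z) y ∧ x = P.p (k, z) ∧ y' = y then
          (if i.1 = 0 then none
            else some (k, .inr (z, y, ⟨i.1 - 1, lt_of_le_of_lt (Nat.sub_le _ _) i.2⟩, y)))
        else if op (k, z) y ∧ x = y ∧ y' = P.p (k, z) then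
          (if h : i.1 + 1 < r + 1 then some (k, .inr (z, y, ⟨i.1 + 1, h⟩, P.p (k, z)))
            else some (k, .inl z))
        else some (k, .inr (z, y, i, y'))
  rp
    | (k, .inl z), y => if op (k, z) y then P.p (k, z) else P.rp (k, z) y
    | (_, .inr (_, _, _, x)), _ => x

/-- the depth of the vertices of the closed graph -/
def cdep {κ Z V : Type} {r : ℕ} (δ : κ × Z → ℕ) : κ × CZ Z V r → ℕ
  | (k, .inl z) => δ (k, z)
  | (k, .inr (z, _, i, _)) => min (i.1 + 1) (δ (k, z) + 1)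

section lines

variable {Z V : Type} (H : SimpleGraph V) (π : Z → V) {r : ℕ}

/-- the edges inside the copies of the line at the port `y` of `z`, except the copies of the edge
`{π z, y}` -/
def LN (z : Z) (y : V) (a b : CZ Z V r) : Prop :=
  ∃ i x x', a = .inr (z, y, i, x) ∧ b = .inr (z, y, i, x') ∧ H.Adj x x' ∧ ¬ De (π z) y x x'

/-- the copies of the edge `{π z, y}` inside the copies of the line -/
def LC (z : Z) (y : V) (a b : CZ Z V r) : Prop :=
  ∃ i x x', a = .inr (z, y, i, x) ∧ b = .inr (z, y, i, x') ∧ H.Adj x x' ∧ De (π z) y x x'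

/-- the edges between consecutive copies of the line, and between the last copy and `z` -/
def LO (z : Z) (y : V) (a b : CZ Z V r) : Prop :=
  (a = .inl z ∧ b = .inr (z, y, Fin.last r, y)) ∨ (b = .inl z ∧ a = .inr (z, y, Fin.last r, y)) ∨
    ∃ (i : ℕ) (h : i + 1 < r + 1),
      (a = .inr (z, y, ⟨i + 1, h⟩, π z) ∧ b = .inr (z, y, ⟨i, Nat.lt_of_succ_lt h⟩, y)) ∨
      (b = .inr (z, y, ⟨i + 1, h⟩, π z) ∧ a = .inr (z, y, ⟨i, Nat.lt_of_succ_lt h⟩, y))

end lines

/-- the set `op` consists of unused ports -/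
def OpOk {V W : Type} (H : SimpleGraph V) (P : Rg V W) (op : W → V → Prop) : Prop :=
  ∀ u y, op u y → H.Adj (P.p u) y ∧ P.nb u y = none

/-! ## The spine -/

/-- the permutation `nx` has only one cycle -/
def Ctr {I : Type} (nx : Equiv.Perm I) : Prop :=
  ∀ (A : Type) (g : I → A), (∀ i, g (nx i) = g i) → ∀ i j, g i = g j

/-- successor in the spine: every unit `i` has three positions; `nx` is the successor of units -/
def sx {I : Type} (nx : Equiv.Perm I) : Equiv.Perm (I × Fin 3) where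
  toFun q := if q.2 = 2 then (nx q.1, 0) else (q.1, q.2 + 1)
  invFun q := if q.2 = 0 then (nx.symm q.1, 2) else (q.1, q.2 - 1)
  left_inv := by
    rintro ⟨i, σ⟩
    fin_cases σ <;> simp
  right_inv := by
    rintro ⟨i, σ⟩
    fin_cases σ <;> simp

/-! ## Part A: a vertex `X` whose stabiliser is transitive on the neighbours -/

/-- the data of part A -/
structure DA {V : Type} (H : SimpleGraph V) where
  X : V
  c : Fin 4 → V
  y : V
  x2 : V
  x3 : V
  adj_c : ∀ i, H.Adj X (c i)
  inj_c : Function.Injective c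
  adj_y : H.Adj X y
  adj_x2 : H.Adj y x2
  adj_x3 : H.Adj y x3
  ne_x2 : x2 ≠ X
  ne_x3 : x3 ≠ X
  ne_23 : x2 ≠ x3
  tr : ∀ z z', H.Adj X z → H.Adj X z' → ∃ φ : H ≃g H, φ X = X ∧ φ z = z'

/-- an instance of the colouring problem: variables `VV`, inequalities `EE` with the two sides `v1`, `v2`; the
inequalities are arranged in a cycle by `nx` -/
structure IA where
  VV : Type
  EE : Type
  v0 : VV
  v1 : EE → VV
  v2 : EE → VV
  nx : Equiv.Perm EE
  ne : ∀ e, v1 e ≠ v2 e

/-- the vertices of a cell of part A: `t` (value `y`), the stars of the spine, the copies of the spine, the copy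
which leads to the next cell of the same variable, the copy which leads to the inequality -/
inductive ZA (V : Type) : Type
  | t : ZA V
  | st (σ : Fin 3) : ZA V
  | vs (σ : Fin 3) (x : V) : ZA V
  | sy (x : V) : ZA V
  | so (x : V) : ZA V

section partA

variable {V : Type} {H : SimpleGraph V} (D : DA H) (I : IA)

/-- successor of the cells -/
def IA.pn : Equiv.Perm (I.VV × I.EE) := (Equiv.refl I.VV).prodCongr I.nx

open Classical in
/-- the graph of part A, with open ports -/
noncomputable def coreA : Rg V ((I.VV × I.EE) × ZA V) where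
  p
    | (_, .t) => D.y
    | (_, .st _) => D.X
    | (_, .vs _ x) => x
    | (_, .sy x) => x
    | (_, .so x) => x
  nb
    | (k, .t), z =>
        if z = D.x2 then some (k, .sy D.x2)
        else if z = D.x3 then some ((k.1, I.nx.symm k.2), .sy D.x3)
        else if z = D.X then some (k, .so D.X) else none
    | (k, .st σ), z =>
        if z = D.c 1 then some (k, .vs σ (D.c 1))
        else if z = D.c 0 then some ((sx I.pn (k, σ)).1, .vs (sx I.pn (k, σ)).2 (D.c 0))
        else if σ = 0 ∧ k.1 = I.v0 ∧ z = D.c 2 then some ((I.v1 k.2, k.2), .so D.y)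
        else if σ = 0 ∧ k.1 = I.v0 ∧ z = D.c 3 then some ((I.v2 k.2, k.2), .so D.y)
        else none
    | (k, .vs σ x), z =>
        if x = D.X ∧ (z = D.c 0 ∨ z = D.c 1) then none
        else if x = D.c 1 ∧ z = D.X then some (k, .st σ)
        else if x = D.c 0 ∧ z = D.X then
          some (((sx I.pn).symm (k, σ)).1, .st ((sx I.pn).symm (k, σ)).2)
        else some (k, .vs σ z)
    | (k, .sy x), z =>
        if x = D.y ∧ (z = D.x2 ∨ z = D.x3) then none
        else if x = D.x2 ∧ z = D.y then some (k, .t)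
        else if x = D.x3 ∧ z = D.y then some ((k.1, I.nx k.2), .t)
        else some (k, .sy z)
    | (k, .so x), z =>
        if x = D.X ∧ z = D.y then some (k, .t)
        else if x = D.y ∧ z = D.X then
          (if k.1 = I.v1 k.2 ∨ k.1 = I.v2 k.2 then some ((I.v0, k.2), .st 0) else none)
        else some (k, .so z)
  rp
    | (_, .t), _ => D.y
    | (_, .st _), _ => D.X
    | (_, .vs _ x), _ => x
    | (_, .sy x), _ => x
    | (k, .so x), z => if x = D.y ∧ z = D.X then (if k.1 = I.v1 k.2 then D.c 2 else D.c 3) else x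

/-- all unused ports are open -/
def opA (u : (I.VV × I.EE) × ZA V) (z : V) : Prop :=
  H.Adj ((coreA D I).p u) z ∧ (coreA D I).nb u z = none

/-- the closed graph of part A, with ports -/
noncomputable def rA (r : ℕ) : Rg V ((I.VV × I.EE) × CZ (ZA V) V r) := (coreA D I).clo (opA D I) r

/-- the graph of part A -/
noncomputable def gA (r : ℕ) : SimpleGraph ((I.VV × I.EE) × CZ (ZA V) V r) := (rA D I r).G H

end partA

/-- an instance with numbers -/
def mkIA (NV NE : ℕ) (v1 v2 : ℕ → ℕ) (h0 : 0 < NV) (h1 : ∀ e < NE, v1 e < NV)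
    (h2 : ∀ e < NE, v2 e < NV) (hne : ∀ e < NE, v1 e ≠ v2 e) : IA where
  VV := Fin NV
  EE := Fin NE
  v0 := ⟨0, h0⟩
  v1 e := ⟨v1 e.1, h1 _ e.2⟩
  v2 e := ⟨v2 e.1, h2 _ e.2⟩
  nx := finRotate NE
  ne := fun e h => hne _ e.2 (congrArg Fin.val h)

/-- the cell `k = v * NE + e` is linked: `v` is a side of the inequality `e` -/
def LkA (v1 v2 : ℕ → ℕ) (NE k : ℕ) : Prop := k / NE = v1 (k % NE) ∨ k / NE = v2 (k % NE)

/-- `l` is the cyclic successor of `k` in its row -/
def RsA (NE k l : ℕ) : Prop :=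
  (k % NE + 1 < NE ∧ l = k + 1) ∨ (k % NE + 1 = NE ∧ l + NE = k + 1)

/-- the cell `k` is linked to the cell `l` of the row `0` -/
def OtA (v1 v2 : ℕ → ℕ) (NE k l : ℕ) : Prop := l < NE ∧ l = k % NE ∧ LkA v1 v2 NE k

/-- the form of the adjacency relation of part A -/
def fmA {Z : Type} (P : Fin 7 → Z → Z → Prop) (v1 v2 : ℕ → ℕ) (NE : ℕ) (a b : Z) (k l : ℕ) :
    Prop :=
  (k = l ∧ P 0 a b) ∨ (k = l ∧ ¬ LkA v1 v2 NE k ∧ P 1 a b) ∨ (k = l ∧ LkA v1 v2 NE k ∧ P 2 a b) ∨
    (k = l ∧ NE ≤ k ∧ P 3 a b) ∨ (k = l ∧ k < NE ∧ P 4 a b) ∨ (RsA NE k l ∧ P 5 a b) ∨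
    (RsA NE l k ∧ P 5 b a) ∨ (OtA v1 v2 NE k l ∧ P 6 a b) ∨ (OtA v1 v2 NE l k ∧ P 6 b a)

/-! ### The colouring instance -/

/-- number of vertices of the colouring instance: `k` colours, `2 N` literals, `3 Θ` vertices of the triples -/
def cNV (k N Θ : ℕ) : ℕ := k + 2 * N + 3 * Θ

/-- the pair `(w, q)` is not used -/
def cBad (k N w q : ℕ) : Prop :=
  (w < k ∧ q = w) ∨ (k ≤ w ∧ w < k + 2 * N ∧ q = 1) ∨ (k + 2 * N ≤ w ∧ q = 2)

/-- the partner number `q` of the vertex `w` -/
def cPrt (k N : ℕ) (lt : ℕ → ℕ) (w q : ℕ) : ℕ :=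
  if w < k then q
  else if w < k + 2 * N then
    (if q = 0 then k + ((w - k) / 2 * 2 + (1 - (w - k) % 2)) else q)
  else
    (if q = 0 then k + 2 * N + ((w - (k + 2 * N)) / 3 * 3 + ((w - (k + 2 * N)) + 1) % 3)
    else if q = 1 then k + lt (w - (k + 2 * N)) else q)

open Classical in
/-- first side of the inequality number `e = w * k + q` -/
noncomputable def cV1 (k N e : ℕ) : ℕ := if cBad k N (e / k) (e % k) then 0 else e / k

open Classical in
/-- second side -/
noncomputable def cV2 (k N : ℕ) (lt : ℕ → ℕ) (e : ℕ) : ℕ :=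
  if cBad k N (e / k) (e % k) then 1 else cPrt k N lt (e / k) (e % k)

/-- there is a colouring with `k` colours -/
def CSol (k N Θ : ℕ) (lt : ℕ → ℕ) : Prop :=
  ∃ col : ℕ → Fin k, ∀ e < cNV k N Θ * k, col (cV1 k N e) ≠ col (cV2 k N lt e)

/-! ## Part B: pins relative to a global automorphism -/

/-- types given by the stabiliser of `X` -/
structure STyp {V : Type} (H : SimpleGraph V) (X : V) (T : Typ H) : Prop where
  vt : ∀ x x', T.vt x = T.vt x' ↔ ∃ φ : H ≃g H, φ X = X ∧ φ x = x'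
  dt : ∀ x y x' y', T.dt x y = T.dt x' y' ↔ ∃ φ : H ≃g H, φ X = X ∧ φ x = x' ∧ φ y = y'

/-- the ports at `X` used by the spine (`c0`, `c1`) and by the lines of the units (`e b`) -/
structure DP {V : Type} (H : SimpleGraph V) (X : V) where
  c0 : V
  c1 : V
  e : Bool → V
  adj_c0 : H.Adj X c0
  adj_c1 : H.Adj X c1
  adj_e : ∀ b, H.Adj X (e b)
  ne_c : c0 ≠ c1
  ne_e0 : ∀ b, e b ≠ c0
  ne_e1 : ∀ b, e b ≠ c1
  neq : ¬ EqE H X (e true) X (e false)
  sp : ∀ g g' : H ≃g H, g X = X → g' X = X → ∃ h : H ≃g H, h X = X ∧ h c0 ≠ g c1 ∧ h c1 ≠ g' c0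

/-- a vertex of the tree with root value `a`: a non-backtracking walk of length at most `R`, which does not
start with a step into `F` -/
def NdOk {V : Type} (H : SimpleGraph V) (a : V) (F : Set V) (R : ℕ) (l : List V) : Prop :=
  TreeBall_ok H a l ∧ l.length ≤ R ∧ ∀ c, l.getLast? = some c → c ∉ F

/-- the tree -/
abbrev Nd {V : Type} (H : SimpleGraph V) (a : V) (F : Set V) (R : ℕ) : Type :=
  {l : List V // NdOk H a F R l}

/-- the leaf darts: the vertex `l` has depth `R` and `y` is a neighbour of its value, different from the value of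
the parent -/
def LdOk {V : Type} (H : SimpleGraph V) (a : V) (F : Set V) (R : ℕ) (q : List V × V) : Prop :=
  NdOk H a F R q.1 ∧ q.1.length = R ∧ H.Adj (TreeBall_hd a q.1) q.2 ∧ q.2 ≠ TreeBall_hd a q.1.tail

/-- the data of part B: `r + 1` is the depth of the trees and the length of the lines -/
structure DB {V : Type} (H : SimpleGraph V) (X : V) extends DP H X where
  a : Fin 5 → V
  F : Fin 5 → Set V
  r : ℕ

section partB

variable {V : Type} {H : SimpleGraph V} {X : V} (D : DB H X)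

/-- the vertices of the tree `j` -/
abbrev DB.N (j : Fin 5) : Type := Nd H (D.a j) (D.F j) (D.r + 1)

/-- the units: one for every leaf dart -/
abbrev DB.U : Type := Σ j : Fin 5, {q : List V × V // LdOk H (D.a j) (D.F j) (D.r + 1) q}

/-- the value of the leaf -/
def DB.ul (u : D.U) : V := TreeBall_hd (D.a u.1) u.2.1.1

/-- the value of the neighbour -/
def DB.uy (u : D.U) : V := u.2.1.2

/-- the leaf -/
def DB.un (u : D.U) : D.N u.1 := ⟨u.2.1.1, u.2.2.1⟩

open Classical in
/-- the port at `X` for the line of the unit: `{X, ue u}` is not equivalent to the edge `{ul u, uy u}` -/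
noncomputable def DB.ue (u : D.U) : V := if EqE H X (D.e true) (D.ul u) (D.uy u) then D.e false else D.e true

/-- the vertices of a cell of part B -/
inductive ZB {V : Type} {H : SimpleGraph V} {X : V} (D : DB H X) : Type
  | nd (j : Fin 5) (l : D.N j) : ZB D
  | st (u : D.U) (σ : Fin 3) : ZB D
  | vs (u : D.U) (σ : Fin 3) (x : V) : ZB D
  | sw (u : D.U) (x : V) : ZB D
  | sz (u : D.U) (x : V) : ZB D

open Classical in
/-- neighbours in the trees: the parent, the children, or (at the leaves) the unit -/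
noncomputable def nbN (j : Fin 5) (l : D.N j) (z : V) : Option (ZB D) :=
  if h : LdOk H (D.a j) (D.F j) (D.r + 1) (l.1, z) then some (.sz ⟨j, ⟨(l.1, z), h⟩⟩ z)
  else if h : l.1 ≠ [] ∧ z = TreeBall_hd (D.a j) l.1.tail ∧ NdOk H (D.a j) (D.F j) (D.r + 1) l.1.tail then
    some (.nd j ⟨l.1.tail, h.2.2⟩)
  else if h : NdOk H (D.a j) (D.F j) (D.r + 1) (z :: l.1) then some (.nd j ⟨z :: l.1, h⟩)
  else none

open Classical in
/-- the graph of part B (the pins), with open ports -/
noncomputable def coreB {κ : Type} (nx : Equiv.Perm (κ × D.U)) : Rg V (κ × ZB D) where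
  p
    | (_, .nd j l) => TreeBall_hd (D.a j) l.1
    | (_, .st _ _) => X
    | (_, .vs _ _ x) => x
    | (_, .sw _ x) => x
    | (_, .sz _ x) => x
  nb
    | (k, .nd j l), z => (nbN D j l z).map (fun w => (k, w))
    | (k, .st u σ), z =>
        if z = D.c1 then some (k, .vs u σ D.c1)
        else if z = D.c0 then
          some ((sx nx ((k, u), σ)).1.1, .vs (sx nx ((k, u), σ)).1.2 (sx nx ((k, u), σ)).2 D.c0)
        else if σ = 0 ∧ z = D.ue u then some (k, .sw u (D.ue u))
        else none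
    | (k, .vs u σ x), z =>
        if x = X ∧ (z = D.c0 ∨ z = D.c1) then none
        else if x = D.c1 ∧ z = X then some (k, .st u σ)
        else if x = D.c0 ∧ z = X then
          some (((sx nx).symm ((k, u), σ)).1.1,
            .st ((sx nx).symm ((k, u), σ)).1.2 ((sx nx).symm ((k, u), σ)).2)
        else some (k, .vs u σ z)
    | (k, .sw u x), z =>
        if x = D.ue u ∧ z = X then some (k, .st u 0)
        else if x = X ∧ z = D.ue u then some (k, .sz u (D.ue u))
        else some (k, .sw u z)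
    | (k, .sz u x), z =>
        if x = D.ue u ∧ z = X then some (k, .sw u X)
        else if x = X ∧ z = D.ue u then none
        else if x = D.uy u ∧ z = D.ul u then some (k, .nd u.1 (D.un u))
        else if x = D.ul u ∧ z = D.uy u then none
        else some (k, .sz u z)
  rp
    | (_, .nd j l), _ => TreeBall_hd (D.a j) l.1
    | (_, .st _ _), _ => X
    | (_, .vs _ _ x), _ => x
    | (_, .sw _ x), _ => x
    | (_, .sz _ x), _ => x

/-- the open ports: all unused ports outside the trees -/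
def opB {κ : Type} (nx : Equiv.Perm (κ × D.U)) : κ × ZB D → V → Prop
  | (_, .nd _ _), _ => False
  | (k, .st u σ), z => H.Adj X z ∧ (coreB D nx).nb (k, .st u σ) z = none
  | (k, .vs u σ x), z => H.Adj x z ∧ (coreB D nx).nb (k, .vs u σ x) z = none
  | (k, .sw u x), z => H.Adj x z ∧ (coreB D nx).nb (k, .sw u x) z = none
  | (k, .sz u x), z => H.Adj x z ∧ (coreB D nx).nb (k, .sz u x) z = none

/-- the closed graph of part B -/
noncomputable def rB {κ : Type} (nx : Equiv.Perm (κ × D.U)) : Rg V (κ × CZ (ZB D) V D.r) :=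
  (coreB D nx).clo (opB D nx) D.r

/-- the graph of the pins -/
noncomputable def gB {κ : Type} (nx : Equiv.Perm (κ × D.U)) : SimpleGraph (κ × CZ (ZB D) V D.r) :=
  (rB D nx).G H

/-- depth in the pins -/
def dB {κ : Type} : κ × ZB D → ℕ
  | (_, .nd _ l) => l.1.length
  | (_, _) => D.r + 1

/-- the empty walk is a vertex of the tree -/
theorem nd_nil {V : Type} (H : SimpleGraph V) (a : V) (F : Set V) (R : ℕ) : NdOk H a F R [] := by
  refine ⟨trivial, Nat.zero_le _, ?_⟩
  intro c hc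
  simp at hc

/-- the roots -/
def DB.ro (j : Fin 5) : CZ (ZB D) V D.r := .inl (.nd j ⟨[], nd_nil _ _ _ _⟩)

end partB

/-! ## Gluing arms to a graph with roots -/

section glueS

variable {κ Z Y ι : Type} (Gp : SimpleGraph (κ × Z)) (ro : ι → Z) (B : SimpleGraph Y)
  (att : κ → Y → κ → ι → Prop)

/-- `att k y l i`: the free vertex `y` of the copy `k` of `B` is attached to the root `ro i` of the cell `l` -/
def sAdj : κ × (Z ⊕ Y) → κ × (Z ⊕ Y) → Prop
  | (k, .inl x), (l, .inl y) => Gp.Adj (k, x) (l, y)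
  | (k, .inr x), (l, .inr y) => k = l ∧ B.Adj x y
  | (k, .inr y), (l, .inl x) => ∃ i, x = ro i ∧ att k y l i
  | (l, .inl x), (k, .inr y) => ∃ i, x = ro i ∧ att k y l i

/-- the glued graph -/
def glueS : SimpleGraph (κ × (Z ⊕ Y)) := SimpleGraph.fromRel (sAdj Gp ro B att)

end glueS

/-- Colourings `c` of the free vertices, with values `x` of the roots, which extend. -/
structure GoodS {V κ Y ι : Type} {H : SimpleGraph V} (T : Typ H) (a : ι → V) (F : ι → Set V)
    (B : SimpleGraph Y) (att : κ → Y → κ → ι → Prop) (c : κ → Y → V) (x : κ → ι → V) :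
    Prop where
  hom : ∀ k y y', B.Adj y y' → H.Adj (c k y) (c k y')
  inj : ∀ k y y1 y2, B.Adj y y1 → B.Adj y y2 → c k y1 = c k y2 → y1 = y2
  vt : ∀ l i, T.vt (x l i) = T.vt (a i)
  adj : ∀ k y l i, att k y l i → H.Adj (x l i) (c k y)
  cap : ∀ l i θ, T.cp (x l i) {z | ∃ k y, att k y l i ∧ c k y = z} θ ≤ T.cp (a i) (F i) θ
  ne : ∀ k y y' l i, B.Adj y y' → att k y l i → c k y' ≠ x l i
  ne' : ∀ k y l i l' i', att k y l i → att k y l' i' → x l i = x l' i' → l = l' ∧ i = i'
  dis : ∀ l i k y k' y', att k y l i → att k' y' l i → c k y = c k' y' → k = k' ∧ y = y'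

/-- all root values and all sets of free slots with the right types are possible -/
def FlexS {V κ Z ι : Type} {H : SimpleGraph V} (T : Typ H) (Gp : SimpleGraph (κ × Z)) (ro : ι → Z)
    (a : ι → V) (F : ι → Set V) : Prop :=
  ∀ (x : κ → ι → V) (E : κ → ι → Set V), (∀ k i, T.vt (x k i) = T.vt (a i)) →
    (∀ k i, E k i ⊆ H.neighborSet (x k i)) →
    (∀ k i θ, T.cp (x k i) (E k i) θ ≤ T.cp (a i) (F i) θ) →
    ∃ p : κ × Z → V, LocInj Gp H p ∧
      ∀ k i, p (k, ro i) = x k i ∧ ∀ q, Gp.Adj (k, ro i) q → p q ∉ E k i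

/-- up to an automorphism, all root values and all sets of free slots have the right types -/
def ForceS {V κ Z ι : Type} {H : SimpleGraph V} (T : Typ H) (Gp : SimpleGraph (κ × Z)) (ro : ι → Z)
    (a : ι → V) (F : ι → Set V) : Prop :=
  ∀ f : κ × Z → V, LocInj Gp H f → ∃ Φ : H ≃g H, ∀ k i, T.vt (Φ (f (k, ro i))) = T.vt (a i) ∧
    ∀ E ⊆ H.neighborSet (Φ (f (k, ro i))), (∀ q, Gp.Adj (k, ro i) q → Φ (f q) ∉ E) →
      ∀ θ, T.cp (Φ (f (k, ro i))) E θ ≤ T.cp (a i) (F i) θ

/-! ## The combinatorial data of part B -/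

/-- `X, Y` can be reached from `v` with `j` free vertices, from a slot of the type of `f` to a slot of the type of
`Y` -/
def ReT {V : Type} {H : SimpleGraph V} (T : Typ H) (X : V) (j : ℕ) (v f Y : V) : Prop :=
  ∃ f' y', H.Adj v f' ∧ T.dt v f' = T.dt v f ∧ T.dt X y' = T.dt X Y ∧ Rch H j v f' y' X

/-- The combinatorial data. -/
structure SK {V : Type} {H : SimpleGraph V} (T : Typ H) extends TK T where
  tf : V
  adj_tf : H.Adj (g0 true (m1 + 1)) tf
  dt_tf : T.dt (g0 true (m1 + 1)) tf = T.dt (g0 false (m1 + 1)) (g0 false m1)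
  sf : V
  adj_sf : H.Adj (g1 true (m2 + 1)) sf
  dt_sf : T.dt (g1 true (m2 + 1)) sf = T.dt (g1 false (m2 + 1)) (g1 false m2)
  v : V
  f : Bool → V
  j : ℕ
  Y : Fin 3 → V
  j_pos : 0 < j
  adj_f : ∀ b, H.Adj v (f b)
  dt_f : T.dt v (f true) ≠ T.dt v (f false)
  adj_Y : ∀ i, H.Adj X (Y i)
  inj_Y : Function.Injective Y
  Y0 : Y 0 = w true
  Y1 : Y 1 = w false
  dt_Y2 : T.dt X (Y 2) ≠ T.dt X (Y 0)
  free_Y : ∃ c, H.Adj X c ∧ ∀ i, c ≠ Y i
  re0 : ¬ ReT T X j v (f false) (Y 0)
  re1 : ReT T X j v (f false) (Y 1)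
  re2 : ReT T X j v (f false) (Y 2)
  re3 : ReT T X j v (f true) (Y 0)

namespace SK

variable {V : Type} {H : SimpleGraph V} {T : Typ H} (D : SK T)

/-- the values of the five roots -/
def a : Fin 5 → V := ![D.X, D.g0 true (D.m1 + 1), D.g1 true (D.m2 + 1), D.X, D.v]

/-- the free slots of the five roots -/
def F : Fin 5 → Set V := ![{D.w true, D.w false}, {D.g0 true D.m1, D.tf}, {D.g1 true D.m2, D.sf},
  Set.range D.Y, {D.f true, D.f false}]

/-- in the state `b` (the second slot of the root `0` is `w (!b)`) the arm can end at a slot of the type of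
`Y i` -/
def R (b : Bool) (i : Fin 3) : Prop :=
  ∃ σ, ReT T D.X D.j D.v (D.f σ) (D.w (!b)) ∧ ReT T D.X D.j D.v (D.f (!σ)) (D.Y i)

/-- bound for the number of free vertices of an arm -/
def len : ℕ := D.m1 + D.m2 + D.j + 1

/-- number of free vertices of the four arms -/
def L : Fin 4 → ℕ := ![D.m1 + 1, D.m2, D.j, D.j]

theorem len_pos : 0 < D.len := by unfold len; omega

/-- the free vertex number `p` of the arm `q` (`p < L q`) -/
def fv (q : Fin 4) (p : ℕ) : Fin 4 × Fin D.len := (q, ⟨p % D.len, Nat.mod_lt _ D.len_pos⟩)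

/-- The graph of the free vertices: four paths; the first vertices of the arms `0` and `1` are
adjacent; the vertices `(q, p)` with `L q ≤ p` are isolated. -/
def B : SimpleGraph (Fin 4 × Fin D.len) :=
  SimpleGraph.fromRel (fun x y => (x.1 = y.1 ∧ y.2.1 = x.2.1 + 1 ∧ y.2.1 < D.L x.1) ∨
    (x.1 = 0 ∧ x.2.1 = 0 ∧ y.1 = 1 ∧ y.2.1 = 0 ∧ 0 < D.m2))

/-- the last vertex of the arm `1` -/
def en1 : Fin 4 × Fin D.len := if D.m2 = 0 then D.fv 0 0 else D.fv 1 (D.m2 - 1)

end SK

/-- The attachments: the arms `0` and `2` start at the root `0` of their cell, the arm `2` ends at the root `4` of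
its cell, where the arm `3` starts; the arms `0`, `1`, `3` end at the roots `1`, `2`, `3` of the cells given by the
links. -/
def atZ {V : Type} {H : SimpleGraph V} {T : Typ H} (D : SK T) (lk : Fin 3 → ℕ → ℕ → Prop) (k : ℕ)
    (y : Fin 4 × Fin D.len) (l : ℕ) (i : Fin 5) : Prop :=
  (i = 0 ∧ k = l ∧ (y = D.fv 0 0 ∨ y = D.fv 2 0)) ∨
    (i = 4 ∧ k = l ∧ (y = D.fv 2 (D.j - 1) ∨ y = D.fv 3 0)) ∨
    (i = 1 ∧ y = D.fv 0 D.m1 ∧ lk 0 k l) ∨ (i = 2 ∧ y = D.en1 ∧ lk 1 k l) ∨
    (i = 3 ∧ y = D.fv 3 (D.j - 1) ∧ lk 2 k l)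

/-- the attachments of a network -/
def atN {V : Type} {H : SimpleGraph V} {T : Typ H} (D : SK T) (N : Ntw) (k : Fin N.K)
    (y : Fin 4 × Fin D.len) (l : Fin N.K) (i : Fin 5) : Prop := atZ D N.lk k.1 y l.1 i

/-- cyclic successor in `{0, ..., K - 1}` -/
def nxt (K k l : ℕ) : Prop := l = k + 1 ∨ (k + 1 = K ∧ l = 0)

/-- position of the unit `u` of the cell `k` -/
noncomputable def posG (K : ℕ) (U : Type) [Finite U] : Fin K × U ≃ Fin (K * Nat.card U) :=
  ((Equiv.refl (Fin K)).prodCongr (Finite.equivFin U)).trans finProdFinEquiv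

/-- cyclic successor of the units of all cells -/
noncomputable def nxG (K : ℕ) (U : Type) [Finite U] : Equiv.Perm (Fin K × U) :=
  ((posG K U).trans (finRotate _)).trans (posG K U).symm

/-- the adjacency relation of the glued graph in terms of the numbers of the cells -/
def adjS {Z Y : Type} (P Q : Z → Z → Prop) (ro : Fin 5 → Z) (B : SimpleGraph Y)
    (ath : ℕ → Y → ℕ → Fin 5 → Prop) (K k l : ℕ) : Z ⊕ Y → Z ⊕ Y → Prop
  | .inl a, .inl b => (k = l ∧ P a b) ∨ (nxt K k l ∧ Q a b) ∨ (nxt K l k ∧ Q b a)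
  | .inr y, .inr y' => k = l ∧ B.Adj y y'
  | .inr y, .inl a => ∃ i, a = ro i ∧ ath k y l i
  | .inl a, .inr y => ∃ i, a = ro i ∧ ath l y k i

/-- The data of a colouring of a network: `W q k j` is the value of the vertex number `j` of the arm `q` of the
cell `k` (`j = 0`: the vertex where it starts, `j = 1, ..., L q` its free vertices, `j = L q + 1` the root where it
ends), `Rt l i` the value of the root `i` of the cell `l`, `s` the states, `y` the slots at the roots `3`. -/
structure LayS {V : Type} {H : SimpleGraph V} {T : Typ H} (D : SK T) (K : ℕ)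
    (lk : Fin 3 → ℕ → ℕ → Prop) (W : Fin 4 → ℕ → ℕ → V) (Rt : ℕ → Fin 5 → V) (s : ℕ → Bool)
    (y : ℕ → Fin 3) : Prop where
  dom : ∀ i k l, lk i k l → k < K ∧ l < K
  fn : ∀ i k l l', lk i k l → lk i k l' → l = l'
  adj : ∀ q k j, k < K → H.Adj (W q k j) (W q k (j + 1))
  nb : ∀ q k j, k < K → W q k j ≠ W q k (j + 2)
  st : ∀ k < K, Rt k 0 = D.X ∧ Rt k 3 = D.X ∧ W 0 k 0 = D.X ∧ W 2 k 0 = D.X ∧
    W 2 k (D.j + 1) = Rt k 4 ∧ W 3 k 0 = Rt k 4
  st1 : ∀ k < K, W 1 k 0 = W 0 k 1 ∧ W 1 k 1 ≠ W 0 k 0 ∧ W 1 k 1 ≠ W 0 k 2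
  ty0 : ∀ k < K, T.dt D.X (W 0 k 1) = T.dt D.X (D.w (s k)) ∧
    T.dt D.X (W 2 k 1) = T.dt D.X (D.w (!s k))
  ty4 : ∀ k < K, T.vt (Rt k 4) = T.vt D.v ∧ ∃ σ, T.dt (Rt k 4) (W 2 k D.j) = T.dt D.v (D.f σ) ∧
    T.dt (Rt k 4) (W 3 k 1) = T.dt D.v (D.f (!σ))
  vt1 : ∀ l < K, T.vt (Rt l 1) = T.vt (D.g0 true (D.m1 + 1))
  vt2 : ∀ l < K, T.vt (Rt l 2) = T.vt (D.g1 true (D.m2 + 1))
  en0 : ∀ k l, lk 0 k l → W 0 k (D.m1 + 2) = Rt l 1 ∧
    T.dt (Rt l 1) (W 0 k (D.m1 + 1)) = T.dt (D.g0 (s k) (D.m1 + 1)) (D.g0 (s k) D.m1)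
  en1 : ∀ k l, lk 1 k l → W 1 k (D.m2 + 1) = Rt l 2 ∧
    T.dt (Rt l 2) (W 1 k D.m2) = T.dt (D.g1 (s k) (D.m2 + 1)) (D.g1 (s k) D.m2)
  en3 : ∀ k l, lk 2 k l → W 3 k (D.j + 1) = D.X ∧ W 3 k D.j = D.Y (y k)
  dif : ∀ i k k' l, i ≠ 2 → lk i k l → lk i k' l → k ≠ k' → s k ≠ s k'
  dif3 : ∀ k k' l, lk 2 k l → lk 2 k' l → k ≠ k' → y k ≠ y k'

/-- the colouring of the free vertices given by a layout -/
def cS {V : Type} {H : SimpleGraph V} {T : Typ H} (D : SK T) (W : Fin 4 → ℕ → ℕ → V) {K : ℕ}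
    (k : Fin K) (y : Fin 4 × Fin D.len) : V := W y.1 k.1 (y.2.1 + 1)

/-- the values of the roots -/
def xS {V : Type} (Rt : ℕ → Fin 5 → V) {K : ℕ} (l : Fin K) (i : Fin 5) : V := Rt l.1 i

end Pool.Agent.LHC
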