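import Pool.Agent.LHC.Defs
import Pool.Agent.LHC.EqB

/-!
# Two inequivalent edges at `X`

Suppose all edges at `X` are equivalent. Let `Γ`-equivalent mean: there is an automorphism `φ` of `H` mapping one to the other. For neighbours `y, y'` of `X` which are not equivalent under
the stabiliser of `X` take `φ` with `De X y' (φ X) (φ y)`: `φ X = X`, `φ y = y'` is excluded, so `φ X = y'`, `φ y = X`: both `y'` and `y` are `Γ`-equivalent to `X`. So `y1`,
`y2` are `Γ`-equivalent to `X`; every neighbour `y` of `X` is not equivalent (under the stabiliser) to `y1` or not to `y2` (transitivity), so it is `Γ`-equivalent to `X`. Hence the set of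
all `z` which are `Γ`-equivalent to `X` is closed under adjacency: if `φ X = z`, `z ∼ z'` then `φ.symm z' ∼ X`, so `ψ X = φ.symm z'`, `φ (ψ X) = z'`. By
connectedness it contains all vertices (`Reachable`, induction on a walk). An automorphism preserves degrees, so `hr` is violated.
-/

namespace Pool.Agent.LHC

open Pool.Agent.LIH Pool.Agent.LHA Pool.Agent.LHB

theorem edge_two {V : Type} {H : SimpleGraph V} (hc : H.Connected) {X y1 y2 : V}
    (h1 : H.Adj X y1) (h2 : H.Adj X y2) (hn : ¬ ∃ φ : H ≃g H, φ X = X ∧ φ y1 = y2)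
    (hr : ∃ z, (H.neighborSet z).ncard ≠ (H.neighborSet X).ncard) :
    ∃ y y', H.Adj X y ∧ H.Adj X y' ∧ ¬ EqE H X y X y' := by
  by_contra hcon
  have hall : ∀ y y', H.Adj X y → H.Adj X y' → EqE H X y X y' := by
    intro y y' hy hy'
    by_contra h
    exact hcon ⟨y, y', hy, hy', h⟩
  have hpair : ∀ y y', H.Adj X y → H.Adj X y' → (¬ ∃ φ : H ≃g H, φ X = X ∧ φ y = y') →
      (∃ φ : H ≃g H, φ X = y) ∧ ∃ φ : H ≃g H, φ X = y' := by
    intro y y' hy hy' hno
    obtain ⟨φ, hφ⟩ := hall y y' hy hy'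
    rcases hφ with ⟨h3, h4⟩ | ⟨h3, h4⟩
    · exact absurd ⟨φ, h3, h4⟩ hno
    · refine ⟨⟨φ.symm, ?_⟩, ⟨φ, h3⟩⟩
      rw [← h4]
      exact φ.symm_apply_apply y
  have hy1 : ∃ φ : H ≃g H, φ X = y1 := (hpair y1 y2 h1 h2 hn).1
  have hnb : ∀ y, H.Adj X y → ∃ φ : H ≃g H, φ X = y := by
    intro y hy
    by_cases h : ∃ φ : H ≃g H, φ X = X ∧ φ y1 = y
    · obtain ⟨ψ, _, h4⟩ := h
      obtain ⟨φ, hφ⟩ := hy1
      refine ⟨φ.trans ψ, ?_⟩
      change ψ (φ X) = y
      rw [hφ, h4]
    · exact (hpair y1 y h1 hy h).2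
  have hstep : ∀ z z', H.Adj z z' → (∃ φ : H ≃g H, φ X = z) → ∃ φ : H ≃g H, φ X = z' := by
    rintro z z' hzz ⟨φ, hφ⟩
    have h3 : H.Adj X (φ.symm z') := by
      rw [← φ.map_rel_iff]
      change H.Adj (φ X) (φ (φ.symm z'))
      rw [hφ, φ.apply_symm_apply]
      exact hzz
    obtain ⟨ψ, hψ⟩ := hnb _ h3
    refine ⟨ψ.trans φ, ?_⟩
    change φ (ψ X) = z'
    rw [hψ, φ.apply_symm_apply]
  have hwalk : ∀ (z z' : V), H.Walk z z' → (∃ φ : H ≃g H, φ X = z) → ∃ φ : H ≃g H, φ X = z' := by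
    intro z z' w
    induction w with
    | nil => exact fun h => h
    | cons hadj _ ih => exact fun h => ih (hstep _ _ hadj h)
  have hevery : ∀ z, ∃ φ : H ≃g H, φ X = z := by
    intro z
    obtain ⟨w⟩ := hc.preconnected X z
    exact hwalk X z w ⟨RelIso.refl _, rfl⟩
  obtain ⟨z, hz⟩ := hr
  apply hz
  obtain ⟨φ, hφ⟩ := hevery z
  have h5 : H.neighborSet z = φ '' (H.neighborSet X) := by
    ext w
    constructor
    · intro hw
      refine ⟨φ.symm w, ?_, φ.apply_symm_apply w⟩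
      have h6 : H.Adj z w := hw
      change H.Adj X (φ.symm w)
      rw [← φ.map_rel_iff]
      change H.Adj (φ X) (φ (φ.symm w))
      rw [hφ, φ.apply_symm_apply]
      exact h6
    · rintro ⟨v, hv, rfl⟩
      have h6 : H.Adj X v := hv
      change H.Adj z (φ v)
      rw [← hφ]
      exact φ.map_rel_iff.2 h6
  rw [h5, Set.ncard_image_of_injective _ φ.injective]

end Pool.Agent.LHC
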