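import Pool.Agent.LHC.Defs
import Pool.Agent.LHC.StB
import Pool.Agent.LHC.RvR
import Pool.Agent.LHA.Nb1
import Pool.Agent.LHB.TBas
import Pool.Agent.LHB.TriT

/-!
# The data of part B, mixed case

`w true = Q`, `w false = P1`. `T.vt Q ≠ T.vt P1` (`styp_vt` would give an automorphism which fixes `X` and maps `Q` to `P1`; take its inverse). `triT` gives `K : TK T`, `K.X = X`, `K.w = w`. `v = g0 true (m1 + 1)`, `j = m1 + 1`, `f true = g0 true m1`, `f false = tf`, where `tf` (`Typ.ext0`, from `vt_u`) is a neighbour of `v` with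
`T.dt v tf = T.dt (g0 false (m1+1)) (g0 false m1)`; `sf` similarly from `vt_U`. `Y = ![Q, P1, P2]` (different: `Q ≠ P1, P2` by `hP`, `hd`). `dt_Y2`: `T.dt X P2 = T.dt X P1 ≠ T.dt X Q` (`styp_dt`). `free_Y`: `h4`.
`dt_f`: `T.dt v (g0 true m1) ≠ T.dt (g0 false (m1+1)) (g0 false m1)`: otherwise `sound0` with `b = true`, `c = false`, `x = X`, `y = w true`, `z = g0 true 1` and the walk `Rch H m1 (w true) (g0 true 1) (g0 true m1) (g0 true (m1+1))` (`rch_seq`) gives `false = true`.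
`re0`: let `f' ∼ v`, `T.dt v f' = T.dt v tf`, `T.dt X y' = T.dt X (w true)`, `Rch H (m1+1) v f' y' X`. `rch_rev`: `Rch H (m1+1) X y' f' v`, `rch_front`: `z ∼ y'`, `z ≠ X`, `Rch H m1 y' z f' v`. `sound0` with `b = true`, `c = false`, `x = X`, `y = y'`, `p = f'`, `q = v`: `false = true`.
`re1`: the walk `X, w false = g0 false 0, ..., g0 false (m1+1)` is `Rch H (m1+1) X (w false) (g0 false m1) (g0 false (m1+1))` (`rch_seq` with `g 0 = X`, `g (p+1) = g0 false p`; `ne_X0`). `styp_vt` for `vt_u` gives `φ` with `φ X = X`, `φ (g0 false (m1+1)) = v`; `rch_map`, `rch_rev`: `Rch H (m1+1) v (φ (g0 false m1)) (φ (w false)) X`; `f' = φ (g0 false m1)`,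
`y' = φ (w false)` have the right types (`styp_map`). `re2`: the same, `T.dt X (Y 2) = T.dt X (Y 1)`. `re3`: the walk of `g0 true`, reversed.
-/

namespace Pool.Agent.LHC

open Pool.Agent.LIH Pool.Agent.LHA Pool.Agent.LHB

section

variable {V : Type} {H : SimpleGraph V} {T : Typ H}

/-- the walk along `g0 b` -/
theorem KMx_w0 (K : TK T) (b : Bool) :
    Rch H K.m1 (K.w b) (K.g0 b 1) (K.g0 b K.m1) (K.g0 b (K.m1 + 1)) := by
  have h : H.Adj (K.w b) (K.g0 b 1) := by
    have := K.adj0 b 0 (Nat.zero_le _)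
    rwa [K.g0_0] at this
  rw [rch_seq h]
  exact ⟨K.g0 b, K.g0_0 b, rfl, rfl, rfl, fun p hp => K.adj0 b p hp, fun p hp => K.nb0 b p hp⟩

theorem KMx_w (K : TK T) (b : Bool) :
    Rch H (K.m1 + 1) K.X (K.w b) (K.g0 b K.m1) (K.g0 b (K.m1 + 1)) := by
  have h : H.Adj (K.w b) (K.g0 b 1) := by
    have := K.adj0 b 0 (Nat.zero_le _)
    rwa [K.g0_0] at this
  rw [rch_front (K.adj_w b)]
  exact ⟨K.g0 b 1, h, K.ne_X0 b, KMx_w0 K b⟩

theorem KMx_main [Finite V] (K : TK T) (hT : STyp H K.X T)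
    (h4 : 4 ≤ (H.neighborSet K.X).ncard) {P2 : V} (h2 : H.Adj K.X P2)
    (hne : K.w false ≠ P2) (hP : ∃ φ : H ≃g H, φ K.X = K.X ∧ φ (K.w false) = P2)
    (hd : ¬ ∃ φ : H ≃g H, φ K.X = K.X ∧ φ (K.w false) = K.w true) : ∃ D : SK T, D.X = K.X := by
  classical
  obtain ⟨tf, adj_tf, dt_tf⟩ := T.ext0 (x := K.g0 false (K.m1 + 1)) (x' := K.g0 true (K.m1 + 1))
    (z := K.g0 false K.m1) K.vt_u.symm (K.adj0 false K.m1 le_rfl).symm
  obtain ⟨sf, adj_sf, dt_sf⟩ := T.ext0 (x := K.g1 false (K.m2 + 1)) (x' := K.g1 true (K.m2 + 1))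
    (z := K.g1 false K.m2) K.vt_U.symm (K.adj1 false K.m2 le_rfl).symm
  obtain ⟨ψ, hψ, hψP⟩ := hP
  have hQP1 : K.w true ≠ K.w false := by
    intro h
    exact hd ⟨RelIso.refl _, rfl, h.symm⟩
  have hQP2 : K.w true ≠ P2 := by
    intro h
    exact hd ⟨ψ, hψ, hψP.trans h.symm⟩
  have hdt2 : T.dt K.X P2 = T.dt K.X (K.w false) := by
    have := (styp_map hT hψ K.X (K.w false)).2
    rwa [hψ, hψP] at this
  -- the walk of `g0 false`, moved to `v`
  obtain ⟨φ, hφ, hφv⟩ := styp_vt hT (x := K.g0 false (K.m1 + 1)) (x' := K.g0 true (K.m1 + 1))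
    K.vt_u.symm
  have hadjw : H.Adj K.X (φ (K.w false)) := by
    have := φ.map_adj_iff.mpr (K.adj_w false)
    rwa [hφ] at this
  have hwalk : Rch H (K.m1 + 1) (K.g0 true (K.m1 + 1)) (φ (K.g0 false K.m1)) (φ (K.w false))
      K.X := by
    have h1 := rch_map φ (KMx_w K false)
    rw [hφ, hφv] at h1
    exact rch_rev hadjw h1
  have hf' : H.Adj (K.g0 true (K.m1 + 1)) (φ (K.g0 false K.m1)) := by
    have := φ.map_adj_iff.mpr (K.adj0 false K.m1 le_rfl).symm
    rwa [hφv] at this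
  have hdf' : T.dt (K.g0 true (K.m1 + 1)) (φ (K.g0 false K.m1)) = T.dt (K.g0 true (K.m1 + 1)) tf := by
    have := (styp_map hT hφ (K.g0 false (K.m1 + 1)) (K.g0 false K.m1)).2
    rw [hφv] at this
    rw [this, dt_tf]
  have hdy' : T.dt K.X (φ (K.w false)) = T.dt K.X (K.w false) := by
    have := (styp_map hT hφ K.X (K.w false)).2
    rwa [hφ] at this
  refine ⟨
    { toTK := K
      tf := tf
      adj_tf := adj_tf
      dt_tf := dt_tf
      sf := sf
      adj_sf := adj_sf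
      dt_sf := dt_sf
      v := K.g0 true (K.m1 + 1)
      f := fun b => if b then K.g0 true K.m1 else tf
      j := K.m1 + 1
      Y := ![K.w true, K.w false, P2]
      j_pos := Nat.succ_pos _
      adj_f := ?_
      dt_f := ?_
      adj_Y := ?_
      inj_Y := ?_
      Y0 := rfl
      Y1 := rfl
      dt_Y2 := ?_
      free_Y := ?_
      re0 := ?_
      re1 := ?_
      re2 := ?_
      re3 := ?_ }, rfl⟩
  · intro b
    cases b
    · exact adj_tf
    · exact (K.adj0 true K.m1 le_rfl).symm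
  · show T.dt (K.g0 true (K.m1 + 1)) (K.g0 true K.m1) ≠ T.dt (K.g0 true (K.m1 + 1)) tf
    intro h
    have hz : H.Adj (K.w true) (K.g0 true 1) := by
      have := K.adj0 true 0 (Nat.zero_le _)
      rwa [K.g0_0] at this
    have := K.sound0 true false K.X (K.w true) (K.g0 true 1) (K.g0 true K.m1)
      (K.g0 true (K.m1 + 1)) (K.adj_w true) rfl hz (K.ne_X0 true) (KMx_w0 K true)
      (h.trans dt_tf)
    exact absurd this (by decide)
  · intro i
    fin_cases i
    · exact K.adj_w true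
    · exact K.adj_w false
    · exact h2
  · intro i i' hii
    fin_cases i <;> fin_cases i' <;> simp at hii ⊢ <;>
      first
        | exact absurd hii hQP1
        | exact absurd hii hQP2
        | exact absurd hii hne
        | exact absurd hii.symm hQP1
        | exact absurd hii.symm hQP2
        | exact absurd hii.symm hne
  · show T.dt K.X P2 ≠ T.dt K.X (K.w true)
    intro h
    obtain ⟨χ, hχ, _, hχP⟩ := styp_dt hT h
    exact hd ⟨ψ.trans χ, by
      show χ (ψ K.X) = K.X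
      rw [hψ, hχ], by
      show χ (ψ (K.w false)) = K.w true
      rw [hψP, hχP]⟩
  · have h1 : 0 < (H.neighborSet K.X \ {K.w true, K.w false, P2}).ncard := by
      have e1 : (H.neighborSet K.X).ncard - ({K.w true, K.w false, P2} : Set V).ncard ≤
          (H.neighborSet K.X \ {K.w true, K.w false, P2}).ncard := Set.le_ncard_sdiff _ _
      have e2 := Set.ncard_insert_le (K.w true) {K.w false, P2}
      have e3 := Set.ncard_insert_le (K.w false) {P2}
      rw [Set.ncard_singleton] at e3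
      omega
    obtain ⟨c, hc⟩ := (Set.ncard_pos).mp h1
    simp only [Set.mem_sdiff, SimpleGraph.mem_neighborSet, Set.mem_insert_iff,
      Set.mem_singleton_iff, not_or] at hc
    refine ⟨c, hc.1, ?_⟩
    intro i
    fin_cases i
    · exact hc.2.1
    · exact hc.2.2.1
    · exact hc.2.2.2
  · rintro ⟨f', y', a1, a2, a3, a4⟩
    have b1 : H.Adj K.X y' := (rch_adj a1 a4).symm
    have b2 := rch_rev a1 a4
    rw [rch_front b1] at b2
    obtain ⟨z, c1, c2, c3⟩ := b2
    have a2' : T.dt (K.g0 true (K.m1 + 1)) f' = T.dt (K.g0 true (K.m1 + 1)) tf := a2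
    have := K.sound0 true false K.X y' z f' (K.g0 true (K.m1 + 1)) b1 a3 c1 c2 c3
      (a2'.trans dt_tf)
    exact absurd this (by decide)
  · exact ⟨φ (K.g0 false K.m1), φ (K.w false), hf', hdf', hdy', hwalk⟩
  · exact ⟨φ (K.g0 false K.m1), φ (K.w false), hf', hdf', hdy'.trans hdt2.symm, hwalk⟩
  · exact ⟨K.g0 true K.m1, K.w true, (K.adj0 true K.m1 le_rfl).symm, rfl, rfl,
      rch_rev (K.adj_w true) (KMx_w K true)⟩

end

theorem sk_mixed {V : Type} [Finite V] {H : SimpleGraph V} {X : V} {T : Typ H}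
    (hT : STyp H X T) (h3 : ∀ v, 3 ≤ (H.neighborSet v).ncard)
    (h4 : 4 ≤ (H.neighborSet X).ncard) {P1 P2 Q : V} (h1 : H.Adj X P1) (h2 : H.Adj X P2)
    (hQ : H.Adj X Q) (hne : P1 ≠ P2) (hP : ∃ φ : H ≃g H, φ X = X ∧ φ P1 = P2)
    (hd : ¬ ∃ φ : H ≃g H, φ X = X ∧ φ P1 = Q) : ∃ D : SK T, D.X = X := by
  have hvt : T.vt Q ≠ T.vt P1 := by
    intro h
    exact hd (styp_vt hT h.symm)
  obtain ⟨K, hKX, hKw⟩ := triT T h3 (X := X) (w := fun b => if b then Q else P1) (by
    intro b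
    cases b
    · exact h1
    · exact hQ) hvt
  subst hKX
  have hwt : K.w true = Q := by rw [hKw]; rfl
  have hwf : K.w false = P1 := by rw [hKw]; rfl
  subst hwt
  subst hwf
  exact KMx_main K hT h4 h2 hne hP hd

end Pool.Agent.LHC
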