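import Pool.Agent.LHC.Defs
import Pool.Agent.LHA.Nb1
import Pool.Agent.LHA.Nb2
import Pool.Agent.LHA.Gx

/-!
# The clause gadget for a given vertex of maximal degree

The proof of `LHA.gx` (`LHA/Gx.lean`) with the given vertex `X` (there `X` is a vertex of maximal degree; only this is used).
-/

namespace Pool.Agent.LHC

open Pool.Agent.LIH Pool.Agent.LHA Pool.Agent.LHB

theorem gx_max {V : Type} [Finite V] {H : SimpleGraph V}
    (h3 : ∀ v, 3 ≤ (H.neighborSet v).ncard) {X : V} (h4 : 4 ≤ (H.neighborSet X).ncard)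
    (hmax : ∀ v, (H.neighborSet v).ncard ≤ (H.neighborSet X).ncard) :
    ∃ (j : ℕ) (v w w' Y0 Y1 Y2 : V), 0 < j ∧ H.Adj v w ∧ H.Adj v w' ∧ w ≠ w' ∧ Y1 ≠ Y2 ∧
      Rch H j v w Y1 X ∧ Rch H j v w Y2 X ∧ ¬ Rch H j v w Y0 X ∧ Rch H j v w' Y0 X := by
  classical
  by_contra hcon
  have hX := hmax
  have hX4 := h4
  obtain ⟨M, hM⟩ := nb_all h3
  have h2 : ∀ v, 2 ≤ (H.neighborSet v).ncard := fun v => le_trans (by norm_num) (h3 v)
  -- (3)
  have key : ∀ (i : ℕ) (v w w' : V), H.Adj v w → H.Adj v w' → (gxA H X i v w).Nontrivial →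
      gxA H X i v w' ⊆ gxA H X i v w := by
    intro i v w w' hw hw' hnt Y0 hY0
    by_contra hn
    obtain ⟨Y1, hY1, Y2, hY2, hne⟩ := hnt
    apply hcon
    refine ⟨i, v, w, w', Y0, Y1, Y2, ?_, hw, hw', ?_, hne, hY1, hY2, hn, hY0⟩
    · rcases Nat.eq_zero_or_pos i with h0 | h0
      · subst h0
        exact absurd ⟨Y1, hY1, Y2, hY2, hne⟩ gxA_zero
      · exact h0
    · rintro rfl
      exact hn hY0
  -- (1)
  have hex : ∃ j : ℕ, ∃ x y, H.Adj x y ∧ (gxA H X j x y).Nontrivial := by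
    have hne : (H.neighborSet X).Nonempty := by
      rw [← Set.ncard_pos (Set.toFinite _)]
      omega
    obtain ⟨y, hy⟩ := hne
    have hy' : H.Adj X y := hy
    refine ⟨2 * M + 1, X, y, hy', ?_⟩
    have hsub : H.neighborSet X ⊆ gxA H X (2 * M + 1) X y := by
      intro a ha
      have ha' : H.Adj a X := (show H.Adj X a from ha).symm
      refine (hM (2 * M + 1) (by omega) X y a X hy' ha').2 ?_
      refine ⟨SimpleGraph.Walk.cons hy'.symm SimpleGraph.Walk.nil, ?_⟩
      simp only [SimpleGraph.Walk.length_cons, SimpleGraph.Walk.length_nil]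
      omega
    have hnt : (H.neighborSet X).Nontrivial := by
      rw [← Set.one_lt_ncard_iff_nontrivial]
      omega
    exact hnt.mono hsub
  -- (2)
  obtain ⟨x, y, hxy, hnt⟩ := Nat.find_spec hex
  have hmin : ∀ i, i < Nat.find hex → ∀ x y, H.Adj x y → ¬ (gxA H X i x y).Nontrivial := by
    intro i hi x y h hn
    exact Nat.find_min hex hi ⟨x, y, h, hn⟩
  generalize Nat.find hex = j at hnt hmin
  obtain ⟨j', rfl⟩ : ∃ j', j = j' + 1 := by
    rcases Nat.eq_zero_or_pos j with h0 | h0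
    · subst h0
      exact absurd hnt gxA_zero
    · exact ⟨j - 1, by omega⟩
  have hcard : (gxA H X (j' + 1) x y).ncard < (H.neighborSet X).ncard := by
    have hch : ∀ Y ∈ gxA H X (j' + 1) x y, ∃ z, H.Adj y z ∧ z ≠ x ∧ Y ∈ gxA H X j' y z :=
      fun Y hY => (gxA_succ hxy Y).1 hY
    choose! z hz1 hz2 hz3 using hch
    have hle : (gxA H X (j' + 1) x y).ncard ≤ (H.neighborSet y \ {x}).ncard := by
      refine Set.ncard_le_ncard_of_injOn z ?_ ?_ (Set.toFinite _)
      · intro Y hY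
        exact ⟨hz1 Y hY, hz2 Y hY⟩
      · intro Y hY Y' hY' he
        by_contra hne
        refine hmin j' (by omega) y (z Y) (hz1 Y hY) ⟨Y, hz3 Y hY, Y', ?_, hne⟩
        rw [he]
        exact hz3 Y' hY'
    have hlt : (H.neighborSet y \ {x}).ncard < (H.neighborSet y).ncard :=
      Set.ncard_sdiff_singleton_lt_of_mem (show x ∈ H.neighborSet y from hxy.symm) (Set.toFinite _)
    have hX' := hX y

    omega
  -- (4)
  have hclaim : ∀ (i : ℕ) (x' y' : V), H.Adj x' y' → Rch H i x' y' x y →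
      gxA H X (j' + 1 + i) x' y' = gxA H X (j' + 1) x y := by
    intro i
    induction i with
    | zero =>
      intro x' y' h hr
      obtain ⟨h1, h2⟩ := hr
      subst h1
      subst h2
      rfl
    | succ i ih =>
      intro x' y' h hr
      obtain ⟨z, hz, hzx, hr'⟩ := (rch_front h).1 hr
      have hS := ih y' z hz hr'
      ext Y
      rw [← Nat.add_assoc, gxA_succ h]
      constructor
      · rintro ⟨z', hz', -, hY⟩
        rw [← hS]
        refine key (j' + 1 + i) y' z z' hz hz' ?_ hY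
        rw [hS]
        exact hnt
      · intro hY
        refine ⟨z, hz, hzx, ?_⟩
        rw [hS]
        exact hY
  -- (5)
  obtain ⟨x', y', hx'y', hr⟩ := rch_pred h2 M hxy
  have hS := hclaim M x' y' hx'y' hr
  obtain ⟨Y, hY⟩ := hnt.nonempty
  have hsub : H.neighborSet X ⊆ gxA H X (j' + 1) x y := by
    intro Y' hY'
    rw [← hS] at hY ⊢
    have hpw := (hM (j' + 1 + M) (by omega) x' y' Y X hx'y'
      (gxA_sub hx'y' hY : H.Adj X Y).symm).1 hY
    exact (hM (j' + 1 + M) (by omega) x' y' Y' X hx'y'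
      (show H.Adj X Y' from hY').symm).2 hpw
  have := Set.ncard_le_ncard hsub (Set.toFinite _)
  omega


end Pool.Agent.LHC
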