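import Pool.Agent.LHC.Defs
import Pool.Agent.LHC.StB
import Pool.Agent.LHC.RvR
import Pool.Agent.LHC.KGx
import Pool.Agent.LHA.Nb1
import Pool.Agent.LHB.TBas
import Pool.Agent.LHB.TriT

/-!
# The data of part B, all neighbours of `X` are fixed

`gx_max` gives `j, v, w0 = w, w1 = w', Y0, Y1, Y2` with `Y1 ≠ Y2`, `Rch j v w0 Y1 X`, `Rch j v w0 Y2 X`, not `Rch j v w0 Y0 X`, `Rch j v w1 Y0 X`; the `Yi` are neighbours of `X` (`rch_adj`) and `Y0 ≠ Y1, Y2`. `w true = Y0`, `w false = Y1`, `T.vt Y0 ≠ T.vt Y1` (`styp_vt`, `hfix`). `triT` gives `K : TK T`. `tf`, `sf`: `Typ.ext0` (from `vt_u`, `vt_U`).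
`f true = w1`, `f false = w0`, `Y = ![Y0, Y1, Y2]`. If `T.dt X y' = T.dt X Yi` and `y' ∼ X` then `y' = Yi` (`styp_dt`, `hfix`). `dt_f`: if `T.dt v w1 = T.dt v w0` take `φ` with `φ X = X`, `φ v = v`, `φ w1 = w0` (`styp_dt`); `rch_map`: `Rch j v w0 (φ Y0) X` and `φ Y0 = Y0`: contradiction. `re0`: let `f', y'` be as in `ReT`: `y' = Y0` (it is a neighbour of `X` by `rch_adj`),
`φ` with `φ X = X`, `φ v = v`, `φ f' = w0`: `Rch j v w0 Y0 X`: contradiction. `re1`, `re2`, `re3`: `f' = f _`, `y' = Y _`. `free_Y`: `h4`.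
-/

namespace Pool.Agent.LHC

open Pool.Agent.LIH Pool.Agent.LHA Pool.Agent.LHB

theorem sk_rainbow {V : Type} [Finite V] {H : SimpleGraph V} {X : V} {T : Typ H}
    (hT : STyp H X T) (h3 : ∀ v, 3 ≤ (H.neighborSet v).ncard)
    (h4 : 4 ≤ (H.neighborSet X).ncard)
    (hmax : ∀ v, (H.neighborSet v).ncard ≤ (H.neighborSet X).ncard)
    (hfix : ∀ φ : H ≃g H, φ X = X → ∀ y, H.Adj X y → φ y = y) : ∃ D : SK T, D.X = X := by
  obtain ⟨j, v, w0, w1, Y0, Y1, Y2, hj, hvw0, hvw1, -, hY12, r1, r2, r0n, r0⟩ := gx_max h3 h4 hmax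
  have hXY1 : H.Adj X Y1 := (rch_adj hvw0 r1).symm
  have hXY2 : H.Adj X Y2 := (rch_adj hvw0 r2).symm
  have hXY0 : H.Adj X Y0 := (rch_adj hvw1 r0).symm
  have hY01 : Y0 ≠ Y1 := by
    rintro rfl
    exact r0n r1
  have hY02 : Y0 ≠ Y2 := by
    rintro rfl
    exact r0n r2
  have hvt : T.vt Y0 ≠ T.vt Y1 := by
    intro h
    obtain ⟨φ, h1, h2⟩ := styp_vt hT h
    rw [hfix φ h1 Y0 hXY0] at h2
    exact hY01 h2
  have huniq : ∀ y y', H.Adj X y' → T.dt X y' = T.dt X y → y' = y := by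
    intro y y' ha hd
    obtain ⟨φ, h1, -, h2⟩ := styp_dt hT hd
    rw [hfix φ h1 y' ha] at h2
    exact h2
  obtain ⟨K, hKX, hKw⟩ := triT T h3 (X := X) (w := fun b => cond b Y0 Y1)
    (by intro b; cases b; exacts [hXY1, hXY0]) hvt
  obtain ⟨tf, hatf, hdtf⟩ := T.ext0 K.vt_u.symm (K.adj0 false K.m1 le_rfl).symm
  obtain ⟨sf, hasf, hdsf⟩ := T.ext0 K.vt_U.symm (K.adj1 false K.m2 le_rfl).symm
  subst hKX
  have hmap : ∀ (φ : H ≃g H) (f' : V), φ K.X = K.X → φ v = v → φ f' = w0 → Rch H j v f' Y0 K.X →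
      False := by
    intro φ f' h1 h2 h3 hr
    have h4 := rch_map φ hr
    rw [h1, h2, h3, hfix φ h1 Y0 hXY0] at h4
    exact r0n h4
  refine ⟨{ toTK := K
            tf := tf
            adj_tf := hatf
            dt_tf := hdtf
            sf := sf
            adj_sf := hasf
            dt_sf := hdsf
            v := v
            f := fun b => cond b w1 w0
            j := j
            Y := ![Y0, Y1, Y2]
            j_pos := hj
            adj_f := by intro b; cases b; exacts [hvw0, hvw1]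
            dt_f := ?_
            adj_Y := ?_
            inj_Y := ?_
            Y0 := ?_
            Y1 := ?_
            dt_Y2 := ?_
            free_Y := ?_
            re0 := ?_
            re1 := ⟨w0, Y1, hvw0, rfl, rfl, r1⟩
            re2 := ⟨w0, Y2, hvw0, rfl, rfl, r2⟩
            re3 := ⟨w1, Y0, hvw1, rfl, rfl, r0⟩ }, rfl⟩
  · intro h
    have h' : T.dt v w1 = T.dt v w0 := h
    obtain ⟨φ, h1, h2, h5⟩ := styp_dt hT h'
    exact hmap φ w1 h1 h2 h5 r0
  · intro i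
    fin_cases i
    · exact hXY0
    · exact hXY1
    · exact hXY2
  · intro a b hab
    fin_cases a <;> fin_cases b
    · rfl
    · exact absurd hab hY01
    · exact absurd hab hY02
    · exact absurd hab hY01.symm
    · rfl
    · exact absurd hab hY12
    · exact absurd hab hY02.symm
    · exact absurd hab hY12.symm
    · rfl
  · rw [hKw]
    rfl
  · rw [hKw]
    rfl
  · intro h
    have h' : T.dt K.X Y2 = T.dt K.X Y0 := h
    exact hY02 (huniq _ _ hXY2 h').symm
  · by_contra hcon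
    push Not at hcon
    have hsub : H.neighborSet K.X ⊆ {Y0, Y1, Y2} := by
      intro z hz
      obtain ⟨i, hi⟩ := hcon z hz
      fin_cases i
      · exact Or.inl hi
      · exact Or.inr (Or.inl hi)
      · exact Or.inr (Or.inr hi)
    have h1 := Set.ncard_le_ncard hsub (Set.toFinite _)
    have h2 := Set.ncard_insert_le Y0 {Y1, Y2}
    have h5 := Set.ncard_insert_le Y1 {Y2}
    rw [Set.ncard_singleton] at h5
    omega
  · rintro ⟨f', y', ha, hd, hdX, hr⟩
    have h1 : y' = Y0 := huniq _ _ (rch_adj ha hr).symm hdX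
    subst h1
    have h' : T.dt v f' = T.dt v w0 := hd
    obtain ⟨φ, h1, h2, h5⟩ := styp_dt hT h'
    exact hmap φ f' h1 h2 h5 hr

end Pool.Agent.LHC
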