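import Pool.Agent.LHC.Defs

/-!
# The types given by the stabiliser

The relations `∃ φ : H ≃g H, φ X = X ∧ φ x = x'` on `V` and `∃ φ, φ X = X ∧ φ x = x' ∧ φ y = y'` on `V × V` are equivalence relations (identity, `φ.symm`, `φ.trans ψ`). Let `vt`, `dt`
be the numbers of the classes: a `Setoid`, its finite quotient, `Finite.equivFin`. `rev`: by the characterisation. `star`: let `φ` be an automorphism with `φ X = X`,
`φ x = x'`; `z ↦ φ z` is a bijection from `N(x) ∩ {dt x = θ}` to `N(x') ∩ {dt x' = θ}` because `dt x z = dt x' (φ z)` (inverse `φ.symm`).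
-/

namespace Pool.Agent.LHC

open Pool.Agent.LIH Pool.Agent.LHA Pool.Agent.LHB

theorem OrbT_num {α : Type} [Finite α] (s : Setoid α) : ∃ f : α → ℕ, ∀ a b, f a = f b ↔ s.r a b := by
  refine ⟨fun a => ((Finite.equivFin (Quotient s)) (Quotient.mk s a)).1, fun a b => ?_⟩
  constructor
  · intro h
    have h1 := (Finite.equivFin (Quotient s)).injective (Fin.ext h)
    exact Quotient.exact h1
  · intro h
    have h1 : Quotient.mk s a = Quotient.mk s b := Quotient.sound h
    show ((Finite.equivFin (Quotient s)) (Quotient.mk s a)).1 = ((Finite.equivFin (Quotient s)) (Quotient.mk s b)).1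
    rw [h1]

theorem styp_exists {V : Type} [Finite V] (H : SimpleGraph V) (X : V) :
    ∃ T : Typ H, STyp H X T := by
  obtain ⟨vt, hvt⟩ := OrbT_num (α := V)
    { r := fun x x' => ∃ φ : H ≃g H, φ X = X ∧ φ x = x'
      iseqv :=
        { refl := fun x => ⟨RelIso.refl _, rfl, rfl⟩
          symm := by
            rintro x x' ⟨φ, h1, h2⟩
            exact ⟨φ.symm, by rw [← h1, φ.symm_apply_apply, h1], by rw [← h2, φ.symm_apply_apply]⟩
          trans := by
            rintro x x' x'' ⟨φ, h1, h2⟩ ⟨ψ, h3, h4⟩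
            exact ⟨φ.trans ψ, by rw [RelIso.trans_apply, h1, h3], by rw [RelIso.trans_apply, h2, h4]⟩ } }
  obtain ⟨dt, hdt⟩ := OrbT_num (α := V × V)
    { r := fun x x' => ∃ φ : H ≃g H, φ X = X ∧ φ x.1 = x'.1 ∧ φ x.2 = x'.2
      iseqv :=
        { refl := fun x => ⟨RelIso.refl _, rfl, rfl, rfl⟩
          symm := by
            rintro x x' ⟨φ, h1, h2, h2'⟩
            exact ⟨φ.symm, by rw [← h1, φ.symm_apply_apply, h1], by rw [← h2, φ.symm_apply_apply],
              by rw [← h2', φ.symm_apply_apply]⟩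
          trans := by
            rintro x x' x'' ⟨φ, h1, h2, h2'⟩ ⟨ψ, h3, h4, h4'⟩
            exact ⟨φ.trans ψ, by rw [RelIso.trans_apply, h1, h3], by rw [RelIso.trans_apply, h2, h4],
              by rw [RelIso.trans_apply, h2', h4']⟩ } }
  have hvt' : ∀ x x', vt x = vt x' ↔ ∃ φ : H ≃g H, φ X = X ∧ φ x = x' := hvt
  have hdt' : ∀ x y x' y', dt (x, y) = dt (x', y') ↔ ∃ φ : H ≃g H, φ X = X ∧ φ x = x' ∧ φ y = y' :=
    fun x y x' y' => hdt (x, y) (x', y')
  refine ⟨⟨vt, fun x y => dt (x, y), ?_, ?_⟩, ⟨hvt', hdt'⟩⟩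
  · intro x y x' y' _ _ h
    obtain ⟨φ, h1, h2, h3⟩ := (hdt' _ _ _ _).1 h
    exact ⟨(hvt' _ _).2 ⟨φ, h1, h2⟩, (hdt' _ _ _ _).2 ⟨φ, h1, h3, h2⟩⟩
  · intro x x' h θ
    obtain ⟨φ, h1, h2⟩ := (hvt' _ _).1 h
    have h3 : H.neighborSet x' ∩ {y | dt (x', y) = θ} = φ '' (H.neighborSet x ∩ {y | dt (x, y) = θ}) := by
      ext z
      simp only [Set.mem_inter_iff, SimpleGraph.mem_neighborSet, Set.mem_setOf_eq, Set.mem_image]
      have hz : φ (φ.symm z) = z := φ.apply_symm_apply z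
      have hd : dt (x, φ.symm z) = dt (x', z) := (hdt' _ _ _ _).2 ⟨φ, h1, h2, hz⟩
      constructor
      · rintro ⟨h4, h5⟩
        refine ⟨φ.symm z, ⟨?_, ?_⟩, hz⟩
        · rw [← φ.map_adj_iff, h2, hz]
          exact h4
        · rw [hd]
          exact h5
      · rintro ⟨w, ⟨h4, h5⟩, rfl⟩
        refine ⟨?_, ?_⟩
        · rw [← h2, φ.map_adj_iff]
          exact h4
        · rw [← h5]
          exact ((hdt' _ _ _ _).2 ⟨φ, h1, h2, rfl⟩).symm
    rw [h3, Set.ncard_image_of_injective _ φ.injective]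

end Pool.Agent.LHC
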