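import Pool.Agent.LHC.Defs
import Pool.Agent.LHC.EqB
import Pool.Agent.LHC.SpL

/-!
# The ports at `X`

Write `y ~ y'` if there is an automorphism `φ` with `φ X = X`, `φ y = y'` (an equivalence relation; the class of a neighbour of `X` consists of neighbours of `X`).
If `y ~ y'` then `EqE H X y X y'`. It is enough to find `c0, c1, e` with `c0 ≠ c1` neighbours of `X`, `e b` neighbours of `X` different from them, `{X, e true}`, `{X, e false}` not
equivalent and either (i) not `c0 ~ c1`, or (ii) the class of `c0` is the class of `c1` and has at least 3 elements (`sp_diff`, `sp_three`).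
Let `R = N(X)` without `y, y'` (`y ≠ y'` by `hn` and `eqe_refl`): at least two elements. If `R` contains two elements `c0, c1` with not `c0 ~ c1`: (i) with `e = (y, y')`. Otherwise all elements of `R` are
equivalent; let `O` be their class, `c0 ≠ c1` in `R`. If `O` has at least 3 elements: (ii) with `e = (y, y')`. Otherwise `O = {c0, c1} = R`, so `y, y' ∉ O`. `c0` is not `EqE` to both `y` and `y'`
(otherwise `EqE H X y X y'` by `eqe_symm`, `eqe_trans`). Say not `EqE H X c0 X y` (the other case is the same with `y'`): use `e true = c0`, `e false = y` and the ports `c1`, `y'`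
(not `c1 ~ y'` since `y' ∉ O`): (i).
-/

namespace Pool.Agent.LHC

open Pool.Agent.LIH Pool.Agent.LHA Pool.Agent.LHB

theorem PortB_mk {V : Type} [Finite V] {H : SimpleGraph V} {X c0 c1 : V} (e : Bool → V)
    (h0 : H.Adj X c0) (h1 : H.Adj X c1) (he : ∀ b, H.Adj X (e b)) (hc : c0 ≠ c1)
    (n0 : ∀ b, e b ≠ c0) (n1 : ∀ b, e b ≠ c1) (hn : ¬ EqE H X (e true) X (e false))
    (hs : (¬ ∃ φ : H ≃g H, φ X = X ∧ φ c1 = c0) ∨
      (3 ≤ {z | ∃ φ : H ≃g H, φ X = X ∧ φ c0 = z}.ncard ∧
        3 ≤ {z | ∃ φ : H ≃g H, φ X = X ∧ φ c1 = z}.ncard)) : Nonempty (DP H X) := by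
  refine ⟨⟨c0, c1, e, h0, h1, he, hc, n0, n1, hn, ?_⟩⟩
  intro g g' hg hg'
  rcases hs with hs | ⟨hs0, hs1⟩
  · exact sp_diff hs g g' hg hg'
  · exact sp_three hs0 hs1 _ _

theorem dp_exists {V : Type} [Finite V] {H : SimpleGraph V} {X : V}
    (h4 : 4 ≤ (H.neighborSet X).ncard) {y y' : V} (hy : H.Adj X y) (hy' : H.Adj X y')
    (hn : ¬ EqE H X y X y') : Nonempty (DP H X) := by
  classical
  have hyy : y ≠ y' := by
    rintro rfl
    exact hn (eqe_refl _ _)
  have hR : 2 ≤ (H.neighborSet X \ {y, y'}).ncard := by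
    have h1 := Set.ncard_le_ncard_sdiff_add_ncard (H.neighborSet X) {y, y'} (Set.toFinite _)
    rw [Set.ncard_pair hyy] at h1
    omega
  obtain ⟨c0, hc0, c1, hc1, hcc⟩ := (Set.one_lt_ncard (Set.toFinite _)).1 (Nat.lt_of_succ_le hR)
  have mem : ∀ c ∈ H.neighborSet X \ {y, y'}, H.Adj X c ∧ c ≠ y ∧ c ≠ y' := by
    intro c hc
    refine ⟨hc.1, ?_, ?_⟩
    · rintro rfl; exact hc.2 (Set.mem_insert _ _)
    · rintro rfl; exact hc.2 (Set.mem_insert_of_mem _ rfl)
  by_cases hA : ∃ a ∈ H.neighborSet X \ {y, y'}, ∃ b ∈ H.neighborSet X \ {y, y'},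
      ¬ ∃ φ : H ≃g H, φ X = X ∧ φ b = a
  · obtain ⟨a, ha, b, hb, hab⟩ := hA
    obtain ⟨a1, a2, a3⟩ := mem a ha
    obtain ⟨b1, b2, b3⟩ := mem b hb
    refine PortB_mk (fun i => if i then y else y') a1 b1 ?_ ?_ ?_ ?_ hn (Or.inl hab)
    · intro i; cases i
      · exact hy'
      · exact hy
    · rintro rfl
      exact hab ⟨SimpleGraph.Iso.refl, rfl, rfl⟩
    · intro i; cases i
      · exact a3.symm
      · exact a2.symm
    · intro i; cases i
      · exact b3.symm
      · exact b2.symm
  · have hB : ∀ a ∈ H.neighborSet X \ {y, y'}, ∀ b ∈ H.neighborSet X \ {y, y'},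
        ∃ φ : H ≃g H, φ X = X ∧ φ b = a := by
      intro a ha b hb
      by_contra h
      exact hA ⟨a, ha, b, hb, h⟩
    obtain ⟨p1, p2, p3⟩ := mem c0 hc0
    obtain ⟨q1, q2, q3⟩ := mem c1 hc1
    obtain ⟨φ, f1, f2⟩ := hB c1 hc1 c0 hc0
    have f1' : φ.symm X = X := by
      rw [RelIso.symm_apply_eq]; exact f1.symm
    have f2' : φ.symm c1 = c0 := by
      rw [RelIso.symm_apply_eq]; exact f2.symm
    by_cases h3 : 3 ≤ {z | ∃ φ : H ≃g H, φ X = X ∧ φ c0 = z}.ncard
    · have hs : {z | ∃ φ : H ≃g H, φ X = X ∧ φ c1 = z} = {z | ∃ φ : H ≃g H, φ X = X ∧ φ c0 = z} := by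
        ext z
        constructor
        · rintro ⟨ψ, g1, g2⟩
          refine ⟨φ.trans ψ, ?_, ?_⟩
          · show ψ (φ X) = X
            rw [f1, g1]
          · show ψ (φ c0) = z
            rw [f2, g2]
        · rintro ⟨ψ, g1, g2⟩
          refine ⟨φ.symm.trans ψ, ?_, ?_⟩
          · show ψ (φ.symm X) = X
            rw [f1', g1]
          · show ψ (φ.symm c1) = z
            rw [f2', g2]
      refine PortB_mk (fun i => if i then y else y') p1 q1 ?_ hcc ?_ ?_ hn (Or.inr ⟨h3, by rw [hs]; exact h3⟩)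
      · intro i; cases i
        · exact hy'
        · exact hy
      · intro i; cases i
        · exact p3.symm
        · exact p2.symm
      · intro i; cases i
        · exact q3.symm
        · exact q2.symm
    · have hO : ∀ z, (∃ φ : H ≃g H, φ X = X ∧ φ c0 = z) → z = c0 ∨ z = c1 := by
        intro z hz
        by_contra hne
        rw [not_or] at hne
        apply h3
        have hsub : ({z, c0, c1} : Set V) ⊆ {z | ∃ φ : H ≃g H, φ X = X ∧ φ c0 = z} := by
          rintro w (rfl | rfl | rfl)
          · exact hz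
          · exact ⟨SimpleGraph.Iso.refl, rfl, rfl⟩
          · exact ⟨φ, f1, f2⟩
        have hcard : ({z, c0, c1} : Set V).ncard = 3 := by
          rw [Set.ncard_eq_three]
          exact ⟨z, c0, c1, hne.1, hne.2, hcc, rfl⟩
        have := Set.ncard_le_ncard hsub (Set.toFinite _)
        omega
      have key : ∀ u u' : V, H.Adj X u → H.Adj X u' → u ≠ u' → c0 ≠ u' → c1 ≠ u' → c1 ≠ u →
          ¬ EqE H X c0 X u → Nonempty (DP H X) := by
        intro u u' hu hu' huu h1 h2 h3 hE
        refine PortB_mk (c0 := c1) (c1 := u') (fun i => if i then c0 else u) q1 hu' ?_ h2 ?_ ?_ hE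
          (Or.inl ?_)
        · intro i; cases i
          · exact hu
          · exact p1
        · intro i; cases i
          · exact h3.symm
          · exact hcc
        · intro i; cases i
          · exact huu
          · exact h1
        · rintro ⟨ψ, g1, g2⟩
          have g1' : ψ.symm X = X := by
            rw [RelIso.symm_apply_eq]; exact g1.symm
          have g2' : ψ.symm c1 = u' := by
            rw [RelIso.symm_apply_eq]; exact g2.symm
          rcases hO u' ⟨φ.trans ψ.symm, by
            show ψ.symm (φ X) = X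
            rw [f1, g1'], by
            show ψ.symm (φ c0) = u'
            rw [f2, g2']⟩ with h | h
          · exact h1 h.symm
          · exact h2 h.symm
      by_cases hE : EqE H X c0 X y
      · by_cases hE' : EqE H X c0 X y'
        · exact absurd (eqe_trans (eqe_symm hE) hE') hn
        · exact key y' y hy' hy hyy.symm p2 q2 q3 hE'
      · exact key y y' hy hy' hyy p3 q3 q2 hE

end Pool.Agent.LHC
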