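import Pool.Agent.LHC.Defs
import Pool.Agent.LHC.CutL
import Pool.Agent.LHC.OrbT
import Pool.Agent.LHC.EdgT
import Pool.Agent.LHC.PortB
import Pool.Agent.LHC.AEx
import Pool.Agent.LHC.AFi
import Pool.Agent.LHC.KMx
import Pool.Agent.LHC.KRb
import Pool.Agent.LHC.BFi
import Pool.Agent.LIH.Member

/-!
# The theorem
-/

namespace Pool.Agent.LHC

open Pool.Agent.LIH Pool.Agent.LHA Pool.Agent.LHB

open NPC in
theorem npc3 {n : ℕ} {H : SimpleGraph (Fin n)}
    (h : ∀ s : Set (Sym2 (Fin n)), s.ncard ≤ 2 → (H.deleteEdges s).Connected)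
    (hr : ∃ x y, (H.neighborSet x).ncard ≠ (H.neighborSet y).ncard) :
    NPComplete (LIHOM H) := by
  have he := ec3_of_def h
  obtain ⟨x, y, hxy⟩ := hr
  have hne : x ≠ y := by
    rintro rfl
    exact hxy rfl
  have hne' : Nonempty (Fin n) := ⟨x⟩
  have hc := ec_conn he
  have h3 : ∀ v, 3 ≤ (H.neighborSet v).ncard := by
    intro v
    by_cases hv : v = x
    · exact ec_deg he (y := y) (by rw [hv]; exact hne.symm)
    · exact ec_deg he (y := x) (Ne.symm hv)
  obtain ⟨X, hX⟩ := Finite.exists_max (fun v => (H.neighborSet v).ncard)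
  have hz : ∃ z, (H.neighborSet z).ncard ≠ (H.neighborSet X).ncard := by
    by_contra hcon
    push Not at hcon
    exact hxy ((hcon x).trans (hcon y).symm)
  have h4 : 4 ≤ (H.neighborSet X).ncard := by
    obtain ⟨z, hz⟩ := hz
    have h1 := h3 z
    have h2 := hX z
    omega
  refine ⟨lihom_mem_np H, fun L hL => ?_⟩
  by_cases htr : ∀ z z', H.Adj X z → H.Adj X z' → ∃ φ : H ≃g H, φ X = X ∧ φ z = z'
  · obtain ⟨D, hD⟩ := da_exists h3 h4 htr
    exact npc_A he hc D (by rw [hD]; exact h4) hL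
  · push Not at htr
    obtain ⟨y1, y2, hy1, hy2, hn⟩ := htr
    have hn' : ¬ ∃ φ : H ≃g H, φ X = X ∧ φ y1 = y2 := by
      rintro ⟨φ, h1, h2⟩
      exact hn φ h1 h2
    obtain ⟨z, z', hz1, hz2, hzz⟩ := edge_two hc hy1 hy2 hn' hz
    obtain ⟨P⟩ := dp_exists h4 hz1 hz2 hzz
    obtain ⟨T, hT⟩ := styp_exists H X
    have hD : ∃ D : SK T, D.X = X := by
      by_cases hfix : ∀ φ : H ≃g H, φ X = X → ∀ y, H.Adj X y → φ y = y
      · exact sk_rainbow hT h3 h4 hX hfix
      · push Not at hfix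
        obtain ⟨φ, hφ, P1, hP1, hP2⟩ := hfix
        have hadj : H.Adj X (φ P1) := by
          have := φ.map_adj_iff.2 hP1
          rwa [hφ] at this
        by_cases h1 : ∃ ψ : H ≃g H, ψ X = X ∧ ψ P1 = y1
        · refine sk_mixed hT h3 h4 hP1 hadj hy2 (Ne.symm hP2) ⟨φ, hφ, rfl⟩ ?_
          rintro ⟨ψ', h2, h3'⟩
          obtain ⟨ψ, h4', h5⟩ := h1
          apply hn'
          refine ⟨ψ.symm.trans ψ', ?_, ?_⟩
          · show ψ' (ψ.symm X) = X
            rw [show ψ.symm X = X from by rw [RelIso.symm_apply_eq]; exact h4'.symm, h2]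
          · show ψ' (ψ.symm y1) = y2
            rw [show ψ.symm y1 = P1 from by rw [RelIso.symm_apply_eq]; exact h5.symm, h3']
        · exact sk_mixed hT h3 h4 hP1 hadj hy1 (Ne.symm hP2) ⟨φ, hφ, rfl⟩ h1
    obtain ⟨D, hDX⟩ := hD
    subst hDX
    exact npc_B he hc h3 D hT P hL

end Pool.Agent.LHC
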